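import Mathlib

/-!
# Definitions for the dense case of the crossing-line problem
-/

namespace Pool.Agent.H994E

open Finset

/-- The position of the `i`-th grid point: `lam 0 + ... + lam (i-1)`. -/
def Pos (lam : ℕ → ℝ) (i : ℕ) : ℝ := ∑ l ∈ range i, lam l

/-- The `lam`-mass of the part of the window `[i, i + M)` on which `S` is true. -/
def Dw (M : ℕ) (lam : ℕ → ℝ) (S : ℕ → Bool) (i : ℕ) : ℝ :=
  ∑ l ∈ range M, if S (i + l) = true then lam (i + l) else 0

/-- The distance of `x` and `y` on the circle of length `2`. -/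
noncomputable def cd (x y : ℝ) : ℝ := |x - y - 2 * round ((x - y) / 2)|

/-- A weight of period `M` and total mass `1`. -/
structure Wt (M : ℕ) (lam : ℕ → ℝ) : Prop where
  Mpos : 0 < M
  nonneg : ∀ j, 0 ≤ lam j
  per : ∀ j, lam (j + M) = lam j
  sum : ∑ l ∈ range M, lam l = 1

/-- The measure `ν` (on `range (2 * M)`) dominates the profile of `S`, up to `ε`. -/
def Bal (M : ℕ) (lam : ℕ → ℝ) (S : ℕ → Bool) (ν : ℕ → ℝ) (ε : ℝ) : Prop :=
  ∀ t : ℝ, t ≤ 1 / 2 → ∀ i : ℕ,
    t - Dw M lam S i ≤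
      ∑ j ∈ range (2 * M), ν j * max 0 (t - cd (Pos lam j) (Pos lam i)) + ε

/-- The weight of the pairs separated by the cut `f`. -/
def cutB {V : Type*} [Fintype V] (A : V → V → ℝ) (f : V → Bool) : ℝ :=
  ∑ u, ∑ v, if f u = true ∧ f v = false then A u v else 0

/-- The weight of the pairs separated by the fractional cut `h`. -/
def cutW {V : Type*} [Fintype V] (A : V → V → ℝ) (h : V → ℝ) : ℝ :=
  ∑ u, ∑ v, A u v * (h u * (1 - h v))

/-- A full turn of balanced cuts of `I`; `M` is half a turn. -/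
structure CutSeq (I : Type*) [Fintype I] (M : ℕ) (F : ℕ → I → Bool) (b : ℝ) : Prop where
  Mpos : 0 < M
  anti : ∀ j p, F (j + M) p = !F j p
  bal : ∀ j, 2 * (univ.filter (fun p => F j p = true)).card = Fintype.card I
  flip : ∀ j, ((univ.filter (fun p => F j p ≠ F (j + 1) p)).card : ℝ) ≤ b
  ord : ∀ p p', ∃ q, ∀ l, l < M → F (q + l) p' = true → F (q + l) p = true

/-- Half a turn of balanced cuts of `I`. -/
structure HalfSeq (I : Type*) [Fintype I] (M : ℕ) (F : ℕ → I → Bool) (b : ℝ) : Prop where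
  Mpos : 0 < M
  turn : ∀ p, F M p = !F 0 p
  bal : ∀ j, j < M → 2 * (univ.filter (fun p => F j p = true)).card = Fintype.card I
  flip : ∀ j, j < M → ((univ.filter (fun p => F j p ≠ F (j + 1) p)).card : ℝ) ≤ b
  ord : ∀ p p', ∃ q, q ≤ M ∧
    (((∀ j, j < q → F j p = true → F j p' = true) ∧
        (∀ j, q ≤ j → j < M → F j p' = true → F j p = true)) ∨
      ((∀ j, j < q → F j p' = true → F j p = true) ∧
        (∀ j, q ≤ j → j < M → F j p = true → F j p' = true)))

/-- Half a turn of halving lines: `H i v / 2` is the part of `v` above the `i`-th line. -/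
structure HalfTurn {V : Type*} [Fintype V] (A : V → V → ℝ) (K : ℝ) (m : ℕ) (H : ℕ → V → ℕ) :
    Prop where
  mpos : 0 < m
  le2 : ∀ i x, H i x ≤ 2
  sum : ∀ i, i ≤ m → ∑ x, H i x = Fintype.card V
  turn : ∀ x, H m x + H 0 x = 2
  leave : ∀ x, ∃ i, i < m ∧ H i x ≠ 1
  step : ∀ i, i < m → ∃ u v, (∀ x, x ≠ u → x ≠ v → H (i + 1) x = H i x) ∧
    H (i + 1) u = H i v ∧ H (i + 1) v = H i u
  cut : ∀ i, i < m → ∀ s : ℝ, 0 ≤ s → s ≤ 1 →
    cutW A (fun x => ((1 - s) * (H i x : ℝ) + s * (H (i + 1) x : ℝ)) / 2) ≤ K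
  order : ∀ x y, x ≠ y → ∃ i0, i0 < m ∧
    (((∀ i, i ≤ i0 → 0 < H i x → H i y = 2) ∧ (∀ i, i0 < i → i ≤ m → 0 < H i y → H i x = 2)) ∨
      ((∀ i, i ≤ i0 → 0 < H i y → H i x = 2) ∧ (∀ i, i0 < i → i ≤ m → 0 < H i x → H i y = 2)))

/-- The number of the `2 * l` copies of `x` that are above at time `j`. -/
def cc {V : Type*} (H : ℕ → V → ℕ) (l j : ℕ) (x : V) : ℕ :=
  (l - j % l) * H (j / l) x + (j % l) * H (j / l + 1) x

/-- The blown-up sequence of cuts. -/
def FF {V : Type*} (H : ℕ → V → ℕ) (i0 : V → ℕ) (l j : ℕ) (p : V × Fin (2 * l)) : Bool :=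
  if j < i0 p.1 * l then decide (2 * l - cc H l j p.1 ≤ p.2.1) else decide (p.2.1 < cc H l j p.1)

/-- The key of `v` in the direction of slope `α`. -/
def kz {ι : Type*} (x y : ι → ℝ) (α : ℝ) (v : ι) : ℝ := y v - α * x v

open Classical in
/-- Twice the part of `v` above the halving line of the key `z`. -/
noncomputable def Hf {ι : Type*} [Fintype ι] (z : ι → ℝ) (v : ι) : ℕ :=
  min 2 (Fintype.card ι - 2 * (univ.filter (fun w => z v < z w)).card)

/-- Length of the part below `1/2` of the `l`-th arc. -/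
noncomputable def gl (d : ℕ → ℝ) (l : ℕ) : ℝ := |min (d l) (1 / 2) - min (d (l + 1)) (1 / 2)|

end Pool.Agent.H994E
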