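import Mathlib
import Pool.Agent.H994E.Defs

/-!
# Statements of the tasks (project ED: dense case of the crossing-line problem)
-/

namespace Pool.Agent.H994E

open Finset

/-! ### C, P : circle distance, positions and windows -/

/-- task C -/
structure St_C : Prop where
  nonneg : ∀ x y : ℝ, 0 ≤ cd x y
  comm : ∀ x y : ℝ, cd x y = cd y x
  tri : ∀ x y z : ℝ, cd x z ≤ cd x y + cd y z
  le_abs : ∀ x y : ℝ, cd x y ≤ |x - y|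
  add_two : ∀ x y : ℝ, cd (x + 2) y = cd x y
  shift : ∀ x y c : ℝ, cd (x + c) (y + c) = cd x y
  le_one : ∀ x y : ℝ, cd x y ≤ 1
  iff : ∀ x y t : ℝ, cd x y ≤ t ↔ ∃ k : ℤ, |x - y - 2 * k| ≤ t
  lip : ∀ x y x' y' : ℝ, |cd x y - cd x' y'| ≤ |x - x'| + |y - y'|

/-- task P -/
structure St_P : Prop where
  window : ∀ (N : ℕ) (f : ℕ → ℝ), (∀ j, f (j + N) = f j) →
    ∀ i, ∑ l ∈ range N, f (i + l) = ∑ l ∈ range N, f l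
  pos_add : ∀ (M : ℕ) (lam : ℕ → ℝ), Wt M lam → ∀ i, Pos lam (i + M) = Pos lam i + 1
  pos_mono : ∀ (M : ℕ) (lam : ℕ → ℝ), Wt M lam → Monotone (Pos lam)
  dw_nonneg : ∀ (M : ℕ) (lam : ℕ → ℝ) (S : ℕ → Bool), Wt M lam → ∀ i, 0 ≤ Dw M lam S i
  dw_succ : ∀ (M : ℕ) (lam : ℕ → ℝ) (S : ℕ → Bool), Wt M lam → (∀ j, S (j + M) = !S j) →
    ∀ i, Dw M lam S (i + 1) = Dw M lam S i + (if S i = true then -lam i else lam i)
  dw_anti : ∀ (M : ℕ) (lam : ℕ → ℝ) (S : ℕ → Bool), Wt M lam → (∀ j, S (j + M) = !S j) →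
    ∀ i, Dw M lam S (i + M) = 1 - Dw M lam S i

/-! ### T1 : balayage -/

/-- task T1A: one component -/
def St_T1A : Prop := ∀ (a e : ℕ) (x d : ℕ → ℝ) (S : ℕ → Bool),
  a + 1 < e → (∀ l, x l < x (l + 1)) →
  (∀ l, d (l + 1) = d l + (if S l = true then -(x (l + 1) - x l) else x (l + 1) - x l)) →
  1 / 2 ≤ d a → 1 / 2 ≤ d e → (∀ l, a < l → l < e → d l < 1 / 2) →
  (x e - (d e - 1 / 2)) - (x a + (d a - 1 / 2)) ≤ 1 →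
  ∃ ν : ℕ → ℝ, (∀ j, 0 ≤ ν j) ∧ (∀ j, ν j ≠ 0 → a < j ∧ j < e ∧ S (j - 1) ≠ S j) ∧
    (∑ j ∈ range e, ν j = (x e - (d e - 1 / 2)) - (x a + (d a - 1 / 2))) ∧
    ∀ t : ℝ, t ≤ 1 / 2 → ∀ i, a < i → i < e →
      t - d i ≤ ∑ j ∈ range e, ν j * max 0 (t - |x j - x i|)

/-- task T1B: on a line (uses T1A) -/
def St_T1B : Prop := ∀ (x d : ℕ → ℝ) (S : ℕ → Bool), (∀ l, x l < x (l + 1)) →
  (∀ l, d (l + 1) = d l + (if S l = true then -(x (l + 1) - x l) else x (l + 1) - x l)) →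
  1 / 2 ≤ d 0 → ∀ N : ℕ, 1 / 2 ≤ d N → ∑ l ∈ range N, gl d l ≤ 1 →
  ∃ ν : ℕ → ℝ, (∀ j, 0 ≤ ν j) ∧ (∀ j, ν j ≠ 0 → 0 < j ∧ j < N ∧ S (j - 1) ≠ S j) ∧
    (∑ j ∈ range N, ν j = ∑ l ∈ range N, gl d l) ∧
    ∀ t : ℝ, t ≤ 1 / 2 → ∀ i, i ≤ N → t - d i ≤ ∑ j ∈ range N, ν j * max 0 (t - |x j - x i|)

/-- task T1C: on the circle (uses T1B, C, P) -/
def St_T1C : Prop := ∀ (M : ℕ) (lam : ℕ → ℝ) (S : ℕ → Bool), Wt M lam → (∀ j, 0 < lam j) →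
  (∀ j, S (j + M) = !S j) →
  ∃ ν : ℕ → ℝ, (∀ j, 0 ≤ ν j) ∧ (∀ j, j < 2 * M → ν j ≠ 0 → S (j + 2 * M - 1) ≠ S j) ∧
    (∑ j ∈ range (2 * M), ν j = 1) ∧ Bal M lam S ν 0

/-! ### T2 : the kernel bound -/

/-- task T2A (uses C) -/
def St_T2A : Prop := ∀ x y t : ℝ, 0 ≤ t → t ≤ 1 →
  max 0 (t - cd x y) ≤ ∫ u in (0:ℝ)..2,
    (if cd x u ≤ t / 2 then (1:ℝ) else 0) * (if cd y u ≤ t / 2 then (1:ℝ) else 0)

/-- task T2B (uses C, P) -/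
def St_T2B : Prop := ∀ (M : ℕ) (lam : ℕ → ℝ) (η t : ℝ), Wt M lam → (∀ j, lam j ≤ η) →
  0 ≤ t → t + η ≤ 1 → ∀ u : ℝ,
  ∑ j ∈ range (2 * M), lam j * (if cd (Pos lam j) u ≤ t / 2 then (1:ℝ) else 0) ≤ t + η

/-- task T2C (uses T2A, T2B, C, P) -/
def St_T2C : Prop := ∀ (M : ℕ) (lam β : ℕ → ℝ) (η t : ℝ), Wt M lam → (∀ j, lam j ≤ η) →
  0 ≤ t → t + η ≤ 1 → (∀ j, 0 ≤ β j) → (∀ j, j < M → β j + β (j + M) = lam j) →
  ∑ j ∈ range (2 * M), ∑ k ∈ range (2 * M),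
    β j * β k * max 0 (t - cd (Pos lam j) (Pos lam k + 1)) ≤ (t + η) ^ 2 / 2

/-! ### T3 : approximate fixed points on the simplex -/

/-- task T3A: a finite net of interior points -/
def St_T3A : Prop := ∀ (M : ℕ), 0 < M → ∀ δ : ℝ, 0 < δ →
  ∃ s : Finset (Fin M → ℝ), (∀ y ∈ s, (∀ i, 0 < y i) ∧ ∑ i, y i = 1) ∧
    ∀ z : Fin M → ℝ, (∀ i, 0 ≤ z i) → ∑ i, z i = 1 → ∃ y ∈ s, ∑ i, |y i - z i| < δ

/-- task T3B: Brouwer on the simplex -/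
def St_T3B : Prop := ∀ (M : ℕ), 0 < M → ∀ f : (Fin M → ℝ) → (Fin M → ℝ),
  ContinuousOn f {z | (∀ i, 0 ≤ z i) ∧ ∑ i, z i = 1} →
  (∀ z, (∀ i, 0 ≤ z i) → ∑ i, z i = 1 → (∀ i, 0 ≤ f z i) ∧ ∑ i, f z i = 1) →
  ∃ z : Fin M → ℝ, (∀ i, 0 ≤ z i) ∧ ∑ i, z i = 1 ∧ f z = z

/-- task T3C (uses T3A, T3B) -/
def St_T3C : Prop := ∀ (M : ℕ), 0 < M → ∀ g : (Fin M → ℝ) → (Fin M → ℝ),
  (∀ y, (∀ i, 0 < y i) → ∑ i, y i = 1 → (∀ i, 0 ≤ g y i) ∧ ∑ i, g y i = 1) →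
  ∀ δ : ℝ, 0 < δ →
  ∃ (z : Fin M → ℝ) (s : Finset (Fin M → ℝ)) (w : (Fin M → ℝ) → ℝ),
    (∀ i, 0 ≤ z i) ∧ ∑ i, z i = 1 ∧ (∀ y ∈ s, 0 ≤ w y) ∧ ∑ y ∈ s, w y = 1 ∧
    (∀ y ∈ s, (∀ i, 0 < y i) ∧ ∑ i, y i = 1 ∧ ∑ i, |y i - z i| ≤ δ) ∧
    ∀ i, z i = ∑ y ∈ s, w y * g y i

/-! ### T4 : pairs -/

/-- task T4A: agreement in terms of two windows (uses P) -/
def St_T4A : Prop := ∀ (M : ℕ) (lam : ℕ → ℝ) (S S' : ℕ → Bool) (q : ℕ), Wt M lam →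
  (∀ j, S (j + M) = !S j) → (∀ j, S' (j + M) = !S' j) →
  (∀ l, l < M → S' (q + l) = true → S (q + l) = true) →
  ∑ j ∈ range M, (if S j = S' j then lam j else 0) = Dw M lam S' q + Dw M lam S (q + M)

/-- task T4B: the pair lemma (uses T4A, C, P) -/
def St_T4B : Prop := ∀ (M : ℕ) (lam : ℕ → ℝ) (S S' : ℕ → Bool) (ν ν' : ℕ → ℝ) (ε : ℝ) (q : ℕ),
  Wt M lam → (∀ j, S (j + M) = !S j) → (∀ j, S' (j + M) = !S' j) →
  (∀ j, 0 ≤ ν j) → (∀ j, 0 ≤ ν' j) → ∑ j ∈ range (2 * M), ν j = 1 →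
  ∑ j ∈ range (2 * M), ν' j = 1 → 0 ≤ ε → Bal M lam S ν ε → Bal M lam S' ν' ε →
  (∀ l, l < M → S' (q + l) = true → S (q + l) = true) → ∀ t : ℝ, t ≤ 1 / 2 →
  max 0 (t - ∑ j ∈ range M, (if S j = S' j then lam j else 0)) ≤
    ∑ j ∈ range (2 * M), ∑ k ∈ range (2 * M),
      ν j * ν' k * max 0 (t - cd (Pos lam j) (Pos lam k + 1)) + 2 * ε

/-- task T4C: changing the weight (uses C, P) -/
def St_T4C : Prop := ∀ (M : ℕ) (y z : ℕ → ℝ) (S : ℕ → Bool) (ν : ℕ → ℝ) (δ : ℝ),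
  Wt M y → Wt M z → (∀ j, 0 ≤ ν j) → ∑ j ∈ range (2 * M), ν j = 1 →
  ∑ l ∈ range M, |y l - z l| ≤ δ → Bal M y S ν 0 → Bal M z S ν (3 * δ)

/-! ### T5 : the measure -/

/-- task T5A (uses T1C, T3C, T4C, P) -/
def St_T5A : Prop := ∀ (I : Type) [Fintype I] [Nonempty I] (M : ℕ) (F : ℕ → I → Bool) (b : ℝ),
  CutSeq I M F b → ∀ δ : ℝ, 0 < δ →
  ∃ (lam : ℕ → ℝ) (ν : I → ℕ → ℝ), Wt M lam ∧ (∀ p j, 0 ≤ ν p j) ∧
    (∀ p, ∑ j ∈ range (2 * M), ν p j = 1) ∧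
    (∀ p j, j < 2 * M → ν p j ≠ 0 → F (j + 2 * M - 1) p ≠ F j p) ∧
    (∀ p, Bal M lam (fun j => F j p) (ν p) δ) ∧
    (∀ j, j < M → (Fintype.card I : ℝ) * lam j = ∑ p, (ν p j + ν p (j + M)))

/-- task T5B: the weight is small (uses P) -/
def St_T5B : Prop := ∀ (I : Type) [Fintype I] [Nonempty I] (M : ℕ) (F : ℕ → I → Bool) (b : ℝ),
  CutSeq I M F b → ∀ (lam : ℕ → ℝ) (ν : I → ℕ → ℝ), Wt M lam → (∀ p j, 0 ≤ ν p j) →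
    (∀ p, ∑ j ∈ range (2 * M), ν p j = 1) →
    (∀ p j, j < 2 * M → ν p j ≠ 0 → F (j + 2 * M - 1) p ≠ F j p) →
    (∀ j, j < M → (Fintype.card I : ℝ) * lam j = ∑ p, (ν p j + ν p (j + M))) →
    ∀ j, lam j ≤ b / Fintype.card I

/-- task T5C: Theorem X (uses T5A, T5B, T4B, T2C) -/
def St_T5C : Prop := ∀ (I : Type) [Fintype I] [Nonempty I] (M : ℕ) (F : ℕ → I → Bool) (b : ℝ),
  CutSeq I M F b → 2 * b ≤ Fintype.card I → ∀ t : ℝ, 0 ≤ t → t ≤ 1 / 2 → ∀ ε : ℝ, 0 < ε →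
  ∃ lam : ℕ → ℝ, Wt M lam ∧
    ∑ p : I, ∑ p' : I, max 0 (t - ∑ j ∈ range M, (if F j p = F j p' then lam j else 0)) ≤
      (Fintype.card I : ℝ) ^ 2 * ((t + b / Fintype.card I) ^ 2 / 2 + ε)

/-! ### T6 : from the measure to the bound -/

/-- task T6A (uses T5C) -/
def St_T6A : Prop := ∀ (I : Type) [Fintype I] [Nonempty I] (M : ℕ) (F : ℕ → I → Bool) (b : ℝ)
  (A : I → I → ℝ) (K : ℝ), CutSeq I M F b → 2 * b ≤ Fintype.card I →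
  (∀ p q, A p q = A q p) → (∀ p q, 0 ≤ A p q) → (∀ p q, A p q ≤ 1) →
  (∀ j, j < M → cutB A (F j) ≤ K) → ∀ c : ℝ, 1 / 2 ≤ c → c ≤ 1 → ∀ ε : ℝ, 0 < ε →
  c * ∑ p, ∑ q, A p q - (c - 1 / 2) * (Fintype.card I : ℝ) ^ 2 -
    (Fintype.card I : ℝ) ^ 2 * ((1 - c + b / Fintype.card I) ^ 2 / 2 + ε) ≤ 2 * K

/-- task T6B (uses T6A) -/
def St_T6B : Prop := ∀ (V : Type) [Fintype V] [Nonempty V] (A : V → V → ℝ) (K : ℝ),
  (∀ u v, A u v = A v u) → (∀ u v, 0 ≤ A u v) → (∀ u v, A u v ≤ 1) →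
  (∀ l : ℕ, 0 < l → ∃ (M : ℕ) (F : ℕ → V × Fin (2 * l) → Bool),
    CutSeq (V × Fin (2 * l)) M F 4 ∧
    ∀ j, j < M → cutB (fun p p' => A p.1 p'.1) (F j) ≤ (2 * l : ℝ) ^ 2 * K) →
  (Fintype.card V : ℝ) ^ 2 / 2 ≤ ∑ u, ∑ v, A u v →
  (∑ u, ∑ v, A u v) ^ 2 / (4 * (Fintype.card V : ℝ) ^ 2) ≤ K

/-! ### T7 : from half a turn of lines to the blown-up sequence of cuts -/

/-- task T7A -/
def St_T7A : Prop := ∀ (I : Type) [Fintype I] (M : ℕ) (F : ℕ → I → Bool) (b : ℝ),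
  HalfSeq I M F b → ∃ G : ℕ → I → Bool, CutSeq I M G b ∧ ∀ j, j < M → G j = F j

/-- the situation of tasks T7B - T7E -/
structure Blow (V : Type) [Fintype V] (A : V → V → ℝ) (K : ℝ) (m : ℕ) (H : ℕ → V → ℕ)
    (i0 : V → ℕ) (l : ℕ) : Prop where
  ht : HalfTurn A K m H
  i0lt : ∀ x, i0 x < m
  i0ne : ∀ x, H (i0 x) x ≠ 1
  lpos : 0 < l

/-- task T7B: balance and cut weights -/
def St_T7B : Prop := ∀ (V : Type) [Fintype V] (A : V → V → ℝ) (K : ℝ) (m : ℕ) (H : ℕ → V → ℕ)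
  (i0 : V → ℕ) (l : ℕ), Blow V A K m H i0 l → ∀ j, j < m * l →
  2 * (univ.filter (fun p : V × Fin (2 * l) => FF H i0 l j p = true)).card =
      Fintype.card (V × Fin (2 * l)) ∧
    cutB (fun p p' : V × Fin (2 * l) => A p.1 p'.1) (FF H i0 l j) ≤ (2 * l : ℝ) ^ 2 * K

/-- task T7C: half a turn -/
def St_T7C : Prop := ∀ (V : Type) [Fintype V] (A : V → V → ℝ) (K : ℝ) (m : ℕ) (H : ℕ → V → ℕ)
  (i0 : V → ℕ) (l : ℕ), Blow V A K m H i0 l → ∀ p, FF H i0 l (m * l) p = !FF H i0 l 0 p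

/-- task T7D: few flips -/
def St_T7D : Prop := ∀ (V : Type) [Fintype V] (A : V → V → ℝ) (K : ℝ) (m : ℕ) (H : ℕ → V → ℕ)
  (i0 : V → ℕ) (l : ℕ), Blow V A K m H i0 l → ∀ j, j < m * l →
  (univ.filter (fun p : V × Fin (2 * l) => FF H i0 l j p ≠ FF H i0 l (j + 1) p)).card ≤ 4

/-- task T7E: order -/
def St_T7E : Prop := ∀ (V : Type) [Fintype V] (A : V → V → ℝ) (K : ℝ) (m : ℕ) (H : ℕ → V → ℕ)
  (i0 : V → ℕ) (l : ℕ), Blow V A K m H i0 l → ∀ p p' : V × Fin (2 * l), ∃ q, q ≤ m * l ∧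
    (((∀ j, j < q → FF H i0 l j p = true → FF H i0 l j p' = true) ∧
        (∀ j, q ≤ j → j < m * l → FF H i0 l j p' = true → FF H i0 l j p = true)) ∨
      ((∀ j, j < q → FF H i0 l j p' = true → FF H i0 l j p = true) ∧
        (∀ j, q ≤ j → j < m * l → FF H i0 l j p = true → FF H i0 l j p' = true)))

/-- task T7F (uses T7A - T7E, T6B) -/
def St_T7F : Prop := ∀ (V : Type) [Fintype V] [Nonempty V] (A : V → V → ℝ) (K : ℝ) (m : ℕ)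
  (H : ℕ → V → ℕ), HalfTurn A K m H →
  (∀ u v, A u v = A v u) → (∀ u v, 0 ≤ A u v) → (∀ u v, A u v ≤ 1) →
  (Fintype.card V : ℝ) ^ 2 / 2 ≤ ∑ u, ∑ v, A u v →
  (∑ u, ∑ v, A u v) ^ 2 / (4 * (Fintype.card V : ℝ) ^ 2) ≤ K

/-! ### T8 : geometry -/

/-- task T8A: sampling between the critical values -/
def St_T8A : Prop := ∀ T : Finset ℝ, T.Nonempty → ∃ (m : ℕ) (a c : ℕ → ℝ), 0 < m ∧
  (∀ i, i < m → a i < c i ∧ c i < a (i + 1) ∧ c i ∈ T) ∧ (∀ i, i ≤ m → a i ∉ T) ∧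
  (∀ i, i < m → ∀ τ ∈ T, a i < τ → τ < a (i + 1) → τ = c i) ∧
  (∀ τ ∈ T, ∃ i, i < m ∧ τ = c i) ∧ (∀ τ ∈ T, a 0 < τ ∧ τ < a m) ∧
  (∀ i j, i < j → j ≤ m → a i < a j)

/-- task T8B: the half-weights sum to the number of points; reversal -/
def St_T8B : Prop := ∀ (ι : Type) [Fintype ι] (z z' : ι → ℝ), Function.Injective z →
  ∑ v, Hf z v = Fintype.card ι ∧
  ((∀ v w, z' v < z' w ↔ z w < z v) → ∀ v, Hf z' v + Hf z v = 2)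

/-- Two consecutive directions with one critical direction between them. -/
structure Step {ι : Type} [Fintype ι] (z zc z' : ι → ℝ) : Prop where
  inj : Function.Injective z
  inj' : Function.Injective z'
  gp : ∀ u v w, u ≠ v → u ≠ w → v ≠ w → zc u = zc v → zc u ≠ zc w
  lt : ∀ u v, zc u < zc v → z u < z v ∧ z' u < z' v
  swap : ∀ u v, u ≠ v → zc u = zc v → (z u < z v ↔ z' v < z' u)

/-- task T8C: only one pair changes -/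
def St_T8C : Prop := ∀ (ι : Type) [Fintype ι] (z zc z' : ι → ℝ), Step z zc z' →
  (∀ x, Hf z' x = Hf z x) ∨
  ∃ u v, u ≠ v ∧ zc u = zc v ∧ Hf z' u = Hf z v ∧ Hf z' v = Hf z u ∧
    ∀ x, x ≠ u → x ≠ v → Hf z' x = Hf z x ∧
      ((zc u < zc x ∧ Hf z x = 2) ∨ (zc x < zc u ∧ Hf z x = 0))

/-- Points `(x v, y v)` with distinct abscissas, no three collinear, all cuts at most `K`. -/
structure Geo {ι : Type} [Fintype ι] (x y : ι → ℝ) (A : ι → ι → ℝ) (K : ℝ) : Prop where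
  inj : Function.Injective x
  gp : ∀ α u v w, u ≠ v → u ≠ w → v ≠ w → kz x y α u = kz x y α v → kz x y α u ≠ kz x y α w
  diag : ∀ u, A u u = 0
  cut : ∀ α β : ℝ, (∀ r, kz x y α r ≠ β) → cutB A (fun r => decide (β < kz x y α r)) ≤ K

/-- task T8D: one fractional point -/
def St_T8D : Prop := ∀ (ι : Type) [Fintype ι] (x y : ι → ℝ) (A : ι → ι → ℝ) (K : ℝ),
  Geo x y A K → ∀ (α : ℝ) (w : ι) (h : ι → ℝ), 0 ≤ h w → h w ≤ 1 →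
  (∀ v, v ≠ w → (kz x y α w < kz x y α v ∧ h v = 1) ∨ (kz x y α v < kz x y α w ∧ h v = 0)) →
  cutW A h ≤ K

/-- task T8E: two fractional points -/
def St_T8E : Prop := ∀ (ι : Type) [Fintype ι] (x y : ι → ℝ) (A : ι → ι → ℝ) (K : ℝ),
  Geo x y A K → ∀ (α : ℝ) (w w' : ι) (h : ι → ℝ), w ≠ w' → kz x y α w = kz x y α w' →
  0 ≤ h w → h w ≤ 1 → 0 ≤ h w' → h w' ≤ 1 →
  (∀ v, v ≠ w → v ≠ w' →
    (kz x y α w < kz x y α v ∧ h v = 1) ∨ (kz x y α v < kz x y α w ∧ h v = 0)) →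
  cutW A h ≤ K

/-- task T8F: the halving fractional cut of an injective key has the shape of T8D -/
def St_T8F : Prop := ∀ (ι : Type) [Fintype ι] (z : ι → ℝ), Function.Injective z →
  2 ≤ Fintype.card ι →
  ∃ w, ∀ v, v ≠ w → (z w < z v ∧ Hf z v = 2) ∨ (z v < z w ∧ Hf z v = 0)

/-- task T8G: order and leaving the middle -/
def St_T8G : Prop := ∀ (ι : Type) [Fintype ι],
  (∀ (z : ι → ℝ) (x y : ι), z x < z y → 0 < Hf z x → Hf z y = 2) ∧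
  (∀ (z zc z' : ι → ℝ) (x y : ι), Step z zc z' → x ≠ y → zc x = zc y →
    Hf z x ≠ 1 ∨ Hf z' x ≠ 1)

/-- task T8H: the sequence of directions (uses T8A): consecutive directions form `Step`s -/
def St_T8H : Prop := ∀ (ι : Type) [Fintype ι] (x y : ι → ℝ), Function.Injective x →
  (∀ α u v w, u ≠ v → u ≠ w → v ≠ w → kz x y α u = kz x y α v → kz x y α u ≠ kz x y α w) →
  2 ≤ Fintype.card ι →
  ∃ (m : ℕ) (a c : ℕ → ℝ), 0 < m ∧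
    (∀ i, i ≤ m → Function.Injective (kz x y (a i))) ∧
    (∀ i, i < m → Step (kz x y (a i)) (kz x y (c i)) (kz x y (a (i + 1)))) ∧
    (∀ v w, kz x y (a m) v < kz x y (a m) w ↔ kz x y (a 0) w < kz x y (a 0) v) ∧
    (∀ v w, v ≠ w → ∃ i0, i0 < m ∧ kz x y (c i0) v = kz x y (c i0) w ∧
      (((∀ i, i ≤ i0 → kz x y (a i) v < kz x y (a i) w) ∧
          (∀ i, i0 < i → i ≤ m → kz x y (a i) w < kz x y (a i) v)) ∨
        ((∀ i, i ≤ i0 → kz x y (a i) w < kz x y (a i) v) ∧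
          (∀ i, i0 < i → i ≤ m → kz x y (a i) v < kz x y (a i) w))))

/-- task T8I (uses T8B - T8H) -/
def St_T8I : Prop := ∀ (ι : Type) [Fintype ι] (x y : ι → ℝ) (A : ι → ι → ℝ) (K : ℝ),
  Geo x y A K → 2 ≤ Fintype.card ι → ∃ (m : ℕ) (H : ℕ → ι → ℕ), HalfTurn A K m H

end Pool.Agent.H994E
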