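import Mathlib
import Pool.Agent.H994E.Stubs

/-! # Task C: circle distance mod 2 -/

set_option autoImplicit false

namespace Pool.Agent.H994E

theorem c_eq (x y : ℝ) : cd x y = 2 * |(x - y) / 2 - round ((x - y) / 2)| := by
  unfold cd
  rw [← abs_of_pos (two_pos : (0 : ℝ) < 2), ← abs_mul, abs_of_pos (two_pos : (0 : ℝ) < 2)]
  congr 1
  ring

theorem c_le (x y : ℝ) (k : ℤ) : cd x y ≤ |x - y - 2 * k| := by
  have h1 := round_le ((x - y) / 2) k
  have h2 : |x - y - 2 * k| = 2 * |(x - y) / 2 - k| := by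
    rw [← abs_of_pos (two_pos : (0 : ℝ) < 2), ← abs_mul, abs_of_pos (two_pos : (0 : ℝ) < 2)]
    congr 1
    ring
  rw [c_eq, h2]
  linarith

theorem c_iff (x y t : ℝ) : cd x y ≤ t ↔ ∃ k : ℤ, |x - y - 2 * k| ≤ t :=
  ⟨fun h => ⟨round ((x - y) / 2), h⟩, fun ⟨k, h⟩ => (c_le x y k).trans h⟩

theorem c_ex (x y : ℝ) : ∃ k : ℤ, |x - y - 2 * k| = cd x y := ⟨round ((x - y) / 2), rfl⟩

theorem c_comm' (x y : ℝ) : cd x y ≤ cd y x := by
  obtain ⟨k, hk⟩ := c_ex y x
  rw [← hk, c_iff]
  refine ⟨-k, le_of_eq ?_⟩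
  rw [← abs_neg]
  congr 1
  push_cast
  ring

theorem c_comm (x y : ℝ) : cd x y = cd y x := le_antisymm (c_comm' x y) (c_comm' y x)

theorem c_tri (x y z : ℝ) : cd x z ≤ cd x y + cd y z := by
  obtain ⟨k, hk⟩ := c_ex x y
  obtain ⟨l, hl⟩ := c_ex y z
  rw [← hk, ← hl, c_iff]
  refine ⟨k + l, ?_⟩
  have h : x - z - 2 * ((k + l : ℤ) : ℝ) = (x - y - 2 * k) + (y - z - 2 * l) := by
    push_cast
    ring
  rw [h]
  exact abs_add_le _ _

theorem c_le_abs (x y : ℝ) : cd x y ≤ |x - y| := by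
  have h := c_le x y 0
  simpa using h

theorem c_proof : St_C where
  nonneg x y := abs_nonneg _
  comm := c_comm
  tri := c_tri
  le_abs := c_le_abs
  add_two x y := by
    apply le_antisymm
    · obtain ⟨k, hk⟩ := c_ex x y
      rw [← hk, c_iff]
      refine ⟨k + 1, le_of_eq ?_⟩
      congr 1
      push_cast
      ring
    · obtain ⟨k, hk⟩ := c_ex (x + 2) y
      rw [← hk, c_iff]
      refine ⟨k - 1, le_of_eq ?_⟩
      congr 1
      push_cast
      ring
  shift x y c := by
    unfold cd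
    rw [add_sub_add_right_eq_sub]
  le_one x y := by
    have h := abs_sub_round ((x - y) / 2)
    rw [c_eq]
    linarith
  iff := c_iff
  lip x y x' y' := by
    rw [abs_le]
    have h1 : cd x y ≤ cd x x' + cd x' y' + cd y' y := by
      have e1 := c_tri x x' y
      have e2 := c_tri x' y' y
      linarith
    have h2 : cd x' y' ≤ cd x' x + cd x y + cd y y' := by
      have e1 := c_tri x' x y'
      have e2 := c_tri x y y'
      linarith
    have h3 := c_le_abs x x'
    have h4 := c_le_abs y' y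
    have h5 := c_le_abs x' x
    have h6 := c_le_abs y y'
    rw [abs_sub_comm] at h4 h5
    constructor <;> linarith

end Pool.Agent.H994E
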