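import Mathlib
import Pool.Agent.H994E.Stubs

/-!
# Task P: positions and windows
-/

namespace Pool.Agent.H994E

open Finset

theorem p_shift (N : ℕ) (f : ℕ → ℝ) (i : ℕ) :
    ∑ l ∈ range N, f (i + 1 + l) = ∑ l ∈ range N, f (i + l) + f (i + N) - f i := by
  have h1 := Finset.sum_range_succ (fun l => f (i + l)) N
  have h2 := Finset.sum_range_succ' (fun l => f (i + l)) N
  have h3 : ∑ l ∈ range N, f (i + (l + 1)) = ∑ l ∈ range N, f (i + 1 + l) :=
    Finset.sum_congr rfl fun l _ => by congr 1; ring
  simp only [add_zero] at h2
  rw [h3] at h2
  linarith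

theorem p_window (N : ℕ) (f : ℕ → ℝ) (hf : ∀ j, f (j + N) = f j) (i : ℕ) :
    ∑ l ∈ range N, f (i + l) = ∑ l ∈ range N, f l := by
  induction i with
  | zero => simp
  | succ i ih => rw [p_shift, ih, hf]; ring

theorem p_proof : St_P where
  window := p_window
  pos_add := by
    intro M lam h i
    unfold Pos
    rw [Finset.sum_range_add, p_window M lam h.per i, h.sum]
  pos_mono := by
    intro M lam h
    refine monotone_nat_of_le_succ fun i => ?_
    unfold Pos
    rw [Finset.sum_range_succ]
    linarith [h.nonneg i]
  dw_nonneg := by
    intro M lam S h i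
    unfold Dw
    refine Finset.sum_nonneg fun l _ => ?_
    split_ifs
    · exact h.nonneg _
    · exact le_refl _
  dw_succ := by
    intro M lam S h hS i
    unfold Dw
    rw [p_shift M (fun j => if S j = true then lam j else 0) i]
    simp only [hS i, h.per i]
    cases hSi : S i
    · simp
    · simp; ring
  dw_anti := by
    intro M lam S h hS i
    unfold Dw
    have h1 : ∀ l, (if S (i + M + l) = true then lam (i + M + l) else 0)
        = lam (i + l) - (if S (i + l) = true then lam (i + l) else 0) := by
      intro l
      have e : i + M + l = (i + l) + M := by ring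
      rw [e, hS, h.per]
      cases S (i + l) <;> simp
    rw [Finset.sum_congr rfl fun l _ => h1 l, Finset.sum_sub_distrib, p_window M lam h.per i, h.sum]

end Pool.Agent.H994E
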