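import Mathlib
import Pool.Agent.H994E.Stubs

set_option autoImplicit false

namespace Pool.Agent.H994E

open Finset

theorem t1A_theta (u v c : ℝ) (h1 : u ≤ c) (h2 : c ≤ v) :
    ∃ θ : ℝ, 0 ≤ θ ∧ θ ≤ 1 ∧ θ * u + (1 - θ) * v = c := by
  by_cases h : u = v
  · refine ⟨1, zero_le_one, le_rfl, ?_⟩
    subst h
    linarith
  · have huv : u < v := lt_of_le_of_ne (h1.trans h2) h
    have hp : 0 < v - u := by linarith
    refine ⟨(v - c) / (v - u), by apply div_nonneg <;> linarith, ?_, ?_⟩
    · rw [div_le_one hp]; linarith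
    · field_simp
      ring

theorem t1A_proof : St_T1A := by
  intro a e x d S hae hx hd hda hde hdl hw1
  have hxm : StrictMono x := strictMono_nat_of_lt_succ hx
  obtain ⟨al, hal⟩ : ∃ al, al = x a + (d a - 1 / 2) := ⟨_, rfl⟩
  obtain ⟨be, hbe⟩ : ∃ be, be = x e - (d e - 1 / 2) := ⟨_, rfl⟩
  rw [← hal, ← hbe] at hw1 ⊢
  obtain ⟨w, hw⟩ : ∃ w, w = be - al := ⟨_, rfl⟩
  obtain ⟨c, hc⟩ : ∃ c, c = (al + be) / 2 := ⟨_, rfl⟩
  rw [← hw] at hw1 ⊢
  have hSa : S a = true := by
    by_contra h
    have h1 := hd a
    rw [if_neg h] at h1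
    have h2 := hdl (a + 1) (by omega) hae
    linarith [hx a]
  have hSe : S (e - 1) = false := by
    by_contra h
    have h0 : S (e - 1) = true := by simpa using h
    have h1 := hd (e - 1)
    rw [if_pos h0, show e - 1 + 1 = e by omega] at h1
    have h2 := hdl (e - 1) (by omega) (by omega)
    have h3 := hxm (show e - 1 < e by omega)
    linarith
  -- Lipschitz bounds
  have hstep1 : ∀ l, d l - (x (l + 1) - x l) ≤ d (l + 1) := by
    intro l
    rw [hd l]
    have := hx l
    split_ifs <;> linarith
  have hstep2 : ∀ l, d (l + 1) - (x (l + 1) - x l) ≤ d l := by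
    intro l
    rw [hd l]
    have := hx l
    split_ifs <;> linarith
  have hlo : ∀ l, a ≤ l → 1 / 2 - (x l - al) ≤ d l := by
    intro l hl
    induction l, hl using Nat.le_induction with
    | base => rw [hal]; linarith
    | succ l hl ih => linarith [hstep1 l]
  have hhi : ∀ n l, l + n = e → 1 / 2 - (be - x l) ≤ d l := by
    intro n
    induction n with
    | zero => intro l hl; rw [hbe, show l = e by omega]; linarith
    | succ n ih =>
      intro l hl
      have := ih (l + 1) (by omega)
      linarith [hstep2 l]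
  have hkey : ∀ t : ℝ, t ≤ 1 / 2 → ∀ i, a ≤ i → i ≤ e → t - d i ≤ w * (t - |x i - c|) := by
    intro t ht i hai hie
    have h1 := hlo i hai
    have h2 := hhi (e - i) i (by omega)
    have h3 : 1 / 2 - d i ≤ w / 2 - |x i - c| := by
      rcases abs_cases (x i - c) with h | h <;> rw [h.1] <;> linarith
    nlinarith [mul_nonneg (show 0 ≤ 1 - w by linarith)
      (show 0 ≤ |x i - c| - t + 1 / 2 by linarith [abs_nonneg (x i - c)])]
  have hw0 : 0 ≤ w := by
    have h1 := hlo (a + 1) (by omega)
    have h2 := hhi (e - (a + 1)) (a + 1) (by omega)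
    have h3 := hdl (a + 1) (by omega) hae
    linarith
  -- flips on both sides of c
  have hflip1 : ∃ j, a < j ∧ j < e ∧ S (j - 1) ≠ S j ∧ x j ≤ c := by
    by_contra hcon
    push Not at hcon
    have hP : ∀ l, a ≤ l → l < e → S l = true ∧ d l = 1 / 2 - (x l - al) := by
      intro l hl
      induction l, hl using Nat.le_induction with
      | base => intro _; exact ⟨hSa, by rw [hal]; ring⟩
      | succ l hl ih =>
        intro hlt
        obtain ⟨h1, h2⟩ := ih (by omega)
        have h3 := hd l
        rw [if_pos h1] at h3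
        have h4 := hhi (e - (l + 1)) (l + 1) (by omega)
        refine ⟨?_, by linarith⟩
        by_contra h5
        have h6 := hcon (l + 1) (by omega) hlt (by
          rw [Nat.add_sub_cancel, h1]; exact fun h => h5 h.symm)
        linarith
    have := (hP (e - 1) (by omega) (by omega)).1
    rw [hSe] at this
    exact absurd this (by decide)
  have hflip2 : ∃ j, a < j ∧ j < e ∧ S (j - 1) ≠ S j ∧ c ≤ x j := by
    by_contra hcon
    push Not at hcon
    have hQ : ∀ n l, l + n = e → a < l → S (l - 1) = false ∧ d l = 1 / 2 - (be - x l) := by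
      intro n
      induction n with
      | zero =>
        intro l hl _
        rw [show l = e by omega]
        exact ⟨hSe, by rw [hbe]; ring⟩
      | succ n ih =>
        intro l hl hal'
        obtain ⟨h1, h2⟩ := ih (l + 1) (by omega) (by omega)
        rw [Nat.add_sub_cancel] at h1
        have h3 := hd l
        rw [if_neg (by rw [h1]; decide)] at h3
        have h4 := hlo l hal'.le
        refine ⟨?_, by linarith⟩
        by_contra h5
        have h6 := hcon l hal' (by omega) (by
          rw [h1]; exact h5)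
        linarith
    have := (hQ (e - (a + 1)) (a + 1) (by omega) (by omega)).1
    rw [Nat.add_sub_cancel, hSa] at this
    exact absurd this (by decide)
  obtain ⟨j₁, hj₁a, hj₁e, hj₁S, hj₁c⟩ := hflip1
  obtain ⟨j₂, hj₂a, hj₂e, hj₂S, hj₂c⟩ := hflip2
  obtain ⟨f, hf, hfmax⟩ := Finset.exists_max_image
    ((Finset.Ioo a e).filter (fun j => S (j - 1) ≠ S j ∧ x j ≤ c)) id
    ⟨j₁, by simp only [Finset.mem_filter, Finset.mem_Ioo]; exact ⟨⟨hj₁a, hj₁e⟩, hj₁S, hj₁c⟩⟩
  obtain ⟨f', hf', hfmin⟩ := Finset.exists_min_image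
    ((Finset.Ioo a e).filter (fun j => S (j - 1) ≠ S j ∧ c ≤ x j)) id
    ⟨j₂, by simp only [Finset.mem_filter, Finset.mem_Ioo]; exact ⟨⟨hj₂a, hj₂e⟩, hj₂S, hj₂c⟩⟩
  simp only [Finset.mem_filter, Finset.mem_Ioo, id] at hf hf' hfmax hfmin
  obtain ⟨⟨hfa, hfe⟩, hfS, hfc⟩ := hf
  obtain ⟨⟨hfa', hfe'⟩, hfS', hfc'⟩ := hf'
  obtain ⟨θ, hθ0, hθ1, hθ⟩ := t1A_theta (x f) (x f') c hfc hfc'
  have hxff : x f ≤ x f' := hfc.trans hfc'
  have hff : f ≤ f' := hxm.le_iff_le.1 hxff
  refine ⟨fun j => (if j = f then w * θ else 0) + (if j = f' then w * (1 - θ) else 0),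
    ?_, ?_, ?_, ?_⟩
  · intro j
    have h1 : 0 ≤ w * θ := mul_nonneg hw0 hθ0
    have h2 : 0 ≤ w * (1 - θ) := mul_nonneg hw0 (by linarith)
    show (0:ℝ) ≤ (if j = f then w * θ else 0) + (if j = f' then w * (1 - θ) else 0)
    split_ifs <;> linarith
  · intro j hj
    by_cases h1 : j = f
    · rw [h1]; exact ⟨hfa, hfe, hfS⟩
    · by_cases h2 : j = f'
      · rw [h2]; exact ⟨hfa', hfe', hfS'⟩
      · exact absurd (by simp [h1, h2]) hj
  · rw [Finset.sum_add_distrib, Finset.sum_ite_eq', Finset.sum_ite_eq',
      if_pos (Finset.mem_range.2 hfe), if_pos (Finset.mem_range.2 hfe')]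
    ring
  · intro t ht i hai hie
    have hsum : ∑ j ∈ range e, ((if j = f then w * θ else 0) +
        (if j = f' then w * (1 - θ) else 0)) * max 0 (t - |x j - x i|) =
        w * θ * max 0 (t - |x f - x i|) + w * (1 - θ) * max 0 (t - |x f' - x i|) := by
      simp only [add_mul, ite_mul, zero_mul]
      rw [Finset.sum_add_distrib, Finset.sum_ite_eq', Finset.sum_ite_eq',
        if_pos (Finset.mem_range.2 hfe), if_pos (Finset.mem_range.2 hfe')]
    show t - d i ≤ ∑ j ∈ range e, ((if j = f then w * θ else 0) +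
        (if j = f' then w * (1 - θ) else 0)) * max 0 (t - |x j - x i|)
    rw [hsum]
    have hm1 : w * θ * (t - |x f - x i|) ≤ w * θ * max 0 (t - |x f - x i|) :=
      mul_le_mul_of_nonneg_left (le_max_right _ _) (mul_nonneg hw0 hθ0)
    have hm2 : w * (1 - θ) * (t - |x f' - x i|) ≤ w * (1 - θ) * max 0 (t - |x f' - x i|) :=
      mul_le_mul_of_nonneg_left (le_max_right _ _) (mul_nonneg hw0 (by linarith))
    refine le_trans ?_ (add_le_add hm1 hm2)
    have hki := hkey t ht i hai.le hie.le
    rcases le_or_gt i f with hif | hif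
    · have h1 : x i ≤ x f := hxm.le_iff_le.2 hif
      have h2 : x i ≤ x f' := h1.trans hxff
      rw [abs_of_nonneg (by linarith : 0 ≤ x f - x i), abs_of_nonneg (by linarith : 0 ≤ x f' - x i)]
      rw [abs_of_nonpos (by linarith : x i - c ≤ 0)] at hki
      have h3 : w * (t - -(x i - c)) = w * θ * (t - (x f - x i)) + w * (1 - θ) * (t - (x f' - x i)) := by
        rw [← hθ]; ring
      linarith
    rcases le_or_gt f' i with hif' | hif'
    · have h1 : x f' ≤ x i := hxm.le_iff_le.2 hif'
      have h2 : x f ≤ x i := hxff.trans h1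
      rw [abs_of_nonpos (by linarith : x f - x i ≤ 0), abs_of_nonpos (by linarith : x f' - x i ≤ 0)]
      rw [abs_of_nonneg (by linarith : 0 ≤ x i - c)] at hki
      have h3 : w * (t - (x i - c)) = w * θ * (t - -(x f - x i)) + w * (1 - θ) * (t - -(x f' - x i)) := by
        rw [← hθ]; ring
      linarith
    -- between the two flips
    have hconst : ∀ l, f ≤ l → l < f' → S l = S f := by
      intro l hl
      induction l, hl using Nat.le_induction with
      | base => intro _; rfl
      | succ l hl ih =>
        intro hlt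
        rw [← ih (by omega)]
        by_contra h5
        rcases le_total (x (l + 1)) c with h6 | h6
        · have := hfmax (l + 1) ⟨⟨by omega, by omega⟩, by
            rw [Nat.add_sub_cancel]; exact fun h => h5 h.symm, h6⟩
          omega
        · have := hfmin (l + 1) ⟨⟨by omega, by omega⟩, by
            rw [Nat.add_sub_cancel]; exact fun h => h5 h.symm, h6⟩
          omega
    obtain ⟨s, hs⟩ : ∃ s : ℝ, s = if S f = true then -1 else 1 := ⟨_, rfl⟩
    have haff : ∀ l, f ≤ l → l ≤ f' → d l = d f + s * (x l - x f) := by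
      intro l hl
      induction l, hl using Nat.le_induction with
      | base => intro _; ring
      | succ l hl ih =>
        intro hlt
        rw [hd l, ih (by omega), hconst l hl (by omega), hs]
        split_ifs <;> ring
    have hdi := haff i hif.le hif'.le
    have hdf' := haff f' hff le_rfl
    have hkf := hkey t ht f hfa.le hfe.le
    have hkf' := hkey t ht f' hfa'.le hfe'.le
    have hA : x f < x i := hxm hif
    have hB : x i < x f' := hxm hif'
    rw [abs_of_neg (by linarith : x f - x i < 0), abs_of_pos (by linarith : 0 < x f' - x i)]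
    rw [abs_of_nonpos (by linarith : x f - c ≤ 0)] at hkf
    rw [abs_of_nonneg (by linarith : 0 ≤ x f' - c)] at hkf'
    have hkey1 : (x f' - x f) * (t - d i) ≤
        (x f' - x f) * (w * θ * (t - -(x f - x i)) + w * (1 - θ) * (t - (x f' - x i))) := by
      have e1 := mul_le_mul_of_nonneg_left hkf (by linarith : 0 ≤ x f' - x i)
      have e2 := mul_le_mul_of_nonneg_left hkf' (by linarith : 0 ≤ x i - x f)
      have e3 : (x f' - x i) * (t - d f) + (x i - x f) * (t - d f') = (x f' - x f) * (t - d i) := by
        rw [hdf', hdi]; ring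
      have e4 : (x f' - x i) * (w * (t - -(x f - c))) + (x i - x f) * (w * (t - (x f' - c))) =
          (x f' - x f) * (w * θ * (t - -(x f - x i)) + w * (1 - θ) * (t - (x f' - x i))) := by
        rw [← hθ]; ring
      linarith
    exact le_of_mul_le_mul_left hkey1 (by linarith)

end Pool.Agent.H994E
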