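import Mathlib
import Pool.Agent.H994E.Stubs

/-!
# Balayage on a line
-/

namespace Pool.Agent.H994E

open Finset

theorem t1B_gl_nonneg (d : ℕ → ℝ) (l : ℕ) : 0 ≤ gl d l := abs_nonneg _

/-- partial sums inside a component -/
theorem t1B_sum (x d : ℕ → ℝ) (S : ℕ → Bool) (hx : ∀ l, x l < x (l + 1))
    (hd : ∀ l, d (l + 1) = d l + (if S l = true then -(x (l + 1) - x l) else x (l + 1) - x l))
    (a : ℕ) (ha : 1 / 2 ≤ d a) (k : ℕ) (hlt : ∀ l, a < l → l ≤ a + 1 + k → d l < 1 / 2) :
    ∑ l ∈ range (a + 1 + k), gl d l =
      ∑ l ∈ range a, gl d l + (x (a + 1 + k) - (x a + (d a - 1 / 2))) := by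
  induction k with
  | zero =>
    rw [Nat.add_zero, sum_range_succ]
    have h1 := hlt (a + 1) (by omega) (by omega)
    have h2 := hd a
    have h3 := hx a
    have h4 : gl d a = x (a + 1) - (x a + (d a - 1 / 2)) := by
      unfold gl
      rw [min_eq_right ha, min_eq_left h1.le, abs_of_nonneg (by linarith)]
      split_ifs at h2 with hS
      · linarith
      · linarith
    rw [h4]
  | succ k ih =>
    have e : a + 1 + (k + 1) = a + 1 + k + 1 := rfl
    rw [e, sum_range_succ, ih fun l h1 h2 => hlt l h1 (by omega)]
    have h1 := hlt (a + 1 + k) (by omega) (by omega)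
    have h1' := hlt (a + 1 + k + 1) (by omega) (by omega)
    have h2 := hd (a + 1 + k)
    have h3 := hx (a + 1 + k)
    have h4 : gl d (a + 1 + k) = x (a + 1 + k + 1) - x (a + 1 + k) := by
      unfold gl
      rw [min_eq_left h1.le, min_eq_left h1'.le]
      split_ifs at h2 with hS
      · rw [abs_of_nonneg (by linarith)]
        linarith
      · rw [abs_of_nonpos (by linarith)]
        linarith
    rw [h4]
    ring

theorem t1B_total (x d : ℕ → ℝ) (S : ℕ → Bool) (hx : ∀ l, x l < x (l + 1))
    (hd : ∀ l, d (l + 1) = d l + (if S l = true then -(x (l + 1) - x l) else x (l + 1) - x l))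
    (a N : ℕ) (ha : 1 / 2 ≤ d a) (haN : a + 1 < N) (hN : 1 / 2 ≤ d N)
    (hlt : ∀ l, a < l → l < N → d l < 1 / 2) :
    ∑ l ∈ range N, gl d l =
      ∑ l ∈ range a, gl d l + ((x N - (d N - 1 / 2)) - (x a + (d a - 1 / 2))) := by
  obtain ⟨k, rfl⟩ : ∃ k, N = a + 1 + k + 1 := ⟨N - (a + 2), by omega⟩
  rw [sum_range_succ, t1B_sum x d S hx hd a ha k fun l h1 h2 => hlt l h1 (by omega)]
  have h1 := hlt (a + 1 + k) (by omega) (by omega)
  have h2 := hd (a + 1 + k)
  have h3 := hx (a + 1 + k)
  have h4 : gl d (a + 1 + k) = x (a + 1 + k + 1) - (d (a + 1 + k + 1) - 1 / 2) -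
      x (a + 1 + k) := by
    unfold gl
    rw [min_eq_left h1.le, min_eq_right hN, abs_of_nonpos (by linarith)]
    split_ifs at h2 with hS
    · linarith
    · linarith
  rw [h4]
  ring

theorem t1B_proof (h : St_T1A) : St_T1B := by
  intro x d S hx hd h0 N
  induction N using Nat.strong_induction_on with
  | _ N ih =>
    intro hN hsum
    rcases Nat.eq_zero_or_pos N with rfl | hpos
    · refine ⟨fun _ => 0, fun _ => le_rfl, fun j hj => absurd rfl hj, by simp, ?_⟩
      intro t ht i hi
      have hi0 : i = 0 := by omega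
      subst hi0
      simp
      linarith
    · -- the last index below `N` that is not below `1/2`
      obtain ⟨a, haN, ha, hlt⟩ : ∃ a, a < N ∧ 1 / 2 ≤ d a ∧ ∀ l, a < l → l < N → d l < 1 / 2 := by
        classical
        refine ⟨Nat.findGreatest (fun k => 1 / 2 ≤ d k) (N - 1), ?_, ?_, ?_⟩
        · have := Nat.findGreatest_le (P := fun k => 1 / 2 ≤ d k) (N - 1)
          omega
        · exact Nat.findGreatest_spec (P := fun k => 1 / 2 ≤ d k) (Nat.zero_le (N - 1)) h0
        · intro l h1 h2
          exact not_le.1 (Nat.findGreatest_is_greatest h1 (by omega))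
      have hsub : ∑ l ∈ range a, gl d l ≤ ∑ l ∈ range N, gl d l :=
        sum_le_sum_of_subset_of_nonneg (range_subset_range.2 haN.le)
          fun l _ _ => t1B_gl_nonneg d l
      obtain ⟨ν1, hp1, hs1, hsum1, hin1⟩ := ih a haN ha (hsub.trans hsum)
      -- sums of functions vanishing outside `(0, a)`
      have hext : ∀ g : ℕ → ℝ, ∑ j ∈ range N, ν1 j * g j = ∑ j ∈ range a, ν1 j * g j := by
        intro g
        symm
        refine sum_subset (range_subset_range.2 haN.le) fun j _ hj => ?_
        have h1 : ν1 j = 0 := by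
          by_contra hne
          have := (hs1 j hne).2.1
          exact hj (mem_range.2 this)
        rw [h1, zero_mul]
      have hext1 : ∑ j ∈ range N, ν1 j = ∑ j ∈ range a, ν1 j := by
        have := hext fun _ => 1
        simpa using this
      rcases Nat.lt_or_ge (a + 1) N with hlt1 | hge
      · -- a component `(a, N)`
        have htot := t1B_total x d S hx hd a N ha hlt1 hN hlt
        have hnn : 0 ≤ ∑ l ∈ range a, gl d l := sum_nonneg fun l _ => t1B_gl_nonneg d l
        obtain ⟨ν2, hp2, hs2, hsum2, hin2⟩ := h a N x d S hlt1 hx hd ha hN hlt (by linarith)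
        refine ⟨fun j => ν1 j + ν2 j, fun j => add_nonneg (hp1 j) (hp2 j), ?_, ?_, ?_⟩
        · intro j hj
          by_cases h1 : ν1 j = 0
          · have h2 : ν2 j ≠ 0 := by
              intro h2
              exact hj (by simp [h1, h2])
            obtain ⟨b1, b2, b3⟩ := hs2 j h2
            exact ⟨by omega, b2, b3⟩
          · obtain ⟨b1, b2, b3⟩ := hs1 j h1
            exact ⟨b1, by omega, b3⟩
        · rw [sum_add_distrib, hext1, hsum1, hsum2, htot]
        · intro t ht i hi
          have e1 : ∑ j ∈ range N, (ν1 j + ν2 j) * max 0 (t - |x j - x i|) =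
              ∑ j ∈ range a, ν1 j * max 0 (t - |x j - x i|) +
                ∑ j ∈ range N, ν2 j * max 0 (t - |x j - x i|) := by
            rw [← hext fun j => max 0 (t - |x j - x i|), ← sum_add_distrib]
            exact sum_congr rfl fun j _ => add_mul _ _ _
          have n1 : 0 ≤ ∑ j ∈ range a, ν1 j * max 0 (t - |x j - x i|) :=
            sum_nonneg fun j _ => mul_nonneg (hp1 j) (le_max_left _ _)
          have n2 : 0 ≤ ∑ j ∈ range N, ν2 j * max 0 (t - |x j - x i|) :=
            sum_nonneg fun j _ => mul_nonneg (hp2 j) (le_max_left _ _)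
          rw [e1]
          rcases Nat.lt_or_ge a i with hai | hai
          · rcases Nat.lt_or_ge i N with hiN | hiN
            · have := hin2 t ht i hai hiN
              linarith
            · have hiN' : i = N := by omega
              subst hiN'
              linarith
          · have := hin1 t ht i hai
            linarith
      · -- no component
        have hN' : N = a + 1 := by omega
        have hgl : gl d a = 0 := by
          unfold gl
          rw [min_eq_right ha, ← hN', min_eq_right hN, sub_self, abs_zero]
        refine ⟨ν1, hp1, ?_, ?_, ?_⟩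
        · intro j hj
          obtain ⟨b1, b2, b3⟩ := hs1 j hj
          exact ⟨b1, by omega, b3⟩
        · rw [hext1, hsum1, hN', sum_range_succ, hgl, add_zero]
        · intro t ht i hi
          rw [hext fun j => max 0 (t - |x j - x i|)]
          rcases Nat.lt_or_ge i N with hiN | hiN
          · exact hin1 t ht i (by omega)
          · have hiN' : i = N := by omega
            have n1 : 0 ≤ ∑ j ∈ range a, ν1 j * max 0 (t - |x j - x i|) :=
              sum_nonneg fun j _ => mul_nonneg (hp1 j) (le_max_left _ _)
            rw [← hiN'] at hN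
            linarith

end Pool.Agent.H994E
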