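import Mathlib
import Pool.Agent.H994E.Stubs

/-! Task T1C: balayage on the circle. -/

namespace Pool.Agent.H994E

open Finset

theorem t1C_split (f : ℕ → ℝ) (M : ℕ) : ∑ j ∈ range (2 * M), f j =
    ∑ j ∈ range M, f j + ∑ j ∈ range M, f (j + M) := by
  rw [two_mul, Finset.sum_range_add]
  congr 1
  refine Finset.sum_congr rfl fun j _ => ?_
  rw [add_comm]

theorem t1C_abs (u v h : ℝ) : |min u h - min v h| + |max u h - max v h| = |u - v| := by
  have h1 := min_add_max u h
  have h2 := min_add_max v h
  rcases le_total u v with huv | huv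
  · have h3 : min u h ≤ min v h := min_le_min_right h huv
    have h4 : max u h ≤ max v h := max_le_max_right h huv
    rw [abs_of_nonpos (by linarith), abs_of_nonpos (by linarith), abs_of_nonpos (by linarith)]
    linarith
  · have h3 : min v h ≤ min u h := min_le_min_right h huv
    have h4 : max v h ≤ max u h := max_le_max_right h huv
    rw [abs_of_nonneg (by linarith), abs_of_nonneg (by linarith), abs_of_nonneg (by linarith)]
    linarith

theorem t1C_per2 {M : ℕ} {S : ℕ → Bool} (hS : ∀ j, S (j + M) = !S j) (j : ℕ) :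
    S (j + 2 * M) = S j := by
  have : j + 2 * M = (j + M) + M := by ring
  rw [this, hS, hS, Bool.not_not]

/-- first case -/
theorem t1C_case (h : St_T1B) (hC : St_C) (hP : St_P) (M : ℕ) (lam : ℕ → ℝ) (S : ℕ → Bool)
    (hW : Wt M lam) (hpos : ∀ j, 0 < lam j) (hS : ∀ j, S (j + M) = !S j)
    (h0 : 1 / 2 ≤ Dw M lam S 0) :
    ∃ ν : ℕ → ℝ, (∀ j, 0 ≤ ν j) ∧ (∀ j, j < 2 * M → ν j ≠ 0 → S (j + 2 * M - 1) ≠ S j) ∧
    (∑ j ∈ range (2 * M), ν j = 1) ∧ Bal M lam S ν 0 := by
  have hx : ∀ l, Pos lam (l + 1) = Pos lam l + lam l := fun l => by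
    unfold Pos
    rw [Finset.sum_range_succ]
  have hx' : ∀ l, Pos lam (l + 1) - Pos lam l = lam l := fun l => by rw [hx]; ring
  have hanti := hP.dw_anti M lam S hW hS
  have hd2 : ∀ i, Dw M lam S (i + 2 * M) = Dw M lam S i := by
    intro i
    have : i + 2 * M = (i + M) + M := by ring
    rw [this, hanti, hanti]
    ring
  have hd : ∀ l, Dw M lam S (l + 1) = Dw M lam S l + (if S l = true then
      -(Pos lam (l + 1) - Pos lam l) else Pos lam (l + 1) - Pos lam l) := by
    intro l
    rw [hx']
    exact hP.dw_succ M lam S hW hS l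
  have hgl : ∀ l, gl (Dw M lam S) l + gl (Dw M lam S) (l + M) = lam l := by
    intro l
    have e1 := t1C_abs (Dw M lam S l) (Dw M lam S (l + 1)) (1 / 2)
    have e2 : gl (Dw M lam S) (l + M) =
        |max (Dw M lam S l) (1 / 2) - max (Dw M lam S (l + 1)) (1 / 2)| := by
      unfold gl
      have e3 : l + M + 1 = (l + 1) + M := by ring
      rw [e3, hanti, hanti]
      have e4 : ∀ u : ℝ, min (1 - u) (1 / 2) = 1 - max u (1 / 2) := by
        intro u
        rcases le_total u (1 / 2) with hu | hu
        · rw [max_eq_right hu, min_eq_right (by linarith)]; norm_num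
        · rw [max_eq_left hu, min_eq_left (by linarith)]
      rw [e4, e4, abs_sub_comm]
      congr 1
      ring
    rw [e2]
    unfold gl
    rw [e1, hP.dw_succ M lam S hW hS l]
    have := hpos l
    split_ifs
    · rw [abs_of_nonneg (by linarith)]; ring
    · rw [abs_of_nonpos (by linarith)]; ring
  have hsum : ∑ l ∈ range (2 * M), gl (Dw M lam S) l = 1 := by
    rw [t1C_split, ← Finset.sum_add_distrib, ← hW.sum]
    exact Finset.sum_congr rfl fun l _ => hgl l
  have hN : 1 / 2 ≤ Dw M lam S (2 * M) := by
    have := hd2 0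
    rw [zero_add] at this
    rw [this]
    exact h0
  obtain ⟨ν, hν0, hνS, hν1, hν⟩ := h (Pos lam) (Dw M lam S) S
    (fun l => by rw [hx]; linarith [hpos l]) hd h0 (2 * M) hN hsum.le
  refine ⟨ν, hν0, ?_, by rw [hν1, hsum], ?_⟩
  · intro j _ hj
    obtain ⟨h1, _, h3⟩ := hνS j hj
    have e : j + 2 * M - 1 = (j - 1) + 2 * M := by omega
    rw [e, t1C_per2 hS]
    exact h3
  · intro t ht i
    rw [add_zero]
    have hMpos := hW.Mpos
    -- reduction modulo 2M
    have hred : ∀ k i, Dw M lam S (i + 2 * M * k) = Dw M lam S i ∧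
        ∀ y, cd y (Pos lam (i + 2 * M * k)) = cd y (Pos lam i) := by
      intro k
      induction k with
      | zero => intro i; simp
      | succ k ih =>
        intro i
        have e : i + 2 * M * (k + 1) = (i + 2 * M * k) + 2 * M := by ring
        obtain ⟨a1, a2⟩ := ih i
        constructor
        · rw [e, hd2, a1]
        · intro y
          have e2 : Pos lam ((i + 2 * M * k) + 2 * M) = Pos lam (i + 2 * M * k) + 2 := by
            have e3 : (i + 2 * M * k) + 2 * M = (i + 2 * M * k + M) + M := by ring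
            rw [e3, hP.pos_add M lam hW, hP.pos_add M lam hW]
            ring
          rw [e, e2, hC.comm, hC.add_two, hC.comm, a2]
    have hdiv : i % (2 * M) + 2 * M * (i / (2 * M)) = i := Nat.mod_add_div i (2 * M)
    obtain ⟨b1, b2⟩ := hred (i / (2 * M)) (i % (2 * M))
    rw [hdiv] at b1 b2
    have hi : i % (2 * M) ≤ 2 * M := (Nat.mod_lt _ (by omega)).le
    rw [b1]
    refine le_trans (hν t ht (i % (2 * M)) hi) ?_
    refine Finset.sum_le_sum fun j _ => ?_
    apply mul_le_mul_of_nonneg_left _ (hν0 j)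
    rw [b2]
    apply max_le_max_left
    linarith [hC.le_abs (Pos lam j) (Pos lam (i % (2 * M)))]

theorem t1C_proof (h : St_T1B) (hC : St_C) (hP : St_P) : St_T1C := by
  intro M lam S hW hpos hS
  by_cases h0 : 1 / 2 ≤ Dw M lam S 0
  · exact t1C_case h hC hP M lam S hW hpos hS h0
  rw [not_le] at h0
  have hanti := hP.dw_anti M lam S hW hS
  have hMpos := hW.Mpos
  have hD' : ∀ i, Dw M lam (fun j => S (j + M)) i = Dw M lam S (i + M) := by
    intro i
    unfold Dw
    refine Finset.sum_congr rfl fun l _ => ?_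
    have e : i + M + l = i + l + M := by ring
    rw [e, hW.per]
  obtain ⟨ν, hν0, hνS, hν1, hν⟩ := t1C_case h hC hP M lam (fun j => S (j + M)) hW hpos
    (fun j => hS (j + M)) (by rw [hD', hanti]; linarith)
  refine ⟨fun j => if j < M then ν (j + M) else ν (j - M), ?_, ?_, ?_, ?_⟩
  · intro j
    simp only
    split_ifs
    · exact hν0 _
    · exact hν0 _
  · intro j hj hne
    simp only at hne
    split_ifs at hne with hjM
    · have h1 := hνS (j + M) (by omega) hne
      have e1 : j + M + 2 * M - 1 + M = (j + 2 * M - 1) + 2 * M := by omega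
      have e2 : j + M + M = j + 2 * M := by ring
      rw [e1, e2, t1C_per2 hS, t1C_per2 hS] at h1
      exact h1
    · have h1 := hνS (j - M) (by omega) hne
      have e1 : j - M + 2 * M - 1 + M = j + 2 * M - 1 := by omega
      have e2 : j - M + M = j := by omega
      rw [e1, e2] at h1
      exact h1
  · rw [t1C_split]
    rw [t1C_split] at hν1
    have e1 : ∑ j ∈ range M, (if j < M then ν (j + M) else ν (j - M)) =
        ∑ j ∈ range M, ν (j + M) := by
      refine Finset.sum_congr rfl fun j hj => ?_
      rw [if_pos (mem_range.mp hj)]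
    have e2 : ∑ j ∈ range M, (if j + M < M then ν (j + M + M) else ν (j + M - M)) =
        ∑ j ∈ range M, ν j := by
      refine Finset.sum_congr rfl fun j _ => ?_
      rw [if_neg (by omega), Nat.add_sub_cancel]
    rw [e1, e2, add_comm]
    exact hν1
  · intro t ht i
    have h1 := hν t ht (i + M)
    have e0 : Dw M lam (fun j => S (j + M)) (i + M) = Dw M lam S i := by
      rw [hD', hanti, hanti]
      ring
    rw [e0] at h1
    refine le_trans h1 ?_
    rw [add_zero, add_zero, t1C_split, t1C_split]
    have e1 : ∑ j ∈ range M, (if j < M then ν (j + M) else ν (j - M)) *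
        max 0 (t - cd (Pos lam j) (Pos lam i)) =
        ∑ j ∈ range M, ν (j + M) * max 0 (t - cd (Pos lam (j + M)) (Pos lam (i + M))) := by
      refine Finset.sum_congr rfl fun j hj => ?_
      rw [if_pos (mem_range.mp hj), hP.pos_add M lam hW, hP.pos_add M lam hW, hC.shift]
    have e2 : ∑ j ∈ range M, (if j + M < M then ν (j + M + M) else ν (j + M - M)) *
        max 0 (t - cd (Pos lam (j + M)) (Pos lam i)) =
        ∑ j ∈ range M, ν j * max 0 (t - cd (Pos lam j) (Pos lam (i + M))) := by
      refine Finset.sum_congr rfl fun j _ => ?_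
      rw [if_neg (by omega), Nat.add_sub_cancel, hP.pos_add M lam hW, hP.pos_add M lam hW]
      have e3 : cd (Pos lam j + 1) (Pos lam i) = cd (Pos lam j) (Pos lam i + 1) := by
        rw [← hC.shift (Pos lam j + 1) (Pos lam i) 1, ← hC.add_two (Pos lam j) (Pos lam i + 1)]
        congr 1
        ring
      rw [e3]
    rw [e1, e2, add_comm]

end Pool.Agent.H994E
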