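import Mathlib
import Pool.Agent.H994E.Stubs

/-! # Task T2A: overlap integral -/

set_option autoImplicit false

namespace Pool.Agent.H994E

open MeasureTheory

theorem t2A_cont (hC : St_C) (x : ℝ) : Continuous fun u => cd x u := by
  have h : LipschitzWith 1 fun u => cd x u := by
    apply LipschitzWith.of_dist_le_mul
    intro u v
    rw [Real.dist_eq, Real.dist_eq]
    have := hC.lip x u x v
    simpa using this
  exact h.continuous

theorem t2A_proof (hC : St_C) : St_T2A := by
  intro x y t ht0 ht1
  set g : ℝ → ℝ := fun u => (if cd x u ≤ t / 2 then (1:ℝ) else 0) *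
    (if cd y u ≤ t / 2 then (1:ℝ) else 0) with hg
  have hg0 : ∀ u, 0 ≤ g u := by
    intro u
    simp only [hg]
    split_ifs <;> norm_num
  have hg1 : ∀ u, ‖g u‖ ≤ 1 := by
    intro u
    rw [Real.norm_of_nonneg (hg0 u)]
    simp only [hg]
    split_ifs <;> norm_num
  have hm : ∀ z : ℝ, Measurable fun u => (if cd z u ≤ t / 2 then (1:ℝ) else 0) := by
    intro z
    apply Measurable.ite _ measurable_const measurable_const
    exact (isClosed_le (t2A_cont hC z) continuous_const).measurableSet
  have hgm : Measurable g := (hm x).mul (hm y)
  have hint : ∀ p q : ℝ, IntervalIntegrable g volume p q := by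
    intro p q
    rw [intervalIntegrable_iff]
    apply Measure.integrableOn_of_bounded (M := 1)
    · exact (measure_Ioc_lt_top).ne
    · exact hgm.aestronglyMeasurable
    · exact Filter.Eventually.of_forall hg1
  have hper : Function.Periodic g 2 := by
    intro u
    have h1 : ∀ z : ℝ, cd z (u + 2) = cd z u := by
      intro z
      rw [hC.comm, hC.add_two, hC.comm]
    simp only [hg, h1]
  rcases le_or_gt t (cd x y) with h | h
  · rw [max_eq_left (by linarith)]
    exact intervalIntegral.integral_nonneg (by norm_num) fun u _ => hg0 u
  · rw [max_eq_right (by linarith)]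
    obtain ⟨k, hk⟩ := (hC.iff x y (cd x y)).1 le_rfl
    set y' : ℝ := y + 2 * k with hy'
    have hk' : |x - y'| ≤ cd x y := by
      have : x - y' = x - y - 2 * k := by rw [hy']; ring
      rw [this]
      exact hk
    set a : ℝ := max x y' - t / 2 with ha
    set b : ℝ := min x y' + t / 2 with hb
    have hab : b - a = t - |x - y'| := by
      rw [ha, hb]
      rcases le_total x y' with h1 | h1
      · rw [max_eq_right h1, min_eq_left h1, abs_of_nonpos (by linarith)]
        ring
      · rw [max_eq_left h1, min_eq_right h1, abs_of_nonneg (by linarith)]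
        ring
    have hab0 : a ≤ b := by linarith [hk', h]
    have hb2 : b ≤ a + 2 := by linarith [abs_nonneg (x - y')]
    have hone : ∀ u ∈ Set.uIcc a b, g u = 1 := by
      intro u hu
      rw [Set.uIcc_of_le hab0] at hu
      obtain ⟨h1, h2⟩ := hu
      have e1 : cd x u ≤ t / 2 := by
        refine (hC.le_abs x u).trans ?_
        rw [abs_le]
        have f1 := le_max_left x y'
        have f2 := min_le_left x y'
        constructor <;> linarith
      have e2 : cd y u ≤ t / 2 := by
        rw [hC.iff]
        refine ⟨-k, ?_⟩
        have f3 : y - u - 2 * ((-k : ℤ) : ℝ) = y' - u := by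
          rw [hy']
          push_cast
          ring
        rw [f3, abs_le]
        have f1 := le_max_right x y'
        have f2 := min_le_right x y'
        constructor <;> linarith
      simp only [hg]
      rw [if_pos e1, if_pos e2, one_mul]
    have h3 : ∫ u in (0:ℝ)..2, g u = ∫ u in a..(a + 2), g u := by
      have := hper.intervalIntegral_add_eq 0 a
      rwa [zero_add] at this
    have h4 : ∫ u in a..(a + 2), g u = (∫ u in a..b, g u) + ∫ u in b..(a + 2), g u :=
      (intervalIntegral.integral_add_adjacent_intervals (hint a b) (hint b (a + 2))).symm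
    have h5 : ∫ u in a..b, g u = b - a := by
      rw [intervalIntegral.integral_congr hone, intervalIntegral.integral_const, smul_eq_mul,
        mul_one]
    have h6 : 0 ≤ ∫ u in b..(a + 2), g u :=
      intervalIntegral.integral_nonneg hb2 fun u _ => hg0 u
    change t - cd x y ≤ ∫ u in (0:ℝ)..2, g u
    rw [h3, h4, h5, hab]
    linarith

end Pool.Agent.H994E
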