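import Mathlib
import Pool.Agent.H994E.Stubs

namespace Pool.Agent.H994E

open Finset

private theorem t2B_sum (lam : ℕ → ℝ) (η c : ℝ) (h0 : ∀ j, 0 ≤ lam j) (hη : ∀ j, lam j ≤ η)
    (i : ℕ) (hi : Pos lam i ≤ c + η) (N : ℕ) :
    ∑ l ∈ range N, lam (i + l) * (if Pos lam (i + l) ≤ c then (1:ℝ) else 0) ≤
      min (Pos lam (i + N)) (c + η) - Pos lam i := by
  induction N with
  | zero =>
    simp only [range_zero, sum_empty, add_zero]
    rw [min_eq_left hi]
    linarith
  | succ N ih =>
    rw [sum_range_succ]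
    have hs : Pos lam (i + (N + 1)) = Pos lam (i + N) + lam (i + N) := by
      unfold Pos
      rw [← add_assoc, sum_range_succ]
    have h1 := h0 (i + N)
    have h2 := hη (i + N)
    by_cases hc : Pos lam (i + N) ≤ c
    · rw [if_pos hc, mul_one]
      have h3 : min (Pos lam (i + N)) (c + η) ≤ Pos lam (i + N) := min_le_left _ _
      have h4 : Pos lam (i + N) + lam (i + N) ≤ min (Pos lam (i + (N + 1))) (c + η) := by
        rw [hs]
        exact le_min le_rfl (by linarith)
      linarith
    · rw [if_neg hc, mul_zero, add_zero]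
      have h4 : min (Pos lam (i + N)) (c + η) ≤ min (Pos lam (i + (N + 1))) (c + η) :=
        min_le_min (by rw [hs]; linarith) le_rfl
      linarith

theorem t2B_proof (hC : St_C) (hP : St_P) : St_T2B := by
  intro M lam η t hW hη ht htη u
  have hper2 : ∀ j, lam (j + 2 * M) = lam j := fun j => by
    rw [two_mul, ← add_assoc, hW.per, hW.per]
  have hpos2 : ∀ j, Pos lam (j + 2 * M) = Pos lam j + 2 := fun j => by
    rw [two_mul, ← add_assoc, hP.pos_add M lam hW, hP.pos_add M lam hW]; ring
  have hη0 : 0 ≤ η := le_trans (hW.nonneg 0) (hη 0)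
  obtain ⟨k0, hk0⟩ := exists_nat_gt ((t / 2 - u) / 2)
  have hk0' : 0 < u + 2 * k0 - t / 2 := by linarith
  have hex : ∃ i, u + 2 * k0 - t / 2 ≤ Pos lam i := by
    obtain ⟨n, hn⟩ := exists_nat_ge (u + 2 * k0 - t / 2)
    refine ⟨n * M, hn.trans ?_⟩
    have : ∀ n : ℕ, Pos lam (n * M) = n := by
      intro n
      induction n with
      | zero => simp [Pos]
      | succ n ih => rw [Nat.succ_mul, hP.pos_add M lam hW, ih]; push_cast; ring
    rw [this]
  classical
  set i := Nat.find hex with hidef
  have hi : u + 2 * k0 - t / 2 ≤ Pos lam i := Nat.find_spec hex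
  have hi0 : i ≠ 0 := by
    intro h
    rw [h] at hi
    simp only [Pos, range_zero, sum_empty] at hi
    linarith
  obtain ⟨i', hi'⟩ := Nat.exists_eq_succ_of_ne_zero hi0
  have hlt : Pos lam i' < u + 2 * k0 - t / 2 := by
    have := Nat.find_min hex (m := i') (by omega)
    linarith [not_le.mp this]
  have hii : Pos lam i = Pos lam i' + lam i' := by
    rw [hi']; unfold Pos; rw [Nat.succ_eq_add_one, sum_range_succ]
  have hwin := hP.window (2 * M)
    (fun j => lam j * (if cd (Pos lam j) u ≤ t / 2 then (1:ℝ) else 0)) (by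
      intro j
      simp only [hper2, hpos2, hC.add_two]) i
  rw [← hwin]
  have hle : ∀ l ∈ range (2 * M),
      lam (i + l) * (if cd (Pos lam (i + l)) u ≤ t / 2 then (1:ℝ) else 0) ≤
      lam (i + l) * (if Pos lam (i + l) ≤ u + 2 * k0 + t / 2 then (1:ℝ) else 0) := by
    intro l hl
    rw [mem_range] at hl
    refine mul_le_mul_of_nonneg_left ?_ (hW.nonneg _)
    by_cases hc : cd (Pos lam (i + l)) u ≤ t / 2
    · rw [if_pos hc, if_pos]
      obtain ⟨k, hk⟩ := (hC.iff _ _ _).1 hc
      rw [abs_le] at hk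
      have hlow : u + 2 * k0 - t / 2 ≤ Pos lam (i + l) :=
        hi.trans (hP.pos_mono M lam hW (Nat.le_add_right _ _))
      have hup : Pos lam (i + l) < u + 2 * k0 - t / 2 + 2 := by
        have h1 : Pos lam (i + l) ≤ Pos lam (i' + 2 * M) :=
          hP.pos_mono M lam hW (by omega)
        rw [hpos2] at h1
        linarith
      have hk1 : (k : ℝ) < k0 + 1 := by linarith
      have hk2 : (k0 : ℝ) - 1 < k := by linarith
      have hk3 : k < (k0 : ℤ) + 1 := by exact_mod_cast hk1
      have hk4 : (k0 : ℤ) - 1 < k := by exact_mod_cast hk2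
      have hk5 : k = (k0 : ℤ) := by omega
      have hk6 : (k : ℝ) = k0 := by rw [hk5]; simp
      rw [hk6] at hk
      linarith
    · rw [if_neg hc]
      split_ifs <;> norm_num
  refine (sum_le_sum hle).trans ?_
  refine (t2B_sum lam η (u + 2 * k0 + t / 2) hW.nonneg hη i ?_ (2 * M)).trans ?_
  · have := hη i'
    linarith
  · have : min (Pos lam (i + 2 * M)) (u + 2 * k0 + t / 2 + η) ≤ u + 2 * k0 + t / 2 + η :=
      min_le_right _ _
    linarith

end Pool.Agent.H994E
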