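import Mathlib
import Pool.Agent.H994E.Stubs

namespace Pool.Agent.H994E

open Finset MeasureTheory

private noncomputable def t2C_ind (t x u : ℝ) : ℝ := if cd x u ≤ t / 2 then (1:ℝ) else 0

private theorem t2C_meas (hC : St_C) (t x : ℝ) : Measurable (t2C_ind t x) := by
  have hcont : Continuous (fun u => cd x u) := by
    rw [Metric.continuous_iff]
    intro b ε hε
    refine ⟨ε, hε, fun a ha => ?_⟩
    rw [Real.dist_eq] at ha ⊢
    have := hC.lip x a x b
    rw [sub_self, abs_zero, zero_add] at this
    linarith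
  unfold t2C_ind
  exact Measurable.ite (measurableSet_le hcont.measurable measurable_const) measurable_const
    measurable_const

private theorem t2C_nonneg (t x u : ℝ) : 0 ≤ t2C_ind t x u := by
  unfold t2C_ind; split_ifs <;> norm_num

private theorem t2C_le (t x u : ℝ) : t2C_ind t x u ≤ 1 := by
  unfold t2C_ind; split_ifs <;> norm_num

private theorem t2C_int (hC : St_C) (t x y : ℝ) :
    IntervalIntegrable (fun u => t2C_ind t x u * t2C_ind t y u) volume 0 2 := by
  refine (intervalIntegrable_const (c := (1:ℝ))).mono_fun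
    ((t2C_meas hC t x).mul (t2C_meas hC t y)).aestronglyMeasurable
    (Filter.Eventually.of_forall fun u => ?_)
  change ‖t2C_ind t x u * t2C_ind t y u‖ ≤ ‖(1:ℝ)‖
  rw [Real.norm_eq_abs, abs_of_nonneg (mul_nonneg (t2C_nonneg _ _ _) (t2C_nonneg _ _ _)),
    norm_one]
  exact mul_le_one₀ (t2C_le _ _ _) (t2C_nonneg _ _ _) (t2C_le _ _ _)

theorem t2C_proof (hA : St_T2A) (hB : St_T2B) (hC : St_C) (hP : St_P) : St_T2C := by
  intro M lam β η t hW hη ht htη hβ hβs
  have hpos2 : ∀ j, Pos lam (j + 2 * M) = Pos lam j + 2 := fun j => by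
    rw [two_mul, ← add_assoc, hP.pos_add M lam hW, hP.pos_add M lam hW]; ring
  have hη0 : 0 ≤ η := le_trans (hW.nonneg 0) (hη 0)
  have ht1 : t ≤ 1 := by linarith
  set b : ℝ → ℝ := fun u => ∑ j ∈ range (2 * M), β j * t2C_ind t (Pos lam j) u with hb
  set b' : ℝ → ℝ := fun u => ∑ k ∈ range (2 * M), β k * t2C_ind t (Pos lam k + 1) u with hb'
  have hsum : ∀ u, b u + b' u = ∑ j ∈ range (2 * M), lam j * t2C_ind t (Pos lam j) u := by
    intro u
    have e1 : b u = ∑ j ∈ range M, (β j * t2C_ind t (Pos lam j) u +
        β (j + M) * t2C_ind t (Pos lam (j + M)) u) := by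
      rw [hb]
      simp only
      rw [two_mul, sum_range_add, sum_add_distrib]
      congr 1
      exact sum_congr rfl fun j _ => by rw [add_comm M j]
    have e2 : b' u = ∑ j ∈ range M, (β j * t2C_ind t (Pos lam (j + M)) u +
        β (j + M) * t2C_ind t (Pos lam j) u) := by
      rw [hb']
      simp only
      rw [two_mul, sum_range_add, sum_add_distrib]
      congr 1
      · exact sum_congr rfl fun j _ => by rw [hP.pos_add M lam hW]
      · refine sum_congr rfl fun j _ => ?_
        rw [add_comm M j]
        congr 1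
        have : Pos lam (j + M) + 1 = Pos lam j + 2 := by rw [hP.pos_add M lam hW]; ring
        rw [this]
        unfold t2C_ind
        rw [hC.add_two]
    have e3 : ∑ j ∈ range (2 * M), lam j * t2C_ind t (Pos lam j) u =
        ∑ j ∈ range M, (lam j * t2C_ind t (Pos lam j) u +
          lam j * t2C_ind t (Pos lam (j + M)) u) := by
      rw [two_mul, sum_range_add, sum_add_distrib]
      congr 1
      exact sum_congr rfl fun j _ => by rw [add_comm M j, hW.per]
    rw [e1, e2, e3, ← sum_add_distrib]
    refine sum_congr rfl fun j hj => ?_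
    rw [← hβs j (mem_range.1 hj)]
    ring
  have hb0 : ∀ u, 0 ≤ b u := fun u => sum_nonneg fun j _ => mul_nonneg (hβ j) (t2C_nonneg _ _ _)
  have hb0' : ∀ u, 0 ≤ b' u := fun u => sum_nonneg fun j _ => mul_nonneg (hβ j) (t2C_nonneg _ _ _)
  have hbb : ∀ u, b u * b' u ≤ (t + η) ^ 2 / 4 := by
    intro u
    have h1 : b u + b' u ≤ t + η := by
      rw [hsum]
      exact hB M lam η t hW hη ht htη u
    nlinarith [sq_nonneg (b u - b' u), hb0 u, hb0' u]
  have hexp : ∀ u, b u * b' u = ∑ j ∈ range (2 * M), ∑ k ∈ range (2 * M),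
      β j * β k * (t2C_ind t (Pos lam j) u * t2C_ind t (Pos lam k + 1) u) := by
    intro u
    rw [hb, hb']
    simp only
    rw [sum_mul_sum]
    refine sum_congr rfl fun j _ => sum_congr rfl fun k _ => ?_
    ring
  have hInt : IntervalIntegrable (fun u => b u * b' u) volume 0 2 := by
    simp only [hexp]
    have := IntervalIntegrable.sum (μ := volume) (a := 0) (b := 2) (range (2 * M))
      (f := fun j u => ∑ k ∈ range (2 * M),
        β j * β k * (t2C_ind t (Pos lam j) u * t2C_ind t (Pos lam k + 1) u))
      (fun j _ => by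
        have := IntervalIntegrable.sum (μ := volume) (a := 0) (b := 2) (range (2 * M))
          (f := fun k u =>
            β j * β k * (t2C_ind t (Pos lam j) u * t2C_ind t (Pos lam k + 1) u))
          (fun k _ => (t2C_int hC t _ _).const_mul _)
        simpa [Finset.sum_fn] using this)
    simpa [Finset.sum_fn] using this
  have hintEq : ∫ u in (0:ℝ)..2, b u * b' u = ∑ j ∈ range (2 * M), ∑ k ∈ range (2 * M),
      β j * β k * ∫ u in (0:ℝ)..2,
        (t2C_ind t (Pos lam j) u * t2C_ind t (Pos lam k + 1) u) := by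
    simp only [hexp]
    rw [intervalIntegral.integral_finset_sum]
    · refine sum_congr rfl fun j _ => ?_
      rw [intervalIntegral.integral_finset_sum]
      · refine sum_congr rfl fun k _ => ?_
        rw [intervalIntegral.integral_const_mul]
      · intro k _
        exact (t2C_int hC t _ _).const_mul _
    · intro j _
      have := IntervalIntegrable.sum (μ := volume) (a := 0) (b := 2) (range (2 * M))
          (f := fun k u =>
            β j * β k * (t2C_ind t (Pos lam j) u * t2C_ind t (Pos lam k + 1) u))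
          (fun k _ => (t2C_int hC t _ _).const_mul _)
      simpa [Finset.sum_fn] using this
  calc ∑ j ∈ range (2 * M), ∑ k ∈ range (2 * M),
      β j * β k * max 0 (t - cd (Pos lam j) (Pos lam k + 1))
      ≤ ∑ j ∈ range (2 * M), ∑ k ∈ range (2 * M),
      β j * β k * ∫ u in (0:ℝ)..2,
        (t2C_ind t (Pos lam j) u * t2C_ind t (Pos lam k + 1) u) :=
        sum_le_sum fun j _ => sum_le_sum fun k _ =>
          mul_le_mul_of_nonneg_left (hA _ _ t ht ht1) (mul_nonneg (hβ j) (hβ k))
    _ = ∫ u in (0:ℝ)..2, b u * b' u := hintEq.symm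
    _ ≤ ∫ u in (0:ℝ)..2, (t + η) ^ 2 / 4 :=
        intervalIntegral.integral_mono_on (by norm_num) hInt intervalIntegrable_const
          (fun u _ => hbb u)
    _ = (t + η) ^ 2 / 2 := by
        rw [intervalIntegral.integral_const, smul_eq_mul]
        ring

end Pool.Agent.H994E
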