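import Mathlib
import Pool.Agent.H994E.Stubs

set_option autoImplicit false

namespace Pool.Agent.H994E

open Finset

theorem t3A_near (M : ℕ) (hM : 0 < M) (δ : ℝ) (hδ : 0 < δ) (z : Fin M → ℝ)
    (hz0 : ∀ i, 0 ≤ z i) (hz1 : ∑ i, z i = 1) :
    ∃ y : Fin M → ℝ, ((∀ i, 0 < y i) ∧ ∑ i, y i = 1) ∧ ∑ i, |y i - z i| < δ := by
  have hMr : (0 : ℝ) < M := by exact_mod_cast hM
  obtain ⟨r, hr0, hr1, hr2⟩ : ∃ r : ℝ, 0 < r ∧ r < 1 ∧ 2 * r < δ := by
    refine ⟨min (1 / 2) (δ / 4), by positivity, ?_, ?_⟩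
    · exact lt_of_le_of_lt (min_le_left _ _) (by norm_num)
    · have := min_le_right (1 / 2) (δ / 4)
      linarith
  refine ⟨fun i => (1 - r) * z i + r / M, ⟨?_, ?_⟩, ?_⟩
  · intro i
    have h1 : 0 ≤ (1 - r) * z i := mul_nonneg (by linarith) (hz0 i)
    have h2 : 0 < r / M := by positivity
    linarith
  · rw [Finset.sum_add_distrib, ← Finset.mul_sum, hz1]
    simp only [Finset.sum_const, Finset.card_univ, Fintype.card_fin, nsmul_eq_mul]
    field_simp
    ring
  · have h1 : ∀ i, |((1 - r) * z i + r / M) - z i| ≤ r / M + r * z i := by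
      intro i
      have e : ((1 - r) * z i + r / M) - z i = r / M - r * z i := by ring
      rw [e]
      have h2 : 0 ≤ r / M := by positivity
      have h3 : 0 ≤ r * z i := mul_nonneg hr0.le (hz0 i)
      rw [abs_le]
      constructor <;> linarith
    have h2 : ∑ i, |((1 - r) * z i + r / M) - z i| ≤ ∑ i, (r / M + r * z i) :=
      Finset.sum_le_sum (fun i _ => h1 i)
    have h3 : ∑ i : Fin M, (r / M + r * z i) = 2 * r := by
      rw [Finset.sum_add_distrib, ← Finset.mul_sum, hz1]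
      simp only [Finset.sum_const, Finset.card_univ, Fintype.card_fin, nsmul_eq_mul]
      field_simp
      ring
    linarith

theorem t3A_proof : St_T3A := by
  classical
  intro M hM δ hδ
  have hc : IsCompact (stdSimplex ℝ (Fin M)) := isCompact_stdSimplex ℝ (Fin M)
  let Y : (Fin M → ℝ) → (Fin M → ℝ) := fun z =>
    if h : (∀ i, 0 ≤ z i) ∧ ∑ i, z i = 1 then (t3A_near M hM δ hδ z h.1 h.2).choose else z
  have hY : ∀ z ∈ stdSimplex ℝ (Fin M),
      ((∀ i, 0 < Y z i) ∧ ∑ i, Y z i = 1) ∧ ∑ i, |Y z i - z i| < δ := by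
    intro z hz
    have h : (∀ i, 0 ≤ z i) ∧ ∑ i, z i = 1 := ⟨hz.1, hz.2⟩
    have e : Y z = (t3A_near M hM δ hδ z h.1 h.2).choose := by
      simp only [Y, dif_pos h]
    rw [e]
    exact (t3A_near M hM δ hδ z h.1 h.2).choose_spec
  let U : (Fin M → ℝ) → Set (Fin M → ℝ) := fun z => {x | ∑ i, |Y z i - x i| < δ}
  have hU : ∀ z ∈ stdSimplex ℝ (Fin M), U z ∈ nhds z := by
    intro z hz
    apply IsOpen.mem_nhds
    · apply isOpen_lt _ continuous_const
      apply continuous_finset_sum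
      intro i _
      exact (continuous_const.sub (continuous_apply i)).abs
    · exact (hY z hz).2
  obtain ⟨t, ht, hcov⟩ := hc.elim_nhds_subcover U hU
  refine ⟨t.image Y, ?_, ?_⟩
  · intro y hy
    obtain ⟨z, hz, rfl⟩ := Finset.mem_image.1 hy
    exact (hY z (ht z hz)).1
  · intro z hz0 hz1
    have hz : z ∈ stdSimplex ℝ (Fin M) := ⟨hz0, hz1⟩
    obtain ⟨x, hx, hzx⟩ := Set.mem_iUnion₂.1 (hcov hz)
    exact ⟨Y x, Finset.mem_image_of_mem _ hx, hzx⟩

end Pool.Agent.H994E
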