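import Mathlib
import Pool.Agent.H994E.Stubs
import Pool.Agent.Helper133.Brouwer

set_option autoImplicit false

namespace Pool.Agent.H994E

/-- retraction on the simplex -/
noncomputable def t3B_r (M : ℕ) (x : Fin M → ℝ) (i : Fin M) : ℝ :=
  (max 0 (x i) + max 0 (1 - ∑ j, max 0 (x j)) / M) / max 1 (∑ j, max 0 (x j))

lemma t3B_r_cont (M : ℕ) : Continuous (t3B_r M) := by
  refine continuous_pi fun i => ?_
  unfold t3B_r
  have hs : Continuous fun x : Fin M → ℝ => ∑ j, max 0 (x j) :=
    continuous_finsetSum _ fun j _ => continuous_const.max (continuous_apply j)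
  refine Continuous.div ?_ (continuous_const.max hs) ?_
  · exact (continuous_const.max (continuous_apply i)).add
      ((continuous_const.max (continuous_const.sub hs)).div_const _)
  · intro x
    have : (1:ℝ) ≤ max 1 (∑ j, max 0 (x j)) := le_max_left _ _
    positivity

lemma t3B_r_mem (M : ℕ) (hM : 0 < M) (x : Fin M → ℝ) :
    (∀ i, 0 ≤ t3B_r M x i) ∧ ∑ i, t3B_r M x i = 1 := by
  have h1 : (1:ℝ) ≤ max 1 (∑ j, max 0 (x j)) := le_max_left _ _
  have hM' : (M : ℝ) ≠ 0 := by exact_mod_cast hM.ne'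
  constructor
  · intro i
    unfold t3B_r
    apply div_nonneg _ (by linarith)
    apply add_nonneg (le_max_left _ _)
    exact div_nonneg (le_max_left _ _) (by positivity)
  · unfold t3B_r
    rw [← Finset.sum_div, Finset.sum_add_distrib, Finset.sum_const, Finset.card_univ,
      Fintype.card_fin, nsmul_eq_mul, mul_div_cancel₀ _ hM']
    rw [div_eq_one_iff_eq (by linarith)]
    rcases le_total (∑ j, max 0 (x j)) 1 with h | h
    · rw [max_eq_right (by linarith), max_eq_left h]; ring
    · rw [max_eq_left (by linarith), max_eq_right h]; ring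

lemma t3B_r_id (M : ℕ) (x : Fin M → ℝ) (h0 : ∀ i, 0 ≤ x i) (h1 : ∑ i, x i = 1) :
    t3B_r M x = x := by
  funext i
  unfold t3B_r
  have e : ∑ j, max 0 (x j) = 1 := by
    rw [← h1]
    exact Finset.sum_congr rfl fun j _ => max_eq_right (h0 j)
  rw [e, max_eq_right (h0 i)]
  simp

theorem t3B_proof : St_T3B := by
  intro M hM f hf hmem
  have hF : Continuous fun x => f (t3B_r M x) :=
    hf.comp_continuous (t3B_r_cont M) fun x => t3B_r_mem M hM x
  have hm : ∀ x, (∀ i, 0 ≤ f (t3B_r M x) i) ∧ ∑ i, f (t3B_r M x) i = 1 := fun x =>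
    hmem _ (t3B_r_mem M hM x).1 (t3B_r_mem M hM x).2
  obtain ⟨x, hx⟩ := Pool.Agent.Helper133.Brouwer.brouwer (fun x => f (t3B_r M x)) hF 1 (by
    intro x
    rw [pi_norm_le_iff_of_nonneg zero_le_one]
    intro i
    rw [Real.norm_eq_abs, abs_of_nonneg ((hm x).1 i), ← (hm x).2]
    exact Finset.single_le_sum (fun j _ => (hm x).1 j) (Finset.mem_univ i))
  have hx' : f (t3B_r M x) = x := hx
  have h2 := hm x
  rw [hx'] at h2
  rw [t3B_r_id M x h2.1 h2.2] at hx'
  exact ⟨x, h2.1, h2.2, hx'⟩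

end Pool.Agent.H994E
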