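import Mathlib
import Pool.Agent.H994E.Stubs

/-! task T3C: approximate fixed point of an arbitrary map of the open simplex -/

namespace Pool.Agent.H994E

open Finset

theorem t3C_proof (hA : St_T3A) (hB : St_T3B) : St_T3C := by
  classical
  intro M hM g hg δ hδ
  obtain ⟨s0, hs0, hnet⟩ := hA M hM δ hδ
  set phi : (Fin M → ℝ) → (Fin M → ℝ) → ℝ := fun y z => max 0 (δ - ∑ i, |y i - z i|) with hphi
  set Phi : (Fin M → ℝ) → ℝ := fun z => ∑ y ∈ s0, phi y z with hPhi
  have hphi0 : ∀ y z, 0 ≤ phi y z := fun y z => le_max_left _ _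
  have hPhipos : ∀ z : Fin M → ℝ, (∀ i, 0 ≤ z i) → ∑ i, z i = 1 → 0 < Phi z := by
    intro z hz hz1
    obtain ⟨y, hy, hlt⟩ := hnet z hz hz1
    have h1 : 0 < phi y z := lt_max_of_lt_right (by linarith)
    exact lt_of_lt_of_le h1 (Finset.single_le_sum (f := fun y => phi y z)
      (fun y _ => hphi0 y z) hy)
  set f : (Fin M → ℝ) → (Fin M → ℝ) := fun z i => (∑ y ∈ s0, phi y z * g y i) / Phi z with hf
  have hcphi : ∀ y, Continuous (phi y) := by
    intro y
    have : Continuous fun z : Fin M → ℝ => ∑ i, |y i - z i| := by fun_prop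
    exact continuous_const.max (continuous_const.sub this)
  have hcPhi : Continuous Phi := continuous_finsetSum _ (fun y _ => hcphi y)
  have hcf : ContinuousOn f {z | (∀ i, 0 ≤ z i) ∧ ∑ i, z i = 1} := by
    rw [continuousOn_pi]
    intro i
    refine ContinuousOn.div ?_ hcPhi.continuousOn ?_
    · exact (continuous_finsetSum _ (fun y _ => (hcphi y).mul continuous_const)).continuousOn
    · intro z hz
      exact (hPhipos z hz.1 hz.2).ne'
  have hmap : ∀ z : Fin M → ℝ, (∀ i, 0 ≤ z i) → ∑ i, z i = 1 →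
      (∀ i, 0 ≤ f z i) ∧ ∑ i, f z i = 1 := by
    intro z hz hz1
    have hP := hPhipos z hz hz1
    refine ⟨fun i => ?_, ?_⟩
    · refine div_nonneg (Finset.sum_nonneg fun y hy => ?_) hP.le
      exact mul_nonneg (hphi0 y z) ((hg y (hs0 y hy).1 (hs0 y hy).2).1 i)
    · have h1 : ∑ i, f z i = (∑ i, ∑ y ∈ s0, phi y z * g y i) / Phi z := by
        simp only [hf]
        rw [Finset.sum_div]
      rw [h1, Finset.sum_comm]
      have h2 : ∑ y ∈ s0, ∑ i, phi y z * g y i = Phi z := by
        simp only [hPhi]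
        refine Finset.sum_congr rfl fun y hy => ?_
        rw [← Finset.mul_sum, (hg y (hs0 y hy).1 (hs0 y hy).2).2, mul_one]
      rw [h2, div_self hP.ne']
  obtain ⟨z, hz, hz1, hfz⟩ := hB M hM f hcf hmap
  have hP := hPhipos z hz hz1
  have hsum : ∀ h : (Fin M → ℝ) → ℝ,
      ∑ y ∈ s0.filter (fun y => 0 < phi y z), phi y z / Phi z * h y
        = ∑ y ∈ s0, phi y z / Phi z * h y := by
    intro h
    refine Finset.sum_subset (Finset.filter_subset _ _) ?_
    intro y hy hny
    have : ¬ 0 < phi y z := fun h0 => hny (Finset.mem_filter.2 ⟨hy, h0⟩)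
    have h0 : phi y z = 0 := le_antisymm (not_lt.1 this) (hphi0 y z)
    rw [h0]
    simp
  refine ⟨z, s0.filter (fun y => 0 < phi y z), fun y => phi y z / Phi z, hz, hz1, ?_, ?_, ?_, ?_⟩
  · intro y _
    exact div_nonneg (hphi0 y z) hP.le
  · have := hsum (fun _ => 1)
    simp only [mul_one] at this
    rw [this, ← Finset.sum_div]
    exact div_self hP.ne'
  · intro y hy
    rw [Finset.mem_filter] at hy
    refine ⟨(hs0 y hy.1).1, (hs0 y hy.1).2, ?_⟩
    by_contra hcon
    push Not at hcon
    have : phi y z = 0 := max_eq_left (by linarith)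
    rw [this] at hy
    exact lt_irrefl _ hy.2
  · intro i
    have h1 : z i = f z i := by rw [hfz]
    rw [h1, hsum (fun y => g y i)]
    simp only [hf]
    rw [Finset.sum_div]
    refine Finset.sum_congr rfl fun y _ => ?_
    ring

end Pool.Agent.H994E
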