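import Mathlib
import Pool.Agent.H994E.Stubs

namespace Pool.Agent.H994E

open Finset

theorem t4A_proof (hP : St_P) : St_T4A := by
  intro M lam S S' q hW hS hS' h
  have h1 := hP.window M (fun j => if S j = S' j then lam j else 0) (by
    intro j
    show (if S (j + M) = S' (j + M) then lam (j + M) else 0) = if S j = S' j then lam j else 0
    rw [hS, hS', hW.per]
    cases S j <;> cases S' j <;> simp) q
  have h1' : ∑ l ∈ range M, (if S l = S' l then lam l else 0) =
      ∑ l ∈ range M, (if S (q + l) = S' (q + l) then lam (q + l) else 0) := h1.symm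
  rw [h1']
  unfold Dw
  rw [← Finset.sum_add_distrib]
  refine Finset.sum_congr rfl fun l hl => ?_
  rw [Finset.mem_range] at hl
  have e : q + M + l = q + l + M := by omega
  rw [e, hS, hW.per]
  have h2 := h l hl
  cases hs : S (q + l) <;> cases hs' : S' (q + l) <;> simp_all

end Pool.Agent.H994E
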