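import Mathlib
import Pool.Agent.H994E.Stubs

/-!
# Task T4B: the pair lemma
-/

namespace Pool.Agent.H994E

open Finset

theorem t4B_proof (hA : St_T4A) (hC : St_C) (hP : St_P) : St_T4B := by
  intro M lam S S' ν ν' ε q hW hS hS' hν hν' hν1 hν'1 hε hB hB' hq t ht
  rw [hA M lam S S' q hW hS hS' hq]
  set D := Dw M lam S (q + M) with hD
  set D' := Dw M lam S' q with hD'
  have hD0 : 0 ≤ D := hP.dw_nonneg M lam S hW (q + M)
  -- the inner bound
  have hin : ∀ k, max 0 (t - D - cd (Pos lam k) (Pos lam q)) ≤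
      ∑ j ∈ range (2 * M), ν j * max 0 (t - cd (Pos lam j) (Pos lam k + 1)) + ε := by
    intro k
    have hc0 := hC.nonneg (Pos lam k) (Pos lam q)
    have h0 : 0 ≤ ∑ j ∈ range (2 * M), ν j * max 0 (t - cd (Pos lam j) (Pos lam k + 1)) :=
      Finset.sum_nonneg (fun j _ => mul_nonneg (hν j) (le_max_left _ _))
    apply max_le
    · linarith
    · have h1 := hB (t - cd (Pos lam k) (Pos lam q)) (by linarith) (q + M)
      have h2 : ∑ j ∈ range (2 * M), ν j *
          max 0 (t - cd (Pos lam k) (Pos lam q) - cd (Pos lam j) (Pos lam (q + M))) ≤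
          ∑ j ∈ range (2 * M), ν j * max 0 (t - cd (Pos lam j) (Pos lam k + 1)) := by
        apply Finset.sum_le_sum
        intro j _
        apply mul_le_mul_of_nonneg_left _ (hν j)
        apply max_le_max le_rfl
        have h3 := hC.tri (Pos lam j) (Pos lam q + 1) (Pos lam k + 1)
        rw [hC.shift (Pos lam q) (Pos lam k) 1, hC.comm (Pos lam q) (Pos lam k)] at h3
        rw [hP.pos_add M lam hW q]
        linarith
      rw [← hD] at h1
      linarith
  have hout := hB' (t - D) (by linarith) q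
  rw [← hD'] at hout
  have hsum : ∑ k ∈ range (2 * M), ν' k * max 0 (t - D - cd (Pos lam k) (Pos lam q)) ≤
      ∑ k ∈ range (2 * M), ν' k *
        (∑ j ∈ range (2 * M), ν j * max 0 (t - cd (Pos lam j) (Pos lam k + 1)) + ε) :=
    Finset.sum_le_sum (fun k _ => mul_le_mul_of_nonneg_left (hin k) (hν' k))
  have hexp : ∑ k ∈ range (2 * M), ν' k *
        (∑ j ∈ range (2 * M), ν j * max 0 (t - cd (Pos lam j) (Pos lam k + 1)) + ε) =
      ∑ j ∈ range (2 * M), ∑ k ∈ range (2 * M),
        ν j * ν' k * max 0 (t - cd (Pos lam j) (Pos lam k + 1)) + ε := by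
    have e1 : ∀ k, ν' k *
        (∑ j ∈ range (2 * M), ν j * max 0 (t - cd (Pos lam j) (Pos lam k + 1)) + ε) =
        ∑ j ∈ range (2 * M), ν j * ν' k * max 0 (t - cd (Pos lam j) (Pos lam k + 1)) +
          ν' k * ε := by
      intro k
      rw [mul_add, Finset.mul_sum]
      congr 1
      apply Finset.sum_congr rfl
      intro j _
      ring
    simp only [e1]
    rw [Finset.sum_add_distrib, ← Finset.sum_mul, hν'1, one_mul, Finset.sum_comm]
  have h0 : 0 ≤ ∑ j ∈ range (2 * M), ∑ k ∈ range (2 * M),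
        ν j * ν' k * max 0 (t - cd (Pos lam j) (Pos lam k + 1)) :=
    Finset.sum_nonneg (fun j _ => Finset.sum_nonneg (fun k _ =>
      mul_nonneg (mul_nonneg (hν j) (hν' k)) (le_max_left _ _)))
  apply max_le
  · linarith
  · linarith

end Pool.Agent.H994E
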