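import Mathlib
import Pool.Agent.H994E.Stubs

/-!
# Task T4C: changing the weight
-/

namespace Pool.Agent.H994E

open Finset

theorem t4C_dw (hP : St_P) (M : ℕ) (y z : ℕ → ℝ) (S : ℕ → Bool) (δ : ℝ)
    (hy : Wt M y) (hz : Wt M z) (hd : ∑ l ∈ range M, |y l - z l| ≤ δ) (i : ℕ) :
    |Dw M y S i - Dw M z S i| ≤ δ := by
  have h1 : Dw M y S i - Dw M z S i =
      ∑ l ∈ range M, (if S (i + l) = true then (y (i + l) - z (i + l)) else 0) := by
    unfold Dw
    rw [← Finset.sum_sub_distrib]
    refine Finset.sum_congr rfl fun l _ => ?_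
    split_ifs <;> simp
  rw [h1]
  refine (Finset.abs_sum_le_sum_abs _ _).trans ?_
  have h2 : ∑ l ∈ range M, |if S (i + l) = true then (y (i + l) - z (i + l)) else 0| ≤
      ∑ l ∈ range M, (fun j => |y j - z j|) (i + l) := by
    refine Finset.sum_le_sum fun l _ => ?_
    split_ifs
    · exact le_rfl
    · simp
  refine h2.trans ?_
  rw [hP.window M (fun j => |y j - z j|) (fun j => by simp only [hy.per, hz.per]) i]
  exact hd

theorem t4C_pos (hP : St_P) (M : ℕ) (y z : ℕ → ℝ) (δ : ℝ)
    (hy : Wt M y) (hz : Wt M z) (hd : ∑ l ∈ range M, |y l - z l| ≤ δ) (i : ℕ) :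
    |Pos y i - Pos z i| ≤ δ := by
  induction i using Nat.strong_induction_on with
  | _ i ih =>
    by_cases hi : i < M
    · unfold Pos
      rw [← Finset.sum_sub_distrib]
      refine (Finset.abs_sum_le_sum_abs _ _).trans (le_trans ?_ hd)
      exact Finset.sum_le_sum_of_subset_of_nonneg
        (Finset.range_subset_range.2 hi.le) (fun _ _ _ => abs_nonneg _)
    · push Not at hi
      obtain ⟨k, rfl⟩ := Nat.exists_eq_add_of_le' hi
      rw [hP.pos_add M y hy, hP.pos_add M z hz]
      have := ih k (by have := hy.Mpos; omega)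
      simpa using this

theorem t4C_proof (hC : St_C) (hP : St_P) : St_T4C := by
  intro M y z S ν δ hy hz hν hν1 hd hB t ht i
  have hδ : 0 ≤ δ := (Finset.sum_nonneg fun _ _ => abs_nonneg _).trans hd
  have h1 := abs_le.1 (t4C_dw hP M y z S δ hy hz hd i)
  have h2 := hB t ht i
  have h3 : ∑ j ∈ range (2 * M), ν j * max 0 (t - cd (Pos y j) (Pos y i)) ≤
      ∑ j ∈ range (2 * M), (ν j * max 0 (t - cd (Pos z j) (Pos z i)) + ν j * (2 * δ)) := by
    refine Finset.sum_le_sum fun j _ => ?_
    rw [← mul_add]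
    refine mul_le_mul_of_nonneg_left ?_ (hν j)
    have h4 := hC.lip (Pos y j) (Pos y i) (Pos z j) (Pos z i)
    have h5 := t4C_pos hP M y z δ hy hz hd j
    have h6 := t4C_pos hP M y z δ hy hz hd i
    have h7 := abs_le.1 h4
    have h8 : 0 ≤ max 0 (t - cd (Pos z j) (Pos z i)) := le_max_left _ _
    have h9 : t - cd (Pos z j) (Pos z i) ≤ max 0 (t - cd (Pos z j) (Pos z i)) := le_max_right _ _
    refine max_le (by linarith) ?_
    linarith [h7.1]
  rw [Finset.sum_add_distrib, ← Finset.sum_mul, hν1] at h3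
  linarith [h1.1, h1.2]

end Pool.Agent.H994E
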