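import Mathlib
import Pool.Agent.H994E.Stubs

set_option autoImplicit false

namespace Pool.Agent.H994E

open Finset

/-- periodic extension -/
def t5A_ly {M : ℕ} (hM : 0 < M) (y : Fin M → ℝ) (j : ℕ) : ℝ := y ⟨j % M, Nat.mod_lt _ hM⟩

theorem t5A_ly_lt {M : ℕ} (hM : 0 < M) (y : Fin M → ℝ) (i : Fin M) :
    t5A_ly hM y (i : ℕ) = y i := by
  unfold t5A_ly
  congr 1
  exact Fin.ext (Nat.mod_eq_of_lt i.2)

theorem t5A_wt {M : ℕ} (hM : 0 < M) (y : Fin M → ℝ) (h0 : ∀ i, 0 ≤ y i) (h1 : ∑ i, y i = 1) :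
    Wt M (t5A_ly hM y) where
  Mpos := hM
  nonneg := fun j => h0 _
  per := fun j => by
    unfold t5A_ly
    congr 1
    exact Fin.ext (by simp)
  sum := by
    rw [Finset.sum_range, ← h1]
    exact Finset.sum_congr rfl fun i _ => t5A_ly_lt hM y i

theorem t5A_split (M : ℕ) (f : ℕ → ℝ) :
    ∑ i : Fin M, (f i + f (i + M)) = ∑ j ∈ range (2 * M), f j := by
  rw [two_mul, Finset.sum_range_add, Finset.sum_range, Finset.sum_range, ← Finset.sum_add_distrib]
  exact Finset.sum_congr rfl fun i _ => by rw [add_comm (i : ℕ) M]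

theorem t5A_proof (h1 : St_T1C) (h3 : St_T3C) (h4 : St_T4C) (_hP : St_P) : St_T5A := by
  intro I _ _ M F b hF δ hδ
  have hM := hF.Mpos
  have key : ∀ (y : Fin M → ℝ) (p : I), (∀ i, 0 < y i) → ∑ i, y i = 1 →
      ∃ ν : ℕ → ℝ, (∀ j, 0 ≤ ν j) ∧
        (∀ j, j < 2 * M → ν j ≠ 0 → F (j + 2 * M - 1) p ≠ F j p) ∧
        (∑ j ∈ range (2 * M), ν j = 1) ∧ Bal M (t5A_ly hM y) (fun j => F j p) ν 0 := by
    intro y p hy hs
    exact h1 M (t5A_ly hM y) (fun j => F j p) (t5A_wt hM y (fun i => (hy i).le) hs)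
      (fun j => hy _) (fun j => hF.anti j p)
  choose! N hN using key
  have hI : (0:ℝ) < Fintype.card I := by exact_mod_cast Fintype.card_pos
  set g : (Fin M → ℝ) → (Fin M → ℝ) := fun y i =>
    (1 / (Fintype.card I : ℝ)) * ∑ p, (N y p i + N y p (i + M)) with hg
  obtain ⟨z, s, w, hz0, hz1, hw0, hw1, hs, hzw⟩ := h3 M hM g (by
    intro y hy hy1
    constructor
    · intro i
      refine mul_nonneg (by positivity) (Finset.sum_nonneg fun p _ => ?_)
      exact add_nonneg ((hN y p hy hy1).1 _) ((hN y p hy hy1).1 _)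
    · simp only [hg]
      rw [← Finset.mul_sum, Finset.sum_comm]
      have : ∀ p ∈ (Finset.univ : Finset I), ∑ i : Fin M, (N y p i + N y p (i + M)) = 1 := by
        intro p _
        rw [t5A_split M (N y p)]
        exact (hN y p hy hy1).2.2.1
      rw [Finset.sum_congr rfl this]
      simp only [Finset.sum_const, Finset.card_univ, nsmul_eq_mul, mul_one]
      field_simp) (δ / 3) (by positivity)
  refine ⟨t5A_ly hM z, fun p j => ∑ y ∈ s, w y * N y p j, t5A_wt hM z hz0 hz1, ?_, ?_, ?_, ?_, ?_⟩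
  · intro p j
    exact Finset.sum_nonneg fun y hy => mul_nonneg (hw0 y hy)
      ((hN y p (hs y hy).1 (hs y hy).2.1).1 j)
  · intro p
    rw [Finset.sum_comm]
    rw [← hw1]
    refine Finset.sum_congr rfl fun y hy => ?_
    rw [← Finset.mul_sum, (hN y p (hs y hy).1 (hs y hy).2.1).2.2.1, mul_one]
  · intro p j hj hne
    obtain ⟨y, hy, hne'⟩ := Finset.exists_ne_zero_of_sum_ne_zero hne
    exact (hN y p (hs y hy).1 (hs y hy).2.1).2.1 j hj (right_ne_zero_of_mul hne')
  · intro p t ht i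
    have hb : ∀ y ∈ s, w y * (t - Dw M (t5A_ly hM z) (fun j => F j p) i) ≤
        w y * (∑ j ∈ range (2 * M), N y p j *
          max 0 (t - cd (Pos (t5A_ly hM z) j) (Pos (t5A_ly hM z) i)) + δ) := by
      intro y hy
      have hn := hN y p (hs y hy).1 (hs y hy).2.1
      have hB := h4 M (t5A_ly hM y) (t5A_ly hM z) (fun j => F j p) (N y p) (δ / 3)
        (t5A_wt hM y (fun i => ((hs y hy).1 i).le) (hs y hy).2.1) (t5A_wt hM z hz0 hz1) hn.1
        hn.2.2.1 (by
          rw [Finset.sum_range]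
          simp only [t5A_ly_lt]
          exact (hs y hy).2.2) hn.2.2.2
      have := hB t ht i
      refine mul_le_mul_of_nonneg_left ?_ (hw0 y hy)
      linarith
    have hsum := Finset.sum_le_sum hb
    rw [← Finset.sum_mul, hw1, one_mul] at hsum
    refine hsum.trans (le_of_eq ?_)
    simp only [mul_add, Finset.sum_add_distrib]
    rw [← Finset.sum_mul, hw1, one_mul]
    congr 1
    simp only [Finset.mul_sum, Finset.sum_mul]
    rw [Finset.sum_comm]
    exact Finset.sum_congr rfl fun j _ => Finset.sum_congr rfl fun y _ => by ring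
  · intro j hj
    have e1 : t5A_ly hM z j = z ⟨j, hj⟩ := t5A_ly_lt hM z ⟨j, hj⟩
    rw [e1, hzw ⟨j, hj⟩]
    simp only [hg]
    rw [Finset.mul_sum]
    have e2 : ∀ y ∈ s, (Fintype.card I : ℝ) *
        (w y * ((1 / (Fintype.card I : ℝ)) * ∑ p, (N y p j + N y p (j + M))))
        = ∑ p, (w y * N y p j + w y * N y p (j + M)) := by
      intro y _
      rw [show (Fintype.card I : ℝ) *
        (w y * ((1 / (Fintype.card I : ℝ)) * ∑ p, (N y p j + N y p (j + M))))
        = w y * ∑ p, (N y p j + N y p (j + M)) by field_simp, Finset.mul_sum]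
      exact Finset.sum_congr rfl fun p _ => by ring
    rw [Finset.sum_congr rfl e2, Finset.sum_comm]
    exact Finset.sum_congr rfl fun p _ => Finset.sum_add_distrib

end Pool.Agent.H994E
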