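import Mathlib
import Pool.Agent.H994E.Stubs

/-! T5B (helper85): the weight is small. -/

namespace Pool.Agent.H994E

open Finset

theorem t5B_mod {M : ℕ} {lam : ℕ → ℝ} (hper : ∀ j, lam (j + M) = lam j) (j : ℕ) :
    lam j = lam (j % M) := by
  have h : ∀ k i, lam (i + M * k) = lam i := by
    intro k
    induction k with
    | zero => intro i; simp
    | succ k ih =>
      intro i
      rw [Nat.mul_succ, ← add_assoc, hper, ih]
  conv_lhs => rw [← Nat.mod_add_div j M]
  exact h _ _

theorem t5B_proof : St_T5B := by
  intro I _ _ M F b hC lam ν hW hν hsum hsupp hlam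
  have hM := hC.Mpos
  have hI : (0 : ℝ) < Fintype.card I := by exact_mod_cast Fintype.card_pos
  have hmain : ∀ j, j < M → lam j ≤ b / Fintype.card I := by
    intro j hj
    rw [le_div_iff₀ hI, mul_comm, hlam j hj]
    have h1 : ∀ p, ν p j + ν p (j + M) ≤
        if F (j + 2 * M - 1) p ≠ F (j + 2 * M - 1 + 1) p then (1 : ℝ) else 0 := by
      intro p
      have hidx : j + 2 * M - 1 + 1 = j + M + M := by omega
      have hF2 : F (j + 2 * M - 1 + 1) p = F j p := by
        rw [hidx, hC.anti, hC.anti, Bool.not_not]
      rw [hF2]
      by_cases hF : F (j + 2 * M - 1) p = F j p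
      · have e1 : ν p j = 0 := by
          by_contra h
          exact hsupp p j (by omega) h hF
        have e2 : ν p (j + M) = 0 := by
          by_contra h
          have h3 := hsupp p (j + M) (by omega) h
          apply h3
          have hidx2 : j + M + 2 * M - 1 = (j + 2 * M - 1) + M := by omega
          rw [hidx2, hC.anti, hC.anti, hF]
        rw [if_neg (not_not.2 hF), e1, e2, add_zero]
      · rw [if_pos hF]
        have hsub : ({j, j + M} : Finset ℕ) ⊆ range (2 * M) := by
          intro x hx
          simp only [mem_insert, mem_singleton] at hx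
          rw [mem_range]
          omega
        have h4 := Finset.sum_le_sum_of_subset_of_nonneg hsub (f := ν p)
          (fun i _ _ => hν p i)
        rw [hsum p, Finset.sum_pair (by omega)] at h4
        exact h4
    calc ∑ p, (ν p j + ν p (j + M))
        ≤ ∑ p, (if F (j + 2 * M - 1) p ≠ F (j + 2 * M - 1 + 1) p then (1 : ℝ) else 0) :=
          Finset.sum_le_sum fun p _ => h1 p
      _ = ((univ.filter (fun p => F (j + 2 * M - 1) p ≠ F (j + 2 * M - 1 + 1) p)).card : ℝ) := by
          rw [Finset.sum_boole]
      _ ≤ b := hC.flip _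
  intro j
  rw [t5B_mod hW.per j]
  exact hmain _ (Nat.mod_lt _ hM)

end Pool.Agent.H994E
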