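import Mathlib
import Pool.Agent.H994E.Stubs

namespace Pool.Agent.H994E

open Finset

theorem t5C_proof (h1 : St_T5A) (h2 : St_T5B) (h3 : St_T4B) (h4 : St_T2C) : St_T5C := by
  intro I _ _ M F b hF hb t ht0 ht1 ε hε
  obtain ⟨lam, ν, hW, hν0, hν1, hνS, hBal, hlam⟩ := h1 I M F b hF (ε / 2) (by positivity)
  have hsmall : ∀ j, lam j ≤ b / Fintype.card I := h2 I M F b hF lam ν hW hν0 hν1 hνS hlam
  have hN : (0:ℝ) < Fintype.card I := by exact_mod_cast Fintype.card_pos
  set N : ℝ := (Fintype.card I : ℝ) with hNdef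
  have hη : b / N ≤ 1 / 2 := by
    rw [div_le_iff₀ hN]; linarith
  refine ⟨lam, hW, ?_⟩
  set K : ℕ → ℕ → ℝ := fun j k => max 0 (t - cd (Pos lam j) (Pos lam k + 1)) with hK
  have hpair : ∀ p p' : I, max 0 (t - ∑ j ∈ range M, (if F j p = F j p' then lam j else 0)) ≤
      ∑ j ∈ range (2 * M), ∑ k ∈ range (2 * M), ν p j * ν p' k * K j k + ε := by
    intro p p'
    obtain ⟨q, hq⟩ := hF.ord p p'
    have := h3 M lam (fun j => F j p) (fun j => F j p') (ν p) (ν p') (ε / 2) q hW
      (fun j => hF.anti j p) (fun j => hF.anti j p') (hν0 p) (hν0 p') (hν1 p) (hν1 p')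
      (by positivity) (hBal p) (hBal p') hq t ht1

    have h2 : 2 * (ε / 2) = ε := by ring
    rw [h2] at this
    exact this
  set β : ℕ → ℝ := fun j => (1 / N) * ∑ p, ν p j with hβ
  have hβ0 : ∀ j, 0 ≤ β j := fun j =>
    mul_nonneg (by positivity) (Finset.sum_nonneg (fun p _ => hν0 p j))
  have hβs : ∀ j, j < M → β j + β (j + M) = lam j := by
    intro j hj
    have := hlam j hj
    rw [Finset.sum_add_distrib] at this
    simp only [hβ]
    rw [← mul_add, ← this]
    field_simp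
  have hker := h4 M lam β (b / N) t hW hsmall ht0 (by linarith) hβ0 hβs
  have hexp : ∑ p : I, ∑ p' : I, (∑ j ∈ range (2 * M), ∑ k ∈ range (2 * M), ν p j * ν p' k * K j k)
      = N ^ 2 * ∑ j ∈ range (2 * M), ∑ k ∈ range (2 * M), β j * β k * K j k := by
    have e1 : ∀ j k, β j * β k * K j k = (1 / N ^ 2) * ∑ p : I, ∑ p' : I, ν p j * ν p' k * K j k := by
      intro j k
      simp only [hβ]
      have : ∑ p : I, ∑ p' : I, ν p j * ν p' k * K j k = (∑ p, ν p j) * (∑ p', ν p' k) * K j k := by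
        rw [Finset.sum_mul_sum, Finset.sum_mul]
        refine Finset.sum_congr rfl (fun p _ => ?_)
        rw [Finset.sum_mul]
      rw [this]
      field_simp
    simp only [e1]
    simp only [← Finset.mul_sum]
    rw [← mul_assoc]
    have : N ^ 2 * (1 / N ^ 2) = 1 := by field_simp
    rw [this, one_mul]
    -- swap sums
    have s1 : ∀ p : I, ∑ p' : I, ∑ j ∈ range (2 * M), ∑ k ∈ range (2 * M), ν p j * ν p' k * K j k
        = ∑ j ∈ range (2 * M), ∑ k ∈ range (2 * M), ∑ p' : I, ν p j * ν p' k * K j k := by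
      intro p
      rw [Finset.sum_comm]
      refine Finset.sum_congr rfl (fun j _ => ?_)
      rw [Finset.sum_comm]
    simp only [s1]
    rw [Finset.sum_comm]
    refine Finset.sum_congr rfl (fun j _ => ?_)
    rw [Finset.sum_comm]
  calc ∑ p : I, ∑ p' : I, max 0 (t - ∑ j ∈ range M, (if F j p = F j p' then lam j else 0))
      ≤ ∑ p : I, ∑ p' : I,
        ((∑ j ∈ range (2 * M), ∑ k ∈ range (2 * M), ν p j * ν p' k * K j k) + ε) :=
        Finset.sum_le_sum (fun p _ => Finset.sum_le_sum (fun p' _ => hpair p p'))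
    _ = N ^ 2 * ∑ j ∈ range (2 * M), ∑ k ∈ range (2 * M), β j * β k * K j k + N ^ 2 * ε := by
        simp only [Finset.sum_add_distrib, Finset.sum_const, Finset.card_univ, nsmul_eq_mul]
        rw [hexp]
        ring
    _ ≤ N ^ 2 * ((t + b / N) ^ 2 / 2) + N ^ 2 * ε := by
        have := mul_le_mul_of_nonneg_left hker (by positivity : (0:ℝ) ≤ N ^ 2)
        linarith
    _ = N ^ 2 * ((t + b / N) ^ 2 / 2 + ε) := by ring

end Pool.Agent.H994E
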