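import Mathlib
import Pool.Agent.H994E.Stubs

namespace Pool.Agent.H994E

open Finset

theorem t6B_sum (V : Type) [Fintype V] (A : V → V → ℝ) (N : ℕ) :
    ∑ p : V × Fin N, ∑ q : V × Fin N, A p.1 q.1 = (N : ℝ) ^ 2 * ∑ u, ∑ v, A u v := by
  have h1 : ∀ g : V → ℝ, ∑ q : V × Fin N, g q.1 = (N : ℝ) * ∑ v, g v := by
    intro g
    rw [Fintype.sum_prod_type, Finset.mul_sum]
    apply Finset.sum_congr rfl
    intro v _
    simp
  have h2 : ∀ p : V × Fin N, ∑ q : V × Fin N, A p.1 q.1 = (N : ℝ) * ∑ v, A p.1 v := by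
    intro p
    exact h1 (fun v => A p.1 v)
  simp_rw [h2]
  rw [← Finset.mul_sum, h1 (fun u => ∑ v, A u v)]
  ring

theorem t6B_proof (h : St_T6A) : St_T6B := by
  intro V _ _ A K hsym h0 h1 hF hS
  set n : ℝ := (Fintype.card V : ℝ) with hn
  set S : ℝ := ∑ u, ∑ v, A u v with hSdef
  have hnpos : 0 < n := by
    rw [hn]
    exact_mod_cast Fintype.card_pos
  have hn1 : 1 ≤ n := by
    rw [hn]
    exact_mod_cast Fintype.card_pos
  have hSle : S ≤ n ^ 2 := by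
    have : S ≤ ∑ _u : V, ∑ _v : V, (1 : ℝ) :=
      Finset.sum_le_sum fun u _ => Finset.sum_le_sum fun v _ => h1 u v
    simp only [Finset.sum_const, Finset.card_univ, nsmul_eq_mul, mul_one] at this
    rw [hn]
    linarith [sq (Fintype.card V : ℝ)]
  set c : ℝ := S / n ^ 2 with hc
  have hn2 : 0 < n ^ 2 := by positivity
  have hc1 : 1 / 2 ≤ c := by
    rw [hc, le_div_iff₀ hn2]
    linarith
  have hc2 : c ≤ 1 := by
    rw [hc, div_le_one hn2]
    exact hSle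
  have key : ∀ l : ℕ, 4 ≤ l →
      c * S - (c - 1 / 2) * n ^ 2 - n ^ 2 * ((1 - c + 2 / n * (1 / (l : ℝ))) ^ 2 / 2 + 1 / (l : ℝ))
        ≤ 2 * K := by
    intro l hl
    have hlpos : 0 < l := by omega
    have hlr : (0 : ℝ) < l := by exact_mod_cast hlpos
    obtain ⟨M, F, hcs, hcut⟩ := hF l hlpos
    haveI : Nonempty (Fin (2 * l)) := ⟨⟨0, by omega⟩⟩
    have hcard : (Fintype.card (V × Fin (2 * l)) : ℝ) = n * (2 * l) := by
      rw [Fintype.card_prod, Fintype.card_fin, hn]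
      push_cast
      ring
    have hb : 2 * (4 : ℝ) ≤ (Fintype.card (V × Fin (2 * l)) : ℝ) := by
      rw [hcard]
      have : (4 : ℝ) ≤ l := by exact_mod_cast hl
      nlinarith
    have g := h (V × Fin (2 * l)) M F 4 (fun p q => A p.1 q.1) ((2 * l : ℝ) ^ 2 * K) hcs hb
      (fun p q => hsym _ _) (fun p q => h0 _ _) (fun p q => h1 _ _) hcut c hc1 hc2
      (1 / (l : ℝ)) (by positivity)
    rw [t6B_sum V A (2 * l), hcard, ← hSdef] at g
    have e1 : (4 : ℝ) / (n * (2 * l)) = 2 / n * (1 / (l : ℝ)) := by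
      field_simp
      norm_num
    rw [e1] at g
    push_cast at g
    have hL : (0 : ℝ) < (2 * (l : ℝ)) ^ 2 := by positivity
    refine le_of_mul_le_mul_left ?_ hL
    linarith [g]
  have hlim : Filter.Tendsto (fun l : ℕ => c * S - (c - 1 / 2) * n ^ 2 -
      n ^ 2 * ((1 - c + 2 / n * (1 / (l : ℝ))) ^ 2 / 2 + 1 / (l : ℝ))) Filter.atTop
      (nhds (c * S - (c - 1 / 2) * n ^ 2 - n ^ 2 * ((1 - c + 2 / n * 0) ^ 2 / 2 + 0))) := by
    have ht : Filter.Tendsto (fun l : ℕ => (1 : ℝ) / (l : ℝ)) Filter.atTop (nhds 0) :=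
      tendsto_one_div_atTop_nhds_zero_nat
    have hg : Continuous (fun u : ℝ => c * S - (c - 1 / 2) * n ^ 2 -
      n ^ 2 * ((1 - c + 2 / n * u) ^ 2 / 2 + u)) := by fun_prop
    exact (hg.tendsto 0).comp ht
  have hfin : c * S - (c - 1 / 2) * n ^ 2 - n ^ 2 * ((1 - c + 2 / n * 0) ^ 2 / 2 + 0) ≤ 2 * K := by
    apply le_of_tendsto hlim
    filter_upwards [Filter.eventually_ge_atTop 4] with l hl
    exact key l hl
  have e2 : c * S - (c - 1 / 2) * n ^ 2 - n ^ 2 * ((1 - c + 2 / n * 0) ^ 2 / 2 + 0) =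
      2 * (S ^ 2 / (4 * n ^ 2)) := by
    rw [hc]
    field_simp
    ring
  rw [e2] at hfin
  linarith

end Pool.Agent.H994E
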