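import Mathlib
import Pool.Agent.H994E.Stubs

/-! Task T7A: the antiperiodic extension of half a turn of cuts. -/

namespace Pool.Agent.H994E

open Finset

/-- the antiperiodic extension -/
def t7A_G {I : Type} (M : ℕ) (F : ℕ → I → Bool) (j : ℕ) (p : I) : Bool :=
  if (j / M) % 2 = 0 then F (j % M) p else !F (j % M) p

theorem t7A_lt {I : Type} {M : ℕ} (F : ℕ → I → Bool) {j : ℕ} (hj : j < M) (p : I) :
    t7A_G M F j p = F j p := by
  unfold t7A_G
  rw [Nat.div_eq_of_lt hj, Nat.mod_eq_of_lt hj]
  simp

theorem t7A_anti {I : Type} {M : ℕ} (hM : 0 < M) (F : ℕ → I → Bool) (j : ℕ) (p : I) :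
    t7A_G M F (j + M) p = !t7A_G M F j p := by
  unfold t7A_G
  rw [Nat.add_div_right j hM, Nat.add_mod_right]
  rcases Nat.mod_two_eq_zero_or_one (j / M) with h | h
  · have h' : (j / M).succ % 2 = 1 := by omega
    rw [if_neg (by omega), if_pos h]
  · have h' : (j / M).succ % 2 = 0 := by omega
    rw [if_pos h', if_neg (by omega), Bool.not_not]

theorem t7A_succ {I : Type} {M : ℕ} (hM : 0 < M) (F : ℕ → I → Bool)
    (hturn : ∀ p, F M p = !F 0 p) (j : ℕ) (p : I) :
    t7A_G M F (j + 1) p = if (j / M) % 2 = 0 then F (j % M + 1) p else !F (j % M + 1) p := by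
  have hr := Nat.mod_lt j hM
  have hd := Nat.div_add_mod j M
  rcases Nat.lt_or_ge (j % M + 1) M with h | h
  · have h1 : (j + 1) / M = j / M := by
      have : j + 1 = (j % M + 1) + M * (j / M) := by omega
      rw [this, Nat.add_mul_div_left _ _ hM, Nat.div_eq_of_lt h, zero_add]
    have h2 : (j + 1) % M = j % M + 1 := by
      have : j + 1 = (j % M + 1) + M * (j / M) := by omega
      rw [this, Nat.add_mul_mod_self_left, Nat.mod_eq_of_lt h]
    unfold t7A_G
    rw [h1, h2]
  · have he : j % M + 1 = M := by omega
    have hj : j + 1 = 0 + M * (j / M + 1) := by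
      rw [Nat.mul_add]
      omega
    have h1 : (j + 1) / M = j / M + 1 := by
      rw [hj, Nat.add_mul_div_left _ _ hM]
      simp
    have h2 : (j + 1) % M = 0 := by
      rw [hj, Nat.add_mul_mod_self_left]
      simp
    unfold t7A_G
    rw [h1, h2, he, hturn p]
    rcases Nat.mod_two_eq_zero_or_one (j / M) with h' | h'
    · rw [if_neg (by omega), if_pos h']
    · rw [if_pos (by omega), if_neg (by omega), Bool.not_not]

theorem t7A_proof : St_T7A := by
  intro I _ M F b hF
  have hM := hF.Mpos
  have hge : ∀ j p, M ≤ j → j < 2 * M → t7A_G M F j p = !F (j - M) p := by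
    intro j p h1 h2
    obtain ⟨k, rfl⟩ := Nat.exists_eq_add_of_le' h1
    rw [t7A_anti hM, t7A_lt F (by omega), Nat.add_sub_cancel]
  refine ⟨t7A_G M F, ⟨hM, t7A_anti hM F, ?_, ?_, ?_⟩, fun j hj => funext (t7A_lt F hj)⟩
  · intro j
    have hb := hF.bal (j % M) (Nat.mod_lt j hM)
    by_cases h : (j / M) % 2 = 0
    · rw [← hb]
      congr 2
      apply Finset.filter_congr
      intro p _
      unfold t7A_G
      rw [if_pos h]
    · have h1 : univ.filter (fun p => t7A_G M F j p = true) =
          univ.filter (fun p => ¬ (F (j % M) p = true)) := by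
        apply Finset.filter_congr
        intro p _
        unfold t7A_G
        rw [if_neg h]
        simp
      rw [h1]
      have h2 := Finset.card_filter_add_card_filter_not (s := (univ : Finset I))
        (fun p => F (j % M) p = true)
      rw [Finset.card_univ] at h2
      omega
  · intro j
    have hb := hF.flip (j % M) (Nat.mod_lt j hM)
    have h1 : univ.filter (fun p => t7A_G M F j p ≠ t7A_G M F (j + 1) p) =
        univ.filter (fun p => F (j % M) p ≠ F (j % M + 1) p) := by
      apply Finset.filter_congr
      intro p _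
      rw [t7A_succ hM F hF.turn]
      unfold t7A_G
      by_cases h : (j / M) % 2 = 0
      · rw [if_pos h, if_pos h]
      · rw [if_neg h, if_neg h]
        simp
    rw [h1]
    exact hb
  · intro p p'
    obtain ⟨q, hq, h⟩ := hF.ord p p'
    rcases h with ⟨h1, h2⟩ | ⟨h1, h2⟩
    · refine ⟨q, fun l hl hp => ?_⟩
      rcases Nat.lt_or_ge (q + l) M with h | h
      · rw [t7A_lt F h] at hp ⊢
        exact h2 _ (by omega) h hp
      · rw [hge _ _ h (by omega)] at hp ⊢
        have h3 := h1 (q + l - M) (by omega)
        cases hp1 : F (q + l - M) p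
        · rfl
        · rw [h3 hp1] at hp
          simp at hp
    · refine ⟨q + M, fun l hl hp => ?_⟩
      have he : q + M + l = (q + l) + M := by omega
      rw [he, t7A_anti hM] at hp ⊢
      rcases Nat.lt_or_ge (q + l) M with h | h
      · rw [t7A_lt F h] at hp ⊢
        have h3 := h2 (q + l) (by omega) h
        cases hp1 : F (q + l) p
        · rfl
        · rw [h3 hp1] at hp
          simp at hp
      · rw [hge _ _ h (by omega), Bool.not_not] at hp ⊢
        exact h1 _ (by omega) hp

end Pool.Agent.H994E
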