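import Mathlib
import Pool.Agent.H994E.Stubs

/-! T7B: blow-up of halving lines: balance and cut weights. -/

namespace Pool.Agent.H994E

open Finset

theorem t7B_count_lt (n c : ℕ) (hc : c ≤ n) :
    (univ.filter (fun k : Fin n => (k : ℕ) < c)).card = c := by
  rw [card_filter, Fin.sum_univ_eq_sum_range (fun k => if k < c then 1 else 0) n, ← card_filter]
  have : (range n).filter (fun k => k < c) = range c := by
    ext k
    simp only [mem_filter, mem_range]
    omega
  rw [this, card_range]

theorem t7B_count_le (n c : ℕ) (hc : c ≤ n) :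
    (univ.filter (fun k : Fin n => n - c ≤ (k : ℕ))).card = c := by
  rw [card_filter, Fin.sum_univ_eq_sum_range (fun k => if n - c ≤ k then 1 else 0) n,
    ← card_filter]
  have : (range n).filter (fun k => n - c ≤ k) = Ico (n - c) n := by
    ext k
    simp only [mem_filter, mem_range, mem_Ico]
    omega
  rw [this, Nat.card_Ico]
  omega

theorem t7B_count {V : Type*} (H : ℕ → V → ℕ) (i0 : V → ℕ) (l j : ℕ) (x : V)
    (hc : cc H l j x ≤ 2 * l) :
    (univ.filter (fun k : Fin (2 * l) => FF H i0 l j (x, k) = true)).card = cc H l j x := by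
  unfold FF
  by_cases h : j < i0 x * l
  · simp only [h, if_true, decide_eq_true_eq]
    exact t7B_count_le (2 * l) _ hc
  · simp only [h, if_false, decide_eq_true_eq]
    exact t7B_count_lt (2 * l) _ hc

theorem t7B_proof : St_T7B := by
  intro V _ A K m H i0 l hB j hj
  have hl : 0 < l := hB.lpos
  have hi : j / l < m := Nat.div_lt_of_lt_mul (by rwa [mul_comm] at hj)
  have hr : j % l < l := Nat.mod_lt j hl
  have hcc : ∀ x, cc H l j x ≤ 2 * l := by
    intro x
    unfold cc
    have h1 := hB.ht.le2 (j / l) x
    have h2 := hB.ht.le2 (j / l + 1) x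
    have h3 : (l - j % l) * H (j / l) x ≤ (l - j % l) * 2 := Nat.mul_le_mul_left _ h1
    have h4 : (j % l) * H (j / l + 1) x ≤ (j % l) * 2 := Nat.mul_le_mul_left _ h2
    omega
  have hcnt : ∀ x, (univ.filter (fun k : Fin (2 * l) => FF H i0 l j (x, k) = true)).card =
      cc H l j x := fun x => t7B_count H i0 l j x (hcc x)
  constructor
  · have h1 : (univ.filter (fun p : V × Fin (2 * l) => FF H i0 l j p = true)).card =
        ∑ x, cc H l j x := by
      rw [card_filter, Fintype.sum_prod_type]
      refine sum_congr rfl fun x _ => ?_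
      rw [← hcnt x, card_filter]
    have h2 : ∑ x, cc H l j x = l * Fintype.card V := by
      unfold cc
      rw [sum_add_distrib, ← mul_sum, ← mul_sum, hB.ht.sum _ hi.le, hB.ht.sum _ hi, ← add_mul]
      congr 1
      omega
    rw [h1, h2, Fintype.card_prod, Fintype.card_fin]
    ring
  · have hcut : cutB (fun p p' : V × Fin (2 * l) => A p.1 p'.1) (FF H i0 l j) =
        ∑ x, ∑ y, A x y * ((cc H l j x : ℝ) * (2 * l - (cc H l j y : ℝ))) := by
      have hterm : ∀ u v : V × Fin (2 * l),
          (if FF H i0 l j u = true ∧ FF H i0 l j v = false then A u.1 v.1 else 0) =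
          A u.1 v.1 * ((if FF H i0 l j u = true then (1 : ℝ) else 0) *
            (1 - (if FF H i0 l j v = true then (1 : ℝ) else 0))) := by
        intro u v
        by_cases h1 : FF H i0 l j u = true <;> by_cases h2 : FF H i0 l j v = true <;>
          simp [h1, h2]
      unfold cutB
      simp only [hterm]
      rw [Fintype.sum_prod_type]
      refine sum_congr rfl fun x _ => ?_
      have ha : ∑ k : Fin (2 * l), (if FF H i0 l j (x, k) = true then (1 : ℝ) else 0) =
          (cc H l j x : ℝ) := by
        rw [← hcnt x, card_filter]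
        push_cast
        rfl
      have hb : ∀ y, ∑ k : Fin (2 * l), (1 - (if FF H i0 l j (y, k) = true then (1 : ℝ) else 0)) =
          2 * l - (cc H l j y : ℝ) := by
        intro y
        rw [sum_sub_distrib, ← hcnt y, card_filter]
        simp
      have hin : ∀ k : Fin (2 * l), ∑ v : V × Fin (2 * l), A x v.1 *
          ((if FF H i0 l j (x, k) = true then (1 : ℝ) else 0) *
            (1 - (if FF H i0 l j v = true then (1 : ℝ) else 0))) =
          (if FF H i0 l j (x, k) = true then (1 : ℝ) else 0) *
            ∑ y, A x y * (2 * l - (cc H l j y : ℝ)) := by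
        intro k
        rw [Fintype.sum_prod_type, mul_sum]
        refine sum_congr rfl fun y _ => ?_
        rw [← hb y, mul_sum, mul_sum]
        refine sum_congr rfl fun k' _ => ?_
        ring
      simp only [hin]
      rw [← sum_mul, ha, mul_sum]
      refine sum_congr rfl fun y _ => ?_
      ring
    have hlR : (0 : ℝ) < l := by exact_mod_cast hl
    have hs0 : (0 : ℝ) ≤ ((j % l : ℕ) : ℝ) / l := by positivity
    have hs1 : ((j % l : ℕ) : ℝ) / l ≤ 1 := by
      rw [div_le_one hlR]
      exact_mod_cast hr.le
    have hK := hB.ht.cut (j / l) hi (((j % l : ℕ) : ℝ) / l) hs0 hs1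
    have hccR : ∀ x, (cc H l j x : ℝ) = 2 * l *
        (((1 - ((j % l : ℕ) : ℝ) / l) * (H (j / l) x : ℝ) +
          ((j % l : ℕ) : ℝ) / l * (H (j / l + 1) x : ℝ)) / 2) := by
      intro x
      unfold cc
      rw [Nat.cast_add, Nat.cast_mul, Nat.cast_mul, Nat.cast_sub hr.le]
      field_simp
    have hEq : cutB (fun p p' : V × Fin (2 * l) => A p.1 p'.1) (FF H i0 l j) =
        (2 * l : ℝ) ^ 2 * cutW A (fun x => ((1 - ((j % l : ℕ) : ℝ) / l) * (H (j / l) x : ℝ) +
          ((j % l : ℕ) : ℝ) / l * (H (j / l + 1) x : ℝ)) / 2) := by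
      rw [hcut]
      unfold cutW
      rw [mul_sum]
      refine sum_congr rfl fun x _ => ?_
      rw [mul_sum]
      refine sum_congr rfl fun y _ => ?_
      rw [hccR x, hccR y]
      ring
    rw [hEq]
    exact mul_le_mul_of_nonneg_left hK (by positivity)

end Pool.Agent.H994E
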