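import Mathlib
import Pool.Agent.H994E.Stubs

namespace Pool.Agent.H994E

open Finset

theorem t7C_proof : St_T7C := by
  rintro V _ A K m H i0 l hB ⟨x, k⟩
  have hl := hB.lpos
  have h1 : cc H l (m * l) x = l * H m x := by
    unfold cc
    rw [Nat.mul_mod_left, Nat.mul_div_cancel _ hl, Nat.sub_zero, zero_mul, add_zero]
  have h2 : cc H l 0 x = l * H 0 x := by
    unfold cc
    rw [Nat.zero_mod, Nat.zero_div, Nat.sub_zero, zero_mul, add_zero]
  have h3 := hB.ht.turn x
  have h4 := hB.i0lt x
  have h5 := hB.i0ne x
  have h6 : ¬ (m * l < i0 x * l) := by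
    push Not
    exact Nat.mul_le_mul_right l h4.le
  have h7 : l * H m x + l * H 0 x = 2 * l := by
    rw [← mul_add, h3, mul_comm]
  have h8 : FF H i0 l (m * l) (x, k) = decide (k.1 < l * H m x) := by
    unfold FF
    rw [if_neg h6, h1]
  rw [h8]
  unfold FF
  dsimp only
  rw [h2]
  split_ifs with h9
  · by_cases h10 : k.1 < l * H m x
    · rw [decide_eq_true h10, decide_eq_false (by omega)]
      rfl
    · rw [decide_eq_false h10, decide_eq_true (by omega)]
      rfl
  · have h10 : i0 x = 0 := by
      by_contra h
      exact h9 (Nat.mul_pos (Nat.pos_of_ne_zero h) hl)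
    rw [h10] at h5
    have h11 := hB.ht.le2 0 x
    have hk := k.2
    have h12 : H 0 x = 0 ∨ H 0 x = 2 := by omega
    rcases h12 with h12 | h12
    · have h13 : H m x = 2 := by omega
      rw [h12, h13, decide_eq_true (show k.1 < l * 2 by omega), decide_eq_false (by omega)]
      rfl
    · have h13 : H m x = 0 := by omega
      rw [h12, h13, decide_eq_true (show k.1 < l * 2 by omega), decide_eq_false (by omega)]
      rfl

end Pool.Agent.H994E
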