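import Mathlib
import Pool.Agent.H994E.Stubs

set_option autoImplicit false

namespace Pool.Agent.H994E

open Finset

theorem t7D_dm (l j : ℕ) (hl : 0 < l) :
    ((j + 1) / l = j / l ∧ (j + 1) % l = j % l + 1 ∧ j % l + 1 < l) ∨
      ((j + 1) / l = j / l + 1 ∧ (j + 1) % l = 0 ∧ j % l + 1 = l) := by
  have hr : j % l < l := Nat.mod_lt _ hl
  have hj : l * (j / l) + j % l = j := Nat.div_add_mod j l
  rcases Nat.lt_or_ge (j % l + 1) l with h | h
  · left
    have := (Nat.div_mod_unique (a := j + 1) (b := l) (c := j % l + 1) (d := j / l) hl).2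
      ⟨by omega, h⟩
    exact ⟨this.1, this.2, h⟩
  · right
    have hh : j % l + 1 = l := by omega
    have := (Nat.div_mod_unique (a := j + 1) (b := l) (c := 0) (d := j / l + 1) hl).2
      ⟨by rw [Nat.mul_add]; omega, hl⟩
    exact ⟨this.1, this.2, hh⟩

theorem t7D_cc {V : Type} (H : ℕ → V → ℕ) (l j : ℕ) (x : V) (hl : 0 < l) :
    cc H l j x + H (j / l + 1) x = cc H l (j + 1) x + H (j / l) x := by
  unfold cc
  rcases t7D_dm l j hl with ⟨h1, h2, h3⟩ | ⟨h1, h2, h3⟩
  · rw [h1, h2]
    obtain ⟨s, hs⟩ : ∃ s, l = j % l + 1 + s := ⟨l - (j % l + 1), by omega⟩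
    have e1 : l - j % l = s + 1 := by omega
    have e2 : l - (j % l + 1) = s := by omega
    rw [e1, e2]
    ring
  · rw [h1, h2]
    have e1 : l - j % l = 1 := by omega
    rw [e1]
    have e3 : (l - 0) = j % l + 1 := by omega
    rw [e3]
    ring

theorem t7D_one {V : Type} (H : ℕ → V → ℕ) (i0 : V → ℕ) (l j : ℕ) (x : V) (hl : 0 < l)
    (h2 : H (i0 x) x ≤ 2) (h1 : H (i0 x) x ≠ 1) (D : ℕ)
    (hD1 : H (j / l) x ≤ H (j / l + 1) x + D) (hD2 : H (j / l + 1) x ≤ H (j / l) x + D) :
    (univ.filter (fun k : Fin (2 * l) => FF H i0 l j (x, k) ≠ FF H i0 l (j + 1) (x, k))).card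
      ≤ D := by
  have hc := t7D_cc H l j x hl
  have key : ∃ a b : ℕ, b ≤ a + D ∧ ∀ k : Fin (2 * l),
      FF H i0 l j (x, k) ≠ FF H i0 l (j + 1) (x, k) → a ≤ k.1 ∧ k.1 < b := by
    by_cases hA : j < i0 x * l
    · refine ⟨2 * l - max (cc H l j x) (cc H l (j + 1) x),
        2 * l - min (cc H l j x) (cc H l (j + 1) x), by omega, ?_⟩
      intro k hk
      have hk2 := k.2
      have hF : FF H i0 l (j + 1) (x, k) = decide (2 * l - cc H l (j + 1) x ≤ k.1) := by
        unfold FF
        by_cases hB : j + 1 < i0 x * l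
        · rw [if_pos hB]
        · rw [if_neg hB]
          have hj1 : j + 1 = i0 x * l := by omega
          have e1 : (j + 1) / l = i0 x := by rw [hj1]; exact Nat.mul_div_cancel _ hl
          have e2 : (j + 1) % l = 0 := by rw [hj1]; exact Nat.mul_mod_left _ _
          have e3 : cc H l (j + 1) x = l * H (i0 x) x := by
            unfold cc
            rw [e1, e2]
            simp
          rw [decide_eq_decide]
          show k.1 < cc H l (j + 1) x ↔ _
          rw [e3]
          have h02 : H (i0 x) x = 0 ∨ H (i0 x) x = 2 := by omega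
          rcases h02 with h | h
          · rw [h]; omega
          · rw [h]; omega
      have hF0 : FF H i0 l j (x, k) = decide (2 * l - cc H l j x ≤ k.1) := by
        unfold FF
        rw [if_pos hA]
      rw [hF, hF0] at hk
      rw [Ne, decide_eq_decide] at hk
      omega
    · refine ⟨min (cc H l j x) (cc H l (j + 1) x),
        max (cc H l j x) (cc H l (j + 1) x), by omega, ?_⟩
      intro k hk
      have hF : FF H i0 l (j + 1) (x, k) = decide (k.1 < cc H l (j + 1) x) := by
        unfold FF
        rw [if_neg (by show ¬ (j + 1 < i0 x * l); omega)]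
      have hF0 : FF H i0 l j (x, k) = decide (k.1 < cc H l j x) := by
        unfold FF
        rw [if_neg hA]
      rw [hF, hF0] at hk
      rw [Ne, decide_eq_decide] at hk
      omega
  obtain ⟨a, b, hab, hk⟩ := key
  calc (univ.filter (fun k : Fin (2 * l) =>
        FF H i0 l j (x, k) ≠ FF H i0 l (j + 1) (x, k))).card
      ≤ (Finset.Ico a b).card := by
        refine Finset.card_le_card_of_injOn (fun k : Fin (2 * l) => k.1) ?_ ?_
        · intro k hk'
          have := hk k (Finset.mem_filter.mp (Finset.mem_coe.mp hk')).2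
          exact Finset.mem_coe.mpr (Finset.mem_Ico.mpr this)
        · exact Fin.val_injective.injOn
    _ ≤ D := by rw [Nat.card_Ico]; omega

theorem t7D_proof : St_T7D := by
  intro V _ A K m H i0 l hB j hj
  have hl := hB.lpos
  have hi : j / l < m := Nat.div_lt_of_lt_mul (by rwa [Nat.mul_comm] at hj)
  obtain ⟨u, v, hoth, -, -⟩ := hB.ht.step (j / l) hi
  classical
  have hx : ∀ x : V, (univ.filter (fun k : Fin (2 * l) =>
      FF H i0 l j (x, k) ≠ FF H i0 l (j + 1) (x, k))).card ≤
      (if x = u then 2 else 0) + (if x = v then 2 else 0) := by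
    intro x
    have hle := hB.ht.le2
    have a1 := hle (j / l) x
    have a2 := hle (j / l + 1) x
    by_cases hxu : x = u
    · refine le_trans (t7D_one H i0 l j x hl (hle _ _) (hB.i0ne x) 2 (by omega) (by omega)) ?_
      rw [if_pos hxu]
      omega
    · by_cases hxv : x = v
      · refine le_trans (t7D_one H i0 l j x hl (hle _ _) (hB.i0ne x) 2 (by omega) (by omega)) ?_
        rw [if_pos hxv]
        omega
      · have e := hoth x hxu hxv
        refine le_trans (t7D_one H i0 l j x hl (hle _ _) (hB.i0ne x) 0 (by omega) (by omega)) ?_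
        exact Nat.zero_le _
  calc (univ.filter (fun p : V × Fin (2 * l) => FF H i0 l j p ≠ FF H i0 l (j + 1) p)).card
      = ∑ p : V × Fin (2 * l), (if FF H i0 l j p ≠ FF H i0 l (j + 1) p then 1 else 0) :=
        Finset.card_filter _ _
    _ = ∑ x : V, ∑ k : Fin (2 * l),
        (if FF H i0 l j (x, k) ≠ FF H i0 l (j + 1) (x, k) then 1 else 0) :=
        Fintype.sum_prod_type _
    _ = ∑ x : V, (univ.filter (fun k : Fin (2 * l) =>
        FF H i0 l j (x, k) ≠ FF H i0 l (j + 1) (x, k))).card :=
        Finset.sum_congr rfl fun x _ => (Finset.card_filter _ _).symm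
    _ ≤ ∑ x : V, ((if x = u then 2 else 0) + (if x = v then 2 else 0)) :=
        Finset.sum_le_sum fun x _ => hx x
    _ = 4 := by
        rw [Finset.sum_add_distrib, Finset.sum_ite_eq' , Finset.sum_ite_eq']
        simp

end Pool.Agent.H994E
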