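import Mathlib
import Pool.Agent.H994E.Stubs

/-!
# Task T7E (project ED): order of the blown-up cuts
-/

namespace Pool.Agent.H994E

open Finset

section t7e

variable {V : Type} [Fintype V] {A : V → V → ℝ} {K : ℝ} {m : ℕ} {H : ℕ → V → ℕ} {i0 : V → ℕ}
  {l : ℕ}

/-- If both `x` and `y` change, then they are swapped. -/
theorem t7e_swap (h : HalfTurn A K m H) {i : ℕ} (hi : i < m) {x y : V} (hxy : x ≠ y)
    (hx : H (i + 1) x ≠ H i x) (hy : H (i + 1) y ≠ H i y) :
    H (i + 1) x = H i y ∧ H (i + 1) y = H i x := by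
  obtain ⟨u, v, h1, h2, h3⟩ := h.step i hi
  have hxu : x = u ∨ x = v := by
    by_contra hc
    push Not at hc
    exact hx (h1 x hc.1 hc.2)
  have hyu : y = u ∨ y = v := by
    by_contra hc
    push Not at hc
    exact hy (h1 y hc.1 hc.2)
  rcases hxu with rfl | rfl <;> rcases hyu with rfl | rfl
  · exact absurd rfl hxy
  · exact ⟨h2, h3⟩
  · exact ⟨h3, h2⟩
  · exact absurd rfl hxy

omit [Fintype V] in
theorem t7e_cc_pos (hl : 0 < l) (j : ℕ) (p : V × Fin (2 * l)) (h : FF H i0 l j p = true) :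
    0 < cc H l j p.1 := by
  unfold FF at h
  have hp := p.2.2
  split_ifs at h with h1
  · have := of_decide_eq_true h
    omega
  · have := of_decide_eq_true h
    omega

omit [Fintype V] in
theorem t7e_full (j : ℕ) (p : V × Fin (2 * l)) (h : cc H l j p.1 = 2 * l) :
    FF H i0 l j p = true := by
  unfold FF
  have hp := p.2.2
  split_ifs with h1
  · exact decide_eq_true (by omega)
  · exact decide_eq_true (by omega)

theorem t7e_both (h : HalfTurn A K m H) (hl : 0 < l) {i : ℕ} (hi : i < m) {x y : V}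
    (hxy : x ≠ y) (h0 : 0 < H i x → H i y = 2) (h1 : 0 < H (i + 1) x → H (i + 1) y = 2)
    (j : ℕ) (hj : j / l = i) (hc : 0 < cc H l j x) : cc H l j y = 2 * l := by
  have key : H i y = 2 ∧ H (i + 1) y = 2 := by
    by_cases hx0 : 0 < H i x
    · by_cases hx1 : 0 < H (i + 1) x
      · exact ⟨h0 hx0, h1 hx1⟩
      · have hy0 := h0 hx0
        refine ⟨hy0, ?_⟩
        by_contra hne
        have := t7e_swap h hi hxy (by omega) (by omega : H (i + 1) y ≠ H i y)
        omega
    · by_cases hx1 : 0 < H (i + 1) x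
      · have hy1 := h1 hx1
        refine ⟨?_, hy1⟩
        by_contra hne
        have := t7e_swap h hi hxy (by omega) (by omega : H (i + 1) y ≠ H i y)
        omega
      · exfalso
        have e0 : H i x = 0 := by omega
        have e1 : H (i + 1) x = 0 := by omega
        unfold cc at hc
        rw [hj, e0, e1] at hc
        simp at hc
  unfold cc
  rw [hj, key.1, key.2]
  have := Nat.mod_lt j hl
  omega

omit [Fintype V] in
theorem t7e_mono (hl : 0 < l) (p : V × Fin (2 * l)) {τ : ℕ}
    (hm : H τ p.1 ≤ H (τ + 1) p.1) {j j' : ℕ} (hj : j / l = τ) (hj' : j' / l = τ) (hle : j ≤ j')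
    (hF : FF H i0 l j p = true) : FF H i0 l j' p = true := by
  have hcc : cc H l j p.1 ≤ cc H l j' p.1 := by
    unfold cc
    rw [hj, hj']
    have e1 := Nat.div_add_mod j l
    have e2 := Nat.div_add_mod j' l
    rw [hj] at e1
    rw [hj'] at e2
    have l1 := Nat.mod_lt j hl
    have l2 := Nat.mod_lt j' hl
    have hr : j % l ≤ j' % l := by omega
    obtain ⟨a, ha⟩ := Nat.exists_eq_add_of_le hm
    obtain ⟨b, hb⟩ := Nat.exists_eq_add_of_le hr
    obtain ⟨c, hc⟩ := Nat.exists_eq_add_of_le l2.le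
    rw [ha]
    have e3 : l - j' % l = c := by omega
    have e4 : l - j % l = c + b := by omega
    rw [e3, e4, hb]
    nlinarith [Nat.zero_le (b * a)]
  have hbr : j < i0 p.1 * l ↔ j' < i0 p.1 * l := by
    rw [← Nat.div_lt_iff_lt_mul hl, ← Nat.div_lt_iff_lt_mul hl, hj, hj']
  unfold FF at hF ⊢
  split_ifs at hF with h1
  · rw [if_pos (hbr.1 h1)]
    have := of_decide_eq_true hF
    exact decide_eq_true (by omega)
  · rw [if_neg (fun h2 => h1 (hbr.2 h2))]
    have := of_decide_eq_true hF
    exact decide_eq_true (by omega)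

theorem t7e_key (h : Blow V A K m H i0 l) (p p' : V × Fin (2 * l)) (hxy : p.1 ≠ p'.1) (τ : ℕ)
    (hτ : τ < m) (ha : ∀ i, i ≤ τ → 0 < H i p.1 → H i p'.1 = 2)
    (hb : ∀ i, τ < i → i ≤ m → 0 < H i p'.1 → H i p.1 = 2) :
    ∃ q, q ≤ m * l ∧ (∀ j, j < q → FF H i0 l j p = true → FF H i0 l j p' = true) ∧
      (∀ j, q ≤ j → j < m * l → FF H i0 l j p' = true → FF H i0 l j p = true) := by
  classical
  have hl := h.lpos
  have hH := h.ht
  have hm : H τ p.1 ≤ H (τ + 1) p.1 := by
    by_contra hlt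
    push Not at hlt
    have hx2 := hH.le2 τ p.1
    have hy0 : H τ p'.1 = 2 := ha τ le_rfl (by omega)
    have hy1 : H (τ + 1) p'.1 = 0 := by
      by_contra hne
      have := hb (τ + 1) (by omega) (by omega) (by omega)
      omega
    have := t7e_swap hH hτ hxy (by omega) (by omega : H (τ + 1) p'.1 ≠ H τ p'.1)
    omega
  have hex : ∃ j, τ * l ≤ j ∧ (FF H i0 l j p = true ∨ (τ + 1) * l ≤ j) :=
    ⟨(τ + 1) * l, by nlinarith, Or.inr le_rfl⟩
  have hq := Nat.find_spec hex
  have hqmin := fun j (hj : j < Nat.find hex) => Nat.find_min hex hj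
  have hqle : Nat.find hex ≤ (τ + 1) * l := Nat.find_min' hex ⟨by nlinarith, Or.inr le_rfl⟩
  have hml : (τ + 1) * l ≤ m * l := Nat.mul_le_mul_right l hτ
  set q := Nat.find hex with hqdef
  refine ⟨q, hqle.trans hml, ?_, ?_⟩
  · intro j hj hF
    by_cases hjt : j < τ * l
    · have hdiv : j / l < τ := (Nat.div_lt_iff_lt_mul hl).2 hjt
      exact t7e_full j p' (t7e_both hH hl (by omega : j / l < m) hxy (ha _ (by omega))
        (ha _ (by omega)) j rfl (t7e_cc_pos hl j p hF))
    · exfalso
      exact hqmin j hj ⟨by omega, Or.inl hF⟩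
  · intro j hj hjm hF
    by_cases hjt : (τ + 1) * l ≤ j
    · have hdiv : τ + 1 ≤ j / l := (Nat.le_div_iff_mul_le hl).2 hjt
      have hdm : j / l < m := (Nat.div_lt_iff_lt_mul hl).2 hjm
      exact t7e_full j p (t7e_both hH hl hdm (Ne.symm hxy) (hb _ (by omega) (by omega))
        (hb _ (by omega) (by omega)) j rfl (t7e_cc_pos hl j p' hF))
    · push Not at hjt
      have hFq : FF H i0 l q p = true := by
        rcases hq.2 with h1 | h1
        · exact h1
        · omega
      have d1 : q / l = τ := by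
        refine le_antisymm ?_ ?_
        · exact Nat.lt_succ_iff.1 ((Nat.div_lt_iff_lt_mul hl).2 (lt_of_le_of_lt hj hjt))
        · exact (Nat.le_div_iff_mul_le hl).2 hq.1
      have d2 : j / l = τ := by
        refine le_antisymm ?_ ?_
        · exact Nat.lt_succ_iff.1 ((Nat.div_lt_iff_lt_mul hl).2 hjt)
        · exact (Nat.le_div_iff_mul_le hl).2 (hq.1.trans hj)
      exact t7e_mono hl p hm d1 d2 hj hFq

theorem t7E_proof : St_T7E := by
  intro V _ A K m H i0 l h p p'
  by_cases hxy : p.1 = p'.1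
  · refine ⟨i0 p.1 * l, Nat.mul_le_mul_right l (h.i0lt p.1).le, ?_⟩
    by_cases hk : p.2.1 ≤ p'.2.1
    · left
      refine ⟨fun j hj hF => ?_, fun j hj _ hF => ?_⟩
      · unfold FF at hF ⊢
        rw [← hxy, if_pos hj]
        rw [if_pos hj] at hF
        have := of_decide_eq_true hF
        exact decide_eq_true (by omega)
      · unfold FF at hF ⊢
        rw [if_neg (by omega)]
        rw [← hxy, if_neg (by omega)] at hF
        have := of_decide_eq_true hF
        exact decide_eq_true (by omega)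
    · right
      refine ⟨fun j hj hF => ?_, fun j hj _ hF => ?_⟩
      · unfold FF at hF ⊢
        rw [← hxy, if_pos hj] at hF
        rw [if_pos hj]
        have := of_decide_eq_true hF
        exact decide_eq_true (by omega)
      · unfold FF at hF ⊢
        rw [← hxy, if_neg (by omega)]
        rw [if_neg (by omega)] at hF
        have := of_decide_eq_true hF
        exact decide_eq_true (by omega)
  · obtain ⟨τ, hτ, h1 | h1⟩ := h.ht.order p.1 p'.1 hxy
    · obtain ⟨q, hq, h2, h3⟩ := t7e_key h p p' hxy τ hτ h1.1 h1.2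
      exact ⟨q, hq, Or.inl ⟨h2, h3⟩⟩
    · obtain ⟨q, hq, h2, h3⟩ := t7e_key h p' p (Ne.symm hxy) τ hτ h1.1 h1.2
      exact ⟨q, hq, Or.inr ⟨h2, h3⟩⟩

end t7e

end Pool.Agent.H994E
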