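import Mathlib
import Pool.Agent.H994E.Stubs

namespace Pool.Agent.H994E

open Finset

theorem t7F_proof (hA : St_T7A) (hB : St_T7B) (hC : St_T7C) (hD : St_T7D) (hE : St_T7E)
    (h6 : St_T6B) : St_T7F := by
  intro V _ _ A K m H hH hs h0 h1 hsum
  refine h6 V A K hs h0 h1 ?_ hsum
  intro l hl
  choose i0 h2 h3 using hH.leave
  have hBl : Blow V A K m H i0 l := ⟨hH, h2, h3, hl⟩
  have hHS : HalfSeq (V × Fin (2 * l)) (m * l) (FF H i0 l) 4 := by
    refine ⟨Nat.mul_pos hH.mpos hl, hC V A K m H i0 l hBl, fun j hj => (hB V A K m H i0 l hBl j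
      hj).1, fun j hj => ?_, hE V A K m H i0 l hBl⟩
    exact_mod_cast hD V A K m H i0 l hBl j hj
  obtain ⟨G, hG1, hG2⟩ := hA _ _ _ _ hHS
  refine ⟨m * l, G, hG1, fun j hj => ?_⟩
  rw [hG2 j hj]
  exact (hB V A K m H i0 l hBl j hj).2

end Pool.Agent.H994E
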