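import Mathlib
import Pool.Agent.H994E.Stubs

namespace Pool.Agent.H994E

open Finset

theorem t8A_proof : St_T8A := by
  intro T hT
  have hm : 0 < T.card := Finset.card_pos.2 hT
  set m := T.card with hmdef
  set c : ℕ → ℝ := fun i => if h : i < m then T.orderEmbOfFin rfl ⟨i, h⟩ else 0 with hc
  have hcv : ∀ i (h : i < m), c i = T.orderEmbOfFin rfl ⟨i, h⟩ := by
    intro i h
    simp only [hc, dif_pos h]
  have hlt : ∀ i j, i < j → j < m → c i < c j := by
    intro i j hij hj
    rw [hcv i (hij.trans hj), hcv j hj]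
    exact (T.orderEmbOfFin rfl).strictMono (by simpa using hij)
  have hle : ∀ i j, i ≤ j → j < m → c i ≤ c j := by
    intro i j hij hj
    rcases hij.lt_or_eq with h | h
    · exact (hlt i j h hj).le
    · rw [h]
  have hmem : ∀ i, i < m → c i ∈ T := by
    intro i hi
    rw [hcv i hi]
    exact T.orderEmbOfFin_mem rfl _
  have hsurj : ∀ τ ∈ T, ∃ i, i < m ∧ τ = c i := by
    intro τ hτ
    have h1 : τ ∈ Set.range (T.orderEmbOfFin (rfl : T.card = T.card)) := by
      rw [Finset.range_orderEmbOfFin]
      exact hτ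
    obtain ⟨i, hi⟩ := h1
    refine ⟨i.1, i.2, ?_⟩
    rw [hcv i.1 i.2, ← hi]
  set a : ℕ → ℝ := fun i => if i = 0 then c 0 - 1 else if i < m then (c (i - 1) + c i) / 2
    else c (m - 1) + 1 with ha
  have h1 : ∀ i j, j < i → i ≤ m → c j < a i := by
    intro i j hji him
    have h0 : i ≠ 0 := by omega
    by_cases h : i < m
    · have : a i = (c (i - 1) + c i) / 2 := by simp only [ha, if_neg h0, if_pos h]
      rw [this]
      have h2 := hlt (i - 1) i (by omega) h
      have h3 := hle j (i - 1) (by omega) (by omega)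
      linarith
    · have : a i = c (m - 1) + 1 := by simp only [ha, if_neg h0, if_neg h]
      rw [this]
      have h3 := hle j (m - 1) (by omega) (by omega)
      linarith
  have h2 : ∀ i j, i ≤ j → j < m → a i < c j := by
    intro i j hij hj
    by_cases h0 : i = 0
    · have : a i = c 0 - 1 := by simp only [ha, if_pos h0]
      rw [this]
      have h3 := hle 0 j (by omega) hj
      linarith
    · have : a i = (c (i - 1) + c i) / 2 := by
        simp only [ha, if_neg h0, if_pos (lt_of_le_of_lt hij hj)]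
      rw [this]
      have h2 := hlt (i - 1) i (by omega) (by omega)
      have h3 := hle i j hij hj
      linarith
  refine ⟨m, a, c, hm, ?_, ?_, ?_, hsurj, ?_, ?_⟩
  · intro i hi
    exact ⟨h2 i i le_rfl hi, h1 (i + 1) i (by omega) (by omega), hmem i hi⟩
  · intro i hi hmT
    obtain ⟨j, hj, hj2⟩ := hsurj _ hmT
    rcases lt_or_ge j i with h | h
    · exact absurd hj2 (h1 i j h hi).ne'
    · exact absurd hj2 (h2 i j h hj).ne
  · intro i hi τ hτ h3 h4
    obtain ⟨j, hj, rfl⟩ := hsurj _ hτ
    rcases lt_trichotomy j i with h | h | h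
    · exact absurd (h1 i j h hi.le) (not_lt.2 h3.le)
    · rw [h]
    · exact absurd (h2 (i + 1) j h hj) (not_lt.2 h4.le)
  · intro τ hτ
    obtain ⟨j, hj, rfl⟩ := hsurj _ hτ
    exact ⟨h2 0 j (Nat.zero_le _) hj, h1 m j hj le_rfl⟩
  · intro i j hij hj
    exact (h2 i i le_rfl (by omega)).trans (h1 j i hij hj)

end Pool.Agent.H994E
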