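import Mathlib
import Pool.Agent.H994E.Stubs

/-!
# Task T8B: the half-weights sum to the number of points; reversal (helper880)
-/

namespace Pool.Agent.H994E

open Finset

open Classical in
/-- rank from the top -/
noncomputable def t8B_rk {ι : Type*} [Fintype ι] (z : ι → ℝ) (v : ι) : ℕ :=
  (univ.filter (fun w => z v < z w)).card

theorem t8B_lt {ι : Type*} [Fintype ι] (z : ι → ℝ) {v w : ι} (h : z v < z w) :
    t8B_rk z w < t8B_rk z v := by
  classical
  unfold t8B_rk
  apply card_lt_card
  rw [Finset.ssubset_iff_of_subset]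
  · exact ⟨w, by simpa using h, by simp⟩
  · intro u hu
    simp only [mem_filter, mem_univ, true_and] at hu ⊢
    exact h.trans hu

theorem t8B_inj {ι : Type*} [Fintype ι] (z : ι → ℝ) (hz : Function.Injective z) :
    Function.Injective (t8B_rk z) := by
  intro v w h
  by_contra hne
  rcases lt_or_gt_of_ne (fun h' => hne (hz h')) with h1 | h1
  · exact absurd h (t8B_lt z h1).ne'
  · exact absurd h (t8B_lt z h1).ne

theorem t8B_lt_card {ι : Type*} [Fintype ι] (z : ι → ℝ) (v : ι) :
    t8B_rk z v < Fintype.card ι := by
  classical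
  unfold t8B_rk
  rw [← card_univ]
  apply card_lt_card
  rw [Finset.ssubset_iff_of_subset (subset_univ _)]
  exact ⟨v, mem_univ _, by simp⟩

theorem t8B_image {ι : Type*} [Fintype ι] (z : ι → ℝ) (hz : Function.Injective z) :
    (univ : Finset ι).image (t8B_rk z) = range (Fintype.card ι) := by
  classical
  apply eq_of_subset_of_card_le
  · intro r hr
    obtain ⟨v, -, rfl⟩ := mem_image.1 hr
    exact mem_range.2 (t8B_lt_card z v)
  · rw [card_range, card_image_of_injective _ (t8B_inj z hz), card_univ]

theorem t8B_sum (n : ℕ) : ∑ r ∈ range n, min 2 (n - 2 * r) = n := by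
  induction n using Nat.strong_induction_on with
  | _ n ih =>
    rcases n with _ | n
    · simp
    rcases n with _ | n
    · simp
    have h1 := ih n (by omega)
    rw [sum_range_succ']
    have h2 : ∑ r ∈ range (n + 1), min 2 (n + 1 + 1 - 2 * (r + 1)) =
        ∑ r ∈ range (n + 1), min 2 (n - 2 * r) := by
      refine sum_congr rfl fun r _ => ?_
      congr 1
      omega
    rw [h2, sum_range_succ, h1]
    have h3 : min 2 (n - 2 * n) = 0 := by omega
    have h4 : min 2 (n + 1 + 1 - 2 * 0) = 2 := by omega
    rw [h3, h4]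

theorem t8B_rev {ι : Type*} [Fintype ι] (z : ι → ℝ) (hz : Function.Injective z) (v : ι) :
    t8B_rk z v + t8B_rk (fun w => - z w) v + 1 = Fintype.card ι := by
  classical
  unfold t8B_rk
  have h1 : (univ : Finset ι) = (univ.filter (fun w => z v < z w) ∪
      univ.filter (fun w => - z v < - z w)) ∪ {v} := by
    ext w
    simp only [mem_univ, mem_union, mem_filter, true_and, mem_singleton, neg_lt_neg_iff, true_iff]
    rcases lt_trichotomy (z v) (z w) with h | h | h
    · exact Or.inl (Or.inl h)
    · exact Or.inr (hz h).symm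
    · exact Or.inl (Or.inr h)
  have h2 : Disjoint (univ.filter (fun w => z v < z w)) (univ.filter (fun w => - z v < - z w)) := by
    rw [disjoint_left]
    intro w hw hw'
    simp only [mem_filter, mem_univ, true_and, neg_lt_neg_iff] at hw hw'
    exact absurd hw (not_lt.2 hw'.le)
  have h3 : Disjoint (univ.filter (fun w => z v < z w) ∪
      univ.filter (fun w => - z v < - z w)) {v} := by
    rw [disjoint_singleton_right]
    simp
  conv_rhs => rw [← card_univ, h1, card_union_of_disjoint h3, card_union_of_disjoint h2,
    card_singleton]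

theorem t8B_proof : St_T8B := by
  intro ι _ z z' hz
  have hH : ∀ (z : ι → ℝ) (v : ι), Hf z v = min 2 (Fintype.card ι - 2 * t8B_rk z v) :=
    fun _ _ => rfl
  refine ⟨?_, ?_⟩
  · simp only [hH]
    have h1 : ∑ v, min 2 (Fintype.card ι - 2 * t8B_rk z v) =
        ∑ r ∈ (univ : Finset ι).image (t8B_rk z), min 2 (Fintype.card ι - 2 * r) := by
      rw [sum_image (fun v _ w _ h => t8B_inj z hz h)]
    rw [h1, t8B_image z hz, t8B_sum]
  · intro hrev v
    rw [hH, hH]
    have h1 : t8B_rk z' v = t8B_rk (fun w => - z w) v := by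
      classical
      unfold t8B_rk
      congr 1
      apply filter_congr
      intro w _
      rw [hrev v w, neg_lt_neg_iff]
    have h2 := t8B_rev z hz v
    rw [h1]
    omega

end Pool.Agent.H994E
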