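import Mathlib
import Pool.Agent.H994E.Stubs

namespace Pool.Agent.H994E

open Finset

open Classical in
/-- the number of points above `v` -/
noncomputable def t8C_rk {ι : Type} [Fintype ι] (z : ι → ℝ) (v : ι) : ℕ :=
  (univ.filter (fun w => z v < z w)).card

theorem t8C_Hf {ι : Type} [Fintype ι] (z : ι → ℝ) (v : ι) :
    Hf z v = min 2 (Fintype.card ι - 2 * t8C_rk z v) := rfl

theorem t8C_L1 {ι : Type} [Fintype ι] (z zc : ι → ℝ) (hlt : ∀ a b, zc a < zc b → z a < z b)
    (u x : ι) (h : zc u < zc x) : t8C_rk z x + 1 ≤ t8C_rk zc u := by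
  classical
  unfold t8C_rk
  rw [← Finset.card_insert_of_notMem (s := univ.filter (fun w => z x < z w)) (a := x)
    (by simp)]
  apply Finset.card_le_card
  intro w hw
  rw [Finset.mem_insert] at hw
  rw [Finset.mem_filter]
  refine ⟨Finset.mem_univ _, ?_⟩
  rcases hw with rfl | hw
  · exact h
  · rw [Finset.mem_filter] at hw
    by_contra hc
    have h1 : zc w < zc x := lt_of_le_of_lt (not_lt.mp hc) h
    exact absurd (hlt _ _ h1) (not_lt.mpr hw.2.le)

theorem t8C_L2 {ι : Type} [Fintype ι] (z zc : ι → ℝ) (hlt : ∀ a b, zc a < zc b → z a < z b)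
    (u v x : ι) (huv : u ≠ v) (he : zc u = zc v) (h : zc x < zc u) :
    t8C_rk zc u + 2 ≤ t8C_rk z x := by
  classical
  unfold t8C_rk
  have h1 : v ∉ univ.filter (fun w => zc u < zc w) := by simp [he]
  have h2 : u ∉ insert v (univ.filter (fun w => zc u < zc w)) := by simp [huv]
  have h3 : (insert u (insert v (univ.filter (fun w => zc u < zc w)))).card =
      (univ.filter (fun w => zc u < zc w)).card + 2 := by
    rw [Finset.card_insert_of_notMem h2, Finset.card_insert_of_notMem h1]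
  rw [← h3]
  apply Finset.card_le_card
  intro w hw
  rw [Finset.mem_insert, Finset.mem_insert, Finset.mem_filter] at hw
  rw [Finset.mem_filter]
  refine ⟨Finset.mem_univ _, ?_⟩
  rcases hw with rfl | rfl | hw
  · exact hlt _ _ h
  · exact hlt _ _ (he ▸ h)
  · exact hlt _ _ (h.trans hw.2)

theorem t8C_L3 {ι : Type} [Fintype ι] (z zc : ι → ℝ) (hlt : ∀ a b, zc a < zc b → z a < z b)
    (u v : ι) (he : zc u = zc v) (hgp : ∀ w, zc w = zc u → w = u ∨ w = v)
    (h : z v < z u) : t8C_rk z u = t8C_rk zc u ∧ t8C_rk z v = t8C_rk zc u + 1 := by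
  classical
  unfold t8C_rk
  constructor
  · congr 1
    ext w
    rw [Finset.mem_filter, Finset.mem_filter]
    refine ⟨fun hw => ⟨Finset.mem_univ _, ?_⟩, fun hw => ⟨Finset.mem_univ _, hlt _ _ hw.2⟩⟩
    by_contra hc
    rcases lt_or_eq_of_le (not_lt.mp hc) with h1 | h1
    · exact absurd (hlt _ _ h1) (not_lt.mpr hw.2.le)
    · rcases hgp w h1 with rfl | rfl
      · exact lt_irrefl _ hw.2
      · exact absurd hw.2 (not_lt.mpr h.le)
  · have h1 : u ∉ univ.filter (fun w => zc u < zc w) := by simp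
    rw [← Finset.card_insert_of_notMem h1]
    congr 1
    ext w
    rw [Finset.mem_insert, Finset.mem_filter, Finset.mem_filter]
    constructor
    · intro hw
      by_cases hwu : w = u
      · exact Or.inl hwu
      · right
        refine ⟨Finset.mem_univ _, ?_⟩
        by_contra hc
        rcases lt_or_eq_of_le (not_lt.mp hc) with h1 | h1
        · exact absurd (hlt _ _ (he ▸ h1)) (not_lt.mpr hw.2.le)
        · rcases hgp w h1 with rfl | rfl
          · exact hwu rfl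
          · exact lt_irrefl _ hw.2
    · rintro (rfl | hw)
      · exact ⟨Finset.mem_univ _, h⟩
      · exact ⟨Finset.mem_univ _, hlt _ _ (he ▸ hw.2)⟩

theorem t8C_L4 {ι : Type} [Fintype ι] (z zc : ι → ℝ) (hlt : ∀ a b, zc a < zc b → z a < z b)
    (x : ι) (hx : ∀ w, zc w = zc x → w = x) : t8C_rk z x = t8C_rk zc x := by
  classical
  unfold t8C_rk
  congr 1
  ext w
  rw [Finset.mem_filter, Finset.mem_filter]
  refine ⟨fun hw => ⟨Finset.mem_univ _, ?_⟩, fun hw => ⟨Finset.mem_univ _, hlt _ _ hw.2⟩⟩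
  by_contra hc
  rcases lt_or_eq_of_le (not_lt.mp hc) with h1 | h1
  · exact absurd (hlt _ _ h1) (not_lt.mpr hw.2.le)
  · rw [hx w h1] at hw
    exact lt_irrefl _ hw.2

theorem t8C_pair {ι : Type} [Fintype ι] (z zc z' : ι → ℝ) (hS : Step z zc z') (u v : ι)
    (huv : u ≠ v) (he : zc u = zc v) (h : z v < z u) :
    t8C_rk z u = t8C_rk zc u ∧ t8C_rk z v = t8C_rk zc u + 1 ∧
      t8C_rk z' v = t8C_rk zc u ∧ t8C_rk z' u = t8C_rk zc u + 1 := by
  have hgp : ∀ w, zc w = zc u → w = u ∨ w = v := by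
    intro w hw
    by_contra hc
    push Not at hc
    exact hS.gp u v w huv (Ne.symm hc.1) (Ne.symm hc.2) he hw.symm
  have hl : ∀ a b, zc a < zc b → z a < z b := fun a b hab => (hS.lt a b hab).1
  have hl' : ∀ a b, zc a < zc b → z' a < z' b := fun a b hab => (hS.lt a b hab).2
  have h' : z' u < z' v := (hS.swap v u huv.symm he.symm).mp h
  obtain ⟨a1, a2⟩ := t8C_L3 z zc hl u v he hgp h
  obtain ⟨b1, b2⟩ := t8C_L3 z' zc hl' v u he.symm
    (fun w hw => (hgp w (hw.trans he.symm)).symm) h'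
  have e : t8C_rk zc v = t8C_rk zc u := by unfold t8C_rk; rw [he]
  rw [e] at b1 b2
  exact ⟨a1, a2, b1, b2⟩

theorem t8C_main {ι : Type} [Fintype ι] (z zc z' : ι → ℝ) (hS : Step z zc z') (u v : ι)
    (huv : u ≠ v) (he : zc u = zc v) (h : z v < z u) (hne : Hf z' u ≠ Hf z u) :
    Hf z' u = Hf z v ∧ Hf z' v = Hf z u ∧
    ∀ x, x ≠ u → x ≠ v → Hf z' x = Hf z x ∧
      ((zc u < zc x ∧ Hf z x = 2) ∨ (zc x < zc u ∧ Hf z x = 0)) := by
  obtain ⟨a1, a2, b1, b2⟩ := t8C_pair z zc z' hS u v huv he h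
  have hl : ∀ a b, zc a < zc b → z a < z b := fun a b hab => (hS.lt a b hab).1
  have hl' : ∀ a b, zc a < zc b → z' a < z' b := fun a b hab => (hS.lt a b hab).2
  refine ⟨by rw [t8C_Hf, t8C_Hf, a2, b2], by rw [t8C_Hf, t8C_Hf, a1, b1], ?_⟩
  rw [t8C_Hf, t8C_Hf, a1, b2] at hne
  intro x hxu hxv
  have hx : zc u ≠ zc x := hS.gp u v x huv (Ne.symm hxu) (Ne.symm hxv) he
  rcases lt_or_gt_of_ne hx with h1 | h1
  · have c1 := t8C_L1 z zc hl u x h1
    have c2 := t8C_L1 z' zc hl' u x h1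
    have d1 : Hf z x = 2 := by rw [t8C_Hf]; omega
    have d2 : Hf z' x = 2 := by rw [t8C_Hf]; omega
    exact ⟨by rw [d1, d2], Or.inl ⟨h1, d1⟩⟩
  · have c1 := t8C_L2 z zc hl u v x huv he h1
    have c2 := t8C_L2 z' zc hl' u v x huv he h1
    have d1 : Hf z x = 0 := by rw [t8C_Hf]; omega
    have d2 : Hf z' x = 0 := by rw [t8C_Hf]; omega
    exact ⟨by rw [d1, d2], Or.inr ⟨h1, d1⟩⟩

theorem t8C_proof : St_T8C := by
  intro ι _ z zc z' hS
  by_cases hall : ∀ x, Hf z' x = Hf z x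
  · exact Or.inl hall
  · right
    push Not at hall
    obtain ⟨u, hu⟩ := hall
    have hl : ∀ a b, zc a < zc b → z a < z b := fun a b hab => (hS.lt a b hab).1
    have hl' : ∀ a b, zc a < zc b → z' a < z' b := fun a b hab => (hS.lt a b hab).2
    by_cases hp : ∀ w, zc w = zc u → w = u
    · exfalso
      apply hu
      rw [t8C_Hf, t8C_Hf, t8C_L4 z zc hl u hp, t8C_L4 z' zc hl' u hp]
    · push Not at hp
      obtain ⟨v, hv, hvu⟩ := hp
      rcases lt_or_gt_of_ne (fun hzz => hvu (hS.inj hzz) : z v ≠ z u) with h1 | h1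
      · obtain ⟨r1, r2, r3⟩ := t8C_main z zc z' hS u v (Ne.symm hvu) hv.symm h1 hu
        exact ⟨u, v, Ne.symm hvu, hv.symm, r1, r2, r3⟩
      · obtain ⟨a1, a2, b1, b2⟩ := t8C_pair z zc z' hS v u hvu hv h1
        have hne : Hf z' v ≠ Hf z v := by
          rw [t8C_Hf, t8C_Hf, a2, b1] at hu
          rw [t8C_Hf, t8C_Hf, a1, b2]
          exact fun h => hu h.symm
        obtain ⟨r1, r2, r3⟩ := t8C_main z zc z' hS v u hvu hv h1 hne
        exact ⟨v, u, hvu, hv, r1, r2, r3⟩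

end Pool.Agent.H994E
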