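import Mathlib
import Pool.Agent.H994E.Stubs

/-!
# T8D : one fractional point
-/

namespace Pool.Agent.H994E

open Finset Filter Topology

lemma t8D_cutB {ι : Type} [Fintype ι] (A : ι → ι → ℝ) (f : ι → ℝ) (g : ι → Bool)
    (hfg : ∀ v, f v = if g v = true then 1 else 0) : cutW A f = cutB A g := by
  unfold cutW cutB
  refine Finset.sum_congr rfl fun u _ => Finset.sum_congr rfl fun v _ => ?_
  rw [hfg u, hfg v]
  cases g u <;> cases g v <;> simp

theorem t8D_proof : St_T8D := by
  classical
  intro ι _ x y A K hG α w h h0 h1 hv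
  set F : ℝ → ι → ℝ := fun c v => if v = w then c else h v with hF
  have hh : h = F (h w) := by
    funext v
    simp only [hF]
    split_ifs with e
    · rw [e]
    · rfl
  -- the value is affine in the fractional part
  have haff : ∀ c : ℝ, cutW A (F c) = (1 - c) * cutW A (F 0) + c * cutW A (F 1) := by
    intro c
    unfold cutW
    rw [Finset.mul_sum, Finset.mul_sum, ← Finset.sum_add_distrib]
    refine Finset.sum_congr rfl fun u _ => ?_
    rw [Finset.mul_sum, Finset.mul_sum, ← Finset.sum_add_distrib]
    refine Finset.sum_congr rfl fun v _ => ?_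
    simp only [hF]
    by_cases hu : u = w
    · by_cases hv' : v = w
      · subst hu
        subst hv'
        rw [hG.diag]
        simp
      · simp only [if_pos hu, if_neg hv']
        ring
    · by_cases hv' : v = w
      · simp only [if_neg hu, if_pos hv']
        ring
      · simp only [if_neg hu, if_neg hv']
        ring
  -- the line slightly above
  have hK0 : cutW A (F 0) ≤ K := by
    have e1 : ∀ᶠ β in 𝓝[>] (kz x y α w), kz x y α w < β := eventually_mem_nhdsWithin
    have e2 : ∀ᶠ β in 𝓝[>] (kz x y α w), ∀ v, kz x y α w < kz x y α v → β < kz x y α v := by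
      rw [Filter.eventually_all]
      intro v
      by_cases hlt : kz x y α w < kz x y α v
      · have : ∀ᶠ β in 𝓝 (kz x y α w), β < kz x y α v := eventually_lt_nhds hlt
        exact (this.filter_mono nhdsWithin_le_nhds).mono fun β hβ _ => hβ
      · exact Filter.Eventually.of_forall fun β hβ => absurd hβ hlt
    obtain ⟨β, hβ1, hβ2⟩ := (e1.and e2).exists
    rw [t8D_cutB A (F 0) (fun r => decide (β < kz x y α r))]
    · apply hG.cut α β
      intro r hr
      by_cases hrw : r = w
      · subst hrw
        linarith
      · rcases hv r hrw with ⟨h3, _⟩ | ⟨h3, _⟩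
        · have := hβ2 r h3
          linarith
        · linarith
    · intro v
      simp only [hF, decide_eq_true_eq]
      by_cases hvw : v = w
      · subst hvw
        rw [if_pos rfl, if_neg (not_lt.2 hβ1.le)]
      · rw [if_neg hvw]
        rcases hv v hvw with ⟨h3, h4⟩ | ⟨h3, h4⟩
        · rw [if_pos (hβ2 v h3), h4]
        · rw [if_neg (not_lt.2 (h3.trans hβ1).le), h4]
  -- the line slightly below
  have hK1 : cutW A (F 1) ≤ K := by
    have e1 : ∀ᶠ β in 𝓝[<] (kz x y α w), β < kz x y α w := eventually_mem_nhdsWithin
    have e2 : ∀ᶠ β in 𝓝[<] (kz x y α w), ∀ v, kz x y α v < kz x y α w → kz x y α v < β := by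
      rw [Filter.eventually_all]
      intro v
      by_cases hlt : kz x y α v < kz x y α w
      · have : ∀ᶠ β in 𝓝 (kz x y α w), kz x y α v < β := eventually_gt_nhds hlt
        exact (this.filter_mono nhdsWithin_le_nhds).mono fun β hβ _ => hβ
      · exact Filter.Eventually.of_forall fun β hβ => absurd hβ hlt
    obtain ⟨β, hβ1, hβ2⟩ := (e1.and e2).exists
    rw [t8D_cutB A (F 1) (fun r => decide (β < kz x y α r))]
    · apply hG.cut α β
      intro r hr
      by_cases hrw : r = w
      · subst hrw
        linarith
      · rcases hv r hrw with ⟨h3, _⟩ | ⟨h3, _⟩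
        · linarith
        · have := hβ2 r h3
          linarith
    · intro v
      simp only [hF, decide_eq_true_eq]
      by_cases hvw : v = w
      · subst hvw
        rw [if_pos rfl, if_pos hβ1]
      · rw [if_neg hvw]
        rcases hv v hvw with ⟨h3, h4⟩ | ⟨h3, h4⟩
        · rw [if_pos (hβ1.trans h3), h4]
        · rw [if_neg (not_lt.2 (hβ2 v h3).le), h4]
  rw [hh, haff]
  have i1 : (1 - h w) * cutW A (F 0) ≤ (1 - h w) * K :=
    mul_le_mul_of_nonneg_left hK0 (by linarith)
  have i2 : h w * cutW A (F 1) ≤ h w * K := mul_le_mul_of_nonneg_left hK1 h0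
  linarith

end Pool.Agent.H994E
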