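import Mathlib
import Pool.Agent.H994E.Stubs
import Pool.Agent.LinesCross.Pivot

namespace Pool.Agent.H994E

open Finset

theorem t8E_affine {ι : Type} [Fintype ι] [DecidableEq ι] (A : ι → ι → ℝ) (w : ι)
    (hw : A w w = 0) (h : ι → ℝ) (a : ℝ) : cutW A (Function.update h w a) =
      (1 - a) * cutW A (Function.update h w 0) + a * cutW A (Function.update h w 1) := by
  unfold cutW
  rw [mul_sum, mul_sum, ← sum_add_distrib]
  refine sum_congr rfl fun u _ => ?_
  rw [mul_sum, mul_sum, ← sum_add_distrib]
  refine sum_congr rfl fun v _ => ?_
  by_cases hu : u = w
  · subst hu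
    by_cases hv : v = u
    · subst hv
      rw [hw]
      ring
    · rw [Function.update_self, Function.update_self, Function.update_self,
        Function.update_of_ne hv, Function.update_of_ne hv, Function.update_of_ne hv]
      ring
  · by_cases hv : v = w
    · subst hv
      rw [Function.update_self, Function.update_self, Function.update_self,
        Function.update_of_ne hu, Function.update_of_ne hu, Function.update_of_ne hu]
      ring
    · rw [Function.update_of_ne hu, Function.update_of_ne hu, Function.update_of_ne hu,
        Function.update_of_ne hv, Function.update_of_ne hv, Function.update_of_ne hv]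
      ring

theorem t8E_bound {ι : Type} [Fintype ι] [DecidableEq ι] (A : ι → ι → ℝ) (w : ι)
    (hw : A w w = 0) (h : ι → ℝ) (a K : ℝ) (h0 : 0 ≤ a) (h1 : a ≤ 1)
    (k0 : cutW A (Function.update h w 0) ≤ K) (k1 : cutW A (Function.update h w 1) ≤ K) :
    cutW A (Function.update h w a) ≤ K := by
  rw [t8E_affine A w hw h a]
  nlinarith

theorem t8E_cutB {ι : Type} [Fintype ι] (A : ι → ι → ℝ) (f : ι → Bool) (h : ι → ℝ)
    (hf : ∀ r, h r = if f r = true then 1 else 0) : cutW A h = cutB A f := by
  unfold cutW cutB
  refine sum_congr rfl fun u _ => sum_congr rfl fun v _ => ?_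
  rw [hf u, hf v]
  cases f u <;> cases f v <;> simp

theorem t8E_proof : St_T8E := by
  classical
  intro ι _ x y A K hG α w w' h hww hk h0 h1 h0' h1' hv
  have hcorner : ∀ sp sq : Bool, cutW A (Function.update (Function.update h w
      (if sp = true then 1 else 0)) w' (if sq = true then 1 else 0)) ≤ K := by
    intro sp sq
    have hp : y w = α * x w + kz x y α w := by unfold kz; ring
    have hq : y w' = α * x w' + kz x y α w := by rw [hk]; unfold kz; ring
    obtain ⟨α', β', g1, g2, g3, g4⟩ := Pool.Agent.LinesCross.exists_perturb x y Finset.univ α (kz x y α w) w w'
      (fun h => hww (hG.inj h)) hp hq (by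
        intro r _ hr
        by_contra hne
        push Not at hne
        have h5 : kz x y α r = kz x y α w := by
          have : kz x y α r = y r - α * x r := rfl
          rw [this, hr]
          ring
        rcases hv r hne.1 hne.2 with h6 | h6
        · linarith [h6.1]
        · linarith [h6.1]) sp sq
    have h7 : ∀ r, (β' < kz x y α' r ↔ α' * x r + β' < y r) := by
      intro r
      unfold kz
      constructor <;> intro h <;> linarith
    rw [t8E_cutB A (fun r => decide (β' < kz x y α' r))]
    · refine hG.cut α' β' fun r hr => g1 r (Finset.mem_univ r) ?_
      rw [← hr]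
      unfold kz
      ring
    · intro r
      simp only [decide_eq_true_eq, h7]
      by_cases hr' : r = w'
      · subst hr'
        rw [Function.update_self]
        simp only [g4]
      · rw [Function.update_of_ne hr']
        by_cases hr : r = w
        · subst hr
          rw [Function.update_self]
          simp only [g3]
        · rw [Function.update_of_ne hr]
          have h8 : kz x y α r = y r - α * x r := rfl
          rcases hv r hr hr' with ⟨h6, h9⟩ | ⟨h6, h9⟩
          · rw [h9, if_pos]
            rw [g2 r (Finset.mem_univ r) hr hr']
            linarith
          · rw [h9, if_neg]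
            rw [g2 r (Finset.mem_univ r) hr hr']
            linarith
  have e1 : h = Function.update (Function.update h w (h w)) w' (h w') := by
    rw [Function.update_eq_self, Function.update_eq_self]
  rw [e1]
  have hsw : ∀ a b : ℝ, Function.update (Function.update h w a) w' b =
      Function.update (Function.update h w' b) w a := fun a b =>
    Function.update_comm hww _ _ _
  refine t8E_bound A w' (hG.diag w') _ _ K h0' h1' ?_ ?_
  · rw [hsw]
    refine t8E_bound A w (hG.diag w) _ _ K h0 h1 ?_ ?_
    · rw [← hsw]
      simpa using hcorner false false
    · rw [← hsw]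
      simpa using hcorner true false
  · rw [hsw]
    refine t8E_bound A w (hG.diag w) _ _ K h0 h1 ?_ ?_
    · rw [← hsw]
      simpa using hcorner false true
    · rw [← hsw]
      simpa using hcorner true true

end Pool.Agent.H994E
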