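import Mathlib
import Pool.Agent.H994E.Stubs

/-! Task T8F: shape of the halving cut. -/

namespace Pool.Agent.H994E

open Finset

open Classical in
theorem t8F_proof : St_T8F := by
  intro ι _ z hz hn
  have hne : Nonempty ι := Fintype.card_pos_iff.1 (by omega)
  -- the set of the points that are not completely below
  set P : Finset ι := univ.filter (fun v => 2 * (univ.filter (fun w => z v < z w)).card <
    Fintype.card ι) with hP
  have hPne : P.Nonempty := by
    obtain ⟨t, -, ht⟩ := Finset.exists_max_image (univ : Finset ι) z ⟨hne.some, mem_univ _⟩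
    refine ⟨t, ?_⟩
    rw [hP, mem_filter]
    refine ⟨mem_univ _, ?_⟩
    have : (univ.filter (fun w => z t < z w)) = ∅ := by
      rw [Finset.filter_eq_empty_iff]
      intro w hw
      exact not_lt.2 (ht w hw)
    rw [this, Finset.card_empty]
    omega
  obtain ⟨w, hw, hmin⟩ := Finset.exists_min_image P z hPne
  rw [hP, mem_filter] at hw
  refine ⟨w, fun v hv => ?_⟩
  rcases lt_trichotomy (z v) (z w) with h | h | h
  · right
    refine ⟨h, ?_⟩
    have h1 : v ∉ P := fun hvP => absurd (hmin v hvP) (not_le.2 h)
    rw [hP, mem_filter] at h1
    have h2 : Fintype.card ι ≤ 2 * (univ.filter (fun w => z v < z w)).card := by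
      by_contra hc
      exact h1 ⟨mem_univ _, by omega⟩
    unfold Hf
    have h3 : (univ.filter (fun w => z v < z w)).card = (univ.filter (fun w => z v < z w)).card := rfl
    rw [Nat.sub_eq_zero_of_le (by convert h2), Nat.min_zero]
  · exact absurd (hz h) hv
  · left
    refine ⟨h, ?_⟩
    have h1 : (univ.filter (fun u => z v < z u)).card < (univ.filter (fun u => z w < z u)).card := by
      apply Finset.card_lt_card
      rw [Finset.ssubset_iff_of_subset]
      · refine ⟨v, ?_, ?_⟩
        · simp [h]
        · simp
      · intro u hu
        simp only [mem_filter, mem_univ, true_and] at hu ⊢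
        exact h.trans hu
    have h2 := hw.2
    unfold Hf
    apply min_eq_left
    have h3 : 2 ≤ Fintype.card ι - 2 * (univ.filter (fun u => z v < z u)).card := by omega
    convert h3

end Pool.Agent.H994E
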