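import Mathlib
import Pool.Agent.H994E.Stubs

/-!
# T8G: order and leaving the middle
-/

namespace Pool.Agent.H994E

open Finset

open Classical in
theorem t8G_card_lt {ι : Type} [Fintype ι] (p q : ι → Prop) (y : ι) (h : ∀ u, p u → q u)
    (hy : q y) (hy' : ¬ p y) : (univ.filter p).card < (univ.filter q).card := by
  apply Finset.card_lt_card
  rw [Finset.ssubset_iff_of_subset]
  · exact ⟨y, by simpa using hy, by simpa using hy'⟩
  · intro u hu
    simp only [Finset.mem_filter, Finset.mem_univ, true_and] at hu ⊢
    exact h u hu

theorem t8G_proof : St_T8G := by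
  intro ι _
  constructor
  · intro z x y hxy hx
    have h := t8G_card_lt (fun w => z y < z w) (fun w => z x < z w) y
      (fun u hu => lt_trans hxy hu) hxy (lt_irrefl _)
    unfold Hf at hx ⊢
    omega
  · intro z zc z' x y hS hxy hc
    have key : ∀ u, u ≠ x → u ≠ y → (zc u < zc x ∨ zc x < zc u) := by
      intro u hux huy
      have h := hS.gp x y u hxy (Ne.symm hux) (Ne.symm huy) hc
      rcases lt_trichotomy (zc u) (zc x) with h1 | h1 | h1
      · exact Or.inl h1
      · exact absurd h1.symm h
      · exact Or.inr h1
    by_contra hcon
    push Not at hcon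
    obtain ⟨h1, h2⟩ := hcon
    unfold Hf at h1 h2
    rcases lt_trichotomy (z x) (z y) with h | h | h
    · have h' : z' y < z' x := (hS.swap x y hxy hc).1 h
      have hlt := t8G_card_lt (fun w => z' x < z' w) (fun w => z x < z w) y
        (fun u hu => by
          have hux : u ≠ x := by rintro rfl; exact lt_irrefl _ hu
          have huy : u ≠ y := by rintro rfl; exact lt_asymm hu h'
          rcases key u hux huy with h3 | h3
          · exact absurd (hS.lt u x h3).2 (lt_asymm hu)
          · exact (hS.lt x u h3).1) h (lt_asymm h')
      omega
    · exact hxy (hS.inj h)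
    · have h' : z' x < z' y := (hS.swap y x (Ne.symm hxy) hc.symm).1 h
      have hlt := t8G_card_lt (fun w => z x < z w) (fun w => z' x < z' w) y
        (fun u hu => by
          have hux : u ≠ x := by rintro rfl; exact lt_irrefl _ hu
          have huy : u ≠ y := by rintro rfl; exact lt_asymm hu h
          rcases key u hux huy with h3 | h3
          · exact absurd (hS.lt u x h3).1 (lt_asymm hu)
          · exact (hS.lt x u h3).2) h' (lt_asymm h)
      omega

end Pool.Agent.H994E
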