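import Mathlib
import Pool.Agent.H994E.Stubs

set_option autoImplicit false

/-!
# Task T8H: the sequence of directions
-/

namespace Pool.Agent.H994E

open Finset

/-- the critical slope of a pair -/
noncomputable def t8H_sg {ι : Type} (x y : ι → ℝ) (u v : ι) : ℝ := (y u - y v) / (x u - x v)

theorem t8H_eq_iff {ι : Type} (x y : ι → ℝ) (α : ℝ) {u v : ι} (h : x u ≠ x v) :
    kz x y α u = kz x y α v ↔ α = t8H_sg x y u v := by
  unfold kz t8H_sg
  rw [eq_div_iff (sub_ne_zero.mpr h)]
  constructor
  · intro h1; linarith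
  · intro h1; linarith

theorem t8H_lt_iff_neg {ι : Type} (x y : ι → ℝ) (α : ℝ) {u v : ι} (h : x u < x v) :
    kz x y α u < kz x y α v ↔ α < t8H_sg x y u v := by
  unfold kz t8H_sg
  rw [lt_div_iff_of_neg (sub_neg.mpr h)]
  constructor
  · intro h1; linarith
  · intro h1; linarith

theorem t8H_lt_iff_pos {ι : Type} (x y : ι → ℝ) (α : ℝ) {u v : ι} (h : x v < x u) :
    kz x y α u < kz x y α v ↔ t8H_sg x y u v < α := by
  unfold kz t8H_sg
  rw [div_lt_iff₀ (sub_pos.mpr h)]
  constructor
  · intro h1; linarith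
  · intro h1; linarith

theorem t8H_sg_symm {ι : Type} (x y : ι → ℝ) (u v : ι) : t8H_sg x y v u = t8H_sg x y u v := by
  unfold t8H_sg
  rw [← neg_sub (y u) (y v), ← neg_sub (x u) (x v), neg_div_neg_eq]

/-- task T8H -/
theorem t8H_proof (hA : St_T8A) : St_T8H := by
  classical
  intro ι _ x y hx hgp hcard
  obtain ⟨T, hT⟩ : ∃ T : Finset ℝ, T = ((univ : Finset (ι × ι)).filter (fun p => p.1 ≠ p.2)).image
    (fun p => t8H_sg x y p.1 p.2) := ⟨_, rfl⟩
  have hmem : ∀ u v : ι, u ≠ v → t8H_sg x y u v ∈ T := by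
    intro u v huv
    rw [hT, mem_image]
    exact ⟨(u, v), by simpa using huv, rfl⟩
  have hTne : T.Nonempty := by
    obtain ⟨u, v, huv⟩ := Fintype.one_lt_card_iff.mp (by omega : 1 < Fintype.card ι)
    exact ⟨_, hmem u v huv⟩
  obtain ⟨m, a, c, hm, h1, h2, h3, h4, h5, h6⟩ := hA T hTne
  have hxne : ∀ u v : ι, u ≠ v → x u < x v ∨ x v < x u := fun u v huv =>
    lt_or_gt_of_ne (fun h => huv (hx h))
  have hinj : ∀ i, i ≤ m → Function.Injective (kz x y (a i)) := by
    intro i hi u v huv
    by_contra hne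
    have := (t8H_eq_iff x y (a i) (fun h => hne (hx h))).mp huv
    exact h2 i hi (this ▸ hmem u v hne)
  have hane : ∀ i, i ≤ m → ∀ u v : ι, u ≠ v → a i ≠ t8H_sg x y u v := by
    intro i hi u v huv h
    exact h2 i hi (h ▸ hmem u v huv)
  refine ⟨m, a, c, hm, hinj, ?_, ?_, ?_⟩
  · intro i hi
    obtain ⟨ha1, ha2, hc⟩ := h1 i hi
    refine ⟨hinj i hi.le, hinj (i + 1) hi, ?_, ?_, ?_⟩
    · intro u v w huv huw hvw h
      exact hgp (c i) u v w huv huw hvw h
    · intro u v huv
      have hne : u ≠ v := by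
        rintro rfl
        exact lt_irrefl _ huv
      rcases hxne u v hne with hlt | hlt
      · rw [t8H_lt_iff_neg x y _ hlt] at huv
        rw [t8H_lt_iff_neg x y _ hlt, t8H_lt_iff_neg x y _ hlt]
        refine ⟨ha1.trans huv, ?_⟩
        rcases lt_trichotomy (a (i + 1)) (t8H_sg x y u v) with h | h | h
        · exact h
        · exact absurd h (hane (i + 1) hi u v hne)
        · have := h3 i hi _ (hmem u v hne) (ha1.trans huv) h
          exact absurd this.symm huv.ne
      · rw [t8H_lt_iff_pos x y _ hlt] at huv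
        rw [t8H_lt_iff_pos x y _ hlt, t8H_lt_iff_pos x y _ hlt]
        refine ⟨?_, huv.trans ha2⟩
        rcases lt_trichotomy (t8H_sg x y u v) (a i) with h | h | h
        · exact h
        · exact absurd h.symm (hane i hi.le u v hne)
        · have := h3 i hi _ (hmem u v hne) h (huv.trans ha2)
          exact absurd this huv.ne
    · intro u v hne heq
      rcases hxne u v hne with hlt | hlt
      · rw [t8H_eq_iff x y _ hlt.ne] at heq
        rw [t8H_lt_iff_neg x y _ hlt, t8H_lt_iff_pos x y _ hlt, t8H_sg_symm x y u v, ← heq]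
        exact ⟨fun _ => ha2, fun _ => ha1⟩
      · rw [t8H_eq_iff x y _ hlt.ne'] at heq
        rw [t8H_lt_iff_pos x y _ hlt, t8H_lt_iff_neg x y _ hlt, t8H_sg_symm x y u v, ← heq]
        constructor
        · intro h
          exact absurd (h.trans ha1) (lt_irrefl _)
        · intro h
          exact absurd (ha2.trans h) (lt_irrefl _)
  · intro v w
    by_cases hne : v = w
    · subst hne
      simp
    · obtain ⟨h7, h8⟩ := h5 _ (hmem v w hne)
      rcases hxne v w hne with hlt | hlt
      · rw [t8H_lt_iff_neg x y _ hlt, t8H_lt_iff_pos x y _ hlt, t8H_sg_symm x y v w]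
        constructor
        · intro h
          exact absurd (h.trans h8) (lt_irrefl _)
        · intro h
          exact absurd (h.trans h7) (lt_irrefl _)
      · rw [t8H_lt_iff_pos x y _ hlt, t8H_lt_iff_neg x y _ hlt, t8H_sg_symm x y v w]
        exact ⟨fun _ => h7, fun _ => h8⟩
  · intro v w hne
    obtain ⟨i0, hi0, hs⟩ := h4 _ (hmem v w hne)
    obtain ⟨ha1, ha2, hc⟩ := h1 i0 hi0
    have hlow : ∀ i, i ≤ i0 → a i < t8H_sg x y v w := by
      intro i hi
      rw [hs]
      rcases hi.lt_or_eq with h | h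
      · exact (h6 i i0 h hi0.le).trans ha1
      · rw [h]; exact ha1
    have hhigh : ∀ i, i0 < i → i ≤ m → t8H_sg x y v w < a i := by
      intro i hi him
      rw [hs]
      rcases (Nat.succ_le_of_lt hi).lt_or_eq with h | h
      · exact ha2.trans (h6 (i0 + 1) i h him)
      · rw [← h]; exact ha2
    refine ⟨i0, hi0, ?_, ?_⟩
    · rw [t8H_eq_iff x y _ (fun h => hne (hx h))]
      exact hs.symm
    · rcases hxne v w hne with hlt | hlt
      · left
        refine ⟨fun i hi => ?_, fun i hi him => ?_⟩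
        · rw [t8H_lt_iff_neg x y _ hlt]
          exact hlow i hi
        · rw [t8H_lt_iff_pos x y _ hlt, t8H_sg_symm]
          exact hhigh i hi him
      · right
        refine ⟨fun i hi => ?_, fun i hi him => ?_⟩
        · rw [t8H_lt_iff_neg x y _ hlt, t8H_sg_symm]
          exact hlow i hi
        · rw [t8H_lt_iff_pos x y _ hlt]
          exact hhigh i hi him

end Pool.Agent.H994E
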