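import Mathlib
import Pool.Agent.H994E.Stubs

/-!
# Task T8I: assembly of T8
-/

namespace Pool.Agent.H994E

open Finset

theorem t8I_proof (hB : St_T8B) (hC : St_T8C) (hD : St_T8D) (hE : St_T8E) (hF : St_T8F)
    (hG : St_T8G) (hH : St_T8H) : St_T8I := by
  intro ι _ x y A K hgeo hcard
  obtain ⟨m, a, c, hm, hinj, hstep, hrev, hord⟩ := hH ι x y hgeo.inj hgeo.gp hcard
  have hle2 : ∀ (z : ι → ℝ) (v : ι), Hf z v ≤ 2 := fun z v => min_le_left _ _
  have hturn : ∀ v, Hf (kz x y (a m)) v + Hf (kz x y (a 0)) v = 2 :=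
    (hB ι (kz x y (a 0)) (kz x y (a m)) (hinj 0 (Nat.zero_le _))).2 hrev
  have hnt : Nontrivial ι := Fintype.one_lt_card_iff_nontrivial.1 (by omega)
  refine ⟨m, fun i => Hf (kz x y (a i)), ?_⟩
  refine
    { mpos := hm
      le2 := fun i v => hle2 _ v
      sum := fun i hi => (hB ι (kz x y (a i)) (kz x y (a i)) (hinj i hi)).1
      turn := hturn
      leave := ?_
      step := ?_
      cut := ?_
      order := ?_ }
  · intro v
    obtain ⟨v0, hv0⟩ := exists_ne v
    obtain ⟨i0, hi0, hc0, -⟩ := hord v v0 hv0.symm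
    rcases (hG ι).2 _ _ _ v v0 (hstep i0 hi0) hv0.symm hc0 with h | h
    · exact ⟨i0, hi0, h⟩
    · rcases Nat.lt_or_ge (i0 + 1) m with h1 | h1
      · exact ⟨i0 + 1, h1, h⟩
      · have h2 : i0 + 1 = m := by omega
        refine ⟨0, hm, ?_⟩
        have h3 := hturn v
        rw [h2] at h
        show Hf (kz x y (a 0)) v ≠ 1
        omega
  · intro i hi
    rcases hC ι _ _ _ (hstep i hi) with h | ⟨u, v, -, -, h1, h2, h3⟩
    · obtain ⟨u⟩ := hnt.to_nonempty
      exact ⟨u, u, fun w _ _ => h w, h u, h u⟩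
    · exact ⟨u, v, fun w hu hv => (h3 w hu hv).1, h1, h2⟩
  · intro i hi s hs0 hs1
    have hbd : ∀ v, 0 ≤ ((1 - s) * ((Hf (kz x y (a i)) v : ℕ) : ℝ) +
          s * ((Hf (kz x y (a (i + 1))) v : ℕ) : ℝ)) / 2 ∧
        ((1 - s) * ((Hf (kz x y (a i)) v : ℕ) : ℝ) +
          s * ((Hf (kz x y (a (i + 1))) v : ℕ) : ℝ)) / 2 ≤ 1 := by
      intro v
      have h1 : ((Hf (kz x y (a i)) v : ℕ) : ℝ) ≤ 2 := by exact_mod_cast hle2 _ v
      have h2 : ((Hf (kz x y (a (i + 1))) v : ℕ) : ℝ) ≤ 2 := by exact_mod_cast hle2 _ v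
      have h3 : (0 : ℝ) ≤ ((Hf (kz x y (a i)) v : ℕ) : ℝ) := Nat.cast_nonneg _
      have h4 : (0 : ℝ) ≤ ((Hf (kz x y (a (i + 1))) v : ℕ) : ℝ) := Nat.cast_nonneg _
      constructor
      · have := mul_nonneg (sub_nonneg.2 hs1) h3
        have := mul_nonneg hs0 h4
        linarith
      · have := mul_le_mul_of_nonneg_left h1 (sub_nonneg.2 hs1)
        have := mul_le_mul_of_nonneg_left h2 hs0
        linarith
    rcases hC ι _ _ _ (hstep i hi) with h | ⟨u, v, huv, hc, h1, h2, h3⟩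
    · obtain ⟨w, hw⟩ := hF ι (kz x y (a i)) (hinj i hi.le) hcard
      refine hD ι x y A K hgeo (a i) w _ (hbd w).1 (hbd w).2 fun v hv => ?_
      rcases hw v hv with ⟨e1, e2⟩ | ⟨e1, e2⟩
      · left
        refine ⟨e1, ?_⟩
        simp only [h v, e2]
        push_cast
        ring
      · right
        refine ⟨e1, ?_⟩
        simp only [h v, e2]
        push_cast
        ring
    · refine hE ι x y A K hgeo (c i) u v _ huv hc (hbd u).1 (hbd u).2 (hbd v).1 (hbd v).2
        fun w hwu hwv => ?_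
      obtain ⟨e0, e1⟩ := h3 w hwu hwv
      rcases e1 with ⟨e1, e2⟩ | ⟨e1, e2⟩
      · left
        refine ⟨e1, ?_⟩
        simp only [e0, e2]
        push_cast
        ring
      · right
        refine ⟨e1, ?_⟩
        simp only [e0, e2]
        push_cast
        ring
  · intro u v huv
    obtain ⟨i0, hi0, -, h⟩ := hord u v huv
    refine ⟨i0, hi0, ?_⟩
    rcases h with ⟨h1, h2⟩ | ⟨h1, h2⟩
    · left
      exact ⟨fun i hi hp => (hG ι).1 _ u v (h1 i hi) hp,
        fun i hi him hp => (hG ι).1 _ v u (h2 i hi him) hp⟩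
    · right
      exact ⟨fun i hi hp => (hG ι).1 _ v u (h1 i hi) hp,
        fun i hi him hp => (hG ι).1 _ u v (h2 i hi him) hp⟩

end Pool.Agent.H994E
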