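import Mathlib
import Pool.Agent.H994E.C
import Pool.Agent.H994E.P
import Pool.Agent.H994E.T1A
import Pool.Agent.H994E.T1B
import Pool.Agent.H994E.T1C
import Pool.Agent.H994E.T2A
import Pool.Agent.H994E.T2B
import Pool.Agent.H994E.T2C
import Pool.Agent.H994E.T3A
import Pool.Agent.H994E.T3B
import Pool.Agent.H994E.T3C
import Pool.Agent.H994E.T4A
import Pool.Agent.H994E.T4B
import Pool.Agent.H994E.T4C
import Pool.Agent.H994E.T5A
import Pool.Agent.H994E.T5B
import Pool.Agent.H994E.T5C
import Pool.Agent.H994E.T6A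
import Pool.Agent.H994E.T6B
import Pool.Agent.H994E.T7A
import Pool.Agent.H994E.T7B
import Pool.Agent.H994E.T7C
import Pool.Agent.H994E.T7D
import Pool.Agent.H994E.T7E
import Pool.Agent.H994E.T7F
import Pool.Agent.H994E.T8A
import Pool.Agent.H994E.T8B
import Pool.Agent.H994E.T8C
import Pool.Agent.H994E.T8D
import Pool.Agent.H994E.T8E
import Pool.Agent.H994E.T8F
import Pool.Agent.H994E.T8G
import Pool.Agent.H994E.T8H
import Pool.Agent.H994E.T8I

/-!
# Assembly
-/

namespace Pool.Agent.H994E

theorem all_T8I : St_T8I :=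
  t8I_proof t8B_proof t8C_proof t8D_proof t8E_proof t8F_proof t8G_proof (t8H_proof t8A_proof)

theorem all_T5C : St_T5C :=
  t5C_proof
    (t5A_proof (t1C_proof (t1B_proof t1A_proof) c_proof p_proof) (t3C_proof t3A_proof t3B_proof)
      (t4C_proof c_proof p_proof) p_proof)
    t5B_proof (t4B_proof (t4A_proof p_proof) c_proof p_proof)
    (t2C_proof (t2A_proof c_proof) (t2B_proof c_proof p_proof) c_proof p_proof)

theorem all_T7F : St_T7F :=
  t7F_proof t7A_proof t7B_proof t7C_proof t7D_proof t7E_proof (t6B_proof (t6A_proof all_T5C))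

end Pool.Agent.H994E
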