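import Mathlib
import Pool.Agent.Helper976.ELSS.Arith

/-!
# Arithmetic: the sparse range
-/

namespace Pool.Agent.H994E

open Pool.Agent.Helper976.ELSS

theorem ar_small (n x : ℝ) (hx : 1 ≤ x) (hn : 2 * x + 1 ≤ n) (h4 : 4 * x < n) (hn2 : n ≤ 357)
    (hA : ∀ m : ℕ, 1 ≤ m → (m * n - m * (m - 1) / 2 : ℝ) < (m * x - n) ^ 2) : False := by
  have a4 := hA 4 (by norm_num)
  have a5 := hA 5 (by norm_num)
  push_cast at a4 a5
  have g4 : 0.1056 * n < n - 4 * x := by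
    by_contra hcon
    push Not at hcon
    have h0 : 0 ≤ n - 4 * x := by linarith
    have : (n - 4 * x) ^ 2 ≤ (0.1056 * n) ^ 2 := pow_le_pow_left₀ h0 hcon 2
    nlinarith
  have g5 : 0.118 * n < |5 * x - n| := by
    by_contra hcon
    push Not at hcon
    have : |5 * x - n| ^ 2 ≤ (0.118 * n) ^ 2 := pow_le_pow_left₀ (abs_nonneg _) hcon 2
    rw [sq_abs] at this
    nlinarith
  rcases lt_abs.1 g5 with h | h
  · linarith
  · have h5 : x < 0.1764 * n := by linarith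
    obtain ⟨m, h2, h3⟩ := range1' n x hx hn (by
      have h6 : x ^ 3 ≤ (0.1764 * n) ^ 3 := pow_le_pow_left₀ (by linarith) h5.le 3
      have h7 : (n:ℝ) ^ 3 ≤ 357 * n ^ 2 := by
        have : (0:ℝ) ≤ n ^ 2 := by positivity
        nlinarith
      nlinarith)
    exact absurd (hA m h2) (not_lt.2 h3)

/-- the first family contradicts `K < (e/n)²` in the sparse ranges -/
theorem ar_exact (n e K : ℕ) (hn : 2 ≤ n) (hne : n ≤ e) (he : 4 * e < n ^ 2)
    (he' : 2 * e ≤ n * (n - 1))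
    (hA : ∀ m : ℕ, 1 ≤ m → 4 * m * e + 2 * m * n ≤ 2 * m ^ 2 * K + m * (m - 1) + 2 * n ^ 2)
    (hK : K * n ^ 2 < e ^ 2)
    (h : n ≤ 357 ∨ e ≤ 79 * n ∨ 10 * e ^ 3 ≤ 39 * n ^ 5) : False := by
  have hn0 : (0:ℝ) < n := by exact_mod_cast (by omega : 0 < n)
  have hn2 : (2:ℝ) ≤ n := by exact_mod_cast hn
  set x : ℝ := e / n with hx
  have hex : (e : ℝ) = n * x := by rw [hx]; field_simp
  have hx1 : 1 ≤ x := by
    rw [hx, le_div_iff₀ hn0, one_mul]; exact_mod_cast hne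
  have heR : 2 * (e : ℝ) ≤ n * (n - 1) := by
    have : ((2 * e : ℕ) : ℝ) ≤ ((n * (n - 1) : ℕ) : ℝ) := by exact_mod_cast he'
    push_cast [Nat.cast_sub (by omega : 1 ≤ n)] at this
    exact this
  have hnx : 2 * x + 1 ≤ n := by
    rw [hex] at heR
    have : n * (2 * x) ≤ n * ((n:ℝ) - 1) := by linarith
    have := le_of_mul_le_mul_left this hn0
    linarith
  have h4x : 4 * x < n := by
    have h1 : (4:ℝ) * e < n ^ 2 := by exact_mod_cast he
    rw [hex] at h1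
    have h2 : (n:ℝ) * (4 * x) < n * n := by nlinarith
    exact lt_of_mul_lt_mul_left h2 hn0.le
  have hKR : (K : ℝ) < x ^ 2 := by
    have h1 : (K : ℝ) * n ^ 2 < e ^ 2 := by exact_mod_cast hK
    rw [hex] at h1
    have h2 : (K : ℝ) * n ^ 2 < x ^ 2 * n ^ 2 := by linarith [mul_pow (n:ℝ) x 2]
    exact lt_of_mul_lt_mul_right h2 (by positivity)
  have hAR : ∀ m : ℕ, 1 ≤ m → (m * n - m * (m - 1) / 2 : ℝ) < (m * x - n) ^ 2 := by
    intro m hm
    have h1 := hA m hm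
    have h2 : (4 * m * e + 2 * m * n : ℝ) ≤ 2 * m ^ 2 * K + m * (m - 1) + 2 * n ^ 2 := by
      have : ((4 * m * e + 2 * m * n : ℕ) : ℝ) ≤
          ((2 * m ^ 2 * K + m * (m - 1) + 2 * n ^ 2 : ℕ) : ℝ) := by exact_mod_cast h1
      push_cast [Nat.cast_sub hm] at this
      exact this
    have hm0 : (0:ℝ) < m := by exact_mod_cast (by omega : 0 < m)
    have h3 : 2 * (m:ℝ) ^ 2 * K < 2 * m ^ 2 * x ^ 2 := by
      apply mul_lt_mul_of_pos_left hKR; positivity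
    rw [hex] at h2
    nlinarith
  have r1 : 10 * x ^ 3 ≤ 39 * (n:ℝ) ^ 2 → False := by
    intro h1
    obtain ⟨m, h2, h3⟩ := range1' n x hx1 hnx h1
    exact absurd (hAR m h2) (not_lt.2 h3)
  have r357 : n ≤ 357 → False := fun h357 =>
    ar_small n x hx1 hnx h4x (by exact_mod_cast h357) hAR
  rcases h with h | h | h
  · exact r357 h
  · by_cases h357 : n ≤ 357
    · exact r357 h357
    · apply r1
      have h79 : x ≤ 79 := by
        rw [hx, div_le_iff₀ hn0]; exact_mod_cast h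
      have h1 : x ^ 3 ≤ 79 ^ 3 := pow_le_pow_left₀ (by linarith) h79 3
      have h2 : (358:ℝ) ≤ n := by exact_mod_cast (by omega : 358 ≤ n)
      have h3 : (358:ℝ) ^ 2 ≤ n ^ 2 := pow_le_pow_left₀ (by norm_num) h2 2
      nlinarith
  · apply r1
    have h1 : 10 * (e:ℝ) ^ 3 ≤ 39 * n ^ 5 := by exact_mod_cast h
    rw [hex, mul_pow] at h1
    have e1 : (n:ℝ) ^ 3 * (10 * x ^ 3) = 10 * ((n:ℝ) ^ 3 * x ^ 3) := by ring
    have e2 : (n:ℝ) ^ 3 * (39 * (n:ℝ) ^ 2) = 39 * (n:ℝ) ^ 5 := by ring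
    have h2 : (n:ℝ) ^ 3 * (10 * x ^ 3) ≤ (n:ℝ) ^ 3 * (39 * (n:ℝ) ^ 2) := by
      rw [e1, e2]; exact h1
    exact le_of_mul_le_mul_left h2 (by positivity)

end Pool.Agent.H994E
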