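import Pool.Agent.H994E.FStubs

set_option autoImplicit false

namespace Pool.Agent.H994E

open Finset

def fAf (n m a : ℕ) : ℕ := (a * m) / n

def fAg (n m a : ℕ) : ℕ := if fAf n m a < fAf n m (a + 1) then 1 else 0

theorem fA_step (n m a : ℕ) (hn : 0 < n) (hm : m ≤ n) :
    fAf n m (a + 1) = fAf n m a + fAg n m a := by
  have h1 : fAf n m (a + 1) ≤ fAf n m a + 1 := by
    unfold fAf
    calc ((a + 1) * m) / n ≤ (a * m + n) / n :=
          Nat.div_le_div_right (by rw [add_mul, one_mul]; omega)
      _ = a * m / n + 1 := Nat.add_div_right _ hn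
  have h2 : fAf n m a ≤ fAf n m (a + 1) := by
    unfold fAf
    apply Nat.div_le_div_right
    exact Nat.mul_le_mul_right _ (Nat.le_succ a)
  unfold fAg
  split_ifs <;> omega

theorem fA_sum (n m s w : ℕ) (hn : 0 < n) (hm : m ≤ n) :
    fAf n m (s + w) = fAf n m s + ∑ i ∈ range w, fAg n m (s + i) := by
  induction w with
  | zero => simp
  | succ w ih =>
    rw [Finset.sum_range_succ, ← add_assoc, ← add_assoc, ← ih]
    exact fA_step n m (s + w) hn hm

theorem fA_per (n m a k : ℕ) (hn : 0 < n) : fAf n m (a + n * k) = fAf n m a + k * m := by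
  unfold fAf
  have : (a + n * k) * m = a * m + n * (k * m) := by ring
  rw [this, Nat.add_mul_div_left _ _ hn]

theorem fA_gper (n m a : ℕ) (hn : 0 < n) : fAg n m (a % n) = fAg n m a := by
  have h1 : fAf n m a = fAf n m (a % n) + (a / n) * m := by
    rw [← fA_per n m (a % n) (a / n) hn, Nat.mod_add_div]
  have h2 : fAf n m (a + 1) = fAf n m (a % n + 1) + (a / n) * m := by
    rw [← fA_per n m (a % n + 1) (a / n) hn]
    congr 1
    have := Nat.mod_add_div a n
    omega
  unfold fAg
  rw [h1, h2]
  split_ifs <;> omega

theorem fA_proof : St_FA := by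
  intro n m hn hm
  refine ⟨(range n).filter (fun a => fAf n m a < fAf n m (a + 1)), filter_subset _ _, ?_, ?_⟩
  · have h1 := fA_sum n m 0 n hn hm
    rw [card_filter]
    have h2 : ∑ i ∈ range n, (if fAf n m i < fAf n m (i + 1) then 1 else 0) =
        ∑ i ∈ range n, fAg n m (0 + i) := by
      apply sum_congr rfl
      intro i _
      rw [zero_add]
      rfl
    rw [h2]
    have h3 : fAf n m (0 + n) = m := by
      unfold fAf
      rw [zero_add, Nat.mul_div_cancel_left _ hn]
    have h4 : fAf n m 0 = 0 := by
      unfold fAf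
      rw [zero_mul, Nat.zero_div]
    omega
  · intro s w hw
    have h1 : (((range n).filter (fun a => fAf n m a < fAf n m (a + 1))).filter
        (fun a => ∃ i, i < w ∧ (s + i) % n = a)) ⊆
        ((range w).filter (fun i => fAf n m ((s + i) % n) < fAf n m ((s + i) % n + 1))).image
          (fun i => (s + i) % n) := by
      intro a ha
      rw [mem_filter, mem_filter] at ha
      obtain ⟨⟨_, ha2⟩, i, hi, hia⟩ := ha
      rw [mem_image]
      refine ⟨i, ?_, hia⟩
      rw [mem_filter, mem_range]
      refine ⟨hi, ?_⟩
      rw [hia]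
      exact ha2
    have h2 := (card_le_card h1).trans card_image_le
    rw [card_filter (fun i => fAf n m ((s + i) % n) < fAf n m ((s + i) % n + 1)) (range w)] at h2
    have h3 : ∑ i ∈ range w, (if fAf n m ((s + i) % n) < fAf n m ((s + i) % n + 1) then 1 else 0) =
        ∑ i ∈ range w, fAg n m (s + i) := by
      apply sum_congr rfl
      intro i _
      rw [← fA_gper n m (s + i) hn]
      rfl
    rw [h3] at h2
    have h4 := fA_sum n m s w hn hm
    have h5 : fAf n m (s + w) ≤ fAf n m s + (m * w + n - 1) / n := by
      unfold fAf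
      have h6 : (s + w) * m ≤ (m * w + n - 1) + n * (s * m / n) := by
        have h7 := Nat.mod_add_div (s * m) n
        have h8 := Nat.mod_lt (s * m) hn
        have h9 : (s + w) * m = s * m + m * w := by ring
        omega
      calc (s + w) * m / n ≤ ((m * w + n - 1) + n * (s * m / n)) / n := Nat.div_le_div_right h6
        _ = (m * w + n - 1) / n + s * m / n := Nat.add_mul_div_left _ _ hn
        _ = _ := add_comm _ _
    omega

end Pool.Agent.H994E
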