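import Pool.Agent.H994E.FStubs

/-!
# MP_b5bf4a_co: few crossings for cyclic intervals
-/

namespace Pool.Agent.H994E

open Finset

/-- the pair crosses the boundary of the interval -/
def FB_Cr (n s t : ℕ) (p : ℕ × ℕ) : Prop :=
  ¬ ((s ≤ p.1 ∧ p.1 < t) ↔ (s ≤ (p.1 + p.2) % n ∧ (p.1 + p.2) % n < t))

theorem FB_cross {n s t a d : ℕ} (hst : s ≤ t) (ht : t ≤ n) (ha : a < n) (hd : d ≤ n)
    (h : FB_Cr n s t (a, d)) : (∃ i, i < d ∧ (t + n - d + i) % n = a) ∨
      ∃ i, i < d ∧ (s + n - d + i) % n = a := by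
  unfold FB_Cr at h
  simp only at h
  have hn : 0 < n := by omega
  by_cases h1 : s ≤ a ∧ a < t
  · left
    have h2 : t ≤ a + d := by
      by_contra h3
      apply h
      have h4 : (a + d) % n = a + d := Nat.mod_eq_of_lt (by omega)
      rw [h4]
      constructor
      · intro _; omega
      · intro _; exact h1
    refine ⟨a + d - t, by omega, ?_⟩
    have h5 : t + n - d + (a + d - t) = a + n := by omega
    rw [h5, Nat.add_mod_right, Nat.mod_eq_of_lt ha]
  · right
    have h2 : s ≤ (a + d) % n ∧ (a + d) % n < t := by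
      by_contra h3
      exact h ⟨fun h4 => absurd h4 h1, fun h4 => absurd h4 h3⟩
    rcases Nat.lt_or_ge (a + d) n with h3 | h3
    · rw [Nat.mod_eq_of_lt h3] at h2
      refine ⟨a + d - s, by omega, ?_⟩
      have h5 : s + n - d + (a + d - s) = a + n := by omega
      rw [h5, Nat.add_mod_right, Nat.mod_eq_of_lt ha]
    · have h4 : (a + d) % n ≤ a + d - n ∧ (a + d < 2 * n → (a + d) % n = a + d - n) := by
        have h6 : (a + d) % n = (a + d - n) % n := by
          rw [← Nat.add_mod_right (a + d - n) n]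
          congr 1
          omega
        refine ⟨?_, fun h7 => ?_⟩
        · rw [h6]; exact Nat.mod_le _ _
        · rw [h6]; exact Nat.mod_eq_of_lt (by omega)
      have h5 := h4.2 (by omega)
      rw [h5] at h2
      refine ⟨a + d - n - s, by omega, ?_⟩
      have h6 : s + n - d + (a + d - n - s) = a := by omega
      rw [h6, Nat.mod_eq_of_lt ha]

open Classical in
theorem FB_window (n d u : ℕ) :
    ((range n).filter (fun a => ∃ i, i < d ∧ (u + i) % n = a)).card ≤ d := by
  have h : (range n).filter (fun a => ∃ i, i < d ∧ (u + i) % n = a) ⊆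
      (range d).image (fun i => (u + i) % n) := by
    intro a ha
    obtain ⟨-, i, hi, hia⟩ := mem_filter.1 ha
    exact mem_image.2 ⟨i, mem_range.2 hi, hia⟩
  exact (card_le_card h).trans (card_image_le.trans (by rw [card_range]))

theorem FB_sum (q : ℕ) : ∑ d ∈ Icc 1 q, 2 * d = q * (q + 1) := by
  induction q with
  | zero => rfl
  | succ q ih =>
    rw [Finset.sum_Icc_succ_top (by omega), ih]
    ring

open Classical in
theorem FB_X {n s t d c : ℕ} {X : Finset ℕ} (hX : X ⊆ range n) (hst : s ≤ t) (ht : t ≤ n)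
    (hd : d ≤ n) (hc : ∀ s, (X.filter (fun a => ∃ i, i < d ∧ (s + i) % n = a)).card ≤ c) :
    (X.filter (fun a => FB_Cr n s t (a, d))).card ≤ 2 * c := by
  have h : X.filter (fun a => FB_Cr n s t (a, d)) ⊆
      X.filter (fun a => ∃ i, i < d ∧ (t + n - d + i) % n = a) ∪
        X.filter (fun a => ∃ i, i < d ∧ (s + n - d + i) % n = a) := by
    intro a ha
    obtain ⟨h1, h2⟩ := mem_filter.1 ha
    rcases FB_cross hst ht (mem_range.1 (hX h1)) hd h2 with h3 | h3
    · exact mem_union_left _ (mem_filter.2 ⟨h1, h3⟩)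
    · exact mem_union_right _ (mem_filter.2 ⟨h1, h3⟩)
  have h4 := hc (t + n - d)
  have h5 := hc (s + n - d)
  have h6 := (card_le_card h).trans (card_union_le _ _)
  omega

open Classical in
theorem FB_main (n q c : ℕ) (X : Finset ℕ) (hn : 2 * q + 1 ≤ n) (hX : X ⊆ range n)
    (hc : ∀ s, (X.filter (fun a => ∃ i, i < q + 1 ∧ (s + i) % n = a)).card ≤ c) (s t : ℕ)
    (hst : s ≤ t) (ht : t ≤ n) :
    ((bandT n q X).filter (fun p => FB_Cr n s t p)).card ≤ q * (q + 1) + 2 * c := by
  have h : (bandT n q X).filter (fun p => FB_Cr n s t p) ⊆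
      ((Icc 1 q).biUnion fun d => ((range n).filter (fun a => FB_Cr n s t (a, d))).image
        fun a => (a, d)) ∪
      (X.filter (fun a => FB_Cr n s t (a, q + 1))).image fun a => (a, q + 1) := by
    rintro ⟨a, d⟩ hp
    obtain ⟨h1, h2⟩ := mem_filter.1 hp
    unfold bandT at h1
    rcases mem_union.1 h1 with h3 | h3
    · obtain ⟨h4, h5⟩ := mem_product.1 h3
      exact mem_union_left _ (mem_biUnion.2 ⟨d, h5, mem_image.2 ⟨a, mem_filter.2 ⟨h4, h2⟩, rfl⟩⟩)
    · obtain ⟨h4, h5⟩ := mem_product.1 h3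
      have h6 : d = q + 1 := mem_singleton.1 h5
      subst h6
      exact mem_union_right _ (mem_image.2 ⟨a, mem_filter.2 ⟨h4, h2⟩, rfl⟩)
  refine (card_le_card h).trans ((card_union_le _ _).trans (Nat.add_le_add ?_ ?_))
  · refine card_biUnion_le.trans ?_
    rw [← FB_sum q]
    refine Finset.sum_le_sum fun d hd => card_image_le.trans ?_
    have h7 := (mem_Icc.1 hd).2
    exact FB_X (Subset.refl _) hst ht (by omega) (FB_window n d)
  · exact card_image_le.trans (FB_X hX hst ht (by omega) hc)

theorem fB_proof : St_FB := by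
  intro n q c X hn hX hc s t hst ht
  have h := FB_main n q c X hn hX (by convert hc) s t hst ht
  convert h

end Pool.Agent.H994E
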