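import Pool.Agent.H994E.FStubs

/-! Task FC: lines and the parabola. -/

namespace Pool.Agent.H994E

open Finset

theorem FC_interval (n : ℕ) (P : ℕ → Prop)
    (h : ∀ i j k, i < j → j < k → k < n → P i → P k → P j) :
    ∃ s t : ℕ, s ≤ t ∧ t ≤ n ∧ ∀ i : ℕ, i < n → (P i ↔ s ≤ i ∧ i < t) := by
  classical
  by_cases hne : ((range n).filter P).Nonempty
  · refine ⟨((range n).filter P).min' hne, ((range n).filter P).max' hne + 1, ?_, ?_, ?_⟩
    · exact (Finset.min'_le_max' _ hne).trans (Nat.le_succ _)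
    · have := Finset.max'_mem _ hne
      rw [mem_filter, mem_range] at this
      exact this.1
    · intro i hi
      constructor
      · intro hP
        have hmem : i ∈ (range n).filter P := mem_filter.2 ⟨mem_range.2 hi, hP⟩
        exact ⟨Finset.min'_le _ _ hmem, Nat.lt_succ_of_le (Finset.le_max' _ _ hmem)⟩
      · rintro ⟨h1, h2⟩
        have h3 := Finset.min'_mem _ hne
        have h4 := Finset.max'_mem _ hne
        rw [mem_filter, mem_range] at h3 h4
        have h5 := Nat.le_of_lt_succ h2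
        rcases Nat.eq_or_lt_of_le h1 with h6 | h6
        · rw [← h6]; exact h3.2
        · rcases Nat.eq_or_lt_of_le h5 with h7 | h7
          · rw [h7]; exact h4.2
          · exact h _ i _ h6 h7 h4.1 h3.2 h4.2
  · refine ⟨0, 0, le_rfl, Nat.zero_le _, ?_⟩
    intro i hi
    constructor
    · intro hP
      exact absurd ⟨i, mem_filter.2 ⟨mem_range.2 hi, hP⟩⟩ hne
    · rintro ⟨-, h2⟩
      omega

theorem FC_conv (n : ℕ) (a b c : ℝ) (hb : 0 ≤ b) :
    ∃ s t : ℕ, s ≤ t ∧ t ≤ n ∧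
      ∀ i : ℕ, i < n → (a * i + b * (i : ℝ) ^ 2 < c ↔ s ≤ i ∧ i < t) := by
  apply FC_interval n (fun i => a * i + b * (i : ℝ) ^ 2 < c)
  intro i j k hij hjk _ h1 h2
  have hij' : (0 : ℝ) < (j : ℝ) - i := by
    have : (i : ℝ) < j := by exact_mod_cast hij
    linarith
  have hjk' : (0 : ℝ) < (k : ℝ) - j := by
    have : (j : ℝ) < k := by exact_mod_cast hjk
    linarith
  have h3 : ((k : ℝ) - i) * (a * j + b * (j : ℝ) ^ 2) =
      ((k : ℝ) - j) * (a * i + b * (i : ℝ) ^ 2) + ((j : ℝ) - i) * (a * k + b * (k : ℝ) ^ 2) -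
      b * (((k : ℝ) - j) * ((j : ℝ) - i) * ((k : ℝ) - i)) := by ring
  have h4 : 0 ≤ b * (((k : ℝ) - j) * ((j : ℝ) - i) * ((k : ℝ) - i)) := by
    have : (0 : ℝ) ≤ (k : ℝ) - i := by linarith
    positivity
  have h5 := mul_lt_mul_of_pos_left h1 hjk'
  have h6 := mul_lt_mul_of_pos_left h2 hij'
  have h7 : ((k : ℝ) - i) * (a * j + b * (j : ℝ) ^ 2) < ((k : ℝ) - i) * c := by
    have e : ((k : ℝ) - i) * c = ((k : ℝ) - j) * c + ((j : ℝ) - i) * c := by ring
    linarith
  exact lt_of_mul_lt_mul_left h7 (by linarith)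

theorem fC_proof : St_FC := by
  intro n a b c _ _
  rcases le_total 0 b with hb | hb
  · obtain ⟨s, t, h1, h2, h3⟩ := FC_conv n a b c hb
    exact ⟨s, t, h1, h2, Or.inl h3⟩
  · obtain ⟨s, t, h1, h2, h3⟩ := FC_conv n (-a) (-b) (-c) (by linarith)
    refine ⟨s, t, h1, h2, Or.inr ?_⟩
    intro i hi
    rw [← h3 i hi]
    constructor
    · intro h
      linarith
    · intro h
      linarith

end Pool.Agent.H994E
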