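import Mathlib

/-!
# MP_b5bf4a_co: definitions
-/

namespace Pool.Agent.H994E

/-- A geometric graph: a finite set `pts` of points of the plane, no three of them collinear,
and a finite set `edges` of unordered pairs of distinct points of `pts`. -/
structure GeomGraph where
  pts : Finset (ℝ × ℝ)
  no_three_collinear : ∀ p ∈ pts, ∀ q ∈ pts, ∀ r ∈ pts, p ≠ q → p ≠ r → q ≠ r →
    ¬ Collinear ℝ ({p, q, r} : Set (ℝ × ℝ))
  edges : Finset (Sym2 (ℝ × ℝ))
  edge_mem : ∀ e ∈ edges, ∀ p ∈ e, p ∈ pts
  edge_ne : ∀ e ∈ edges, ¬ e.IsDiag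

/-- A straight line of the plane. -/
def IsLine (l : Set (ℝ × ℝ)) : Prop :=
  ∃ a b c : ℝ, (a ≠ 0 ∨ b ≠ 0) ∧ l = {x | a * x.1 + b * x.2 = c}

/-- The closed straight segment drawn for an edge. -/
def drawn (e : Sym2 (ℝ × ℝ)) : Set (ℝ × ℝ) := convexHull ℝ {p | p ∈ e}

open Classical in
/-- The number of edges of `G` that the set `l` meets. -/
noncomputable def GeomGraph.met (G : GeomGraph) (l : Set (ℝ × ℝ)) : ℕ :=
  (G.edges.filter (fun e => (drawn e ∩ l).Nonempty)).card

/-- Every geometric graph on `n` points with at least `e` edges has a line, containing none of the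
points, that meets at least `k` edges. -/
def Forces (n k e : ℕ) : Prop :=
  ∀ G : GeomGraph, G.pts.card = n → e ≤ G.edges.card →
    ∃ l, IsLine l ∧ (∀ p ∈ G.pts, p ∉ l) ∧ k ≤ G.met l

/-- The least number of edges that forces a line meeting at least `k` edges. -/
noncomputable def fnk (n k : ℕ) : ℕ := sInf {e | Forces n k e}

/-- The pairs (starting index, length) of the edges of the construction. -/
def bandT (n q : ℕ) (X : Finset ℕ) : Finset (ℕ × ℕ) :=
  (Finset.range n ×ˢ Finset.Icc 1 q) ∪ (X ×ˢ {q + 1})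

end Pool.Agent.H994E
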