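import Mathlib
import Pool.Agent.H994E.FDefs
import Pool.Agent.LinesCross.Plane

/-!
# MP_b5bf4a_co: statements of the tasks
-/

namespace Pool.Agent.H994E

open Finset Pool.Agent.LinesCross

/-- task FA: evenly distributed subsets of the cyclic group -/
def St_FA : Prop := ∀ n m : ℕ, 0 < n → m ≤ n → ∃ X : Finset ℕ, X ⊆ range n ∧ X.card = m ∧
  ∀ s w : ℕ, w ≤ n →
    (X.filter (fun a => ∃ i, i < w ∧ (s + i) % n = a)).card ≤ (m * w + n - 1) / n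

/-- task FB: few crossings for cyclic intervals -/
def St_FB : Prop := ∀ (n q c : ℕ) (X : Finset ℕ), 2 * q + 1 ≤ n → X ⊆ range n →
  (∀ s, (X.filter (fun a => ∃ i, i < q + 1 ∧ (s + i) % n = a)).card ≤ c) →
  ∀ s t, s ≤ t → t ≤ n →
  ((bandT n q X).filter (fun p => ¬ ((s ≤ p.1 ∧ p.1 < t) ↔
    (s ≤ (p.1 + p.2) % n ∧ (p.1 + p.2) % n < t)))).card ≤ q * (q + 1) + 2 * c

/-- task FC: lines and points of a parabola -/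
def St_FC : Prop := ∀ (n : ℕ) (a b c : ℝ), (a ≠ 0 ∨ b ≠ 0) →
  (∀ i : ℕ, i < n → a * i + b * (i : ℝ) ^ 2 ≠ c) →
  ∃ s t : ℕ, s ≤ t ∧ t ≤ n ∧
    ((∀ i : ℕ, i < n → (a * i + b * (i : ℝ) ^ 2 < c ↔ s ≤ i ∧ i < t)) ∨
      (∀ i : ℕ, i < n → (c < a * i + b * (i : ℝ) ^ 2 ↔ s ≤ i ∧ i < t)))

/-- task FD: the construction (uses FB, FC) -/
def St_FD : Prop := ∀ (n q m c : ℕ) (X : Finset ℕ), X ⊆ range n → X.card = m →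
  (2 * q + 3 ≤ n ∨ (m = 0 ∧ 2 * q + 1 ≤ n)) →
  (∀ s, (X.filter (fun a => ∃ i, i < q + 1 ∧ (s + i) % n = a)).card ≤ c) →
  ∃ G : GeomGraph, G.pts.card = n ∧ G.edges.card = n * q + m ∧
    ∀ l, IsLine l → (∀ p ∈ G.pts, p ∉ l) → G.met l ≤ q * (q + 1) + 2 * c

/-- task FE: the function `fnk` -/
def St_FE : Prop :=
  (∀ n k e : ℕ, Forces n k e → fnk n k ≤ e) ∧
  (∀ (n k e : ℕ), (∃ G : GeomGraph, G.pts.card = n ∧ e ≤ G.edges.card ∧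
    ∀ l, IsLine l → (∀ p ∈ G.pts, p ∉ l) → G.met l < k) → e < fnk n k)

/-- task FF: the bridge to `AllLinesLe` (copy `allLines_of` of
`Pool.Agent.Results.MP_62448f_co.DenseCrossings`) -/
def St_FF : Prop := ∀ (n k e : ℕ), 1 ≤ k →
  (∀ (V : Finset (ℝ × ℝ)) (E : Finset (Sym2 (ℝ × ℝ))), GP V → (∀ x ∈ E, ∀ p ∈ x, p ∈ V) →
    (∀ x ∈ E, ¬ x.IsDiag) → V.card = n → e ≤ E.card → AllLinesLe V E (k - 1) → False) →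
  Forces n k e

/-- task FG: dense upper bound (uses `dense_sharp`) -/
def St_FG : Prop := ∀ (n q r : ℕ), 2 ≤ n → n ≤ 4 * q + 2 →
  ∀ (V : Finset (ℝ × ℝ)) (E : Finset (Sym2 (ℝ × ℝ))), GP V → (∀ x ∈ E, ∀ p ∈ x, p ∈ V) →
    (∀ x ∈ E, ¬ x.IsDiag) → V.card = n →
    n * q + n * (2 * r + 1) / (4 * (q + 1)) + 1 ≤ E.card →
    AllLinesLe V E (q ^ 2 + q + r) → False

/-- task FH: sparse exact upper bound (uses `plane_one`) -/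
def St_FH : Prop := ∀ (n q m : ℕ), 1 ≤ q → 1 ≤ m → 2 * m * q ≤ n → n ≤ 2 * m * (q + 1) →
  ∀ (V : Finset (ℝ × ℝ)) (E : Finset (Sym2 (ℝ × ℝ))), GP V → (∀ x ∈ E, ∀ p ∈ x, p ∈ V) →
    (∀ x ∈ E, ¬ x.IsDiag) → V.card = n → n * q + 1 ≤ E.card →
    AllLinesLe V E (q ^ 2 + q) → False

/-- task FI: the general upper bounds -/
def St_FI : Prop := ∀ (n k : ℕ), 1 ≤ k → 1 ≤ n →
  ∀ (V : Finset (ℝ × ℝ)) (E : Finset (Sym2 (ℝ × ℝ))), GP V → (∀ x ∈ E, ∀ p ∈ x, p ∈ V) →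
    (∀ x ∈ E, ¬ x.IsDiag) → V.card = n →
    (81 * (n ^ 2 * k) ≤ 80 * E.card ^ 2 ∨ (n ^ 2 ≤ 4 * E.card ∧ n ^ 2 * k ≤ E.card ^ 2)) →
    AllLinesLe V E (k - 1) → False

/-- task FJ: the real inequalities (uses FA, FD, FE, FF, FI) -/
def St_FJ : Prop := ∀ (n k : ℕ), 1 ≤ k → 4 * k ≤ n ^ 2 →
  (n : ℝ) * (Real.sqrt k - 3 / 2) < fnk n k ∧
  (fnk n k : ℝ) ≤ 9 / Real.sqrt 80 * (n * Real.sqrt k) + 1 ∧
  (n ^ 2 ≤ 16 * k → (fnk n k : ℝ) ≤ n * Real.sqrt k + 1)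

/-- task FK: the exact values and the bounds up to a constant (uses FA, FD, FE, FF, FG, FH) -/
def St_FK : Prop :=
  (∀ n q : ℕ, 1 ≤ q → 2 * q + 1 ≤ n →
    (n ≤ 4 * q + 2 ∨ ∃ m, 1 ≤ m ∧ 2 * m * q ≤ n ∧ n ≤ 2 * m * (q + 1)) →
    fnk n (q ^ 2 + q + 1) = n * q + 1) ∧
  (∀ n q r : ℕ, r ≤ 2 * q + 1 → 2 * q + 3 ≤ n → n ≤ 4 * q + 2 →
    n * q + n * (r / 2) / (q + 1) + 1 ≤ fnk n (q ^ 2 + q + r + 1) ∧
    fnk n (q ^ 2 + q + r + 1) ≤ n * q + n * (2 * r + 1) / (4 * (q + 1)) + 1)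

end Pool.Agent.H994E
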