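import Mathlib
import Pool.Agent.H994E.FStubs

/-!
# FD: the construction
-/

namespace Pool.Agent.H994E

open Finset

/-- points of the parabola -/
def fD_P (i : ℕ) : ℝ × ℝ := ((i : ℝ), (i : ℝ) ^ 2)

theorem fD_P_inj : Function.Injective fD_P := by
  intro i j h
  have h1 : ((i : ℝ)) = j := congrArg Prod.fst h
  exact_mod_cast h1

theorem fD_not_collinear (i j k : ℕ) (hij : i ≠ j) (hik : i ≠ k) (hjk : j ≠ k) :
    ¬ Collinear ℝ ({fD_P i, fD_P j, fD_P k} : Set (ℝ × ℝ)) := by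
  intro h
  rw [collinear_iff_of_mem (p₀ := fD_P i) (by simp)] at h
  obtain ⟨v, hv⟩ := h
  obtain ⟨r, hr⟩ := hv (fD_P j) (by simp)
  obtain ⟨r', hr'⟩ := hv (fD_P k) (by simp)
  have h1 : (j : ℝ) = r * v.1 + i := by
    have := congrArg Prod.fst hr
    simpa [fD_P] using this
  have h2 : (j : ℝ) ^ 2 = r * v.2 + (i : ℝ) ^ 2 := by
    have := congrArg Prod.snd hr
    simpa [fD_P] using this
  have h3 : (k : ℝ) = r' * v.1 + i := by
    have := congrArg Prod.fst hr'
    simpa [fD_P] using this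
  have h4 : (k : ℝ) ^ 2 = r' * v.2 + (i : ℝ) ^ 2 := by
    have := congrArg Prod.snd hr'
    simpa [fD_P] using this
  have h5 : ((j : ℝ) - i) * ((k : ℝ) ^ 2 - (i : ℝ) ^ 2) -
      ((k : ℝ) - i) * ((j : ℝ) ^ 2 - (i : ℝ) ^ 2) = 0 := by
    rw [h2, h4]
    have e1 : (j : ℝ) - i = r * v.1 := by linarith
    have e3 : (k : ℝ) - i = r' * v.1 := by linarith
    rw [e1, e3]
    ring
  have h6 : ((j : ℝ) - i) * ((k : ℝ) - i) * ((k : ℝ) - j) = 0 := by linarith
  have hij' : (j : ℝ) - i ≠ 0 := by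
    intro h0
    apply hij
    have : (j : ℝ) = i := by linarith
    exact_mod_cast this.symm
  have hik' : (k : ℝ) - i ≠ 0 := by
    intro h0
    apply hik
    have : (k : ℝ) = i := by linarith
    exact_mod_cast this.symm
  have hjk' : (k : ℝ) - j ≠ 0 := by
    intro h0
    apply hjk
    have : (k : ℝ) = j := by linarith
    exact_mod_cast this.symm
  exact mul_ne_zero (mul_ne_zero hij' hik') hjk' h6

theorem fD_mod (a d n : ℕ) (ha : a < n) (hd : d < n) :
    (a + d) % n = if a + d < n then a + d else a + d - n := by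
  split_ifs with h
  · exact Nat.mod_eq_of_lt h
  · rw [Nat.mod_eq_sub_mod (by omega), Nat.mod_eq_of_lt (by omega)]

/-- the edge of a pair -/
def fD_e (n : ℕ) (p : ℕ × ℕ) : Sym2 (ℝ × ℝ) := s(fD_P p.1, fD_P ((p.1 + p.2) % n))

theorem fD_band (n q m : ℕ) (X : Finset ℕ) (hX : X ⊆ range n) (hm : X.card = m)
    (hn : 2 * q + 3 ≤ n ∨ (m = 0 ∧ 2 * q + 1 ≤ n)) (p : ℕ × ℕ) (hp : p ∈ bandT n q X) :
    p.1 < n ∧ 1 ≤ p.2 ∧ 2 * p.2 < n := by
  unfold bandT at hp
  rw [Finset.mem_union, Finset.mem_product, Finset.mem_product, Finset.mem_range, Finset.mem_Icc,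
    Finset.mem_singleton] at hp
  rcases hp with ⟨h1, h2, h3⟩ | ⟨h1, h2⟩
  · exact ⟨h1, h2, by omega⟩
  · have h3 := Finset.mem_range.1 (hX h1)
    have h4 : 0 < X.card := Finset.card_pos.2 ⟨_, h1⟩
    exact ⟨h3, by omega, by omega⟩

theorem fD_inj (n : ℕ) (p p' : ℕ × ℕ) (hp : p.1 < n ∧ 1 ≤ p.2 ∧ 2 * p.2 < n)
    (hp' : p'.1 < n ∧ 1 ≤ p'.2 ∧ 2 * p'.2 < n) (h : fD_e n p = fD_e n p') : p = p' := by
  obtain ⟨a, d⟩ := p
  obtain ⟨a', d'⟩ := p'
  simp only at hp hp'
  unfold fD_e at h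
  rw [Sym2.eq_iff] at h
  have h1 := fD_mod a d n hp.1 (by omega)
  have h2 := fD_mod a' d' n hp'.1 (by omega)
  simp only at h
  rcases h with ⟨h3, h4⟩ | ⟨h3, h4⟩
  · have h3' := fD_P_inj h3
    have h4' := fD_P_inj h4
    rw [h1, h2] at h4'
    subst h3'
    have : d = d' := by
      split_ifs at h4' <;> omega
    rw [this]
  · exfalso
    have h3' := fD_P_inj h3
    have h4' := fD_P_inj h4
    rw [h2] at h3'
    rw [h1] at h4'
    split_ifs at h3' h4' <;> omega

theorem fD_card (n q m : ℕ) (X : Finset ℕ) (hm : X.card = m) :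
    (bandT n q X).card = n * q + m := by
  unfold bandT
  rw [Finset.card_union_of_disjoint, Finset.card_product, Finset.card_product, Finset.card_range,
    Nat.card_Icc, Finset.card_singleton, hm, mul_one, Nat.add_sub_cancel]
  rw [Finset.disjoint_left]
  intro p h1 h2
  rw [Finset.mem_product, Finset.mem_Icc] at h1
  rw [Finset.mem_product, Finset.mem_singleton] at h2
  omega

theorem fD_seg (x y z : ℝ × ℝ) (α β γ : ℝ) (hz : z ∈ segment ℝ x y)
    (hl : α * z.1 + β * z.2 = γ) :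
    (α * x.1 + β * x.2 < γ → ¬ α * y.1 + β * y.2 < γ) ∧
    (γ < α * x.1 + β * x.2 → ¬ γ < α * y.1 + β * y.2) := by
  obtain ⟨u, v, hu, hv, huv, rfl⟩ := hz
  simp only [Prod.fst_add, Prod.smul_fst, Prod.snd_add, Prod.smul_snd, smul_eq_mul] at hl
  have h1 : u * (α * x.1 + β * x.2 - γ) + v * (α * y.1 + β * y.2 - γ) = 0 := by
    have : γ = (u + v) * γ := by rw [huv, one_mul]
    linear_combination hl + this
  constructor
  · intro hx hy
    rcases eq_or_lt_of_le hu with h0 | h0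
    · rw [← h0] at h1 huv
      have : v = 1 := by linarith
      rw [this] at h1
      linarith
    · have h2 : u * (α * x.1 + β * x.2 - γ) < 0 := mul_neg_of_pos_of_neg h0 (by linarith)
      have h3 : v * (α * y.1 + β * y.2 - γ) ≤ 0 :=
        mul_nonpos_of_nonneg_of_nonpos hv (by linarith)
      linarith
  · intro hx hy
    rcases eq_or_lt_of_le hu with h0 | h0
    · rw [← h0] at h1 huv
      have : v = 1 := by linarith
      rw [this] at h1
      linarith
    · have h2 : 0 < u * (α * x.1 + β * x.2 - γ) := mul_pos h0 (by linarith)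
      have h3 : 0 ≤ v * (α * y.1 + β * y.2 - γ) := mul_nonneg hv (by linarith)
      linarith

theorem fD_proof (hB : St_FB) (hC : St_FC) : St_FD := by
  classical
  intro n q m c X hX hm hn hc
  have hn0 : 0 < n := by omega
  have hband := fD_band n q m X hX hm hn
  have hinj : Set.InjOn (fD_e n) (bandT n q X) := fun p hp p' hp' h =>
    fD_inj n p p' (hband p hp) (hband p' hp') h
  refine ⟨⟨(range n).image fD_P, ?_, (bandT n q X).image (fD_e n), ?_, ?_⟩, ?_, ?_, ?_⟩
  · intro x hx y hy z hz hxy hxz hyz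
    rw [Finset.mem_image] at hx hy hz
    obtain ⟨i, _, rfl⟩ := hx
    obtain ⟨j, _, rfl⟩ := hy
    obtain ⟨k, _, rfl⟩ := hz
    exact fD_not_collinear i j k (fun h => hxy (by rw [h])) (fun h => hxz (by rw [h]))
      (fun h => hyz (by rw [h]))
  · intro e he x hx
    rw [Finset.mem_image] at he
    obtain ⟨p, hp, rfl⟩ := he
    unfold fD_e at hx
    rw [Sym2.mem_iff] at hx
    rw [Finset.mem_image]
    rcases hx with rfl | rfl
    · exact ⟨p.1, Finset.mem_range.2 (hband p hp).1, rfl⟩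
    · exact ⟨_, Finset.mem_range.2 (Nat.mod_lt _ hn0), rfl⟩
  · intro e he hd
    rw [Finset.mem_image] at he
    obtain ⟨p, hp, rfl⟩ := he
    unfold fD_e at hd
    rw [Sym2.mk_isDiag_iff] at hd
    have h1 := fD_P_inj hd
    obtain ⟨h2, h3, h4⟩ := hband p hp
    rw [fD_mod _ _ _ h2 (by omega)] at h1
    split_ifs at h1 <;> omega
  · rw [Finset.card_image_of_injective _ fD_P_inj, Finset.card_range]
  · rw [Finset.card_image_of_injOn hinj, fD_card n q m X hm]
  · intro l hl hpl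
    obtain ⟨α, β, γ, hαβ, rfl⟩ := hl
    have hne : ∀ i : ℕ, i < n → α * i + β * (i : ℝ) ^ 2 ≠ γ := by
      intro i hi h
      exact hpl (fD_P i) (Finset.mem_image_of_mem _ (Finset.mem_range.2 hi)) h
    obtain ⟨s, t, hst, htn, hside⟩ := hC n α β γ hαβ hne
    refine le_trans ?_ (hB n q c X (by omega) hX hc s t hst htn)
    unfold GeomGraph.met
    refine le_trans (Finset.card_le_card (t := ((bandT n q X).filter (fun p =>
      ¬ ((s ≤ p.1 ∧ p.1 < t) ↔ (s ≤ (p.1 + p.2) % n ∧ (p.1 + p.2) % n < t)))).image (fD_e n)) ?_)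
      Finset.card_image_le
    intro e he
    rw [Finset.mem_filter] at he
    obtain ⟨he, hmeet⟩ := he
    have he' : e ∈ (bandT n q X).image (fD_e n) := he
    rw [Finset.mem_image] at he'
    obtain ⟨p, hp, rfl⟩ := he'
    rw [Finset.mem_image]
    refine ⟨p, Finset.mem_filter.2 ⟨hp, ?_⟩, rfl⟩
    obtain ⟨z, hz, hzl⟩ := hmeet
    have hzl' : α * z.1 + β * z.2 = γ := hzl
    have hz' : z ∈ segment ℝ (fD_P p.1) (fD_P ((p.1 + p.2) % n)) := by
      have h1 : {x | x ∈ fD_e n p} = ({fD_P p.1, fD_P ((p.1 + p.2) % n)} : Set (ℝ × ℝ)) := by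
        ext x
        unfold fD_e
        simp only [Set.mem_ofPred_eq, Sym2.mem_iff, Set.mem_insert_iff, Set.mem_singleton_iff]
      have h2 : z ∈ convexHull ℝ {x | x ∈ fD_e n p} := hz
      rw [h1, convexHull_pair] at h2
      exact h2
    obtain ⟨h3, h4⟩ := fD_seg _ _ z α β γ hz' hzl'
    have hp1 := (hband p hp).1
    have hp2 : (p.1 + p.2) % n < n := Nat.mod_lt _ hn0
    have hn1 := hne _ hp1
    have hn2 := hne _ hp2
    have e1 : (fD_P p.1).1 = (p.1 : ℝ) := rfl
    have e2 : (fD_P p.1).2 = (p.1 : ℝ) ^ 2 := rfl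
    have e3 : (fD_P ((p.1 + p.2) % n)).1 = (((p.1 + p.2) % n : ℕ) : ℝ) := rfl
    have e4 : (fD_P ((p.1 + p.2) % n)).2 = (((p.1 + p.2) % n : ℕ) : ℝ) ^ 2 := rfl
    rw [e1, e2, e3, e4] at h3 h4
    rcases hside with hside | hside
    · rw [← hside _ hp1, ← hside _ hp2]
      intro hiff
      rcases lt_or_gt_of_ne hn1 with h5 | h5
      · exact h3 h5 (hiff.1 h5)
      · rcases lt_or_gt_of_ne hn2 with h6 | h6
        · exact lt_asymm h5 (hiff.2 h6)
        · exact h4 h5 h6
    · rw [← hside _ hp1, ← hside _ hp2]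
      intro hiff
      rcases lt_or_gt_of_ne hn1 with h5 | h5
      · rcases lt_or_gt_of_ne hn2 with h6 | h6
        · exact h3 h5 h6
        · exact lt_asymm h5 (hiff.2 h6)
      · exact h4 h5 (hiff.1 h5)

end Pool.Agent.H994E
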