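import Mathlib
import Pool.Agent.H994E.FD
import Pool.Agent.H994E.FB
import Pool.Agent.H994E.FC

/-!
# The construction with diameters (`n = 2 q + 2`)
-/

namespace Pool.Agent.H994E

open Finset

theorem gD (hC : St_FC) (n c : ℕ) (T : Finset (ℕ × ℕ)) (hn0 : 0 < n)
    (hband : ∀ p ∈ T, p.1 < n ∧ 1 ≤ p.2 ∧ p.2 < n)
    (hinj : Set.InjOn (fD_e n) T)
    (hc : ∀ s t, s ≤ t → t ≤ n → (T.filter (fun p => ¬ ((s ≤ p.1 ∧ p.1 < t) ↔
      (s ≤ (p.1 + p.2) % n ∧ (p.1 + p.2) % n < t)))).card ≤ c) :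
    ∃ G : GeomGraph, G.pts.card = n ∧ G.edges.card = T.card ∧
      ∀ l, IsLine l → (∀ p ∈ G.pts, p ∉ l) → G.met l ≤ c := by
  classical
  refine ⟨⟨(range n).image fD_P, ?_, T.image (fD_e n), ?_, ?_⟩, ?_, ?_, ?_⟩
  · intro x hx y hy z hz hxy hxz hyz
    rw [Finset.mem_image] at hx hy hz
    obtain ⟨i, _, rfl⟩ := hx
    obtain ⟨j, _, rfl⟩ := hy
    obtain ⟨k, _, rfl⟩ := hz
    exact fD_not_collinear i j k (fun h => hxy (by rw [h])) (fun h => hxz (by rw [h]))
      (fun h => hyz (by rw [h]))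
  · intro e he x hx
    rw [Finset.mem_image] at he
    obtain ⟨p, hp, rfl⟩ := he
    unfold fD_e at hx
    rw [Sym2.mem_iff] at hx
    rw [Finset.mem_image]
    rcases hx with rfl | rfl
    · exact ⟨p.1, Finset.mem_range.2 (hband p hp).1, rfl⟩
    · exact ⟨_, Finset.mem_range.2 (Nat.mod_lt _ hn0), rfl⟩
  · intro e he hd
    rw [Finset.mem_image] at he
    obtain ⟨p, hp, rfl⟩ := he
    unfold fD_e at hd
    rw [Sym2.mk_isDiag_iff] at hd
    have h1 := fD_P_inj hd
    obtain ⟨h2, h3, h4⟩ := hband p hp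
    rw [fD_mod _ _ _ h2 (by omega)] at h1
    split_ifs at h1 <;> omega
  · rw [Finset.card_image_of_injective _ fD_P_inj, Finset.card_range]
  · rw [Finset.card_image_of_injOn hinj]
  · intro l hl hpl
    obtain ⟨α, β, γ, hαβ, rfl⟩ := hl
    have hne : ∀ i : ℕ, i < n → α * i + β * (i : ℝ) ^ 2 ≠ γ := by
      intro i hi h
      exact hpl (fD_P i) (Finset.mem_image_of_mem _ (Finset.mem_range.2 hi)) h
    obtain ⟨s, t, hst, htn, hside⟩ := hC n α β γ hαβ hne
    refine le_trans ?_ (hc s t hst htn)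
    unfold GeomGraph.met
    refine le_trans (Finset.card_le_card (t := (T.filter (fun p =>
      ¬ ((s ≤ p.1 ∧ p.1 < t) ↔ (s ≤ (p.1 + p.2) % n ∧ (p.1 + p.2) % n < t)))).image (fD_e n)) ?_)
      Finset.card_image_le
    intro e he
    rw [Finset.mem_filter] at he
    obtain ⟨he, hmeet⟩ := he
    have he' : e ∈ T.image (fD_e n) := he
    rw [Finset.mem_image] at he'
    obtain ⟨p, hp, rfl⟩ := he'
    rw [Finset.mem_image]
    refine ⟨p, Finset.mem_filter.2 ⟨hp, ?_⟩, rfl⟩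
    obtain ⟨z, hz, hzl⟩ := hmeet
    have hzl' : α * z.1 + β * z.2 = γ := hzl
    have hz' : z ∈ segment ℝ (fD_P p.1) (fD_P ((p.1 + p.2) % n)) := by
      have h1 : {x | x ∈ fD_e n p} = ({fD_P p.1, fD_P ((p.1 + p.2) % n)} : Set (ℝ × ℝ)) := by
        ext x
        unfold fD_e
        simp only [Set.mem_ofPred_eq, Sym2.mem_iff, Set.mem_insert_iff, Set.mem_singleton_iff]
      have h2 : z ∈ convexHull ℝ {x | x ∈ fD_e n p} := hz
      rw [h1, convexHull_pair] at h2
      exact h2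
    obtain ⟨h3, h4⟩ := fD_seg _ _ z α β γ hz' hzl'
    have hp1 := (hband p hp).1
    have hp2 : (p.1 + p.2) % n < n := Nat.mod_lt _ hn0
    have hn1 := hne _ hp1
    have hn2 := hne _ hp2
    have e1 : (fD_P p.1).1 = (p.1 : ℝ) := rfl
    have e2 : (fD_P p.1).2 = (p.1 : ℝ) ^ 2 := rfl
    have e3 : (fD_P ((p.1 + p.2) % n)).1 = (((p.1 + p.2) % n : ℕ) : ℝ) := rfl
    have e4 : (fD_P ((p.1 + p.2) % n)).2 = (((p.1 + p.2) % n : ℕ) : ℝ) ^ 2 := rfl
    rw [e1, e2, e3, e4] at h3 h4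
    rcases hside with hside | hside
    · rw [← hside _ hp1, ← hside _ hp2]
      intro hiff
      rcases lt_or_gt_of_ne hn1 with h5 | h5
      · exact h3 h5 (hiff.1 h5)
      · rcases lt_or_gt_of_ne hn2 with h6 | h6
        · exact lt_asymm h5 (hiff.2 h6)
        · exact h4 h5 h6
    · rw [← hside _ hp1, ← hside _ hp2]
      intro hiff
      rcases lt_or_gt_of_ne hn1 with h5 | h5
      · rcases lt_or_gt_of_ne hn2 with h6 | h6
        · exact h3 h5 h6
        · exact lt_asymm h5 (hiff.2 h6)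
      · exact h4 h5 (hiff.1 h5)


theorem gD_inj (n : ℕ) (p p' : ℕ × ℕ)
    (hp : p.1 < n ∧ 1 ≤ p.2 ∧ 2 * p.2 ≤ n ∧ (2 * p.2 = n → 2 * p.1 < n))
    (hp' : p'.1 < n ∧ 1 ≤ p'.2 ∧ 2 * p'.2 ≤ n ∧ (2 * p'.2 = n → 2 * p'.1 < n))
    (h : fD_e n p = fD_e n p') : p = p' := by
  obtain ⟨a, d⟩ := p
  obtain ⟨a', d'⟩ := p'
  simp only at hp hp'
  unfold fD_e at h
  rw [Sym2.eq_iff] at h
  have h1 := fD_mod a d n hp.1 (by omega)
  have h2 := fD_mod a' d' n hp'.1 (by omega)
  simp only at h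
  rcases h with ⟨h3, h4⟩ | ⟨h3, h4⟩
  · have h3' := fD_P_inj h3
    have h4' := fD_P_inj h4
    rw [h1, h2] at h4'
    subst h3'
    have : d = d' := by
      split_ifs at h4' <;> omega
    rw [this]
  · exfalso
    have h3' := fD_P_inj h3
    have h4' := fD_P_inj h4
    rw [h2] at h3'
    rw [h1] at h4'
    split_ifs at h3' h4' <;> omega

/-- band plus `m` diameters on `2 q + 2` points -/
theorem gD_diam (q m : ℕ) (hm : m ≤ q + 1) :
    ∃ G : GeomGraph, G.pts.card = 2 * q + 2 ∧ G.edges.card = (2 * q + 2) * q + m ∧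
      ∀ l, IsLine l → (∀ p ∈ G.pts, p ∉ l) → G.met l ≤ q * (q + 1) + m := by
  classical
  have hband : ∀ p ∈ bandT (2 * q + 2) q (range m), p.1 < 2 * q + 2 ∧ 1 ≤ p.2 ∧
      2 * p.2 ≤ 2 * q + 2 ∧ (2 * p.2 = 2 * q + 2 → 2 * p.1 < 2 * q + 2) := by
    intro p hp
    unfold bandT at hp
    rw [Finset.mem_union, Finset.mem_product, Finset.mem_product, Finset.mem_range,
      Finset.mem_Icc, Finset.mem_singleton, Finset.mem_range] at hp
    rcases hp with ⟨h1, h2, h3⟩ | ⟨h1, h2⟩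
    · exact ⟨h1, h2, by omega, by omega⟩
    · exact ⟨by omega, by omega, by omega, by omega⟩
  obtain ⟨G, h1, h2, h3⟩ := gD fC_proof (2 * q + 2) (q * (q + 1) + m)
    (bandT (2 * q + 2) q (range m)) (by omega)
    (fun p hp => ⟨(hband p hp).1, (hband p hp).2.1, by have := (hband p hp).2.2.1; omega⟩)
    (fun p hp p' hp' h => gD_inj _ p p' (hband p hp) (hband p' hp') h)
    (by
      intro s t hst htn
      have hb := fB_proof (2 * q + 2) q 0 ∅ (by omega) (by simp) (by simp) s t hst htn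
      have hsub : (bandT (2 * q + 2) q (range m)).filter (fun p => ¬ ((s ≤ p.1 ∧ p.1 < t) ↔
          (s ≤ (p.1 + p.2) % (2 * q + 2) ∧ (p.1 + p.2) % (2 * q + 2) < t))) ⊆
          ((bandT (2 * q + 2) q ∅).filter (fun p => ¬ ((s ≤ p.1 ∧ p.1 < t) ↔
          (s ≤ (p.1 + p.2) % (2 * q + 2) ∧ (p.1 + p.2) % (2 * q + 2) < t)))) ∪
          (range m ×ˢ {q + 1}) := by
        intro p hp
        rw [Finset.mem_filter] at hp
        obtain ⟨hp, hp2⟩ := hp
        unfold bandT at hp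
        rw [Finset.mem_union] at hp
        rw [Finset.mem_union]
        rcases hp with hp | hp
        · left
          rw [Finset.mem_filter]
          refine ⟨?_, hp2⟩
          unfold bandT
          exact Finset.mem_union_left _ hp
        · right
          exact hp
      refine (Finset.card_le_card hsub).trans ((Finset.card_union_le _ _).trans ?_)
      rw [Finset.card_product, Finset.card_range, Finset.card_singleton, mul_one]
      omega)
  refine ⟨G, h1, ?_, h3⟩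
  rw [h2, fD_card _ _ m _ (Finset.card_range m)]

end Pool.Agent.H994E
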