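import Pool.Agent.H994E.FStubs

namespace Pool.Agent.H994E

open Finset Pool.Agent.LinesCross

theorem fE_card (G : GeomGraph) : G.edges.card ≤ G.pts.card ^ 2 := by
  classical
  have h1 : G.edges ⊆ (G.pts ×ˢ G.pts).image (fun p => s(p.1, p.2)) := by
    intro e he
    have h2 := G.edge_mem e he
    induction e using Sym2.ind with
    | _ u v =>
      have hu := h2 u (by simp)
      have hv := h2 v (by simp)
      exact Finset.mem_image.2 ⟨(u, v), Finset.mem_product.2 ⟨hu, hv⟩, rfl⟩
  calc G.edges.card ≤ ((G.pts ×ˢ G.pts).image (fun p => s(p.1, p.2))).card :=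
        Finset.card_le_card h1
    _ ≤ (G.pts ×ˢ G.pts).card := Finset.card_image_le
    _ = G.pts.card ^ 2 := by rw [Finset.card_product, sq]

theorem fE_forces (n k : ℕ) : Forces n k (fnk n k) := by
  have hne : {e | Forces n k e}.Nonempty := by
    refine ⟨n ^ 2 + 1, ?_⟩
    intro G hn he
    have := fE_card G
    rw [hn] at this
    omega
  exact Nat.sInf_mem hne

theorem fE_proof : St_FE := by
  refine ⟨fun n k e h => Nat.sInf_le h, ?_⟩
  rintro n k e ⟨G, hn, he, hl⟩
  by_contra hcon
  push Not at hcon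
  obtain ⟨l, h1, h2, h3⟩ := fE_forces n k G hn (hcon.trans he)
  have := hl l h1 h2
  omega

end Pool.Agent.H994E
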