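import Pool.Agent.H994E.FStubs

namespace Pool.Agent.H994E

open Finset Pool.Agent.LinesCross

theorem fF_allLines (G : GeomGraph) (t : ℕ)
    (h : ¬ ∃ l, IsLine l ∧ (∀ p ∈ G.pts, p ∉ l) ∧ t ≤ G.met l) :
    AllLinesLe G.pts G.edges (t - 1) := by
  classical
  intro a b c hab hc
  push Not at h
  have h1 := h {x | a * x.1 + b * x.2 = c} ⟨a, b, c, hab, rfl⟩ (fun p hp hp' => hc p hp hp')
  refine le_trans (Finset.card_le_card ?_) (Nat.le_sub_one_of_lt h1)
  intro e he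
  rw [Finset.mem_filter] at he ⊢
  obtain ⟨he, u, v, rfl, hu, hv⟩ := he
  refine ⟨he, ?_⟩
  have hset : {p : ℝ × ℝ | p ∈ s(u, v)} = {u, v} := by ext p; simp
  unfold drawn
  rw [hset, convexHull_pair]
  set Fu := a * u.1 + b * u.2 with hFu
  set Fv := a * v.1 + b * v.2 with hFv
  have hd : 0 < Fv - Fu := by linarith
  refine ⟨((Fv - c) / (Fv - Fu)) • u + ((c - Fu) / (Fv - Fu)) • v,
    ⟨(Fv - c) / (Fv - Fu), (c - Fu) / (Fv - Fu), div_nonneg (by linarith) hd.le,
      div_nonneg (by linarith) hd.le, by field_simp; ring, rfl⟩, ?_⟩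
  show a * _ + b * _ = c
  simp only [Prod.fst_add, Prod.smul_fst, Prod.snd_add, Prod.smul_snd, smul_eq_mul]
  have : a * ((Fv - c) / (Fv - Fu) * u.1 + (c - Fu) / (Fv - Fu) * v.1) +
      b * ((Fv - c) / (Fv - Fu) * u.2 + (c - Fu) / (Fv - Fu) * v.2) =
      ((Fv - c) * Fu + (c - Fu) * Fv) / (Fv - Fu) := by
    rw [hFu, hFv]; ring
  rw [this]
  field_simp
  ring

theorem fF_proof : St_FF := by
  intro n k e _ h G hn he
  by_contra hcon
  exact h G.pts G.edges G.no_three_collinear G.edge_mem G.edge_ne hn he (fF_allLines G k hcon)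

end Pool.Agent.H994E
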