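import Mathlib
import Pool.Agent.H994E.All
import Pool.Agent.LinesCross.Plane

/-!
# Adding loops: the sharp form of the dense bound
-/

namespace Pool.Agent.H994E

open Finset Pool.Agent.LinesCross

open Classical in
/-- `A` with weight `1` added on the diagonal. -/
noncomputable def loop {V : Type} (A : V → V → ℝ) (u v : V) : ℝ := A u v + if u = v then 1 else 0

theorem lp_cutW {V : Type} [Fintype V] (A : V → V → ℝ) (h : V → ℝ) :
    cutW (loop A) h = cutW A h + ∑ u, h u * (1 - h u) := by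
  classical
  unfold cutW loop
  rw [← Finset.sum_add_distrib]
  refine Finset.sum_congr rfl (fun u _ => ?_)
  simp only [add_mul, Finset.sum_add_distrib, ite_mul, one_mul, zero_mul]
  congr 1
  simp

theorem lp_sum {V : Type} [Fintype V] (A : V → V → ℝ) :
    ∑ u, ∑ v, loop A u v = (∑ u, ∑ v, A u v) + (Fintype.card V : ℝ) := by
  classical
  unfold loop
  simp only [Finset.sum_add_distrib]
  congr 1
  simp

theorem lp_symm {V : Type} (A : V → V → ℝ) (h : ∀ u v, A u v = A v u) (u v : V) :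
    loop A u v = loop A v u := by
  unfold loop
  rw [h u v]
  by_cases huv : u = v
  · rw [huv]
  · rw [if_neg huv, if_neg (fun h => huv h.symm)]

theorem lp_quarter (a : ℝ) : a * (1 - a) ≤ 1 / 4 := by nlinarith [sq_nonneg (a - 1 / 2)]

theorem lp_D {ι : Type} [Fintype ι] (x y : ι → ℝ) (A : ι → ι → ℝ) (K : ℝ)
    (hgeo : Geo x y A K) (α : ℝ) (w : ι) (h : ι → ℝ) (h0 : 0 ≤ h w) (h1 : h w ≤ 1)
    (hv : ∀ v, v ≠ w → (kz x y α w < kz x y α v ∧ h v = 1) ∨
      (kz x y α v < kz x y α w ∧ h v = 0)) :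
    cutW (loop A) h ≤ K + 1 / 2 := by
  classical
  have h2 := t8D_proof ι x y A K hgeo α w h h0 h1 hv
  rw [lp_cutW]
  have h3 : ∑ u, h u * (1 - h u) = h w * (1 - h w) := by
    apply Finset.sum_eq_single w
    · intro v _ hne
      rcases hv v hne with ⟨_, e⟩ | ⟨_, e⟩ <;> rw [e] <;> ring
    · intro hw; exact absurd (Finset.mem_univ _) hw
  have := lp_quarter (h w)
  linarith

theorem lp_E {ι : Type} [Fintype ι] (x y : ι → ℝ) (A : ι → ι → ℝ) (K : ℝ)
    (hgeo : Geo x y A K) (α : ℝ) (w w' : ι) (h : ι → ℝ) (hne : w ≠ w')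
    (hk : kz x y α w = kz x y α w') (h0 : 0 ≤ h w) (h1 : h w ≤ 1) (h0' : 0 ≤ h w') (h1' : h w' ≤ 1)
    (hv : ∀ v, v ≠ w → v ≠ w' → (kz x y α w < kz x y α v ∧ h v = 1) ∨
      (kz x y α v < kz x y α w ∧ h v = 0)) :
    cutW (loop A) h ≤ K + 1 / 2 := by
  classical
  have h2 := t8E_proof ι x y A K hgeo α w w' h hne hk h0 h1 h0' h1' hv
  rw [lp_cutW]
  have h3 : ∑ u, h u * (1 - h u) = h w * (1 - h w) + h w' * (1 - h w') := by
    rw [← Finset.sum_pair (f := fun u => h u * (1 - h u)) hne]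
    symm
    apply Finset.sum_subset (Finset.subset_univ _)
    intro v _ hvn
    simp only [Finset.mem_insert, Finset.mem_singleton, not_or] at hvn
    rcases hv v hvn.1 hvn.2 with ⟨_, e⟩ | ⟨_, e⟩ <;> rw [e] <;> ring
  have := lp_quarter (h w)
  have := lp_quarter (h w')
  linarith

theorem lp_T8I {ι : Type} [Fintype ι] (x y : ι → ℝ) (A : ι → ι → ℝ) (K : ℝ)
    (hgeo : Geo x y A K) (hcard : 2 ≤ Fintype.card ι) :
    ∃ (m : ℕ) (H : ℕ → ι → ℕ), HalfTurn (loop A) (K + 1 / 2) m H := by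
  have hB := t8B_proof
  have hC := t8C_proof
  have hF := t8F_proof
  have hG := t8G_proof
  have hH := t8H_proof t8A_proof
  obtain ⟨m, a, c, hm, hinj, hstep, hrev, hord⟩ := hH ι x y hgeo.inj hgeo.gp hcard
  have hle2 : ∀ (z : ι → ℝ) (v : ι), Hf z v ≤ 2 := fun z v => min_le_left _ _
  have hturn : ∀ v, Hf (kz x y (a m)) v + Hf (kz x y (a 0)) v = 2 :=
    (hB ι (kz x y (a 0)) (kz x y (a m)) (hinj 0 (Nat.zero_le _))).2 hrev
  have hnt : Nontrivial ι := Fintype.one_lt_card_iff_nontrivial.1 (by omega)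
  refine ⟨m, fun i => Hf (kz x y (a i)), ?_⟩
  refine
    { mpos := hm
      le2 := fun i v => hle2 _ v
      sum := fun i hi => (hB ι (kz x y (a i)) (kz x y (a i)) (hinj i hi)).1
      turn := hturn
      leave := ?_
      step := ?_
      cut := ?_
      order := ?_ }
  · intro v
    obtain ⟨v0, hv0⟩ := exists_ne v
    obtain ⟨i0, hi0, hc0, -⟩ := hord v v0 hv0.symm
    rcases (hG ι).2 _ _ _ v v0 (hstep i0 hi0) hv0.symm hc0 with h | h
    · exact ⟨i0, hi0, h⟩
    · rcases Nat.lt_or_ge (i0 + 1) m with h1 | h1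
      · exact ⟨i0 + 1, h1, h⟩
      · have h2 : i0 + 1 = m := by omega
        refine ⟨0, hm, ?_⟩
        have h3 := hturn v
        rw [h2] at h
        show Hf (kz x y (a 0)) v ≠ 1
        omega
  · intro i hi
    rcases hC ι _ _ _ (hstep i hi) with h | ⟨u, v, -, -, h1, h2, h3⟩
    · obtain ⟨u⟩ := hnt.to_nonempty
      exact ⟨u, u, fun w _ _ => h w, h u, h u⟩
    · exact ⟨u, v, fun w hu hv => (h3 w hu hv).1, h1, h2⟩
  · intro i hi s hs0 hs1
    have hbd : ∀ v, 0 ≤ ((1 - s) * ((Hf (kz x y (a i)) v : ℕ) : ℝ) +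
          s * ((Hf (kz x y (a (i + 1))) v : ℕ) : ℝ)) / 2 ∧
        ((1 - s) * ((Hf (kz x y (a i)) v : ℕ) : ℝ) +
          s * ((Hf (kz x y (a (i + 1))) v : ℕ) : ℝ)) / 2 ≤ 1 := by
      intro v
      have h1 : ((Hf (kz x y (a i)) v : ℕ) : ℝ) ≤ 2 := by exact_mod_cast hle2 _ v
      have h2 : ((Hf (kz x y (a (i + 1))) v : ℕ) : ℝ) ≤ 2 := by exact_mod_cast hle2 _ v
      have h3 : (0 : ℝ) ≤ ((Hf (kz x y (a i)) v : ℕ) : ℝ) := Nat.cast_nonneg _
      have h4 : (0 : ℝ) ≤ ((Hf (kz x y (a (i + 1))) v : ℕ) : ℝ) := Nat.cast_nonneg _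
      constructor
      · have := mul_nonneg (sub_nonneg.2 hs1) h3
        have := mul_nonneg hs0 h4
        linarith
      · have := mul_le_mul_of_nonneg_left h1 (sub_nonneg.2 hs1)
        have := mul_le_mul_of_nonneg_left h2 hs0
        linarith
    rcases hC ι _ _ _ (hstep i hi) with h | ⟨u, v, huv, hc, h1, h2, h3⟩
    · obtain ⟨w, hw⟩ := hF ι (kz x y (a i)) (hinj i hi.le) hcard
      refine lp_D x y A K hgeo (a i) w _ (hbd w).1 (hbd w).2 fun v hv => ?_
      rcases hw v hv with ⟨e1, e2⟩ | ⟨e1, e2⟩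
      · left
        refine ⟨e1, ?_⟩
        simp only [h v, e2]
        push_cast
        ring
      · right
        refine ⟨e1, ?_⟩
        simp only [h v, e2]
        push_cast
        ring
    · refine lp_E x y A K hgeo (c i) u v _ huv hc (hbd u).1 (hbd u).2 (hbd v).1 (hbd v).2
        fun w hwu hwv => ?_
      obtain ⟨e0, e1⟩ := h3 w hwu hwv
      rcases e1 with ⟨e1, e2⟩ | ⟨e1, e2⟩
      · left
        refine ⟨e1, ?_⟩
        simp only [e0, e2]
        push_cast
        ring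
      · right
        refine ⟨e1, ?_⟩
        simp only [e0, e2]
        push_cast
        ring
  · intro u v huv
    obtain ⟨i0, hi0, -, h⟩ := hord u v huv
    refine ⟨i0, hi0, ?_⟩
    rcases h with ⟨h1, h2⟩ | ⟨h1, h2⟩
    · left
      exact ⟨fun i hi hp => (hG ι).1 _ u v (h1 i hi) hp,
        fun i hi him hp => (hG ι).1 _ v u (h2 i hi him) hp⟩
    · right
      exact ⟨fun i hi hp => (hG ι).1 _ v u (h1 i hi) hp,
        fun i hi him hp => (hG ι).1 _ u v (h2 i hi him) hp⟩

theorem lp_cutB_eq (V : Finset (ℝ × ℝ)) (E : Finset (Sym2 (ℝ × ℝ))) (f : ℝ × ℝ → Bool) :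
    cutB (fun u v : V => (Adj E u v : ℝ)) (fun r : V => f r) = (Cr (Adj E) f V V : ℝ) := by
  unfold cutB Cr
  push_cast
  rw [← Finset.sum_coe_sort V]
  refine Finset.sum_congr rfl (fun u _ => ?_)
  rw [← Finset.sum_coe_sort V]

/-- **The sharp dense bound** for point sets of the plane. -/
theorem dense_sharp (V : Finset (ℝ × ℝ)) (E : Finset (Sym2 (ℝ × ℝ)))
    (K : ℕ) (hGP : GP V) (hEV : ∀ e ∈ E, ∀ p ∈ e, p ∈ V) (hE : ∀ e ∈ E, ¬ e.IsDiag)
    (hK : AllLinesLe V E K) (hV : 2 ≤ V.card) (hd : V.card ^ 2 ≤ 4 * E.card + 2 * V.card) :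
    (2 * E.card + V.card) ^ 2 ≤ 4 * V.card ^ 2 * K + 2 * V.card ^ 2 := by
  classical
  obtain ⟨t, ht⟩ := exists_shear V
  set x : V → ℝ := fun v => v.1.1 + t * v.1.2 with hx
  set y : V → ℝ := fun v => v.1.2 with hy
  set A : V → V → ℝ := fun u v => (Adj E u v : ℝ) with hA
  have hne : Nonempty V := by
    have : V.Nonempty := Finset.card_pos.1 (by omega)
    exact this.to_subtype
  have hcard : Fintype.card V = V.card := Fintype.card_coe V
  have hgeo : Geo x y A (K : ℝ) := by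
    refine ⟨?_, ?_, ?_, ?_⟩
    · intro u v huv
      exact Subtype.ext (ht u.1 u.2 v.1 v.2 huv)
    · intro α u v w huv huw hvw h1 h2
      have e1 : u.1.2 = α * (u.1.1 + t * u.1.2 - 0) + kz x y α u := by
        simp only [kz, hx, hy]; ring
      have e2 : v.1.2 = α * (v.1.1 + t * v.1.2 - 0) + kz x y α u := by
        rw [h1]; simp only [kz, hx, hy]; ring
      have e3 : w.1.2 = α * (w.1.1 + t * w.1.2 - 0) + kz x y α u := by
        rw [h2]; simp only [kz, hx, hy]; ring
      exact hGP u.1 u.2 v.1 v.2 w.1 w.2 (fun h => huv (Subtype.ext h))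
        (fun h => huw (Subtype.ext h)) (fun h => hvw (Subtype.ext h))
        (collinear_of_line t 0 α _ u.1 v.1 w.1 e1 e2 e3)
    · intro u
      simp only [hA, Adj_self E hE, Nat.cast_zero]
    · intro α β hr
      have h1 := hK_of V E K hK t 0 α β (by
        intro r hrV hcon
        apply hr ⟨r, hrV⟩
        simp only [kz, hx, hy]
        linarith)
      have h2 := lp_cutB_eq V E (fun r => decide (α * (r.1 + t * r.2 - 0) + β < r.2))
      have h3 : (fun r : V => decide (β < kz x y α r)) =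
          (fun r : V => decide (α * (r.1.1 + t * r.1.2 - 0) + β < r.1.2)) := by
        funext r
        simp only [kz, hx, hy]
        congr 1
        apply propext
        constructor <;> intro h <;> linarith
      rw [h3]
      simp only [hA]
      rw [h2]
      exact_mod_cast h1
  obtain ⟨m, H, hH⟩ := lp_T8I x y A K hgeo (by rw [hcard]; exact hV)
  have hdiag : ∀ u, A u u = 0 := hgeo.diag
  have hsumA : (∑ u, ∑ v, A u v) = (W (Adj E) V V : ℝ) := by
    unfold W
    push_cast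
    rw [← Finset.sum_coe_sort V]
    refine Finset.sum_congr rfl (fun u _ => ?_)
    rw [← Finset.sum_coe_sort V]
  have hsum : (2 * E.card + V.card : ℝ) ≤ ∑ u, ∑ v, loop A u v := by
    have h1 := card_le_half V E (fun p => p.1 + t * p.2) ht hEV hE
    rw [lp_sum, hsumA, hcard]
    have : ((2 * E.card : ℕ) : ℝ) ≤ (W (Adj E) V V : ℝ) := by exact_mod_cast h1
    push_cast at this
    linarith
  have hd' : ((V.card : ℝ)) ^ 2 ≤ 4 * E.card + 2 * V.card := by exact_mod_cast hd
  have h9 := all_T7F V (loop A) (K + 1 / 2) m H hH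
    (lp_symm A (fun u v => by simp only [hA]; rw [Adj_symm]))
    (fun u v => by
      unfold loop
      have : (0:ℝ) ≤ A u v := by simp only [hA]; positivity
      split_ifs <;> linarith)
    (fun u v => by
      unfold loop
      split_ifs with huv
      · rw [huv, hdiag]; norm_num
      · simp only [hA, add_zero]; exact_mod_cast Adj_le E u v)
    (by rw [hcard]; linarith)
  rw [hcard] at h9
  have hn0 : (0 : ℝ) < (V.card : ℝ) := by exact_mod_cast (by omega : 0 < V.card)
  rw [div_le_iff₀ (by positivity)] at h9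
  have h10 : (2 * E.card + V.card : ℝ) ^ 2 ≤ (∑ u, ∑ v, loop A u v) ^ 2 :=
    pow_le_pow_left₀ (by positivity) hsum 2
  have h11 : (2 * E.card + V.card : ℝ) ^ 2 ≤ 4 * (V.card : ℝ) ^ 2 * K + 2 * (V.card : ℝ) ^ 2 := by
    nlinarith
  exact_mod_cast h11

end Pool.Agent.H994E
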