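import Mathlib
import Pool.Agent.H994E.FStubs
import Pool.Agent.H994E.Loop

/-!
# MP_b5bf4a_co: task FG, the dense upper bound
-/

namespace Pool.Agent.H994E

open Finset Pool.Agent.LinesCross

theorem fg_arith (n q r e : ℕ) (hn : 2 ≤ n)
    (h1 : (2 * e + n) ^ 2 ≤ 4 * n ^ 2 * (q ^ 2 + q + r) + 2 * n ^ 2) :
    e ≤ n * q + n * (2 * r + 1) / (4 * (q + 1)) := by
  have h3 : n * (4 * (q + 1) * (2 * e + n)) ≤ n * (n * (8 * q ^ 2 + 12 * q + 4 * r + 6)) := by
    zify at h1 ⊢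
    nlinarith [sq_nonneg ((2 * e + n : ℤ) - (2 * q + 2) * n)]
  have h4 := Nat.le_of_mul_le_mul_left h3 (by omega)
  have h5 : 4 * (q + 1) * e ≤ n * (4 * q * (q + 1) + 2 * r + 1) := by
    nlinarith
  by_contra hcon
  push Not at hcon
  have h6 : n * (2 * r + 1) / (4 * (q + 1)) < e - n * q := by omega
  rw [Nat.div_lt_iff_lt_mul (by positivity)] at h6
  have h7 : n * q ≤ e := le_of_lt (lt_of_le_of_lt (Nat.le_add_right _ _) hcon)
  obtain ⟨d, rfl⟩ := Nat.exists_eq_add_of_le h7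
  rw [Nat.add_sub_cancel_left] at h6
  nlinarith

theorem fg_arith2 (n q e : ℕ) (hn : n ≤ 4 * q + 2) (he : n * q + 1 ≤ e) :
    n ^ 2 ≤ 4 * e + 2 * n := by
  nlinarith

theorem fG_proof : St_FG := by
  intro n q r hn hq V E hGP hEV hE hV hcard hK
  have h0 : n * q + 1 ≤ E.card := by
    have := Nat.zero_le (n * (2 * r + 1) / (4 * (q + 1)))
    omega
  have hd : V.card ^ 2 ≤ 4 * E.card + 2 * V.card := by
    rw [hV]
    exact fg_arith2 n q E.card hq h0
  have h1 := dense_sharp V E (q ^ 2 + q + r) hGP hEV hE hK (by omega) hd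
  rw [hV] at h1
  have h2 := fg_arith n q r E.card hn h1
  omega

end Pool.Agent.H994E
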