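import Mathlib
import Pool.Agent.H994E.FStubs

/-!
# MP_b5bf4a_co: task FH, the sparse exact upper bound
-/

namespace Pool.Agent.H994E

open Finset Pool.Agent.LinesCross

theorem fH_proof : St_FH := by
  intro n q m hq hm hn1 hn2 V E hGP hEV hE hV hcard hK
  have h1 := plane_one V E hGP hEV hE q hq (by
    have h2 : q * (q + 1) = q ^ 2 + q := by ring
    rw [h2]
    exact hK) m hm (by rw [hV]; exact hn1) (by rw [hV]; exact hn2)
  rw [hV] at h1
  omega

end Pool.Agent.H994E
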