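import Mathlib
import Pool.Agent.H994E.Stubs
import Pool.Agent.LinesCross.Plane

/-!
# The dense bound for finite point sets of the plane
-/

namespace Pool.Agent.H994E

open Finset Pool.Agent.LinesCross

theorem t9_cutB_eq (V : Finset (ℝ × ℝ)) (E : Finset (Sym2 (ℝ × ℝ))) (f : ℝ × ℝ → Bool) :
    cutB (fun u v : V => (Adj E u v : ℝ)) (fun r : V => f r) = (Cr (Adj E) f V V : ℝ) := by
  unfold cutB Cr
  push_cast
  rw [← Finset.sum_coe_sort V]
  refine Finset.sum_congr rfl (fun u _ => ?_)
  rw [← Finset.sum_coe_sort V]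

theorem t9A_proof (h8 : St_T8I) (h7 : St_T7F) (V : Finset (ℝ × ℝ)) (E : Finset (Sym2 (ℝ × ℝ)))
    (K : ℕ) (hGP : GP V) (hEV : ∀ e ∈ E, ∀ p ∈ e, p ∈ V) (hE : ∀ e ∈ E, ¬ e.IsDiag)
    (hK : AllLinesLe V E K) (hV : 2 ≤ V.card) (hd : V.card ^ 2 ≤ 4 * E.card) :
    E.card ^ 2 ≤ V.card ^ 2 * K := by
  classical
  obtain ⟨t, ht⟩ := exists_shear V
  set x : V → ℝ := fun v => v.1.1 + t * v.1.2 with hx
  set y : V → ℝ := fun v => v.1.2 with hy
  set A : V → V → ℝ := fun u v => (Adj E u v : ℝ) with hA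
  have hne : Nonempty V := by
    have : V.Nonempty := Finset.card_pos.1 (by omega)
    exact this.to_subtype
  have hcard : Fintype.card V = V.card := Fintype.card_coe V
  have hgeo : Geo x y A (K : ℝ) := by
    refine ⟨?_, ?_, ?_, ?_⟩
    · intro u v huv
      exact Subtype.ext (ht u.1 u.2 v.1 v.2 huv)
    · intro α u v w huv huw hvw h1 h2
      have e1 : u.1.2 = α * (u.1.1 + t * u.1.2 - 0) + kz x y α u := by
        simp only [kz, hx, hy]; ring
      have e2 : v.1.2 = α * (v.1.1 + t * v.1.2 - 0) + kz x y α u := by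
        rw [h1]; simp only [kz, hx, hy]; ring
      have e3 : w.1.2 = α * (w.1.1 + t * w.1.2 - 0) + kz x y α u := by
        rw [h2]; simp only [kz, hx, hy]; ring
      exact hGP u.1 u.2 v.1 v.2 w.1 w.2 (fun h => huv (Subtype.ext h))
        (fun h => huw (Subtype.ext h)) (fun h => hvw (Subtype.ext h))
        (collinear_of_line t 0 α _ u.1 v.1 w.1 e1 e2 e3)
    · intro u
      simp only [hA, Adj_self E hE, Nat.cast_zero]
    · intro α β hr
      have h1 := hK_of V E K hK t 0 α β (by
        intro r hrV hcon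
        apply hr ⟨r, hrV⟩
        simp only [kz, hx, hy]
        linarith)
      have h2 := t9_cutB_eq V E (fun r => decide (α * (r.1 + t * r.2 - 0) + β < r.2))
      have h3 : (fun r : V => decide (β < kz x y α r)) =
          (fun r : V => decide (α * (r.1.1 + t * r.1.2 - 0) + β < r.1.2)) := by
        funext r
        simp only [kz, hx, hy]
        congr 1
        apply propext
        constructor <;> intro h <;> linarith
      rw [h3]
      simp only [hA]
      rw [h2]
      exact_mod_cast h1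
  obtain ⟨m, H, hH⟩ := h8 V x y A K hgeo (by rw [hcard]; exact hV)
  have hsum : (2 * E.card : ℝ) ≤ ∑ u, ∑ v, A u v := by
    have h1 := card_le_half V E (fun p => p.1 + t * p.2) ht hEV hE
    have h2 : (∑ u, ∑ v, A u v) = (W (Adj E) V V : ℝ) := by
      unfold W
      push_cast
      rw [← Finset.sum_coe_sort V]
      refine Finset.sum_congr rfl (fun u _ => ?_)
      rw [← Finset.sum_coe_sort V]
    rw [h2]
    exact_mod_cast h1
  have hd' : ((V.card : ℝ)) ^ 2 ≤ 4 * E.card := by exact_mod_cast hd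
  have h9 := h7 V A K m H hH (fun u v => by simp only [hA]; rw [Adj_symm])
    (fun u v => by simp only [hA]; positivity)
    (fun u v => by simp only [hA]; exact_mod_cast Adj_le E u v)
    (by rw [hcard]; linarith)
  rw [hcard] at h9
  have hn0 : (0 : ℝ) < (V.card : ℝ) := by exact_mod_cast (by omega : 0 < V.card)
  rw [div_le_iff₀ (by positivity)] at h9
  have h10 : (2 * E.card : ℝ) ^ 2 ≤ (∑ u, ∑ v, A u v) ^ 2 :=
    pow_le_pow_left₀ (by positivity) hsum 2
  have h11 : (E.card : ℝ) ^ 2 ≤ (V.card : ℝ) ^ 2 * K := by nlinarith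
  exact_mod_cast h11

end Pool.Agent.H994E
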