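import Mathlib
import Pool.Agent.H994E.FStubs
import Pool.Agent.H994E.Loop
import Pool.Agent.H994E.Plane
import Pool.Agent.Helper976.ELSS.Plane2
import Pool.Agent.Helper976.ELSS.Arith2

namespace Pool.Agent.H994E

open Finset Pool.Agent.LinesCross Pool.Agent.Helper976.ELSS

theorem fI2_proof : St_FI := by
  intro n k hk hn V E hGP hEV hE hV hcond hall
  classical
  have h2e : 2 * E.card + V.card ≤ V.card * V.card := by
    obtain ⟨t, ht⟩ := exists_shear V
    have h1 := card_le_half V E (fun p => p.1 + t * p.2) ht hEV hE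
    have h2 := W_self_le (Adj E) (Adj_self _ hE) (Adj_le _) V
    omega
  rw [hV] at h2e
  have hn2k : 1 ≤ n ^ 2 * k := Nat.one_le_iff_ne_zero.2 (by positivity)
  rcases Nat.lt_or_ge n 2 with hlt | hge
  · have hn1 : n = 1 := by omega
    subst hn1
    have he0 : E.card = 0 := by omega
    rw [he0] at hcond
    rcases hcond with h | ⟨_, h⟩ <;> omega
  · have hdense : n ^ 2 ≤ 4 * E.card → E.card ^ 2 ≤ n ^ 2 * (k - 1) := by
      intro hd
      have := t9A_proof all_T8I all_T7F V E (k - 1) hGP hEV hE hall (by omega)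
        (by rw [hV]; exact hd)
      rwa [hV] at this
    have hk1 : n ^ 2 * (k - 1) + n ^ 2 = n ^ 2 * k := by
      obtain ⟨s, rfl⟩ : ∃ s, k = s + 1 := ⟨k - 1, by omega⟩
      simp; ring
    have hn2 : 1 ≤ n ^ 2 := Nat.one_le_iff_ne_zero.2 (by positivity)
    rcases hcond with h | ⟨h, h'⟩
    · rcases le_or_gt (n ^ 2) (4 * E.card) with hd | hd
      · have := hdense hd
        omega
      · have hne : n ≤ E.card := by
          by_contra hcon
          push Not at hcon
          have h1 : E.card ^ 2 ≤ n ^ 2 := Nat.pow_le_pow_left hcon.le 2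
          have h2 : n ^ 2 * 1 ≤ n ^ 2 * k := Nat.mul_le_mul_left _ hk
          omega
        have hA : ∀ m : ℕ, 1 ≤ m → 4 * m * E.card + 2 * m * n ≤
            2 * m ^ 2 * (k - 1) + m * (m - 1) + 2 * n ^ 2 := by
          intro m hm
          have := first V E hGP hEV hE (k - 1) hall (by omega) m hm
          rwa [hV] at this
        have h1 := factor1 n E.card (k - 1) hge hne (by rw [Nat.mul_sub, mul_one]; omega) hA
        have hE0 : 0 < E.card := by omega
        have hq : 4 ≤ n ^ 2 / E.card := by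
          rw [Nat.le_div_iff_mul_le hE0]; exact hd.le
        have hq' : (4:ℝ) ≤ ((n ^ 2 / E.card : ℕ) : ℝ) := by exact_mod_cast hq
        have h2 : 1 / (2 * ((n ^ 2 / E.card : ℕ) : ℝ) + 1) ^ 2 ≤ 1 / 81 := by
          apply one_div_le_one_div_of_le (by norm_num)
          nlinarith
        have hsq : (0:ℝ) ≤ ((E.card : ℝ) / n) ^ 2 := by positivity
        have h3 : (80 / 81 : ℝ) * ((E.card : ℝ) / n) ^ 2 ≤ ((k - 1 : ℕ) : ℝ) := by
          refine le_trans (mul_le_mul_of_nonneg_right ?_ hsq) h1
          linarith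
        have hn0 : (0:ℝ) < n := by exact_mod_cast (by omega : 0 < n)
        rw [div_pow, ← mul_div_assoc, div_le_iff₀ (by positivity)] at h3
        have h4 : (81:ℝ) * (n ^ 2 * k) ≤ 80 * (E.card : ℝ) ^ 2 := by exact_mod_cast h
        have h5 : (((k - 1 : ℕ) : ℝ)) = k - 1 := by
          rw [Nat.cast_sub hk]; simp
        rw [h5] at h3
        have h6 : (0:ℝ) < (n:ℝ) ^ 2 := by positivity
        nlinarith
    · have := hdense h
      omega

end Pool.Agent.H994E
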