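import Mathlib
import Pool.Agent.H994E.FStubs

/-!
# MP_b5bf4a_co: task FJ
-/

namespace Pool.Agent.H994E

open Finset Pool.Agent.LinesCross

theorem fJ_proof (hD : St_FD) (hE : St_FE) (hF : St_FF) (hI : St_FI) : St_FJ := by
  intro n k hk hkn
  have hn : 2 ≤ n := by
    by_contra h
    have h1 : n ≤ 1 := by omega
    have h2 : n ^ 2 ≤ 1 ^ 2 := Nat.pow_le_pow_left h1 2
    omega
  have hn0 : (0 : ℝ) < n := by exact_mod_cast (by omega : 0 < n)
  have hk0 : (0 : ℝ) ≤ k := Nat.cast_nonneg k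
  have hsk : Real.sqrt k ^ 2 = k := Real.sq_sqrt hk0
  have hsk0 : 0 ≤ Real.sqrt k := Real.sqrt_nonneg _
  refine ⟨?_, ?_, ?_⟩
  · -- lower bound
    obtain ⟨q, hq1, hq2⟩ : ∃ q : ℕ, q * (q + 1) < k ∧ k ≤ (q + 1) * (q + 2) := by
      classical
      have hex : ∃ q : ℕ, k ≤ (q + 1) * (q + 2) := ⟨k, by nlinarith⟩
      refine ⟨Nat.find hex, ?_, Nat.find_spec hex⟩
      rcases Nat.eq_zero_or_pos (Nat.find hex) with h0 | h0
      · rw [h0]; omega
      · have := Nat.find_min hex (m := Nat.find hex - 1) (by omega)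
        obtain ⟨r, hr⟩ : ∃ r, Nat.find hex = r + 1 := ⟨Nat.find hex - 1, by omega⟩
        rw [hr] at this ⊢
        simp only [Nat.add_sub_cancel] at this
        push Not at this
        exact this
    have h2q : 2 * q + 1 ≤ n := by
      by_contra h
      have h1 : n ≤ 2 * q := by omega
      have h2 : n ^ 2 ≤ (2 * q) ^ 2 := Nat.pow_le_pow_left h1 2
      nlinarith
    obtain ⟨G, hG1, hG2, hG3⟩ := hD n q 0 0 ∅ (by simp) (by simp) (Or.inr ⟨rfl, h2q⟩) (by simp)
    have h3 : n * q < fnk n k := hE.2 n k (n * q) ⟨G, hG1, by omega, fun l hl hp => by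
      have := hG3 l hl hp
      omega⟩
    have h4 : Real.sqrt k < q + 3 / 2 := by
      have hq2' : (k : ℝ) ≤ (q + 1) * (q + 2) := by exact_mod_cast hq2
      have hq0 : (0 : ℝ) ≤ q := Nat.cast_nonneg q
      rw [Real.sqrt_lt' (by positivity)]
      nlinarith
    have h5 : ((n * q : ℕ) : ℝ) < fnk n k := by exact_mod_cast h3
    push_cast at h5
    nlinarith
  · -- upper bound
    set s : ℝ := 9 / Real.sqrt 80 * (n * Real.sqrt k) with hs
    have hs0 : 0 ≤ s := by positivity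
    have hs2 : 80 * s ^ 2 = 81 * (n ^ 2 * k) := by
      have h80 : Real.sqrt 80 ^ 2 = 80 := Real.sq_sqrt (by norm_num)
      rw [hs, mul_pow, div_pow, mul_pow, h80, hsk]
      ring
    have hle : fnk n k ≤ ⌈s⌉₊ := by
      refine hE.1 n k _ (hF n k _ hk ?_)
      intro V E hV hVE hEd hVc hEc hA
      refine hI n k hk (by omega) V E hV hVE hEd hVc (Or.inl ?_) hA
      have h1 : s ≤ E.card := le_trans (Nat.le_ceil s) (by exact_mod_cast hEc)
      have h2 : s ^ 2 ≤ (E.card : ℝ) ^ 2 := by gcongr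
      have h3 : (81 : ℝ) * (n ^ 2 * k) ≤ 80 * (E.card : ℝ) ^ 2 := by linarith
      exact_mod_cast h3
    calc (fnk n k : ℝ) ≤ (⌈s⌉₊ : ℝ) := by exact_mod_cast hle
      _ ≤ s + 1 := (Nat.ceil_lt_add_one hs0).le
  · intro h16
    set s : ℝ := n * Real.sqrt k with hs
    have hs0 : 0 ≤ s := by positivity
    have hs2 : s ^ 2 = n ^ 2 * k := by
      rw [hs, mul_pow, hsk]
    have hle : fnk n k ≤ ⌈s⌉₊ := by
      refine hE.1 n k _ (hF n k _ hk ?_)
      intro V E hV hVE hEd hVc hEc hA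
      refine hI n k hk (by omega) V E hV hVE hEd hVc (Or.inr ⟨?_, ?_⟩) hA
      · have h1 : s ≤ E.card := le_trans (Nat.le_ceil s) (by exact_mod_cast hEc)
        have h2 : (n : ℝ) ≤ 4 * Real.sqrt k := by
          have h16' : (n : ℝ) ^ 2 ≤ 16 * k := by exact_mod_cast h16
          nlinarith
        have h3 : (n : ℝ) ^ 2 ≤ 4 * E.card := by
          have : (n : ℝ) * n ≤ n * (4 * Real.sqrt k) := by gcongr
          nlinarith
        exact_mod_cast h3
      · have h1 : s ≤ E.card := le_trans (Nat.le_ceil s) (by exact_mod_cast hEc)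
        have h2 : s ^ 2 ≤ (E.card : ℝ) ^ 2 := by gcongr
        have h3 : (n : ℝ) ^ 2 * k ≤ (E.card : ℝ) ^ 2 := by linarith
        exact_mod_cast h3
    calc (fnk n k : ℝ) ≤ (⌈s⌉₊ : ℝ) := by exact_mod_cast hle
      _ ≤ s + 1 := (Nat.ceil_lt_add_one hs0).le

end Pool.Agent.H994E
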