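import Pool.Agent.H994E.FStubs

set_option autoImplicit false

namespace Pool.Agent.H994E

open Finset Pool.Agent.LinesCross

theorem fK_c (n q r m : ℕ) (hn : 0 < n) (hm : m = n * (r / 2) / (q + 1)) :
    (m * (q + 1) + n - 1) / n ≤ r / 2 := by
  have h1 : m * (q + 1) ≤ n * (r / 2) := by rw [hm]; exact Nat.div_mul_le_self _ _
  have h2 : (m * (q + 1) + n - 1) / n < r / 2 + 1 := by
    rw [Nat.div_lt_iff_lt_mul hn]
    have h3 : (r / 2 + 1) * n = n * (r / 2) + n := by ring
    rw [h3]
    omega
  omega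

theorem fK_proof (hA : St_FA) (hD : St_FD) (hE : St_FE) (hF : St_FF) (hG : St_FG)
    (hH : St_FH) : St_FK := by
  constructor
  · intro n q hq hqn hcase
    apply le_antisymm
    · apply hE.1
      apply hF n (q ^ 2 + q + 1) (n * q + 1) (by omega)
      intro V E h1 h2 h3 h4 h5 h6
      rw [Nat.add_sub_cancel] at h6
      rcases hcase with hc | ⟨m, hm1, hm2, hm3⟩
      · refine hG n q 0 (by omega) hc V E h1 h2 h3 h4 ?_ (by simpa using h6)
        have : n * (2 * 0 + 1) / (4 * (q + 1)) = 0 := by
          apply Nat.div_eq_of_lt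
          omega
        rw [this]
        simpa using h5
      · exact hH n q m hq hm1 hm2 hm3 V E h1 h2 h3 h4 h5 h6
    · apply hE.2
      obtain ⟨G, hG1, hG2, hG3⟩ := hD n q 0 0 ∅ (by simp) (by simp) (Or.inr ⟨rfl, hqn⟩) (by simp)
      refine ⟨G, hG1, by omega, fun l hl hlp => ?_⟩
      have := hG3 l hl hlp
      have e : q * (q + 1) = q ^ 2 + q := by ring
      omega
  · intro n q r hr hqn hn
    constructor
    · apply hE.2
      obtain ⟨X, hX1, hX2, hX3⟩ := hA n (n * (r / 2) / (q + 1)) (by omega) (by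
        apply Nat.div_le_of_le_mul
        have : r / 2 ≤ q + 1 := by omega
        calc n * (r / 2) ≤ n * (q + 1) := Nat.mul_le_mul_left _ this
          _ = (q + 1) * n := by ring)
      obtain ⟨G, hG1, hG2, hG3⟩ := hD n q (n * (r / 2) / (q + 1)) (r / 2) X hX1 hX2
        (Or.inl hqn) (fun s => (hX3 s (q + 1) (by omega)).trans
          (fK_c n q r _ (by omega) rfl))
      refine ⟨G, hG1, by omega, fun l hl hlp => ?_⟩
      have := hG3 l hl hlp
      have e : q * (q + 1) = q ^ 2 + q := by ring
      omega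
    · apply hE.1
      apply hF n (q ^ 2 + q + r + 1) _ (by omega)
      intro V E h1 h2 h3 h4 h5 h6
      rw [Nat.add_sub_cancel] at h6
      exact hG n q r (by omega) hn V E h1 h2 h3 h4 h5 h6

end Pool.Agent.H994E
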