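import Mathlib
import Pool.Agent.LinesCross.Plane

set_option linter.unusedSectionVars false

/-!
# Peeling with blocks of `k` or `k + 1` points: all lines meet at most `K` edges
(adapted from `Pool.Agent.LinesCross.One`, which is the case `K = k (k + 1)`)
-/

namespace Pool.Agent.H994E

open Finset Pool.Agent.LinesCross

section one

variable {ι : Type*} [DecidableEq ι] (A : ι → ι → ℕ)

theorem peelG (x y : ι → ℝ) (V : Finset ι) (k K : ℕ) (hk : 1 ≤ k)
    (hsym : ∀ c d, A c d = A d c) (h0 : ∀ c, A c c = 0) (h1 : ∀ c d, A c d ≤ 1)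
    (hK : ∀ α β : ℝ, (∀ r ∈ V, y r ≠ α * x r + β) →
      Cr A (fun r => decide (α * x r + β < y r)) V V ≤ K)
    (hgp : ∀ α β : ℝ, ∀ p ∈ V, ∀ q ∈ V, p ≠ q → y p = α * x p + β → y q = α * x q + β →
        ∀ r ∈ V, y r = α * x r + β → r = p ∨ r = q) (m : ℕ) :
    ∀ L R : Finset ι, L ⊆ V → R ⊆ V → (∀ p ∈ L, x p < 0) → (∀ p ∈ R, 0 < x p) →
      (m + 1) * k ≤ L.card → L.card ≤ (m + 1) * (k + 1) →
      (m + 1) * k ≤ R.card → R.card ≤ (m + 1) * (k + 1) →
      W A L L + W A R R + 2 * ((m + 1) * (k * (k + 1))) ≤
        2 * k * (L.card + R.card) + 2 * (m * K) := by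
  induction m with
  | zero =>
    intro L R _ _ _ _ hl1 hl2 hr1 hr2
    have e1 := W_self_le A h0 h1 L
    have e2 := W_self_le A h0 h1 R
    have f1 : L.card = k ∨ L.card = k + 1 := by omega
    have f2 : R.card = k ∨ R.card = k + 1 := by omega
    rcases f1 with f1 | f1 <;> rcases f2 with f2 | f2 <;> rw [f1] at e1 <;> rw [f2] at e2 <;>
      rw [f1, f2] <;> nlinarith
  | succ m ih =>
    intro L R hLV hRV hL hR hl1 hl2 hr1 hr2
    have hsize : ∀ n : ℕ, (m + 1 + 1) * k ≤ n → n ≤ (m + 1 + 1) * (k + 1) →
        ∃ a, (a = k ∨ a = k + 1) ∧ a ≤ n ∧ (m + 1) * k ≤ n - a ∧ n - a ≤ (m + 1) * (k + 1) := by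
      intro n h2 h3
      have g1 : (m + 1 + 1) * k = (m + 1) * k + k := by ring
      have g2 : (m + 1 + 1) * (k + 1) = (m + 1) * (k + 1) + k + 1 := by ring
      have g3 : (m + 1) * (k + 1) = (m + 1) * k + (m + 1) := by ring
      by_cases h : n ≤ (m + 1) * (k + 1) + k
      · exact ⟨k, Or.inl rfl, by omega, by omega, by omega⟩
      · exact ⟨k + 1, Or.inr rfl, by omega, by omega, by omega⟩
    obtain ⟨a, ha, ha1, ha2, ha3⟩ := hsize _ hl1 hl2
    obtain ⟨b, hb, hb1, hb2, hb3⟩ := hsize _ hr1 hr2
    obtain ⟨α, β, p, hp, q, hq, hpl, hql, h1', h2', h3', h4'⟩ := exists_pivot x y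
      (fun _ => 1) (fun _ => 1) L R hL hR (by
        intro α β p hp q hq h1 h2 r hr h3
        refine hgp α β p (hLV hp) q (hRV hq) ?_ h1 h2 r ?_ h3
        · rintro rfl; linarith [hL p hp, hR p hq]
        · rw [Finset.mem_union] at hr
          rcases hr with h | h
          · exact hLV h
          · exact hRV h) a b (by omega) (by simpa using ha1) (by omega) (by simpa using hb1)
    rw [← Finset.card_eq_sum_ones] at h1' h2' h3' h4'
    have hxp := hL p hp
    have hxq := hR q hq
    have hpq : p ≠ q := by rintro rfl; linarith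
    obtain ⟨α', β', k1, k2, k3, k4⟩ := exists_perturb x y V α β p q (by linarith) hpl hql
      (hgp α β p (hLV hp) q (hRV hq) hpq hpl hql) true true
    set f : ι → Bool := fun r => decide (α' * x r + β' < y r) with hf
    have hLt : L.filter (fun c => f c = true) = insert p (L.filter (fun r => α * x r + β < y r)) := by
      ext c
      simp only [hf, Finset.mem_insert, Finset.mem_filter, decide_eq_true_eq]
      constructor
      · rintro ⟨h, h'⟩
        by_cases hcp : c = p
        · exact Or.inl hcp
        · right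
          refine ⟨h, (k2 c (hLV h) hcp ?_).1 h'⟩
          rintro rfl; linarith [hL c h]
      · rintro (h | ⟨h, h'⟩)
        · rw [h]; exact ⟨hp, k3.2 rfl⟩
        · refine ⟨h, (k2 c (hLV h) ?_ ?_).2 h'⟩
          · rintro rfl; rw [hpl] at h'; exact lt_irrefl _ h'
          · rintro rfl; linarith [hL c h]
    have hRt : R.filter (fun c => f c = true) = insert q (R.filter (fun r => α * x r + β < y r)) := by
      ext c
      simp only [hf, Finset.mem_insert, Finset.mem_filter, decide_eq_true_eq]
      constructor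
      · rintro ⟨h, h'⟩
        by_cases hcp : c = q
        · exact Or.inl hcp
        · right
          refine ⟨h, (k2 c (hRV h) ?_ hcp).1 h'⟩
          rintro rfl; linarith [hR c h]
      · rintro (h | ⟨h, h'⟩)
        · rw [h]; exact ⟨hq, k4.2 rfl⟩
        · refine ⟨h, (k2 c (hRV h) ?_ ?_).2 h'⟩
          · rintro rfl; linarith [hR c h]
          · rintro rfl; rw [hql] at h'; exact lt_irrefl _ h'
    have hLtc : (L.filter (fun c => f c = true)).card = a := by
      rw [hLt, Finset.card_insert_of_notMem]
      · omega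
      · rw [Finset.mem_filter]; rintro ⟨_, h⟩; rw [hpl] at h; exact lt_irrefl _ h
    have hRtc : (R.filter (fun c => f c = true)).card = b := by
      rw [hRt, Finset.card_insert_of_notMem]
      · omega
      · rw [Finset.mem_filter]; rintro ⟨_, h⟩; rw [hql] at h; exact lt_irrefl _ h
    have hLsum : (L.filter (fun c => f c = true)).card + (L.filter (fun c => f c = false)).card =
        L.card := by
      rw [← Finset.card_union_of_disjoint (filter_disj_bool f L), filter_union_bool]
    have hRsum : (R.filter (fun c => f c = true)).card + (R.filter (fun c => f c = false)).card =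
        R.card := by
      rw [← Finset.card_union_of_disjoint (filter_disj_bool f R), filter_union_bool]
    have hih := ih (L.filter (fun c => f c = false)) (R.filter (fun c => f c = false))
      ((Finset.filter_subset _ _).trans hLV) ((Finset.filter_subset _ _).trans hRV)
      (fun c hc => hL c (Finset.mem_filter.1 hc).1) (fun c hc => hR c (Finset.mem_filter.1 hc).1)
      (by omega) (by omega) (by omega) (by omega)
    have hLR : Disjoint L R := by
      rw [Finset.disjoint_left]; intro c h h'; linarith [hL c h, hR c h']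
    have hcr : W A (L.filter (fun c => f c = true)) (L.filter (fun c => f c = false)) +
        W A (R.filter (fun c => f c = true)) (R.filter (fun c => f c = false)) ≤ K := by
      refine le_trans ?_ (hK α' β' k1)
      rw [← Cr_eq, ← Cr_eq]
      calc Cr A f L L + Cr A f R R ≤ Cr A f (L ∪ R) (L ∪ R) := by
            rw [Cr_union_left A f _ _ _ hLR, Cr_union_right A f _ _ _ hLR,
              Cr_union_right A f _ _ _ hLR]
            omega
        _ ≤ Cr A f V V := by
            rw [Cr_eq, Cr_eq]
            apply W_mono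
            · exact Finset.filter_subset_filter _ (Finset.union_subset hLV hRV)
            · exact Finset.filter_subset_filter _ (Finset.union_subset hLV hRV)
    have eL : W A L L = W A (L.filter (fun c => f c = true)) (L.filter (fun c => f c = true)) +
        2 * W A (L.filter (fun c => f c = true)) (L.filter (fun c => f c = false)) +
        W A (L.filter (fun c => f c = false)) (L.filter (fun c => f c = false)) := by
      conv_lhs => rw [← filter_union_bool f L]
      rw [W_union_left A _ _ _ (filter_disj_bool f L), W_union_right A _ _ _ (filter_disj_bool f L),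
        W_union_right A _ _ _ (filter_disj_bool f L),
        W_comm A hsym (L.filter (fun c => f c = false)) (L.filter (fun c => f c = true))]
      ring
    have eR : W A R R = W A (R.filter (fun c => f c = true)) (R.filter (fun c => f c = true)) +
        2 * W A (R.filter (fun c => f c = true)) (R.filter (fun c => f c = false)) +
        W A (R.filter (fun c => f c = false)) (R.filter (fun c => f c = false)) := by
      conv_lhs => rw [← filter_union_bool f R]
      rw [W_union_left A _ _ _ (filter_disj_bool f R), W_union_right A _ _ _ (filter_disj_bool f R),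
        W_union_right A _ _ _ (filter_disj_bool f R),
        W_comm A hsym (R.filter (fun c => f c = false)) (R.filter (fun c => f c = true))]
      ring
    have s1 := W_self_le A h0 h1 (L.filter (fun c => f c = true))
    have s2 := W_self_le A h0 h1 (R.filter (fun c => f c = true))
    rw [hLtc] at s1 hLsum
    rw [hRtc] at s2 hRsum
    have t1 : a * a + k * (k + 1) = 2 * k * a + a := by rcases ha with rfl | rfl <;> ring
    have t2 : b * b + k * (k + 1) = 2 * k * b + b := by rcases hb with rfl | rfl <;> ring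
    rw [eL, eR, ← hLsum, ← hRsum]
    have t3 : ∀ P Q : ℕ, 2 * k * (a + P + (b + Q)) = 2 * k * (P + Q) + 2 * k * a + 2 * k * b := by
      intro P Q; ring
    rw [t3]
    have t4 : (m + 1) * K = m * K + K := by ring
    have t5 : (m + 1 + 1) * (k * (k + 1)) = (m + 1) * (k * (k + 1)) + k * (k + 1) := by ring
    rw [t4, t5]
    linarith

theorem boundG (x y : ι → ℝ) (V : Finset ι) (k K : ℕ) (hk : 1 ≤ k)
    (hsym : ∀ c d, A c d = A d c) (h0 : ∀ c, A c c = 0) (h1 : ∀ c d, A c d ≤ 1)
    (hK : ∀ α β : ℝ, (∀ r ∈ V, y r ≠ α * x r + β) →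
      Cr A (fun r => decide (α * x r + β < y r)) V V ≤ K)
    (hgp : ∀ α β : ℝ, ∀ p ∈ V, ∀ q ∈ V, p ≠ q → y p = α * x p + β → y q = α * x q + β →
        ∀ r ∈ V, y r = α * x r + β → r = p ∨ r = q)
    (L₀ R₀ : Finset ι) (hLR : V = L₀ ∪ R₀) (hL : ∀ p ∈ L₀, x p < 0)
    (hR : ∀ p ∈ R₀, 0 < x p) (hK0 : W A L₀ R₀ ≤ K) (m : ℕ) (hm : 1 ≤ m)
    (hl1 : m * k ≤ L₀.card) (hl2 : L₀.card ≤ m * (k + 1)) (hr1 : m * k ≤ R₀.card)
    (hr2 : R₀.card ≤ m * (k + 1)) :
    W A V V + 2 * (m * (k * (k + 1))) ≤ 2 * k * V.card + 2 * (m * K) := by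
  obtain ⟨m', rfl⟩ : ∃ m', m = m' + 1 := ⟨m - 1, by omega⟩
  have hdisj : Disjoint L₀ R₀ := by
    rw [Finset.disjoint_left]; intro c h h'; linarith [hL c h, hR c h']
  have := peelG A x y V k K hk hsym h0 h1 hK hgp m' L₀ R₀
    (by rw [hLR]; exact Finset.subset_union_left) (by rw [hLR]; exact Finset.subset_union_right)
    hL hR hl1 hl2 hr1 hr2
  rw [hLR, Finset.card_union_of_disjoint hdisj, W_union_left A _ _ _ hdisj,
    W_union_right A _ _ _ hdisj, W_union_right A _ _ _ hdisj, W_comm A hsym R₀ L₀]
  nlinarith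

end one

section plane

variable (V : Finset (ℝ × ℝ)) (E : Finset (Sym2 (ℝ × ℝ)))

/-- The peeling bound with blocks of `k` or `k + 1` points. -/
theorem planeG (hGP : GP V) (hEV : ∀ e ∈ E, ∀ p ∈ e, p ∈ V) (hE : ∀ e ∈ E, ¬ e.IsDiag)
    (k K : ℕ) (hk : 1 ≤ k) (hK : AllLinesLe V E K) (m : ℕ) (hm : 1 ≤ m)
    (hn1 : 2 * m * k ≤ V.card) (hn2 : V.card ≤ 2 * m * (k + 1)) :
    E.card + m * (k * (k + 1)) ≤ V.card * k + m * K := by
  classical
  obtain ⟨t, ht⟩ := exists_shear V
  obtain ⟨c, hc1, hc2⟩ := exists_threshold (fun p : ℝ × ℝ => p.1 + t * p.2) V ht (V.card / 2) (by omega)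
  have hsplit : V = V.filter (fun p => p.1 + t * p.2 < c) ∪ V.filter (fun p => ¬ p.1 + t * p.2 < c) := by
    rw [Finset.filter_union_filter_not_eq]
  have hdisj : Disjoint (V.filter (fun p => p.1 + t * p.2 < c))
    (V.filter (fun p => ¬ p.1 + t * p.2 < c)) := Finset.disjoint_filter_filter_not _ _ _
  have hcard : (V.filter (fun p => ¬ p.1 + t * p.2 < c)).card = V.card - V.card / 2 := by
    have := Finset.card_union_of_disjoint hdisj
    rw [← hsplit, hc2] at this; omega
  have h2 := card_le_half V E (fun p => p.1 + t * p.2) ht hEV hE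
  have e1 : 2 * m * k = 2 * (m * k) := by ring
  have e2 : 2 * m * (k + 1) = 2 * (m * (k + 1)) := by ring
  have := boundG (Adj E) (fun p : ℝ × ℝ => p.1 + t * p.2 - c) (fun p => p.2) V k K hk
    (Adj_symm E) (Adj_self E hE) (Adj_le E) (fun α β h => hK_of V E _ hK t c α β h)
    (by
      intro α β p hp q hq hpq h1 h2 r hr h3
      by_contra hcon
      push Not at hcon
      exact hGP p hp q hq r hr hpq (Ne.symm hcon.1) (Ne.symm hcon.2)
        (collinear_of_line t c α β p q r h1 h2 h3))
    _ _ hsplit
    (by intro p hp; rw [Finset.mem_filter] at hp; linarith [hp.2])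
    (by
      intro p hp; rw [Finset.mem_filter, not_lt] at hp
      have := lt_of_le_of_ne hp.2 (hc1 p hp.1).symm
      linarith)
    (by
      refine le_trans (W_le_cross E _ _ (fun p => 1 * p.1 + t * p.2) c ?_ ?_)
        (hK 1 t c (Or.inl one_ne_zero) ?_)
      · intro p hp; rw [Finset.mem_filter] at hp; simp only [one_mul]; exact hp.2
      · intro p hp; rw [Finset.mem_filter, not_lt] at hp; simp only [one_mul]
        exact lt_of_le_of_ne hp.2 (hc1 p hp.1).symm
      · intro p hp; rw [one_mul]; exact hc1 p hp)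
    m hm (by rw [hc2]; omega) (by rw [hc2]; omega) (by rw [hcard]; omega) (by rw [hcard]; omega)
  have h3 : 2 * E.card + 2 * (m * (k * (k + 1))) ≤ 2 * (V.card * k) + 2 * (m * K) := by
    calc 2 * E.card + 2 * (m * (k * (k + 1))) ≤ 2 * k * V.card + 2 * (m * K) :=
          (Nat.add_le_add_right h2 _).trans this
      _ = 2 * (V.card * k) + 2 * (m * K) := by ring
  omega

end plane

end Pool.Agent.H994E
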