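import Mathlib
import Pool.Agent.H994E.FStubs
import Pool.Agent.H994E.FA
import Pool.Agent.H994E.FB
import Pool.Agent.H994E.FC
import Pool.Agent.H994E.FD
import Pool.Agent.H994E.FD2
import Pool.Agent.H994E.FE
import Pool.Agent.H994E.FF
import Pool.Agent.H994E.FK
import Pool.Agent.H994E.PeelG

/-!
# MP_b5bf4a_co: sparse upper bound and exact values from the peeling bound
-/

namespace Pool.Agent.H994E

open Finset Pool.Agent.LinesCross

/-- general upper bound -/
theorem fL_up (n k s m : ℕ) (hs : 1 ≤ s) (hm : 1 ≤ m) (hk : 1 ≤ k) (h1 : 2 * m * s ≤ n)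
    (h2 : n ≤ 2 * m * (s + 1)) :
    fnk n k + m * (s * (s + 1)) ≤ n * s + m * (k - 1) + 1 := by
  have hge : m * (s * (s + 1)) ≤ n * s := by
    have h3 : 2 * m * s * s ≤ n * s := Nat.mul_le_mul_right _ h1
    have h4 : m * (s * (s + 1)) ≤ 2 * m * s * s := by
      have h5 : m * (s * 1) ≤ m * (s * s) := Nat.mul_le_mul_left _ (Nat.mul_le_mul_left _ hs)
      calc m * (s * (s + 1)) = m * (s * s) + m * (s * 1) := by ring
        _ ≤ m * (s * s) + m * (s * s) := Nat.add_le_add_left h5 _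
        _ = 2 * m * s * s := by ring
    exact h4.trans h3
  have hf : fnk n k ≤ n * s + m * (k - 1) + 1 - m * (s * (s + 1)) := by
    apply fE_proof.1
    apply fF_proof n k _ hk
    intro V E hGP hEV hE hV hcard hK
    have := planeG V E hGP hEV hE s (k - 1) hs hK m hm (by rw [hV]; exact h1)
      (by rw [hV]; exact h2)
    rw [hV] at this
    omega
  omega

/-- exact values on `2 m (q + 1)` points, odd `k` -/
theorem fL_odd (q m j : ℕ) (hm : 1 ≤ m) (hj : j ≤ q + 1) (h : 2 ≤ m ∨ 2 * j ≤ q + 1) :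
    fnk (2 * m * (q + 1)) (q ^ 2 + q + 2 * j + 1) = 2 * m * (q + 1) * q + 2 * m * j + 1 := by
  apply le_antisymm
  · have := fL_up (2 * m * (q + 1)) (q ^ 2 + q + 2 * j + 1) (q + 1) m (by omega) hm (by omega)
      le_rfl (Nat.mul_le_mul_left _ (by omega))
    rw [Nat.add_sub_cancel] at this
    have e1 : 2 * m * (q + 1) * (q + 1) + m * (q ^ 2 + q + 2 * j) + 1 =
      (2 * m * (q + 1) * q + 2 * m * j + 1) + m * ((q + 1) * (q + 1 + 1)) := by ring
    omega
  · apply fE_proof.2
    rcases Nat.lt_or_ge m 2 with hm2 | hm2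
    · obtain rfl : m = 1 := by omega
      obtain ⟨G, hG1, hG2, hG3⟩ := gD_diam q (2 * j) (by omega)
      refine ⟨G, by rw [hG1]; ring, ?_, fun l hl hlp => ?_⟩
      · rw [hG2]; apply le_of_eq; ring
      · have := hG3 l hl hlp
        have e : q * (q + 1) = q ^ 2 + q := by ring
        omega
    · have hn : 0 < 2 * m * (q + 1) := by positivity
      have hn4 : 4 * (q + 1) ≤ 2 * m * (q + 1) := Nat.mul_le_mul_right _ (by omega)
      have hXm : 2 * m * j ≤ 2 * m * (q + 1) := Nat.mul_le_mul_left _ hj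
      obtain ⟨X, hX1, hX2, hX3⟩ := fA_proof (2 * m * (q + 1)) (2 * m * j) hn hXm
      obtain ⟨G, hG1, hG2, hG3⟩ := fD_proof fB_proof fC_proof (2 * m * (q + 1)) q (2 * m * j) j X
        hX1 hX2 (Or.inl (by omega)) (fun s => by
          refine (hX3 s (q + 1) (by omega)).trans ?_
          apply Nat.le_of_lt_succ
          rw [Nat.div_lt_iff_lt_mul hn]
          have e : 2 * m * j * (q + 1) = j * (2 * m * (q + 1)) := by ring
          rw [e, Nat.succ_eq_add_one, Nat.add_mul, one_mul]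
          omega)
      refine ⟨G, hG1, by omega, fun l hl hlp => ?_⟩
      have := hG3 l hl hlp
      have e : q * (q + 1) = q ^ 2 + q := by ring
      omega

/-- exact values on an even number of points, dense end -/
theorem fL_even (q r : ℕ) (hr : r ≤ q + 1) :
    fnk (2 * q + 2) (q ^ 2 + q + r + 1) = (2 * q + 2) * q + r + 1 := by
  apply le_antisymm
  · have := fL_up (2 * q + 2) (q ^ 2 + q + r + 1) (q + 1) 1 (by omega) le_rfl (by omega)
      (by omega) (by omega)
    rw [Nat.add_sub_cancel] at this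
    have e1 : (2 * q + 2) * (q + 1) + 1 * (q ^ 2 + q + r) + 1 =
      ((2 * q + 2) * q + r + 1) + 1 * ((q + 1) * (q + 1 + 1)) := by ring
    omega
  · apply fE_proof.2
    obtain ⟨G, hG1, hG2, hG3⟩ := gD_diam q r hr
    refine ⟨G, hG1, by omega, fun l hl hlp => ?_⟩
    have := hG3 l hl hlp
    have e : q * (q + 1) = q ^ 2 + q := by ring
    omega

/-- lower bound for all `n` -/
theorem fL_low (n q r : ℕ) (hr : r ≤ 2 * q + 3) (hn : 2 * q + 3 ≤ n) :
    n * q + n * (r / 2) / (q + 1) + 1 ≤ fnk n (q ^ 2 + q + r + 1) := by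
  apply fE_proof.2
  obtain ⟨X, hX1, hX2, hX3⟩ := fA_proof n (n * (r / 2) / (q + 1)) (by omega) (by
    apply Nat.div_le_of_le_mul
    have : r / 2 ≤ q + 1 := by omega
    calc n * (r / 2) ≤ n * (q + 1) := Nat.mul_le_mul_left _ this
      _ = (q + 1) * n := by ring)
  obtain ⟨G, hG1, hG2, hG3⟩ := fD_proof fB_proof fC_proof n q (n * (r / 2) / (q + 1)) (r / 2) X
    hX1 hX2 (Or.inl hn) (fun s => (hX3 s (q + 1) (by omega)).trans
      (fK_c n q r _ (by omega) rfl))
  refine ⟨G, hG1, by omega, fun l hl hlp => ?_⟩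
  have := hG3 l hl hlp
  have e : q * (q + 1) = q ^ 2 + q := by ring
  omega

end Pool.Agent.H994E
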