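import Mathlib
import Pool.Agent.H994E.FStubs
import Pool.Agent.H994E.FL
import Pool.Agent.H994E.Loop

/-!
# MP_b5bf4a_co: second-order bounds
-/

namespace Pool.Agent.H994E

open Finset Pool.Agent.LinesCross

/-- upper bound, all densities -/
theorem fM_up (n k : ℕ) (hk : 1 ≤ k) (hkn : 4 * k ≤ n ^ 2) :
    (fnk n k : ℝ) ≤ n * (Real.sqrt k - 1 / 2) + 3 * (k * Real.sqrt k) / (4 * n) + 1 := by
  have hn : 2 ≤ n := by
    by_contra h
    have h1 : n ≤ 1 := by omega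
    have h2 : n ^ 2 ≤ 1 ^ 2 := Nat.pow_le_pow_left h1 2
    omega
  have hn0 : (0 : ℝ) < n := by exact_mod_cast (by omega : 0 < n)
  have hk0 : (0 : ℝ) ≤ k := Nat.cast_nonneg k
  rcases Nat.eq_or_lt_of_le hk with h1 | hk2
  · subst h1
    have h := fL_up n 1 1 (n / 2) le_rfl (by omega) le_rfl (by omega) (by omega)
    have h2 : fnk n 1 ≤ 2 := by omega
    have h3 : (fnk n 1 : ℝ) ≤ 2 := by exact_mod_cast h2
    have h4 : (2 : ℝ) ≤ n := by exact_mod_cast hn
    have h5 : (0 : ℝ) ≤ 3 * (((1 : ℕ) : ℝ) * Real.sqrt ((1 : ℕ) : ℝ)) / (4 * n) := by positivity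
    have h6 : Real.sqrt ((1 : ℕ) : ℝ) = 1 := by simp
    rw [h6] at h5 ⊢
    linarith
  · set R : ℝ := Real.sqrt k with hR
    have hR2 : R ^ 2 = k := Real.sq_sqrt hk0
    have hR1 : 1 < R := by
      rw [hR, Real.lt_sqrt (by norm_num)]
      simpa using (by exact_mod_cast hk2 : (1 : ℝ) < k)
    have hR0 : 0 < R := by linarith
    have hnR : 2 * R ≤ n := by
      have h1 : (4 : ℝ) * k ≤ (n : ℝ) ^ 2 := by exact_mod_cast hkn
      nlinarith
    set m : ℕ := ⌊(n : ℝ) / (2 * R) + 1 / 2⌋₊ with hm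
    have hμ0 : 0 ≤ (n : ℝ) / (2 * R) + 1 / 2 := by positivity
    have hm1 : (m : ℝ) ≤ (n : ℝ) / (2 * R) + 1 / 2 := Nat.floor_le hμ0
    have hm2 : (n : ℝ) / (2 * R) + 1 / 2 < m + 1 := Nat.lt_floor_add_one _
    have hμ1 : 1 ≤ (n : ℝ) / (2 * R) := by rw [le_div_iff₀ (by positivity)]; linarith
    have hm1' : 1 ≤ m := by
      rw [hm, Nat.one_le_floor_iff]
      linarith
    have hmR : (1 : ℝ) ≤ m := by exact_mod_cast hm1'
    have hμeq : (n : ℝ) / (2 * R) * (2 * R) = n := by field_simp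
    -- in terms of n
    have ha : 2 * m * R ≤ n + R := by nlinarith
    have hb : (n : ℝ) < 2 * m * R + R := by nlinarith
    have h2m : 2 * m ≤ n := by
      by_contra h
      have h3 : (n : ℝ) + 1 ≤ 2 * m := by exact_mod_cast (by omega : n + 1 ≤ 2 * m)
      nlinarith
    set s : ℕ := n / (2 * m) with hs
    have hs1 : 1 ≤ s := by
      rw [hs, Nat.le_div_iff_mul_le (by omega)]; omega
    have hs2 : 2 * m * s ≤ n := Nat.mul_div_le _ _
    have hs3 : n ≤ 2 * m * (s + 1) := (Nat.lt_mul_div_succ n (by omega)).le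
    have h := fL_up n k s m hs1 hm1' hk hs2 hs3
    have h' : (fnk n k : ℝ) + m * (s * (s + 1)) ≤ n * s + m * ((k : ℝ) - 1) + 1 := by
      have h2 : ((k - 1 : ℕ) : ℝ) = (k : ℝ) - 1 := by push_cast [Nat.cast_sub hk]; ring
      rw [← h2]
      exact_mod_cast h
    have hA : 4 * (m : ℝ) * (n * s - m * (s * (s + 1))) ≤ (n : ℝ) ^ 2 - 2 * n * m + m ^ 2 := by
      nlinarith [sq_nonneg ((n : ℝ) - 2 * m * s - m)]
    have hB : 4 * (m : ℝ) * (fnk n k - 1) ≤ (n : ℝ) ^ 2 - 2 * n * m + 4 * m ^ 2 * k := by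
      nlinarith
    have hC : ((n : ℝ) - 2 * m * R) ^ 2 ≤ k := by
      rw [← hR2]
      apply sq_le_sq'
      · linarith
      · linarith
    have hD : (n : ℝ) ≤ 3 * m * R := by
      nlinarith
    have hE : (k : ℝ) ≤ 4 * m * (3 * (k * R) / (4 * n)) := by
      have h1 : 4 * m * (3 * (k * R) / (4 * n)) = k * (3 * m * R) / n := by
        field_simp
      rw [h1, le_div_iff₀ hn0]
      gcongr
    have hm0 : (0 : ℝ) < 4 * m := by linarith
    have hF : 4 * (m : ℝ) * (fnk n k - 1) ≤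
        4 * m * (n * (R - 1 / 2) + 3 * (k * R) / (4 * n)) := by
      have h1 : 4 * (m : ℝ) * (n * (R - 1 / 2) + 3 * (k * R) / (4 * n)) =
        4 * m * n * R - 2 * n * m + 4 * m * (3 * (k * R) / (4 * n)) := by ring
      rw [h1]
      have h2 : 4 * (m : ℝ) ^ 2 * k = (2 * m * R) ^ 2 := by rw [← hR2]; ring
      nlinarith
    have hG := le_of_mul_le_mul_left hF hm0
    linarith

theorem fM_pos (k : ℕ) (hk : 1 ≤ k) : ∃ q r : ℕ, r ≤ 2 * q + 1 ∧ k = q ^ 2 + q + r + 1 := by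
  classical
  have hex : ∃ q : ℕ, k ≤ (q + 1) * (q + 2) := ⟨k, by nlinarith⟩
  have h1 := Nat.find_spec hex
  have h2 : Nat.find hex * (Nat.find hex + 1) < k := by
    rcases Nat.eq_zero_or_pos (Nat.find hex) with h0 | h0
    · rw [h0]; omega
    · have := Nat.find_min hex (m := Nat.find hex - 1) (by omega)
      obtain ⟨r, hr⟩ : ∃ r, Nat.find hex = r + 1 := ⟨Nat.find hex - 1, by omega⟩
      rw [hr] at this ⊢
      simp only [Nat.add_sub_cancel] at this
      push Not at this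
      exact this
  generalize Nat.find hex = q at h1 h2
  obtain ⟨r, hr⟩ : ∃ r, k = q * (q + 1) + 1 + r := ⟨k - (q * (q + 1) + 1), by omega⟩
  refine ⟨q, r, ?_, ?_⟩
  · nlinarith
  · rw [hr]; ring

/-- lower bound, all densities -/
theorem fM_low (n k : ℕ) (hk : 1 ≤ k) (hkn : 4 * k ≤ n ^ 2) :
    (n : ℝ) * (Real.sqrt k - 1 / 2 - 2 / Real.sqrt k) < fnk n k := by
  have hn : 2 ≤ n := by
    by_contra h
    have h1 : n ≤ 1 := by omega
    have h2 : n ^ 2 ≤ 1 ^ 2 := Nat.pow_le_pow_left h1 2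
    omega
  have hn0 : (0 : ℝ) < n := by exact_mod_cast (by omega : 0 < n)
  have hk0 : (0 : ℝ) < k := by exact_mod_cast hk
  obtain ⟨q, r, hr, hkq⟩ := fM_pos k hk
  have hkR : (k : ℝ) = (q : ℝ) ^ 2 + q + r + 1 := by rw [hkq]; push_cast; ring
  have hR2 : Real.sqrt k ^ 2 = k := Real.sq_sqrt hk0.le
  have hR0 : 0 < Real.sqrt k := Real.sqrt_pos.2 hk0
  have hq0 : (0 : ℝ) ≤ q := Nat.cast_nonneg q
  have hr0 : (0 : ℝ) ≤ r := Nat.cast_nonneg r
  have hr' : (r : ℝ) ≤ 2 * q + 1 := by exact_mod_cast hr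
  -- the combinatorial lower bound
  have hcomb : (n : ℝ) * (q + (r - 1) / (2 * (q + 1))) < fnk n k := by
    have hn2 : 2 * q + 2 ≤ n := by
      by_contra h
      have h1 : n ≤ 2 * q + 1 := by omega
      have h2 : n ^ 2 ≤ (2 * q + 1) ^ 2 := Nat.pow_le_pow_left h1 2
      nlinarith
    rcases Nat.eq_or_lt_of_le hn2 with h | h
    · have hrq : r ≤ q + 1 := by
        rw [← h] at hkn
        nlinarith
      have h1 := fL_even q r hrq
      rw [h, ← hkq] at h1
      have h2 : (fnk n k : ℝ) = n * q + r + 1 := by rw [h1]; push_cast; ring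
      have h3 : (n : ℝ) = 2 * (q + 1) := by rw [← h]; push_cast; ring
      have h4 : (n : ℝ) * (q + (r - 1) / (2 * (q + 1))) = n * q + (r - 1) := by
        rw [mul_add]
        congr 1
        rw [h3]
        field_simp
      rw [h4, h2]
      linarith
    · have h1 := fL_low n q r (by omega) h
      rw [← hkq] at h1
      have h2 : n * (r / 2) < (q + 1) * (n * (r / 2) / (q + 1) + 1) :=
        Nat.lt_mul_div_succ _ (by omega)
      have h3 : (n : ℝ) * ((r / 2 : ℕ) : ℝ) < (q + 1) * ((n * (r / 2) / (q + 1) : ℕ) + 1) := by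
        exact_mod_cast h2
      have h4 : (n : ℝ) * q + (n * (r / 2) / (q + 1) : ℕ) + 1 ≤ fnk n k := by exact_mod_cast h1
      have h5 : (r : ℝ) - 1 ≤ 2 * ((r / 2 : ℕ) : ℝ) := by
        have : r ≤ 2 * (r / 2) + 1 := by omega
        have h6 : (r : ℝ) ≤ 2 * ((r / 2 : ℕ) : ℝ) + 1 := by exact_mod_cast this
        linarith
      have h6 : (n : ℝ) * ((r - 1) / (2 * (q + 1))) < (n * (r / 2) / (q + 1) : ℕ) + 1 := by
        rw [← mul_div_assoc, div_lt_iff₀ (by positivity)]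
        have h7 : (n : ℝ) * (r - 1) ≤ n * (2 * ((r / 2 : ℕ) : ℝ)) := by gcongr
        nlinarith
      rw [mul_add]
      linarith
  refine lt_of_le_of_lt ?_ hcomb
  apply mul_le_mul_of_nonneg_left _ hn0.le
  rcases Nat.eq_zero_or_pos q with h0 | h0
  · subst h0
    have hk2 : (k : ℝ) ≤ 2 := by
      rw [hkR]; push_cast; push_cast at hr'; linarith
    have h1 : Real.sqrt k ≤ 2 / Real.sqrt k := by
      rw [le_div_iff₀ hR0, ← sq, hR2]; exact hk2
    push_cast
    have h2 : (r - 1 : ℝ) / (2 * (0 + 1)) = r / 2 - 1 / 2 := by ring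
    rw [h2]
    linarith
  · have hq1 : (1 : ℝ) ≤ q := by exact_mod_cast h0
    have h1 : Real.sqrt k ≤ q + 1 / 2 + (r + 3 / 4) / (2 * q + 1) := by
      apply Real.sqrt_le_iff.2
      refine ⟨by positivity, ?_⟩
      have h2 : (2 * (q : ℝ) + 1) * ((r + 3 / 4) / (2 * q + 1)) = r + 3 / 4 := by
        field_simp
      have h3 : 0 ≤ ((r : ℝ) + 3 / 4) / (2 * q + 1) := by positivity
      rw [hkR]
      nlinarith [sq_nonneg (((r : ℝ) + 3 / 4) / (2 * q + 1))]
    have h2 : Real.sqrt k ≤ q + 3 / 2 := by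
      apply Real.sqrt_le_iff.2
      refine ⟨by positivity, ?_⟩
      rw [hkR]
      nlinarith
    have h3 : 4 / (2 * (q : ℝ) + 3) ≤ 2 / Real.sqrt k := by
      rw [div_le_div_iff₀ (by positivity) hR0]
      linarith
    have h4 : (r + 3 / 4 : ℝ) / (2 * q + 1) - (r - 1) / (2 * (q + 1)) ≤ 4 / (2 * (q : ℝ) + 3) := by
      rw [div_sub_div _ _ (by positivity) (by positivity), div_le_div_iff₀ (by positivity) (by positivity)]
      nlinarith [mul_nonneg hq0 hq0, mul_nonneg hq0 hr0]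
    linarith

/-- upper bound, dense range -/
theorem fM_dense (n k : ℕ) (hk : 1 ≤ k) (hkn : 4 * k ≤ n ^ 2) (h16 : n ^ 2 ≤ 16 * k) :
    (fnk n k : ℝ) ≤ n * (Real.sqrt k - 1 / 2) + 1 := by
  have hn : 2 ≤ n := by
    by_contra h
    have h1 : n ≤ 1 := by omega
    have h2 : n ^ 2 ≤ 1 ^ 2 := Nat.pow_le_pow_left h1 2
    omega
  have hn0 : (0 : ℝ) < n := by exact_mod_cast (by omega : 0 < n)
  have hk0 : (0 : ℝ) < k := by exact_mod_cast hk
  have hR2 : Real.sqrt k ^ 2 = k := Real.sq_sqrt hk0.le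
  have hR0 : 0 < Real.sqrt k := Real.sqrt_pos.2 hk0
  have hR1 : 1 ≤ Real.sqrt k := by
    rw [Real.one_le_sqrt]; exact_mod_cast hk
  set s : ℝ := n * (Real.sqrt k - 1 / 2) with hs
  have hs0 : 0 ≤ s := by
    apply mul_nonneg hn0.le; linarith
  have hle : fnk n k ≤ ⌈s⌉₊ := by
    refine fE_proof.1 n k _ (fF_proof n k _ hk ?_)
    intro V E hV hVE hEd hVc hEc hA
    have h1 : s ≤ E.card := le_trans (Nat.le_ceil s) (by exact_mod_cast hEc)
    have h2 : (n : ℝ) ≤ 4 * Real.sqrt k := by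
      have h16' : (n : ℝ) ^ 2 ≤ 16 * k := by exact_mod_cast h16
      nlinarith
    have h3 : (n : ℝ) ^ 2 ≤ 4 * E.card + 2 * n := by
      have : (n : ℝ) * n ≤ n * (4 * Real.sqrt k) := by gcongr
      have h4 : 4 * s + 2 * n = n * (4 * Real.sqrt k) := by rw [hs]; ring
      nlinarith
    have hd : V.card ^ 2 ≤ 4 * E.card + 2 * V.card := by
      rw [hVc]; exact_mod_cast h3
    have h5 := dense_sharp V E (k - 1) hV hVE hEd hA (by omega) hd
    rw [hVc] at h5
    have h6 : (2 * (E.card : ℝ) + n) ^ 2 ≤ 4 * n ^ 2 * ((k : ℝ) - 1) + 2 * n ^ 2 := by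
      have h7 : ((k - 1 : ℕ) : ℝ) = (k : ℝ) - 1 := by push_cast [Nat.cast_sub hk]; ring
      rw [← h7]
      exact_mod_cast h5
    have h8 : 2 * (n * Real.sqrt k) ≤ 2 * (E.card : ℝ) + n := by
      have : 2 * s = 2 * (n * Real.sqrt k) - n := by rw [hs]; ring
      linarith
    have h9 : (2 * (n * Real.sqrt k)) ^ 2 ≤ (2 * (E.card : ℝ) + n) ^ 2 := by
      gcongr
    have h10 : (2 * (n * Real.sqrt k)) ^ 2 = 4 * n ^ 2 * k := by
      rw [mul_pow, mul_pow, hR2]; ring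
    nlinarith
  calc (fnk n k : ℝ) ≤ (⌈s⌉₊ : ℝ) := by exact_mod_cast hle
    _ ≤ s + 1 := (Nat.ceil_lt_add_one hs0).le

end Pool.Agent.H994E
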