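import Mathlib
import Pool.Agent.H994E.FStubs
import Pool.Agent.H994E.FL

/-!
# MP_b5bf4a_co: the sparse window
-/

namespace Pool.Agent.H994E

open Finset Pool.Agent.LinesCross

theorem fN_arith (a b c N : ℕ) (hab : a ≤ b) (hc : N ≤ 4 * c) : a * N ≤ a * b + c * N := by
  zify at *
  nlinarith [sq_nonneg (2 * (a : ℤ) - N)]

theorem fN_win (n q j : ℕ) (hj : j ≤ q) (hn : 2 * q * (q + 1) ≤ n) (hn3 : 2 * q + 3 ≤ n) :
    fnk n (q ^ 2 + q + 2 * j + 1) ≤ n * q + n * j / (q + 1) + 1 + (q + 2) / 2 := by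
  obtain ⟨m, t, ht, hmt⟩ : ∃ m t, t < 2 * (q + 1) ∧ n = 2 * (q + 1) * m + t :=
    ⟨n / (2 * (q + 1)), n % (2 * (q + 1)), Nat.mod_lt _ (by omega), (Nat.div_add_mod _ _).symm⟩
  have hm1 : 1 ≤ m := by
    by_contra h
    have : m = 0 := by omega
    subst this
    omega
  have hmq : q ≤ m := by
    by_contra h
    have h1 : m + 1 ≤ q := by omega
    have h2 : 2 * (q + 1) * (m + 1) ≤ 2 * (q + 1) * q := Nat.mul_le_mul_left _ h1
    have h3 : 2 * (q + 1) * q = 2 * q * (q + 1) := by ring
    have h4 : 2 * (q + 1) * (m + 1) = 2 * (q + 1) * m + 2 * (q + 1) := by ring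
    omega
  have hdiv : n * j / (q + 1) = 2 * m * j + t * j / (q + 1) := by
    have e : n * j = t * j + (q + 1) * (2 * m * j) := by rw [hmt]; ring
    rw [e, Nat.add_mul_div_left _ _ (by omega : 0 < q + 1)]
    omega
  have hj2 : q + 1 ≤ 2 * ((q + 2) / 2) := by omega
  -- two upper bounds
  have hU1 : t ≤ 2 * m → fnk n (q ^ 2 + q + 2 * j + 1) ≤ n * q + t + 2 * m * j + 1 := by
    intro htm
    have h := fL_up n (q ^ 2 + q + 2 * j + 1) (q + 1) m (by omega) hm1 (by omega)
      (by rw [hmt]; have : 2 * m * (q + 1) = 2 * (q + 1) * m := by ring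
          omega)
      (by rw [hmt]; have : 2 * m * (q + 1 + 1) = 2 * (q + 1) * m + 2 * m := by ring
          omega)
    rw [Nat.add_sub_cancel] at h
    have e1 : n * (q + 1) + m * (q ^ 2 + q + 2 * j) + 1 =
      (n * q + t + 2 * m * j + 1) + m * ((q + 1) * (q + 1 + 1)) := by
      rw [hmt]; ring
    omega
  have hU2 : 1 ≤ q → fnk n (q ^ 2 + q + 2 * j + 1) ≤ n * q + 2 * (m + 1) * j + 1 := by
    intro hq
    have h := fL_up n (q ^ 2 + q + 2 * j + 1) q (m + 1) hq (by omega) (by omega)
      (by rw [hmt]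
          have e : 2 * (m + 1) * q = 2 * m * q + 2 * q := by ring
          have e2 : 2 * (q + 1) * m = 2 * m * q + 2 * m := by ring
          omega)
      (by rw [hmt]
          have e : 2 * (m + 1) * (q + 1) = 2 * (q + 1) * m + 2 * (q + 1) := by ring
          omega)
    rw [Nat.add_sub_cancel] at h
    have e1 : n * q + (m + 1) * (q ^ 2 + q + 2 * j) + 1 =
      (n * q + 2 * (m + 1) * j + 1) + (m + 1) * (q * (q + 1)) := by
      ring
    omega
  have hdm := Nat.lt_mul_div_succ (t * j) (by omega : 0 < q + 1)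
  have key : min (2 * j) t ≤ t * j / (q + 1) + (q + 2) / 2 := by
    rw [← Nat.sub_le_iff_le_add, Nat.le_div_iff_mul_le (by omega : 0 < q + 1), Nat.sub_mul,
      Nat.sub_le_iff_le_add]
    rcases Nat.le_total (2 * j) t with h | h
    · rw [Nat.min_eq_left h]
      have := fN_arith (2 * j) t ((q + 2) / 2) (2 * (q + 1)) h (by omega)
      nlinarith
    · rw [Nat.min_eq_right h]
      have := fN_arith t (2 * j) ((q + 2) / 2) (2 * (q + 1)) h (by omega)
      nlinarith
  rw [hdiv]
  rcases Nat.le_total (2 * j) t with h | h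
  · rw [Nat.min_eq_left h] at key
    rcases Nat.eq_zero_or_pos q with h0 | h0
    · subst h0
      have hj0 : j = 0 := by omega
      subst hj0
      have := hU1 (by omega)
      omega
    · have := hU2 h0
      have e : 2 * (m + 1) * j = 2 * m * j + 2 * j := by ring
      omega
  · rw [Nat.min_eq_right h] at key
    have := hU1 (by omega)
    omega

end Pool.Agent.H994E
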