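import Mathlib
import Pool.Agent.H994E.FStubs
import Pool.Agent.H994E.FL

/-!
# MP_b5bf4a_co: `n = 2 q + 3`
-/

namespace Pool.Agent.H994E

open Finset Pool.Agent.LinesCross

/-- a generic direction in which `a`, `b` are adjacent -/
theorem fO_dir (V : Finset (ℝ × ℝ)) (hGP : GP V) (a b : ℝ × ℝ) (ha : a ∈ V) (hb : b ∈ V)
    (hab : a ≠ b) : ∃ α β : ℝ,
    (∀ p ∈ V, ∀ p' ∈ V, α * p.1 + β * p.2 = α * p'.1 + β * p'.2 → p = p') ∧
    ∀ p ∈ V, p ≠ a → p ≠ b →
      0 < ((α * p.1 + β * p.2) - (α * a.1 + β * a.2)) *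
        ((α * p.1 + β * p.2) - (α * b.1 + β * b.2)) := by
  have h1 : ∀ p ∈ V, ∀ p' ∈ V, ∀ᶠ t : ℝ in nhdsWithin 0 (Set.Ioi 0),
      ((-(b.2 - a.2) + t) * p.1 + ((b.1 - a.1) + t ^ 2) * p.2 =
        (-(b.2 - a.2) + t) * p'.1 + ((b.1 - a.1) + t ^ 2) * p'.2 → p = p') := by
    intro p _ p' _
    by_cases hpp : p = p'
    · exact Filter.Eventually.of_forall fun _ _ => hpp
    set A : ℝ := -(b.2 - a.2) * (p.1 - p'.1) + (b.1 - a.1) * (p.2 - p'.2) with hA
    have hexp : ∀ t : ℝ, (-(b.2 - a.2) + t) * p.1 + ((b.1 - a.1) + t ^ 2) * p.2 -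
        ((-(b.2 - a.2) + t) * p'.1 + ((b.1 - a.1) + t ^ 2) * p'.2) =
        A + t * ((p.1 - p'.1) + t * (p.2 - p'.2)) := by
      intro t; rw [hA]; ring
    by_cases hA0 : A = 0
    · by_cases hB : p.1 - p'.1 = 0
      · have hC : p.2 - p'.2 ≠ 0 := by
          intro h; apply hpp; exact Prod.ext (by linarith) (by linarith)
        filter_upwards [self_mem_nhdsWithin] with t ht heq
        exfalso
        have h2 := hexp t
        rw [heq, sub_self, hA0, hB] at h2
        have ht0 : t ≠ 0 := ne_of_gt ht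
        have : t * (t * (p.2 - p'.2)) = 0 := by linarith
        rcases mul_eq_zero.1 this with h3 | h3
        · exact ht0 h3
        · rcases mul_eq_zero.1 h3 with h4 | h4
          · exact ht0 h4
          · exact hC h4
      · have hT : Filter.Tendsto (fun t : ℝ => (p.1 - p'.1) + t * (p.2 - p'.2))
            (nhdsWithin 0 (Set.Ioi 0)) (nhds (p.1 - p'.1)) :=
          (Continuous.tendsto' (by fun_prop) 0 _ (by simp)).mono_left nhdsWithin_le_nhds
        filter_upwards [self_mem_nhdsWithin, hT.eventually_ne hB] with t ht hne heq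
        exfalso
        have h2 := hexp t
        rw [heq, sub_self, hA0] at h2
        have ht0 : t ≠ 0 := ne_of_gt ht
        have : t * ((p.1 - p'.1) + t * (p.2 - p'.2)) = 0 := by linarith
        rcases mul_eq_zero.1 this with h3 | h3
        · exact ht0 h3
        · exact hne h3
    · have hT : Filter.Tendsto (fun t : ℝ => A + t * ((p.1 - p'.1) + t * (p.2 - p'.2)))
          (nhdsWithin 0 (Set.Ioi 0)) (nhds A) :=
        (Continuous.tendsto' (by fun_prop) 0 _ (by simp)).mono_left nhdsWithin_le_nhds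
      filter_upwards [hT.eventually_ne hA0] with t hne heq
      exfalso
      apply hne
      rw [← hexp t, heq, sub_self]
  have h2 : ∀ p ∈ V, ∀ᶠ t : ℝ in nhdsWithin 0 (Set.Ioi 0), (p ≠ a → p ≠ b →
      0 < (((-(b.2 - a.2) + t) * p.1 + ((b.1 - a.1) + t ^ 2) * p.2) -
        ((-(b.2 - a.2) + t) * a.1 + ((b.1 - a.1) + t ^ 2) * a.2)) *
        (((-(b.2 - a.2) + t) * p.1 + ((b.1 - a.1) + t ^ 2) * p.2) -
        ((-(b.2 - a.2) + t) * b.1 + ((b.1 - a.1) + t ^ 2) * b.2))) := by
    intro p hp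
    by_cases hpa : p = a
    · exact Filter.Eventually.of_forall fun _ h => absurd hpa h
    by_cases hpb : p = b
    · exact Filter.Eventually.of_forall fun _ _ h => absurd hpb h
    set D : ℝ := -(b.2 - a.2) * (p.1 - a.1) + (b.1 - a.1) * (p.2 - a.2) with hD
    have hD0 : D ≠ 0 := by
      intro h0
      apply hGP a ha b hb p hp hab (Ne.symm hpa) (Ne.symm hpb)
      rw [collinear_iff_of_mem (p₀ := a) (by simp)]
      refine ⟨b - a, ?_⟩
      intro x hx
      simp only [Set.mem_insert_iff, Set.mem_singleton_iff] at hx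
      rcases hx with rfl | rfl | rfl
      · exact ⟨0, by simp⟩
      · exact ⟨1, by simp⟩
      · by_cases hb1 : b.1 - a.1 = 0
        · have hb2 : b.2 - a.2 ≠ 0 := by
            intro h; apply hab; exact Prod.ext (by linarith) (by linarith)
          refine ⟨(x.2 - a.2) / (b.2 - a.2), ?_⟩
          have h3 : x.1 - a.1 = 0 := by
            rw [hD, hb1] at h0
            have : (b.2 - a.2) * (x.1 - a.1) = 0 := by linarith
            rcases mul_eq_zero.1 this with h | h
            · exact absurd h hb2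
            · exact h
          ext
          · simp only [vadd_eq_add, Prod.fst_add, Prod.smul_fst, Prod.fst_sub, smul_eq_mul]
            rw [hb1]; linarith
          · simp only [vadd_eq_add, Prod.snd_add, Prod.smul_snd, Prod.snd_sub, smul_eq_mul]
            field_simp
            ring
        · refine ⟨(x.1 - a.1) / (b.1 - a.1), ?_⟩
          have h3 : (b.1 - a.1) * (x.2 - a.2) = (b.2 - a.2) * (x.1 - a.1) := by
            rw [hD] at h0; linarith
          ext
          · simp only [vadd_eq_add, Prod.fst_add, Prod.smul_fst, Prod.fst_sub, smul_eq_mul]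
            field_simp
            ring
          · simp only [vadd_eq_add, Prod.snd_add, Prod.smul_snd, Prod.snd_sub, smul_eq_mul]
            field_simp
            linarith
    have hT : Filter.Tendsto (fun t : ℝ =>
        (((-(b.2 - a.2) + t) * p.1 + ((b.1 - a.1) + t ^ 2) * p.2) -
        ((-(b.2 - a.2) + t) * a.1 + ((b.1 - a.1) + t ^ 2) * a.2)) *
        (((-(b.2 - a.2) + t) * p.1 + ((b.1 - a.1) + t ^ 2) * p.2) -
        ((-(b.2 - a.2) + t) * b.1 + ((b.1 - a.1) + t ^ 2) * b.2)))
        (nhdsWithin 0 (Set.Ioi 0)) (nhds (D * D)) :=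
      (Continuous.tendsto' (by fun_prop) 0 _ (by rw [hD]; ring)).mono_left nhdsWithin_le_nhds
    have hDD : 0 < D * D := mul_self_pos.2 hD0
    filter_upwards [hT.eventually (lt_mem_nhds hDD)] with t ht _ _
    exact ht
  have h3 : ∀ᶠ t : ℝ in nhdsWithin 0 (Set.Ioi 0), ∀ p ∈ V, ∀ p' ∈ V,
      ((-(b.2 - a.2) + t) * p.1 + ((b.1 - a.1) + t ^ 2) * p.2 =
        (-(b.2 - a.2) + t) * p'.1 + ((b.1 - a.1) + t ^ 2) * p'.2 → p = p') :=
    (Filter.eventually_all_finset V).2 fun p hp =>
      (Filter.eventually_all_finset V).2 fun p' hp' => h1 p hp p' hp'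
  have h4 := (Filter.eventually_all_finset V).2 h2
  obtain ⟨t, ht3, ht4⟩ := (h3.and h4).exists
  exact ⟨_, _, ht3, ht4⟩

end Pool.Agent.H994E
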