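import Mathlib
import Pool.Agent.H994E.FStubs
import Pool.Agent.H994E.FL
import Pool.Agent.H994E.FK
import Pool.Agent.H994E.FG
import Pool.Agent.H994E.FO

/-!
# MP_b5bf4a_co: `n = 2 q + 3` and one more edge
-/

namespace Pool.Agent.H994E

open Finset Pool.Agent.LinesCross

open Classical in
/-- a line with `w` points below it meets `w (n - w)` of the pairs -/
theorem fP_cross (V : Finset (ℝ × ℝ)) (E : Finset (Sym2 (ℝ × ℝ))) (K : ℕ)
    (hA : AllLinesLe V E K) (α β c : ℝ) (hαβ : α ≠ 0 ∨ β ≠ 0)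
    (hc : ∀ p ∈ V, α * p.1 + β * p.2 ≠ c) (w : ℕ)
    (hw : (V.filter (fun p => α * p.1 + β * p.2 < c)).card = w) :
    w * (V.card - w) ≤ K + (((V.offDiag.image (Function.uncurry Sym2.mk)) \ E).filter
      (fun e => ∃ u v, e = s(u, v) ∧ α * u.1 + β * u.2 < c ∧ c < α * v.1 + β * v.2)).card := by
  set L := V.filter (fun p => α * p.1 + β * p.2 < c) with hL
  set R := V.filter (fun p => ¬ (α * p.1 + β * p.2 < c)) with hR
  have hRc : R.card = V.card - w := by
    have := Finset.card_filter_add_card_filter_not (s := V) (fun p => α * p.1 + β * p.2 < c)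
    rw [← hL, ← hR] at this
    omega
  have hRlt : ∀ p ∈ R, c < α * p.1 + β * p.2 := by
    intro p hp
    rw [hR, Finset.mem_filter, not_lt] at hp
    exact lt_of_le_of_ne hp.2 (hc p hp.1).symm
  have hLlt : ∀ p ∈ L, α * p.1 + β * p.2 < c := fun p hp => (Finset.mem_filter.1 hp).2
  have hcard : ((L ×ˢ R).image (fun p : (ℝ × ℝ) × (ℝ × ℝ) => s(p.1, p.2))).card =
      w * (V.card - w) := by
    rw [Finset.card_image_of_injOn, Finset.card_product, hw, hRc]
    intro p hp p' hp' h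
    rw [Finset.mem_coe, Finset.mem_product] at hp hp'
    simp only at h
    rw [Sym2.eq_iff] at h
    rcases h with ⟨h1, h2⟩ | ⟨h1, h2⟩
    · exact Prod.ext h1 h2
    · exfalso
      have h3 := hLlt _ hp.1
      have h4 := hRlt _ hp'.2
      rw [h1] at h3
      linarith
  rw [← hcard]
  refine le_trans ?_ (Nat.add_le_add_right (hA α β c hαβ hc) _)
  refine le_trans ?_ (Finset.card_union_le _ _)
  apply Finset.card_le_card
  intro e he
  rw [Finset.mem_image] at he
  obtain ⟨p, hp, rfl⟩ := he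
  rw [Finset.mem_product] at hp
  have h1 := hLlt _ hp.1
  have h2 := hRlt _ hp.2
  rw [Finset.mem_union]
  by_cases hE : s(p.1, p.2) ∈ E
  · left
    rw [Finset.mem_filter]
    exact ⟨hE, p.1, p.2, rfl, h1, h2⟩
  · right
    rw [Finset.mem_filter, Finset.mem_sdiff, Finset.mem_image]
    refine ⟨⟨⟨(p.1, p.2), ?_, rfl⟩, hE⟩, p.1, p.2, rfl, h1, h2⟩
    rw [Finset.mem_offDiag]
    refine ⟨(Finset.mem_filter.1 hp.1).1, (Finset.mem_filter.1 hp.2).1, ?_⟩
    intro h
    simp only at h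
    rw [h] at h1
    linarith

theorem fP_sub (V : Finset (ℝ × ℝ)) (E : Finset (Sym2 (ℝ × ℝ)))
    (hEV : ∀ x ∈ E, ∀ p ∈ x, p ∈ V) (hE : ∀ x ∈ E, ¬ x.IsDiag) :
    E ⊆ V.offDiag.image (Function.uncurry Sym2.mk) := by
  intro e he
  induction e using Sym2.ind with
  | _ x y =>
    rw [Finset.mem_image]
    refine ⟨(x, y), ?_, rfl⟩
    rw [Finset.mem_offDiag]
    exact ⟨hEV _ he x (by simp), hEV _ he y (by simp), fun h => hE _ he (by simpa using h)⟩

/-- upper bound, `n = 2 q + 3` -/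
theorem fP_top (q r : ℕ) (hr : r ≤ 2 * q + 1) (V : Finset (ℝ × ℝ)) (E : Finset (Sym2 (ℝ × ℝ)))
    (hGP : GP V) (hEV : ∀ x ∈ E, ∀ p ∈ x, p ∈ V) (hE : ∀ x ∈ E, ¬ x.IsDiag)
    (hV : V.card = 2 * q + 3) (hcard : (2 * q + 3) * q + r + 1 ≤ E.card)
    (hA : AllLinesLe V E (q ^ 2 + q + r)) : False := by
  classical
  set P := V.offDiag.image (Function.uncurry Sym2.mk) with hP
  have hPc : P.card = (2 * q + 3) * (q + 1) := by
    rw [hP, Sym2.card_image_offDiag, hV, Nat.choose_two_right]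
    have : (2 * q + 3) * (2 * q + 3 - 1) = 2 * ((2 * q + 3) * (q + 1)) := by
      have : 2 * q + 3 - 1 = 2 * (q + 1) := by omega
      rw [this]; ring
    rw [this, Nat.mul_div_cancel_left _ (by norm_num)]
  have hNc : (P \ E).card + E.card = (2 * q + 3) * (q + 1) := by
    rw [← hPc]; exact Finset.card_sdiff_add_card_eq_card (fP_sub V E hEV hE)
  have hN1 : (P \ E).card + r ≤ 2 * q + 2 := by
    have : (2 * q + 3) * (q + 1) = (2 * q + 3) * q + (2 * q + 3) := by ring
    omega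
  -- every halving line meets all non-edges
  have key : ∀ α β c : ℝ, (α ≠ 0 ∨ β ≠ 0) → (∀ p ∈ V, α * p.1 + β * p.2 ≠ c) →
      ((V.filter (fun p => α * p.1 + β * p.2 < c)).card = q + 1 ∨
        (V.filter (fun p => α * p.1 + β * p.2 < c)).card = q + 2) →
      2 * q + 2 ≤ (P \ E).card + r ∧
      ∀ e ∈ P \ E, ∃ u v, e = s(u, v) ∧ α * u.1 + β * u.2 < c ∧ c < α * v.1 + β * v.2 := by
    intro α β c hαβ hc hw
    have h2 : (q + 1) * (q + 2) ≤ q ^ 2 + q + r + ((P \ E).filter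
      (fun e => ∃ u v, e = s(u, v) ∧ α * u.1 + β * u.2 < c ∧ c < α * v.1 + β * v.2)).card := by
      rcases hw with hw | hw
      · have h1 := fP_cross V E _ hA α β c hαβ hc _ hw
        rw [hV] at h1
        have : 2 * q + 3 - (q + 1) = q + 2 := by omega
        rw [this] at h1
        exact h1
      · have h1 := fP_cross V E _ hA α β c hαβ hc _ hw
        rw [hV] at h1
        have : 2 * q + 3 - (q + 2) = q + 1 := by omega
        rw [this, mul_comm] at h1
        exact h1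
    have h3 : (q + 1) * (q + 2) = q ^ 2 + q + (2 * q + 2) := by ring
    have h4 := Finset.card_filter_le (P \ E)
      (fun e => ∃ u v, e = s(u, v) ∧ α * u.1 + β * u.2 < c ∧ c < α * v.1 + β * v.2)
    refine ⟨by omega, ?_⟩
    have h5 : (P \ E).filter
      (fun e => ∃ u v, e = s(u, v) ∧ α * u.1 + β * u.2 < c ∧ c < α * v.1 + β * v.2) = P \ E :=
      Finset.eq_of_subset_of_card_le (Finset.filter_subset _ _) (by omega)
    intro e he
    rw [← h5, Finset.mem_filter] at he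
    exact he.2
  -- there is a non-edge
  obtain ⟨t, ht⟩ := exists_shear V
  obtain ⟨c0, hc01, hc02⟩ := exists_threshold (fun p : ℝ × ℝ => p.1 + t * p.2) V ht (q + 1)
    (by omega)
  have k0 := key 1 t c0 (Or.inl one_ne_zero) (by intro p hp; rw [one_mul]; exact hc01 p hp)
    (Or.inl (by simpa using hc02))
  have hne : (P \ E).Nonempty := by
    rw [← Finset.card_pos]; omega
  obtain ⟨e, he⟩ := hne
  have heP : e ∈ P := (Finset.mem_sdiff.1 he).1
  rw [hP, Finset.mem_image] at heP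
  obtain ⟨⟨a, b⟩, hab, rfl⟩ := heP
  rw [Finset.mem_offDiag] at hab
  obtain ⟨ha, hb, hab⟩ := hab
  simp only at ha hb hab
  obtain ⟨α, β, hinj, hadj⟩ := fO_dir V hGP a b ha hb hab
  have hαβ : α ≠ 0 ∨ β ≠ 0 := by
    by_contra h
    push Not at h
    apply hab
    apply hinj a ha b hb
    rw [h.1, h.2]; ring
  obtain ⟨c1, hc11, hc12⟩ := exists_threshold (fun p : ℝ × ℝ => α * p.1 + β * p.2) V hinj (q + 1)
    (by omega)
  obtain ⟨c2, hc21, hc22⟩ := exists_threshold (fun p : ℝ × ℝ => α * p.1 + β * p.2) V hinj (q + 2)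
    (by omega)
  obtain ⟨p, hp2, hp1⟩ : ∃ p ∈ V.filter (fun p : ℝ × ℝ => α * p.1 + β * p.2 < c2),
      p ∉ V.filter (fun p : ℝ × ℝ => α * p.1 + β * p.2 < c1) := by
    apply Finset.exists_mem_notMem_of_card_lt_card
    rw [hc12, hc22]; omega
  rw [Finset.mem_filter] at hp2
  have hp1' : c1 < α * p.1 + β * p.2 := by
    have h1 : ¬ (α * p.1 + β * p.2 < c1) := fun h => hp1 (Finset.mem_filter.2 ⟨hp2.1, h⟩)
    exact lt_of_le_of_ne (not_lt.1 h1) (hc11 p hp2.1).symm
  obtain ⟨u1, v1, he1, hu1, hv1⟩ := (key α β c1 hαβ hc11 (Or.inl hc12)).2 _ he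
  obtain ⟨u2, v2, he2, hu2, hv2⟩ := (key α β c2 hαβ hc21 (Or.inr hc22)).2 _ he
  have he1' := Sym2.eq_iff.1 he1
  have he2' := Sym2.eq_iff.1 he2
  have hp2' := hp2.2
  by_cases hpa : p = a
  · subst hpa
    rcases he1' with ⟨h1, h2⟩ | ⟨h1, h2⟩ <;> rcases he2' with ⟨h3, h4⟩ | ⟨h3, h4⟩ <;>
      simp only at h1 h2 h3 h4 <;> subst h1 <;> subst h2 <;> subst h3 <;> subst h4 <;> linarith
  by_cases hpb : p = b
  · subst hpb
    rcases he1' with ⟨h1, h2⟩ | ⟨h1, h2⟩ <;> rcases he2' with ⟨h3, h4⟩ | ⟨h3, h4⟩ <;>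
      simp only at h1 h2 h3 h4 <;> subst h1 <;> subst h2 <;> subst h3 <;> subst h4 <;> linarith
  have hpos := hadj p hp2.1 hpa hpb
  rcases he1' with ⟨h1, h2⟩ | ⟨h1, h2⟩ <;> rcases he2' with ⟨h3, h4⟩ | ⟨h3, h4⟩ <;>
    simp only at h1 h2 h3 h4 <;> subst h1 <;> subst h2 <;> subst h3 <;> subst h4 <;> nlinarith

/-- adding an edge -/
theorem fP_step (n k e : ℕ) (h : ∃ G : GeomGraph, G.pts.card = n ∧ G.edges.card = e ∧
    ∀ l, IsLine l → (∀ p ∈ G.pts, p ∉ l) → G.met l < k) (he : e < n.choose 2) :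
    e + 1 < fnk n (k + 1) := by
  classical
  obtain ⟨G, hG1, hG2, hG3⟩ := h
  have h1 : G.edges.card < (G.pts.offDiag.image (Function.uncurry Sym2.mk)).card := by
    rw [Sym2.card_image_offDiag, hG1, hG2]; exact he
  obtain ⟨x, hx, hxE⟩ := Finset.exists_mem_notMem_of_card_lt_card h1
  rw [Finset.mem_image] at hx
  obtain ⟨⟨a, b⟩, hab, rfl⟩ := hx
  rw [Finset.mem_offDiag] at hab
  obtain ⟨ha, hb, hab⟩ := hab
  simp only at ha hb hab
  apply fE_proof.2
  refine ⟨⟨G.pts, G.no_three_collinear, insert s(a, b) G.edges, ?_, ?_⟩, hG1, ?_, ?_⟩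
  · intro y hy p hp
    rw [Finset.mem_insert] at hy
    rcases hy with rfl | hy
    · rw [Sym2.mem_iff] at hp
      rcases hp with rfl | rfl
      · exact ha
      · exact hb
    · exact G.edge_mem y hy p hp
  · intro y hy
    rw [Finset.mem_insert] at hy
    rcases hy with rfl | hy
    · simpa using hab
    · exact G.edge_ne y hy
  · show e + 1 ≤ (insert s(a, b) G.edges).card
    rw [Finset.card_insert_of_notMem (show s(a, b) ∉ G.edges from hxE), hG2]
  · intro l hl hp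
    have h2 := hG3 l hl hp
    unfold GeomGraph.met at h2 ⊢
    simp only
    rw [Finset.filter_insert]
    split_ifs
    · exact lt_of_le_of_lt (Finset.card_insert_le _ _) (by omega)
    · omega

/-- lower bound for odd `r` -/
theorem fP_low (n q r : ℕ) (hr : r ≤ 2 * q + 1) (hodd : r % 2 = 1) (hn : 2 * q + 3 ≤ n) :
    n * q + n * (r / 2) / (q + 1) + 2 ≤ fnk n (q ^ 2 + q + r + 1) := by
  have hxn : n * (r / 2) / (q + 1) < n := by
    rw [Nat.div_lt_iff_lt_mul (by omega)]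
    exact Nat.mul_lt_mul_of_pos_left (by omega) (by omega)
  obtain ⟨X, hX1, hX2, hX3⟩ := fA_proof n (n * (r / 2) / (q + 1)) (by omega) hxn.le
  obtain ⟨G, hG1, hG2, hG3⟩ := fD_proof fB_proof fC_proof n q (n * (r / 2) / (q + 1)) (r / 2) X
    hX1 hX2 (Or.inl hn) (fun s => (hX3 s (q + 1) (by omega)).trans
      (fK_c n q r _ (by omega) rfl))
  have h := fP_step n (q ^ 2 + q + r) (n * q + n * (r / 2) / (q + 1))
    ⟨G, hG1, hG2, fun l hl hlp => ?_⟩ ?_
  · omega
  · have := hG3 l hl hlp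
    have e : q * (q + 1) = q ^ 2 + q := by ring
    omega
  · rw [Nat.choose_two_right]
    apply lt_of_lt_of_le (b := n * (q + 1))
    · rw [mul_add, mul_one]; omega
    · rw [Nat.le_div_iff_mul_le (by norm_num), mul_assoc]
      exact Nat.mul_le_mul_left _ (by omega)

/-- exact values, `n = 2 q + 3` -/
theorem fP_odd (q r : ℕ) (hr : r ≤ 2 * q + 1) :
    fnk (2 * q + 3) (q ^ 2 + q + r + 1) = (2 * q + 3) * q + r + 1 := by
  apply le_antisymm
  · apply fE_proof.1
    apply fF_proof _ _ _ (by omega)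
    intro V E h1 h2 h3 h4 h5 h6
    rw [Nat.add_sub_cancel] at h6
    exact fP_top q r hr V E h1 h2 h3 h4 h5 h6
  · have hdiv : (2 * q + 3) * (r / 2) / (q + 1) = 2 * (r / 2) := by
      have e : (2 * q + 3) * (r / 2) = r / 2 + (q + 1) * (2 * (r / 2)) := by ring
      rw [e, Nat.add_mul_div_left _ _ (by omega : 0 < q + 1), Nat.div_eq_of_lt (by omega)]
      omega
    rcases Nat.mod_two_eq_zero_or_one r with h | h
    · have := fL_low (2 * q + 3) q r (by omega) le_rfl
      rw [hdiv] at this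
      omega
    · have := fP_low (2 * q + 3) q r hr h le_rfl
      rw [hdiv] at this
      omega

/-- dense upper bound -/
theorem fP_dense (n q r : ℕ) (hn2 : 2 ≤ n) (hn : n ≤ 4 * q + 2) :
    fnk n (q ^ 2 + q + r + 1) ≤ n * q + n * (r / 2) / (q + 1) + 2 + 2 * (r % 2) := by
  have h1 : fnk n (q ^ 2 + q + r + 1) ≤ n * q + n * (2 * r + 1) / (4 * (q + 1)) + 1 := by
    apply fE_proof.1
    apply fF_proof n (q ^ 2 + q + r + 1) _ (by omega)
    intro V E h1 h2 h3 h4 h5 h6
    rw [Nat.add_sub_cancel] at h6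
    exact fG_proof n q r hn2 hn V E h1 h2 h3 h4 h5 h6
  have h2 : n * (2 * r + 1) / (4 * (q + 1)) ≤ n * (r / 2) / (q + 1) + 1 + 2 * (r % 2) := by
    have hb : 0 < 4 * (q + 1) := by omega
    rw [← Nat.lt_succ_iff, Nat.div_lt_iff_lt_mul hb]
    have h1 : n * (2 * r + 1) ≤ n * (4 * (r / 2)) + n + 2 * n * (r % 2) := by
      have : n * (2 * r + 1) = n * (4 * (r / 2) + 2 * (r % 2) + 1) := by
        congr 1; omega
      rw [this]; apply le_of_eq; ring
    have h2 : n * (r / 2) < (q + 1) * (n * (r / 2) / (q + 1) + 1) :=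
      Nat.lt_mul_div_succ _ (by omega)
    have h3 : n * (4 * (r / 2)) = 4 * (n * (r / 2)) := by ring
    have h4 : Nat.succ (n * (r / 2) / (q + 1) + 1 + 2 * (r % 2)) * (4 * (q + 1)) =
        4 * ((q + 1) * (n * (r / 2) / (q + 1) + 1)) + 4 * (q + 1) + 8 * (q + 1) * (r % 2) := by
      rw [Nat.succ_eq_add_one]; ring
    rw [h4]
    rcases Nat.mod_two_eq_zero_or_one r with h | h <;> rw [h] at h1 ⊢ <;> omega
  omega

end Pool.Agent.H994E
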