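import Mathlib
import Pool.Agent.H994E.Plane
import Pool.Agent.H994E.Arith9
import Pool.Agent.Helper976.ELSS.Bridge

/-!
# The bound for graphs drawn on points of the plane
-/

namespace Pool.Agent.H994E

open Finset Pool.Agent.LinesCross Pool.Agent.Helper976.ELSS

/-- the dense case for drawn graphs -/
theorem fin_dense (h8 : St_T8I) (h7 : St_T7F) {n : ℕ} (p : Fin n → EuclideanSpace ℝ (Fin 2))
    (G : SimpleGraph (Fin n)) (hp : Function.Injective p)
    (hgp : ∀ i j k : Fin n, i ≠ j → j ≠ k → i ≠ k →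
      ¬ Collinear ℝ ({p i, p j, p k} : Set (EuclideanSpace ℝ (Fin 2))))
    (K : ℕ) (hK : AllLinesLe (vs p) (es p G) K) (hd : n ^ 2 ≤ 4 * G.edgeSet.ncard) :
    ((G.edgeSet.ncard : ℝ) / n) ^ 2 ≤ K := by
  classical
  have hec := card_es p G hp
  have hvc := card_vs p hp
  have hKnn : (0:ℝ) ≤ K := Nat.cast_nonneg _
  rcases Nat.lt_or_ge n 2 with hn | hn
  · have h2e : 2 * G.edgeSet.ncard + n ≤ n * n := by
      obtain ⟨t, ht⟩ := exists_shear (vs p)
      have h1 := card_le_half (vs p) (es p G) (fun p => p.1 + t * p.2) ht (es_mem p G)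
        (es_ne p G hp)
      have h2 := W_self_le (Adj (es p G)) (Adj_self _ (es_ne p G hp)) (Adj_le _) (vs p)
      rw [hec] at h1
      rw [hvc] at h2
      omega
    have he0 : G.edgeSet.ncard = 0 := by
      have h5 : n * n ≤ 1 * n := Nat.mul_le_mul_right n (by omega)
      omega
    rw [he0]
    simp [hKnn]
  · have h1 := t9A_proof h8 h7 (vs p) (es p G) K (vs_GP p hgp) (es_mem p G) (es_ne p G hp) hK
      (by rw [hvc]; exact hn) (by rw [hvc, hec]; exact hd)
    rw [hvc, hec] at h1
    have hn0 : (0:ℝ) < n := by exact_mod_cast (by omega : 0 < n)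
    rw [div_pow, div_le_iff₀ (by positivity)]
    have h2 : ((G.edgeSet.ncard : ℝ)) ^ 2 ≤ (n : ℝ) ^ 2 * K := by exact_mod_cast h1
    linarith

theorem fin_main (h8 : St_T8I) (h7 : St_T7F) {n : ℕ} (p : Fin n → EuclideanSpace ℝ (Fin 2))
    (G : SimpleGraph (Fin n)) (hp : Function.Injective p)
    (hgp : ∀ i j k : Fin n, i ≠ j → j ≠ k → i ≠ k →
      ¬ Collinear ℝ ({p i, p j, p k} : Set (EuclideanSpace ℝ (Fin 2))))
    (K : ℕ) (hK : AllLinesLe (vs p) (es p G) K) :
    ((n ≤ 357 ∨ G.edgeSet.ncard ≤ 79 * n ∨ 10 * G.edgeSet.ncard ^ 3 ≤ 39 * n ^ 5 ∨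
      n ^ 2 ≤ 4 * G.edgeSet.ncard) → ((G.edgeSet.ncard : ℝ) / n) ^ 2 ≤ K) ∧
    (80 / 81 : ℝ) * ((G.edgeSet.ncard : ℝ) / n) ^ 2 ≤ K := by
  classical
  have hsq : (0:ℝ) ≤ ((G.edgeSet.ncard : ℝ) / n) ^ 2 := by positivity
  obtain ⟨hm1, _, hm3⟩ := main_aux p G hp hgp K hK
  rcases Nat.lt_or_ge (4 * G.edgeSet.ncard) (n ^ 2) with hd | hd
  · constructor
    · intro h
      rcases Nat.lt_or_ge G.edgeSet.ncard n with hlt | hge
      · exact hm1 (Or.inr (Or.inl (by omega)))
      · have hec := card_es p G hp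
        have hvc := card_vs p hp
        have h2e : 2 * G.edgeSet.ncard + n ≤ n * n := by
          obtain ⟨t, ht⟩ := exists_shear (vs p)
          have h1 := card_le_half (vs p) (es p G) (fun p => p.1 + t * p.2) ht (es_mem p G)
            (es_ne p G hp)
          have h2 := W_self_le (Adj (es p G)) (Adj_self _ (es_ne p G hp)) (Adj_le _) (vs p)
          rw [hec] at h1
          rw [hvc] at h2
          omega
        rcases Nat.lt_or_ge n 2 with hn | hn
        · have he0 : G.edgeSet.ncard = 0 := by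
            have h5 : n * n ≤ 1 * n := Nat.mul_le_mul_right n (by omega)
            omega
          exact hm1 (Or.inr (Or.inl (by omega)))
        · by_contra hcon
          push Not at hcon
          have hn0 : (0:ℝ) < n := by exact_mod_cast (by omega : 0 < n)
          have hK' : K * n ^ 2 < G.edgeSet.ncard ^ 2 := by
            rw [div_pow, lt_div_iff₀ (by positivity)] at hcon
            exact_mod_cast hcon
          refine ar_exact n G.edgeSet.ncard K hn hge hd (by rw [Nat.mul_sub, mul_one]; omega) ?_ hK' ?_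
          · intro m hm
            have := first (vs p) (es p G) (vs_GP p hgp) (es_mem p G) (es_ne p G hp) K hK
              (by rw [hvc]; exact hn) m hm
            rwa [hec, hvc] at this
          · rcases h with h | h | h | h
            · exact Or.inl h
            · exact Or.inr (Or.inl h)
            · exact Or.inr (Or.inr h)
            · omega
    · rcases Nat.eq_zero_or_pos G.edgeSet.ncard with h0 | h0
      · rw [h0]; simp
      · refine le_trans ?_ hm3
        apply mul_le_mul_of_nonneg_right _ hsq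
        have hq : 4 ≤ n ^ 2 / G.edgeSet.ncard := by
          rw [Nat.le_div_iff_mul_le h0]; exact hd.le
        have hq' : (4:ℝ) ≤ ((n ^ 2 / G.edgeSet.ncard : ℕ) : ℝ) := by exact_mod_cast hq
        have h1 : 1 / (2 * ((n ^ 2 / G.edgeSet.ncard : ℕ) : ℝ) + 1) ^ 2 ≤ 1 / 81 := by
          apply one_div_le_one_div_of_le (by norm_num)
          nlinarith
        linarith
  · have h1 := fin_dense h8 h7 p G hp hgp K hK hd
    exact ⟨fun _ => h1, by linarith⟩

end Pool.Agent.H994E
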