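import Mathlib
import Pool.Agent.H994E.Plane
import Pool.Agent.H994E.Arith9
import Pool.Agent.Results.MP_62448f_co.SharperCrossings

/-!
# The bound for geometric graphs
-/

namespace Pool.Agent.H994E

open Finset Pool.Agent.LinesCross Pool.Agent.Helper976.ELSS

/-- the exact ranges, combinatorial form: no line crosses `k²` edges -/
theorem fin_k (h8 : St_T8I) (h7 : St_T7F) (V : Finset (ℝ × ℝ)) (E : Finset (Sym2 (ℝ × ℝ)))
    (hGP : GP V) (hEV : ∀ e ∈ E, ∀ p ∈ e, p ∈ V) (hE : ∀ e ∈ E, ¬ e.IsDiag)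
    (k : ℕ) (hk : 1 ≤ k) (he : V.card * k < E.card) (hK : AllLinesLe V E (k ^ 2 - 1))
    (h : V.card ≤ 357 ∨ k ≤ 78 ∨ k ^ 3 ≤ 4 * V.card ^ 2 ∨ V.card ≤ 4 * k) : False := by
  classical
  have hk2 : 1 ≤ k ^ 2 := Nat.one_le_pow _ _ hk
  have h2e : 2 * E.card + V.card ≤ V.card * V.card := by
    obtain ⟨t, ht⟩ := exists_shear V
    have h1 := card_le_half V E (fun p => p.1 + t * p.2) ht hEV hE
    have h2 := W_self_le (Adj E) (Adj_self _ hE) (Adj_le _) V
    omega
  have hn : 2 * k + 2 ≤ V.card := by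
    by_contra hcon
    push Not at hcon
    have h3 : V.card * V.card ≤ V.card * (2 * k + 1) := Nat.mul_le_mul_left _ (by omega)
    have h4 : V.card * (2 * k + 1) = 2 * (V.card * k) + V.card := by ring
    omega
  by_cases hd : V.card ≤ 4 * k
  · have hd' : V.card ^ 2 ≤ 4 * E.card := by
      have h1 : V.card * V.card ≤ V.card * (4 * k) := Nat.mul_le_mul_left _ hd
      have h2 : V.card * (4 * k) = 4 * (V.card * k) := by ring
      rw [pow_two]; omega
    have h1 := t9A_proof h8 h7 V E (k ^ 2 - 1) hGP hEV hE hK (by omega) hd'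
    have h3 : (V.card * k) ^ 2 < E.card ^ 2 := Nat.pow_lt_pow_left he (by norm_num)
    have h4 : V.card ^ 2 * (k ^ 2 - 1) ≤ V.card ^ 2 * k ^ 2 :=
      Nat.mul_le_mul_left _ (Nat.sub_le _ _)
    have h5 : (V.card * k) ^ 2 = V.card ^ 2 * k ^ 2 := by ring
    omega
  · push Not at hd
    have hF := first V E hGP hEV hE (k ^ 2 - 1) hK (by omega)
    generalize V.card = n at *
    generalize E.card = e at *
    have hF' : ∀ m : ℕ, 1 ≤ m → 4 * m * (n * k + 1) + 2 * m * n ≤
        2 * m ^ 2 * (k ^ 2 - 1) + m * (m - 1) + 2 * n ^ 2 := fun m hm =>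
      le_trans (Nat.add_le_add_right (Nat.mul_le_mul_left _ he) _) (hF m hm)
    by_cases hc : k ^ 3 ≤ 4 * n ^ 2
    · obtain ⟨m, hm, hm2⟩ :=
        Pool.Agent.Results.MP_62448f_co.SharperCrossings.exists_m n k hk hc
      have h1 := hF' m hm
      zify [hk2, hm] at h1
      nlinarith
    · have h4e : 4 * (n * k + 1) < n ^ 2 := by
        have h1 : n * (4 * k + 1) ≤ n * n := Nat.mul_le_mul_left _ hd
        have h2 : n * (4 * k + 1) = 4 * (n * k) + n := by ring
        rw [pow_two]; omega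
      refine ar_exact n (n * k + 1) (k ^ 2 - 1) (by omega) ?_ h4e ?_ hF' ?_ ?_
      · have : n * 1 ≤ n * k := Nat.mul_le_mul_left _ hk
        omega
      · rw [Nat.mul_sub, mul_one]; omega
      · have h1 : (k ^ 2 - 1) * n ^ 2 ≤ k ^ 2 * n ^ 2 := Nat.mul_le_mul_right _ (Nat.sub_le _ _)
        have h2 : (n * k + 1) ^ 2 = k ^ 2 * n ^ 2 + 2 * (n * k) + 1 := by ring
        omega
      · rcases h with h | h | h | h
        · exact Or.inl h
        · refine Or.inr (Or.inl ?_)
          have : n * k ≤ n * 78 := Nat.mul_le_mul_left _ h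
          omega
        · exact absurd h hc
        · omega

end Pool.Agent.H994E
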