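import Mathlib
import Pool.Agent.H994E.Loop
import Pool.Agent.H994E.Final1

/-!
# The sharp bound for drawn graphs
-/

namespace Pool.Agent.H994E

open Finset Pool.Agent.LinesCross Pool.Agent.Helper976.ELSS

theorem fin_sharp {n : ℕ} (p : Fin n → EuclideanSpace ℝ (Fin 2))
    (G : SimpleGraph (Fin n)) (hp : Function.Injective p)
    (hgp : ∀ i j k : Fin n, i ≠ j → j ≠ k → i ≠ k →
      ¬ Collinear ℝ ({p i, p j, p k} : Set (EuclideanSpace ℝ (Fin 2))))
    (K : ℕ) (hK : AllLinesLe (vs p) (es p G) K) (hd : n ^ 2 ≤ 4 * G.edgeSet.ncard + 2 * n) :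
    ((G.edgeSet.ncard : ℝ) / n) ^ 2 + (G.edgeSet.ncard : ℝ) / n - 1 / 4 ≤ K := by
  classical
  have hec := card_es p G hp
  have hvc := card_vs p hp
  have hKnn : (0:ℝ) ≤ K := Nat.cast_nonneg _
  rcases Nat.lt_or_ge n 2 with hn | hn
  · have h2e : 2 * G.edgeSet.ncard + n ≤ n * n := by
      obtain ⟨t, ht⟩ := exists_shear (vs p)
      have h1 := card_le_half (vs p) (es p G) (fun p => p.1 + t * p.2) ht (es_mem p G)
        (es_ne p G hp)
      have h2 := W_self_le (Adj (es p G)) (Adj_self _ (es_ne p G hp)) (Adj_le _) (vs p)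
      rw [hec] at h1
      rw [hvc] at h2
      omega
    have he0 : G.edgeSet.ncard = 0 := by
      have h5 : n * n ≤ 1 * n := Nat.mul_le_mul_right n (by omega)
      omega
    rw [he0]
    simp
    linarith
  · have h1 := dense_sharp (vs p) (es p G) K (vs_GP p hgp) (es_mem p G) (es_ne p G hp) hK
      (by rw [hvc]; exact hn) (by rw [hvc, hec]; exact hd)
    rw [hvc, hec] at h1
    have hn0 : (0:ℝ) < n := by exact_mod_cast (by omega : 0 < n)
    have h2 : (2 * (G.edgeSet.ncard : ℝ) + n) ^ 2 ≤ 4 * (n : ℝ) ^ 2 * K + 2 * (n : ℝ) ^ 2 := by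
      exact_mod_cast h1
    set x : ℝ := (G.edgeSet.ncard : ℝ) / n with hx
    have hex : (G.edgeSet.ncard : ℝ) = n * x := by rw [hx]; field_simp
    rw [hex] at h2
    have h3 : (n:ℝ) ^ 2 * (2 * x + 1) ^ 2 ≤ n ^ 2 * (4 * K + 2) := by
      calc (n:ℝ) ^ 2 * (2 * x + 1) ^ 2 = (2 * (n * x) + n) ^ 2 := by ring
        _ ≤ _ := h2
        _ = _ := by ring
    have h4 := le_of_mul_le_mul_left h3 (by positivity)
    nlinarith

theorem fin_all {n : ℕ} (p : Fin n → EuclideanSpace ℝ (Fin 2))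
    (G : SimpleGraph (Fin n)) (hp : Function.Injective p)
    (hgp : ∀ i j k : Fin n, i ≠ j → j ≠ k → i ≠ k →
      ¬ Collinear ℝ ({p i, p j, p k} : Set (EuclideanSpace ℝ (Fin 2))))
    (K : ℕ) (hK : AllLinesLe (vs p) (es p G) K) :
    (n ^ 2 ≤ 4 * G.edgeSet.ncard + 2 * n →
      ((G.edgeSet.ncard : ℝ) / n) ^ 2 + (G.edgeSet.ncard : ℝ) / n - 1 / 4 ≤ K) ∧
    ((n ^ 2 ≤ 4 * G.edgeSet.ncard + 2 * n ∨ n ≤ 357 ∨ G.edgeSet.ncard ≤ 79 * n ∨
      10 * G.edgeSet.ncard ^ 3 ≤ 39 * n ^ 5) → ((G.edgeSet.ncard : ℝ) / n) ^ 2 ≤ K) ∧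
    (80 / 81 : ℝ) * ((G.edgeSet.ncard : ℝ) / n) ^ 2 ≤ K := by
  obtain ⟨h1, h2⟩ := fin_main all_T8I all_T7F p G hp hgp K hK
  refine ⟨fun hd => fin_sharp p G hp hgp K hK hd, fun h => ?_, h2⟩
  rcases Nat.lt_or_ge 357 n with hn | hn
  · rcases h with h | h | h | h
    · have h3 := fin_sharp p G hp hgp K hK h
      have hn0 : (0:ℝ) < n := by exact_mod_cast (by omega : 0 < n)
      have h4 : (1:ℝ) / 4 ≤ (G.edgeSet.ncard : ℝ) / n := by
        rw [le_div_iff₀ hn0]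
        have h5 : ((n:ℝ)) ^ 2 ≤ 4 * G.edgeSet.ncard + 2 * n := by exact_mod_cast h
        have h6 : (358:ℝ) ≤ n := by exact_mod_cast hn
        nlinarith
      linarith
    · omega
    · exact h1 (Or.inr (Or.inl h))
    · exact h1 (Or.inr (Or.inr (Or.inl h)))
  · exact h1 (Or.inl hn)

end Pool.Agent.H994E
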