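import Mathlib
import Pool.Agent.H994E.Stubs

/-!
# Task T6A: the bound for one blow-up
-/

namespace Pool.Agent.H994E

open Finset

theorem t6A_cut {I : Type} [Fintype I] (A : I → I → ℝ) (hA : ∀ p q, A p q = A q p)
    (f : I → Bool) : ∑ p, ∑ q, (if f p = f q then 0 else A p q) = 2 * cutB A f := by
  have h1 : ∀ p q, (if f p = f q then 0 else A p q) =
      (if f p = true ∧ f q = false then A p q else 0) +
        (if f q = true ∧ f p = false then A p q else 0) := by
    intro p q
    cases f p <;> cases f q <;> simp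
  have h2 : ∑ p, ∑ q, (if f q = true ∧ f p = false then A p q else 0) = cutB A f := by
    unfold cutB
    rw [Finset.sum_comm]
    refine sum_congr rfl fun q _ => sum_congr rfl fun p _ => ?_
    rw [hA p q]
  simp only [h1, sum_add_distrib]
  rw [h2]
  unfold cutB
  ring

theorem t6A_count {I : Type} [Fintype I] (f : I → Bool)
    (hf : 2 * (univ.filter (fun p => f p = true)).card = Fintype.card I) :
    ∑ p, ∑ q, (if f p = f q then (1 : ℝ) else 0) = (Fintype.card I : ℝ) ^ 2 / 2 := by
  have hT : ∑ q, (if f q = true then (1 : ℝ) else 0) = (Fintype.card I : ℝ) / 2 := by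
    rw [Finset.sum_boole]
    have h : (2 : ℝ) * ((univ.filter (fun p => f p = true)).card : ℝ) = (Fintype.card I : ℝ) := by
      exact_mod_cast hf
    linarith
  have hF : ∑ q, (if f q = false then (1 : ℝ) else 0) = (Fintype.card I : ℝ) / 2 := by
    have h : ∑ q, ((if f q = true then (1 : ℝ) else 0) + (if f q = false then (1 : ℝ) else 0)) =
        (Fintype.card I : ℝ) := by
      have h1 : ∀ q, (if f q = true then (1 : ℝ) else 0) + (if f q = false then (1 : ℝ) else 0) =
          1 := by
        intro q
        cases f q <;> simp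
      simp [h1]
    rw [sum_add_distrib, hT] at h
    linarith
  have hp : ∀ p, ∑ q, (if f p = f q then (1 : ℝ) else 0) = (Fintype.card I : ℝ) / 2 := by
    intro p
    cases hfp : f p with
    | true =>
      rw [← hT]
      refine sum_congr rfl fun q _ => ?_
      cases f q <;> simp
    | false =>
      rw [← hF]
      refine sum_congr rfl fun q _ => ?_
      cases f q <;> simp
  simp only [hp]
  rw [sum_const, card_univ, nsmul_eq_mul]
  ring

theorem t6A_proof (h : St_T5C) : St_T6A := by
  intro I _ _ M F b A K hC hb hAs hA0 hA1 hcut c hc hc1 ε hε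
  obtain ⟨lam, hW, hlam⟩ := h I M F b hC hb (1 - c) (by linarith) (by linarith) ε hε
  set N : ℝ := (Fintype.card I : ℝ) with hN
  obtain ⟨Ag, hAg⟩ : ∃ Ag : I → I → ℝ, ∀ p q, Ag p q =
      ∑ j ∈ range M, (if F j p = F j q then lam j else 0) := ⟨_, fun _ _ => rfl⟩
  obtain ⟨X, hX⟩ : ∃ X : I → I → ℝ, ∀ p q, X p q =
      ∑ j ∈ range M, (if F j p = F j q then 0 else lam j) := ⟨_, fun _ _ => rfl⟩
  have hXA : ∀ p q, X p q = 1 - Ag p q := by
    intro p q
    rw [hX, hAg, ← hW.sum, ← sum_sub_distrib]
    refine sum_congr rfl fun j _ => ?_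
    split_ifs <;> ring
  simp only [← hAg] at hlam
  -- the sum of `Ag`
  have hsAg : ∑ p, ∑ q, Ag p q = N ^ 2 / 2 := by
    have h1 : ∑ p, ∑ q, Ag p q = ∑ j ∈ range M, lam j *
        ∑ p, ∑ q, (if F j p = F j q then (1 : ℝ) else 0) := by
      simp only [hAg]
      have h2 : ∀ p, ∑ q, ∑ j ∈ range M, (if F j p = F j q then lam j else 0) =
          ∑ j ∈ range M, ∑ q, (if F j p = F j q then lam j else 0) := fun p => sum_comm
      simp only [h2]
      rw [sum_comm]
      refine sum_congr rfl fun j _ => ?_
      rw [mul_sum]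
      refine sum_congr rfl fun p _ => ?_
      rw [mul_sum]
      refine sum_congr rfl fun q _ => ?_
      split_ifs <;> ring
    rw [h1]
    have h3 : ∀ j ∈ range M, lam j * ∑ p, ∑ q, (if F j p = F j q then (1 : ℝ) else 0) =
        lam j * (N ^ 2 / 2) := by
      intro j _
      rw [t6A_count (F j) (hC.bal j)]
    rw [sum_congr rfl h3, ← sum_mul, hW.sum, one_mul]
  -- the sum of `A X`
  have hsAX : ∑ p, ∑ q, A p q * X p q ≤ 2 * K := by
    have h1 : ∑ p, ∑ q, A p q * X p q = ∑ j ∈ range M, lam j *
        ∑ p, ∑ q, (if F j p = F j q then 0 else A p q) := by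
      simp only [hX, mul_sum]
      have h2 : ∀ p, ∑ q, ∑ j ∈ range M, A p q * (if F j p = F j q then 0 else lam j) =
          ∑ j ∈ range M, ∑ q, A p q * (if F j p = F j q then 0 else lam j) := fun p => sum_comm
      simp only [h2]
      rw [sum_comm]
      refine sum_congr rfl fun j _ => ?_
      refine sum_congr rfl fun p _ => ?_
      refine sum_congr rfl fun q _ => ?_
      split_ifs <;> ring
    rw [h1]
    calc ∑ j ∈ range M, lam j * ∑ p, ∑ q, (if F j p = F j q then 0 else A p q)
        ≤ ∑ j ∈ range M, lam j * (2 * K) := by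
          refine sum_le_sum fun j hj => ?_
          rw [t6A_cut A hAs (F j)]
          have h3 := hcut j (mem_range.1 hj)
          exact mul_le_mul_of_nonneg_left (by linarith) (hW.nonneg j)
      _ = 2 * K := by rw [← sum_mul, hW.sum, one_mul]
  -- pointwise
  have hpt : ∀ p q, c * A p q - (Ag p q - (1 - c) + max 0 (1 - c - Ag p q)) ≤ A p q * X p q := by
    intro p q
    have h1 := hA0 p q
    have h2 := hA1 p q
    rw [hXA]
    have h3 : max 0 (Ag p q - (1 - c)) = Ag p q - (1 - c) + max 0 (1 - c - Ag p q) := by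
      rcases le_total 0 (Ag p q - (1 - c)) with h4 | h4
      · rw [max_eq_right h4, max_eq_left (by linarith)]
        ring
      · rw [max_eq_left h4, max_eq_right (by linarith)]
        ring
    rw [← h3]
    have h5 : A p q * (Ag p q - (1 - c)) ≤ max 0 (Ag p q - (1 - c)) := by
      rcases le_total 0 (Ag p q - (1 - c)) with h4 | h4
      · rw [max_eq_right h4]
        nlinarith
      · rw [max_eq_left h4]
        nlinarith
    nlinarith
  have hsum := sum_le_sum fun p (_ : p ∈ (univ : Finset I)) =>
    sum_le_sum fun q (_ : q ∈ (univ : Finset I)) => hpt p q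
  have hexp : ∑ p, ∑ q, (c * A p q - (Ag p q - (1 - c) + max 0 (1 - c - Ag p q))) =
      c * (∑ p, ∑ q, A p q) - (N ^ 2 / 2 - (1 - c) * N ^ 2 +
        ∑ p, ∑ q, max 0 (1 - c - Ag p q)) := by
    simp only [sum_sub_distrib, sum_add_distrib, ← mul_sum, hsAg, sum_const, card_univ,
      nsmul_eq_mul, ← hN]
    ring
  rw [hexp] at hsum
  nlinarith [hsum, hlam, hsAX]

end Pool.Agent.H994E
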